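import Mathlib

/-!
# Order lemma

Every `v` has two heads `hd v false`, `hd v true`, vertices (`Sum.inl`) or root tokens (`Sum.inr`).
If every nonempty `S` has two different heads outside `S`, there is a linear order such that every
`v` with two heads in `V` lies strictly between them.

PROOF.  Induction on `|R|`, `R` = vertices not yet placed, `T = V \\ R` = placed on top.
Invariant `C R`: for every nonempty `S` inside `R` the heads of `S` outside `S`, with all members of
`T` identified to one token TOP, are at least two tokens; i.e. there are `v, v'` in `S`, heads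
`x = hd v i`, `x' = hd v' i'` outside `S`, `x <> x'` and not both in `T`.
Statement proved by induction: if `C R` then there is `pos : V -> Nat`, injective on `R`, such that
every `v` in `R` with heads `inl a`, `inl b` satisfies: one of `a, b` is above (`in T`, or in `R` with
`pos v < pos`) and the other is in `R` with `pos < pos v`.
STEP.  (i) If no vertex of `R` has a head in `T`: `C R` for `S = R` gives `v` in `R` with a root head
(`inr`).  (ii) Otherwise choose `v` in `R` with a head in `T` such that no nonempty `S` inside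
`R \\ {v}` has all its outside heads in `T u {v}`: for `v` with a head in `T` let `M v` be the union
of all `S` inside `R \\ {v}` whose outside heads lie in `T u {v}` (this family is closed under
union); take `v` with `|M v|` minimal.  If `M v` is nonempty, `C R` gives `v'` in `M v` with a head in
`T`.  If `v` in `M v'` then `M v u M v'` has outside heads only in `T`, against `C R`.  If `v` not in
`M v'` then `M v' u M v` belongs to the family of `v`, so `M v'` inside `M v`, but `v'` not in `M v'`,
`v'` in `M v`: smaller, contradiction.  In both cases `C (R \\ {v})` holds.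
-/

set_option autoImplicit false

namespace Pool.Agent.TBS

open Finset

namespace Ord

variable {V β : Type} [DecidableEq V]

/-- The token of a head: the vertices outside `R` are identified. -/
def tok (R : Finset V) : V ⊕ β → Option (V ⊕ β)
  | Sum.inl a => if a ∈ R then some (Sum.inl a) else none
  | Sum.inr b => some (Sum.inr b)

theorem tok_some {R : Finset V} {x y : V ⊕ β} (h : tok R x = some y) : x = y := by
  rcases x with a | b
  · change (if a ∈ R then some (Sum.inl a) else none) = some y at h
    split_ifs at h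
    exact Option.some.inj h
  · exact Option.some.inj h

theorem tok_none {R : Finset V} {x : V ⊕ β} (h : tok R x = none) :
    ∃ t, t ∉ R ∧ x = Sum.inl t := by
  rcases x with a | b
  · change (if a ∈ R then some (Sum.inl a) else none) = (none : Option (V ⊕ β)) at h
    split_ifs at h with h1
    exact ⟨a, h1, rfl⟩
  · change (some (Sum.inr b) : Option (V ⊕ β)) = none at h
    exact absurd h (by simp)

theorem tok_notMem {R : Finset V} {t : V} (h : t ∉ R) :
    tok R (Sum.inl t : V ⊕ β) = none := by
  change (if t ∈ R then some (Sum.inl t) else none) = (none : Option (V ⊕ β))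
  rw [if_neg h]

/-- `x` is not a vertex of `S`. -/
def Out (S : Finset V) (x : V ⊕ β) : Prop := ∀ w ∈ S, x ≠ Sum.inl w

theorem Out.mono {S T : Finset V} {x : V ⊕ β} (h : Out T x) (hST : S ⊆ T) : Out S x :=
  fun w hw => h w (hST hw)

/-- The invariant. -/
def C (hd : V → Bool → V ⊕ β) (R : Finset V) : Prop :=
  ∀ S : Finset V, S ⊆ R → S.Nonempty → ∃ v ∈ S, ∃ i, ∃ v' ∈ S, ∃ i', Out S (hd v i) ∧
    Out S (hd v' i') ∧ tok R (hd v i) ≠ tok R (hd v' i')

/-- `S` lies in `R` without `v` and all its outside heads are `v` or outside `R`. -/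
def Fam (hd : V → Bool → V ⊕ β) (R : Finset V) (v : V) (S : Finset V) : Prop :=
  S ⊆ R.erase v ∧ ∀ u ∈ S, ∀ j, Out S (hd u j) → ∃ t, t ∉ R.erase v ∧ hd u j = Sum.inl t

theorem exists_max (hd : V → Bool → V ⊕ β) (R : Finset V) (v : V) :
    ∃ M : Finset V, Fam hd R v M ∧ ∀ S, Fam hd R v S → S ⊆ M := by
  classical
  let F : Finset (Finset V) := (R.erase v).powerset.filter fun S => Fam hd R v S
  refine ⟨F.sup id, ⟨?_, ?_⟩, fun S hS => ?_⟩
  · refine Finset.sup_le fun S hS => ?_
    exact (Finset.mem_powerset.1 (Finset.mem_filter.1 hS).1)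
  · intro u hu j hj
    rw [Finset.mem_sup] at hu
    obtain ⟨S, hS, huS⟩ := hu
    have h1 : S ⊆ F.sup id := Finset.le_sup (f := id) hS
    exact (Finset.mem_filter.1 hS).2.2 u huS j (hj.mono h1)
  · have h1 : S ∈ F := Finset.mem_filter.2 ⟨Finset.mem_powerset.2 hS.1, hS⟩
    exact Finset.le_sup (f := id) h1

/-- The choice of the next vertex in the second case. -/
theorem exists_choice (hd : V → Bool → V ⊕ β) (R : Finset V) (hC : C hd R)
    (hT : ∃ v ∈ R, ∃ i, ∃ t, t ∉ R ∧ hd v i = Sum.inl t) :
    ∃ v ∈ R, (∃ i, ∃ t, t ∉ R ∧ hd v i = Sum.inl t) ∧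
      ∀ S : Finset V, Fam hd R v S → S = ∅ := by
  classical
  choose M hM hMmax using fun v => exists_max hd R v
  let W : Finset V := R.filter fun v => ∃ i, ∃ t, t ∉ R ∧ hd v i = Sum.inl t
  have hW : W.Nonempty := by
    obtain ⟨v, hv, h⟩ := hT
    exact ⟨v, Finset.mem_filter.2 ⟨hv, h⟩⟩
  obtain ⟨v, hvW, hmin⟩ := Finset.exists_min_image W (fun v => (M v).card) hW
  obtain ⟨hvR, hvT⟩ := Finset.mem_filter.1 hvW
  refine ⟨v, hvR, hvT, ?_⟩
  have hMe : M v = ∅ := by
    by_contra hne
    have hne' : (M v).Nonempty := Finset.nonempty_iff_ne_empty.2 hne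
    have hMR : ∀ w, M w ⊆ R := fun w => (hM w).1.trans (Finset.erase_subset _ _)
    obtain ⟨u, hu, j, u', hu', j', hO, hO', htok⟩ := hC (M v) (hMR v) hne'
    -- a vertex of `M v` with a head in `T`
    obtain ⟨v', hv'M, hv'T⟩ : ∃ v' ∈ M v, ∃ i, ∃ t, t ∉ R ∧ hd v' i = Sum.inl t := by
      obtain ⟨t, ht, he⟩ := (hM v).2 u hu j hO
      obtain ⟨t', ht', he'⟩ := (hM v).2 u' hu' j' hO'
      by_cases h1 : t ∈ R
      · by_cases h2 : t' ∈ R
        · have e1 : t = v := by
            by_contra h
            exact ht (Finset.mem_erase.2 ⟨h, h1⟩)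
          have e2 : t' = v := by
            by_contra h
            exact ht' (Finset.mem_erase.2 ⟨h, h2⟩)
          rw [he, he', e1, e2] at htok
          exact absurd rfl htok
        · exact ⟨u', hu', j', t', h2, he'⟩
      · exact ⟨u, hu, j, t, h1, he⟩
    have hv'R : v' ∈ R := hMR v hv'M
    have hv'W : v' ∈ W := Finset.mem_filter.2 ⟨hv'R, hv'T⟩
    have hv'not : v' ∉ M v' := fun h => (Finset.mem_erase.1 ((hM v').1 h)).1 rfl
    by_cases hvM : v ∈ M v'
    · -- all outside heads of the union lie in `T`
      have hall : ∀ w ∈ M v ∪ M v', ∀ k, Out (M v ∪ M v') (hd w k) →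
          tok R (hd w k) = none := by
        intro w hw k hk
        rcases Finset.mem_union.1 hw with hw | hw
        · obtain ⟨t, ht, he⟩ := (hM v).2 w hw k (hk.mono Finset.subset_union_left)
          have : t ≠ v := by
            rintro rfl
            exact hk t (Finset.mem_union_right _ hvM) he
          rw [he]
          exact tok_notMem fun h => ht (Finset.mem_erase.2 ⟨this, h⟩)
        · obtain ⟨t, ht, he⟩ := (hM v').2 w hw k (hk.mono Finset.subset_union_right)
          have : t ≠ v' := by
            rintro rfl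
            exact hk t (Finset.mem_union_left _ hv'M) he
          rw [he]
          exact tok_notMem fun h => ht (Finset.mem_erase.2 ⟨this, h⟩)
      obtain ⟨w, hw, k, w', hw', k', h1, h2, h3⟩ := hC (M v ∪ M v')
        (Finset.union_subset (hMR v) (hMR v')) (hne'.mono Finset.subset_union_left)
      rw [hall w hw k h1, hall w' hw' k' h2] at h3
      exact h3 rfl
    · have hfam : Fam hd R v (M v' ∪ M v) := by
        refine ⟨Finset.union_subset ?_ (hM v).1, ?_⟩
        · intro w hw
          refine Finset.mem_erase.2 ⟨?_, hMR v' hw⟩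
          rintro rfl
          exact hvM hw
        · intro w hw k hk
          rcases Finset.mem_union.1 hw with hw | hw
          · obtain ⟨t, ht, he⟩ := (hM v').2 w hw k (hk.mono Finset.subset_union_left)
            have : t ≠ v' := by
              rintro rfl
              exact hk t (Finset.mem_union_right _ hv'M) he
            refine ⟨t, fun h => ht (Finset.mem_erase.2 ⟨this, Finset.mem_of_mem_erase h⟩), he⟩
          · exact (hM v).2 w hw k (hk.mono Finset.subset_union_right)
      have h1 := hMmax v _ hfam
      have h2 : M v' ⊂ M v := by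
        refine Finset.ssubset_iff_subset_ne.2 ⟨Finset.subset_union_left.trans h1, ?_⟩
        intro h
        rw [h] at hv'not
        exact hv'not hv'M
      exact absurd (hmin v' hv'W) (not_le.2 (Finset.card_lt_card h2))
  intro S hS
  have := hMmax v S hS
  rw [hMe] at this
  exact Finset.subset_empty.1 this

/-- The next vertex. -/
theorem exists_next (hd : V → Bool → V ⊕ β) (R : Finset V) (hR : R.Nonempty) (hC : C hd R) :
    ∃ v ∈ R, C hd (R.erase v) ∧ ∀ a b, hd v false = Sum.inl a → hd v true = Sum.inl b →
      (a ∉ R ∧ b ∈ R.erase v) ∨ (b ∉ R ∧ a ∈ R.erase v) := by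
  classical
  by_cases hT : ∃ v ∈ R, ∃ i, ∃ t, t ∉ R ∧ hd v i = Sum.inl t
  · obtain ⟨v, hvR, ⟨i, t, ht, he⟩, hS⟩ := exists_choice hd R hC hT
    refine ⟨v, hvR, ?_, ?_⟩
    · intro S hSR hSne
      obtain ⟨u, hu, j, u', hu', j', hO, hO', htok⟩ :=
        hC S (hSR.trans (Finset.erase_subset _ _)) hSne
      by_cases h1 : tok (R.erase v) (hd u j) = tok (R.erase v) (hd u' j')
      · have hn : tok (R.erase v) (hd u j) = none := by
          rcases h2 : tok (R.erase v) (hd u j) with _ | y
          · rfl
          · rw [h2] at h1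
            have e1 := tok_some h2
            have e2 := tok_some h1.symm
            rw [e1, e2] at htok
            exact absurd rfl htok
        have hnf : ¬ Fam hd R v S := fun h => hSne.ne_empty (hS S h)
        have : ∃ w ∈ S, ∃ k, Out S (hd w k) ∧ tok (R.erase v) (hd w k) ≠ none := by
          by_contra hcon
          push Not at hcon
          refine hnf ⟨hSR, fun w hw k hk => ?_⟩
          exact tok_none (hcon w hw k hk)
        obtain ⟨w, hw, k, hk, hk'⟩ := this
        exact ⟨w, hw, k, u, hu, j, hk, hO, by rw [hn]; exact hk'⟩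
      · exact ⟨u, hu, j, u', hu', j', hO, hO', h1⟩
    · intro a b ha hb
      obtain ⟨u, hu, j, u', hu', j', hO, hO', htok⟩ := hC {v} (by simpa using hvR) ⟨v, by simp⟩
      rw [Finset.mem_singleton] at hu hu'
      rw [hu] at hO htok
      rw [hu'] at hO' htok
      clear hu hu'
      have key : a ≠ v ∧ b ≠ v ∧
          tok R (Sum.inl a : V ⊕ β) ≠ tok R (Sum.inl b) := by
        have hO1 : hd v j ≠ Sum.inl v := hO v (by simp)
        have hO2 : hd v j' ≠ Sum.inl v := hO' v (by simp)
        rcases j with _ | _ <;> rcases j' with _ | _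
        · exact absurd rfl htok
        · rw [ha] at hO1
          rw [hb] at hO2
          rw [ha, hb] at htok
          exact ⟨fun h => hO1 (by rw [h]), fun h => hO2 (by rw [h]), htok⟩
        · rw [hb] at hO1
          rw [ha] at hO2
          rw [ha, hb] at htok
          exact ⟨fun h => hO2 (by rw [h]), fun h => hO1 (by rw [h]), htok.symm⟩
        · exact absurd rfl htok
      obtain ⟨k1, k2, k3⟩ := key
      rcases i with _ | _
      · rw [ha] at he
        have e := Sum.inl.inj he
        subst e
        left
        refine ⟨ht, ?_⟩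
        refine Finset.mem_erase.2 ⟨k2, ?_⟩
        by_contra h
        rw [tok_notMem ht, tok_notMem h] at k3
        exact k3 rfl
      · rw [hb] at he
        have e := Sum.inl.inj he
        subst e
        right
        refine ⟨ht, ?_⟩
        refine Finset.mem_erase.2 ⟨k1, ?_⟩
        by_contra h
        rw [tok_notMem ht, tok_notMem h] at k3
        exact k3 rfl
  · push Not at hT
    obtain ⟨v, hvR, i, -, -, -, hO, -, -⟩ := hC R (Finset.Subset.refl _) hR
    have hroot : ∃ b, hd v i = Sum.inr b := by
      rcases h : hd v i with a | b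
      · exfalso
        by_cases ha : a ∈ R
        · exact hO a ha h
        · exact hT v hvR i a ha h
      · exact ⟨b, rfl⟩
    obtain ⟨b0, hb0⟩ := hroot
    refine ⟨v, hvR, ?_, ?_⟩
    · intro S hSR hSne
      have hSR' : S ⊆ R := hSR.trans (Finset.erase_subset _ _)
      obtain ⟨u, hu, j, u', hu', j', hO, hO', htok⟩ := hC S hSR' hSne
      refine ⟨u, hu, j, u', hu', j', hO, hO', ?_⟩
      intro h1
      rcases h2 : tok (R.erase v) (hd u j) with _ | y
      · rw [h2] at h1
        obtain ⟨t, ht, he⟩ := tok_none h2
        obtain ⟨t', ht', he'⟩ := tok_none h1.symm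
        have e1 : t = v := by
          by_contra h
          exact hT u (hSR' hu) j t (fun h3 => ht (Finset.mem_erase.2 ⟨h, h3⟩)) he
        have e2 : t' = v := by
          by_contra h
          exact hT u' (hSR' hu') j' t' (fun h3 => ht' (Finset.mem_erase.2 ⟨h, h3⟩)) he'
        rw [he, he', e1, e2] at htok
        exact htok rfl
      · rw [h2] at h1
        have e1 := tok_some h2
        have e2 := tok_some h1.symm
        rw [e1, e2] at htok
        exact htok rfl
    · intro a b ha hb
      exfalso
      rcases i with _ | _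
      · rw [ha] at hb0
        exact absurd hb0 (by simp)
      · rw [hb] at hb0
        exact absurd hb0 (by simp)

theorem exists_pos (hd : V → Bool → V ⊕ β) : ∀ (n : ℕ) (R : Finset V), R.card = n → C hd R →
    ∃ pos : V → ℕ, Set.InjOn pos R ∧ ∀ v ∈ R, ∀ a b, hd v false = Sum.inl a →
      hd v true = Sum.inl b →
      ((a ∉ R ∨ pos v < pos a) ∧ (b ∈ R ∧ pos b < pos v)) ∨
      ((b ∉ R ∨ pos v < pos b) ∧ (a ∈ R ∧ pos a < pos v)) := by
  intro n
  induction n with
  | zero =>
    intro R hR _
    rw [Finset.card_eq_zero] at hR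
    subst hR
    exact ⟨fun _ => 0, by simp, by simp⟩
  | succ n ih =>
    intro R hR hC
    have hne : R.Nonempty := Finset.card_pos.1 (by omega)
    obtain ⟨v, hvR, hC', hv⟩ := exists_next hd R hne hC
    obtain ⟨pos', hinj, hpos⟩ := ih (R.erase v)
      (by rw [Finset.card_erase_of_mem hvR, hR]; rfl) hC'
    let m : ℕ := R.sup pos' + 1
    let pos : V → ℕ := fun x => if x = v then m else pos' x
    have hpv : pos v = m := if_pos rfl
    have hpo : ∀ x, x ≠ v → pos x = pos' x := fun x hx => if_neg hx
    have hlt : ∀ x ∈ R, x ≠ v → pos x < pos v := by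
      intro x hx hxv
      rw [hpv, hpo x hxv]
      exact Nat.lt_succ_of_le (Finset.le_sup (f := pos') hx)
    refine ⟨pos, ?_, ?_⟩
    · intro x hx y hy hxy
      have hx' : x ∈ R := hx
      have hy' : y ∈ R := hy
      by_cases h1 : x = v
      · by_cases h2 : y = v
        · rw [h1, h2]
        · have := hlt y hy' h2
          rw [← hxy, h1] at this
          exact absurd this (lt_irrefl _)
      · by_cases h2 : y = v
        · have := hlt x hx' h1
          rw [hxy, h2] at this
          exact absurd this (lt_irrefl _)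
        · rw [hpo x h1, hpo y h2] at hxy
          exact hinj (Finset.mem_coe.2 (Finset.mem_erase.2 ⟨h1, hx'⟩))
            (Finset.mem_coe.2 (Finset.mem_erase.2 ⟨h2, hy'⟩)) hxy
    · intro u hu a b ha hb
      by_cases huv : u = v
      · subst huv
        rcases hv a b ha hb with ⟨h1, h2⟩ | ⟨h1, h2⟩
        · exact Or.inl ⟨Or.inl h1, Finset.mem_of_mem_erase h2,
            hlt b (Finset.mem_of_mem_erase h2) (Finset.ne_of_mem_erase h2)⟩
        · exact Or.inr ⟨Or.inl h1, Finset.mem_of_mem_erase h2,
            hlt a (Finset.mem_of_mem_erase h2) (Finset.ne_of_mem_erase h2)⟩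
      · have hu' : u ∈ R.erase v := Finset.mem_erase.2 ⟨huv, hu⟩
        have up : ∀ c, (c ∉ R.erase v ∨ pos' u < pos' c) → (c ∉ R ∨ pos u < pos c) := by
          intro c hc
          by_cases hcR : c ∈ R
          · right
            by_cases hcv : c = v
            · rw [hcv]
              exact hlt u hu huv
            · rcases hc with hc | hc
              · exact absurd (Finset.mem_erase.2 ⟨hcv, hcR⟩) hc
              · rw [hpo u huv, hpo c hcv]
                exact hc
          · exact Or.inl hcR
        have dn : ∀ c, (c ∈ R.erase v ∧ pos' c < pos' u) → (c ∈ R ∧ pos c < pos u) := by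
          rintro c ⟨hc1, hc2⟩
          refine ⟨Finset.mem_of_mem_erase hc1, ?_⟩
          rw [hpo u huv, hpo c (Finset.ne_of_mem_erase hc1)]
          exact hc2
        rcases hpos u hu' a b ha hb with ⟨h1, h2⟩ | ⟨h1, h2⟩
        · exact Or.inl ⟨up a h1, dn b h2⟩
        · exact Or.inr ⟨up b h1, dn a h2⟩

end Ord

theorem exists_order {V β : Type} [Fintype V] [DecidableEq V] (hd : V → Bool → V ⊕ β)
    (H : ∀ S : Finset V, S.Nonempty → ∃ v ∈ S, ∃ i, ∃ v' ∈ S, ∃ i', hd v i ≠ hd v' i' ∧
      (∀ w ∈ S, hd v i ≠ Sum.inl w) ∧ (∀ w ∈ S, hd v' i' ≠ Sum.inl w)) :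
    ∃ pos : V → ℕ, Function.Injective pos ∧
      ∀ v a b, hd v false = Sum.inl a → hd v true = Sum.inl b →
        (pos a < pos v ∧ pos v < pos b) ∨ (pos b < pos v ∧ pos v < pos a) := by
  classical
  have htu : ∀ x : V ⊕ β, Ord.tok Finset.univ x = some x := by
    rintro (a | b)
    · change (if a ∈ Finset.univ then some (Sum.inl a) else none) =
        (some (Sum.inl a) : Option (V ⊕ β))
      rw [if_pos (Finset.mem_univ a)]
    · rfl
  have hC : Ord.C hd Finset.univ := by
    intro S _ hS
    obtain ⟨v, hv, i, v', hv', i', h1, h2, h3⟩ := H S hS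
    refine ⟨v, hv, i, v', hv', i', h2, h3, ?_⟩
    rw [htu, htu]
    exact fun h => h1 (Option.some.inj h)
  obtain ⟨pos, hinj, hpos⟩ := Ord.exists_pos hd _ Finset.univ rfl hC
  refine ⟨pos, ?_, ?_⟩
  · intro x y hxy
    exact hinj (by simp) (by simp) hxy
  · intro v a b ha hb
    rcases hpos v (Finset.mem_univ v) a b ha hb with ⟨h1, -, h2⟩ | ⟨h1, -, h2⟩
    · right
      refine ⟨h2, ?_⟩
      rcases h1 with h1 | h1
      · exact absurd (Finset.mem_univ a) h1
      · exact h1
    · left
      refine ⟨h2, ?_⟩
      rcases h1 with h1 | h1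
      · exact absurd (Finset.mem_univ b) h1
      · exact h1

end Pool.Agent.TBS
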