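import Pool.Agent.TB.Geo
import Pool.Agent.TBS.Order

/-!
# Positions from labels of the half-edges

Fix a label `a`.  The neighbours `v` of `u` with `α u v = a` are at most two (`h2`); let
`hd u false`, `hd u true : V ⊕ (V × Bool)` be these neighbours (`Sum.inl`), filled up with the tokens
`Sum.inr (u, false)`, `Sum.inr (u, true)`.  Apply `Pool.Agent.TBS.exists_order`.  `H`: let `S` be
nonempty and suppose that there are no two different heads outside `S`.
* If no head is outside `S`, all members of `S` have two labelled neighbours in `S` (so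
  `|S| >= 2`): contradiction with `hK a S w` for any `w` in `S`.
* If all outside heads are equal to `inl w`, `w` not in `S`: contradiction with
  `hK a (insert w S) w`: all `v` in `S` have two labelled neighbours in `insert w S`.
* If all outside heads are equal to the token `inr (u, b)`: `u` in `S` has exactly one token (its
  two tokens are different), its other head is a neighbour in `S` (so `|S| >= 2`), and all other
  members of `S` have two labelled neighbours in `S`: contradiction with `hK a S u`.
The positions for the three labels give `P v a = (pos_a v : ℤ)`.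
-/

set_option autoImplicit false

namespace Pool.Agent.TBS

open Finset

/-- the heads of a vertex with at most two labelled neighbours -/
private lemma exists_heads {V : Type} [DecidableEq V] (u : V) (N : Finset V) (hN : N.card ≤ 2) :
    ∃ hd : Bool → V ⊕ (V × Bool), hd false ≠ hd true ∧ (∀ b v, hd b = Sum.inl v → v ∈ N) ∧
      (∀ b t, hd b = Sum.inr t → t = (u, b)) ∧
      ∀ v ∈ N, ∀ v' ∈ N, v ≠ v' → (hd false = Sum.inl v ∧ hd true = Sum.inl v') ∨
        (hd false = Sum.inl v' ∧ hd true = Sum.inl v) := by
  have h3 : N.card = 0 ∨ N.card = 1 ∨ N.card = 2 := by omega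
  rcases h3 with h | h | h
  · rw [card_eq_zero] at h
    subst h
    refine ⟨fun b => Sum.inr (u, b), ?_, ?_, ?_, ?_⟩
    · intro h
      simp at h
    · intro b v h
      cases h
    · intro b t h
      exact (Sum.inr.inj h).symm
    · intro v hv
      simp at hv
  · obtain ⟨x, rfl⟩ := card_eq_one.1 h
    refine ⟨fun b => if b then Sum.inr (u, true) else Sum.inl x, ?_, ?_, ?_, ?_⟩
    · simp
    · intro b v hb
      cases b
      · simp only [Bool.false_eq_true, if_false] at hb
        rw [mem_singleton]
        exact (Sum.inl.inj hb).symm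
      · simp at hb
    · intro b t hb
      cases b
      · simp at hb
      · simp only [if_true] at hb
        exact (Sum.inr.inj hb).symm
    · intro v hv v' hv' hne
      rw [mem_singleton] at hv hv'
      exact absurd (hv.trans hv'.symm) hne
  · obtain ⟨x, y, hxy, rfl⟩ := card_eq_two.1 h
    refine ⟨fun b => if b then Sum.inl y else Sum.inl x, ?_, ?_, ?_, ?_⟩
    · simpa using hxy
    · intro b v hb
      cases b
      · simp only [Bool.false_eq_true, if_false] at hb
        rw [← Sum.inl.inj hb]
        exact mem_insert_self _ _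
      · simp only [if_true] at hb
        rw [← Sum.inl.inj hb]
        exact mem_insert_of_mem (mem_singleton_self _)
    · intro b t hb
      cases b <;> simp at hb
    · intro v hv v' hv' hne
      rw [mem_insert, mem_singleton] at hv hv'
      rcases hv with rfl | rfl <;> rcases hv' with rfl | rfl
      · exact absurd rfl hne
      · left
        simp
      · right
        simp
      · exact absurd rfl hne

theorem valid_of_K {V : Type} [Fintype V] [DecidableEq V] (G : SimpleGraph V) [DecidableRel G.Adj]
    (α : V → V → Fin 3) (h1 : ∀ u v, G.Adj u v → α u v ≠ α v u)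
    (h2 : ∀ u a, (univ.filter fun v => G.Adj u v ∧ α u v = a).card ≤ 2)
    (hK : ∀ (a : Fin 3) (W : Finset V) (w : V), w ∈ W → 2 ≤ W.card →
      ∃ v ∈ W, v ≠ w ∧ (W.filter fun v' => G.Adj v v' ∧ α v v' = a).card ≤ 1) :
    ∃ P : V → Fin 3 → ℤ, (∀ a u v, P u a = P v a → u = v) ∧ TB.Valid G P α := by
  classical
  have key : ∀ a : Fin 3, ∃ pos : V → ℕ, Function.Injective pos ∧
      ∀ u v v', G.Adj u v → G.Adj u v' → v ≠ v' → α u v = a → α u v' = a →
        (pos v < pos u ∧ pos u < pos v') ∨ (pos v' < pos u ∧ pos u < pos v) := by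
    intro a
    choose hd hne hinl hinr hpair using fun u => exists_heads u _ (h2 u a)
    have hcnt : ∀ (W : Finset V) (v : V), (∀ b, ∃ x ∈ W, hd v b = Sum.inl x) →
        ¬ (W.filter fun v' => G.Adj v v' ∧ α v v' = a).card ≤ 1 := by
      intro W v h hc
      obtain ⟨x, hx, hx'⟩ := h false
      obtain ⟨y, hy, hy'⟩ := h true
      have hxy : x ≠ y := by
        rintro rfl
        exact hne v (hx'.trans hy'.symm)
      have h3 := (mem_filter.1 (hinl v false x hx')).2
      have h4 := (mem_filter.1 (hinl v true y hy')).2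
      exact hxy (card_le_one.1 hc x (mem_filter.2 ⟨hx, h3⟩) y (mem_filter.2 ⟨hy, h4⟩))
    have hadj : ∀ v b x, hd v b = Sum.inl x → x ≠ v := by
      rintro v b x hb rfl
      exact G.loopless.irrefl x (mem_filter.1 (hinl x b x hb)).2.1
    obtain ⟨pos, hpos, hord⟩ := exists_order hd (by
      intro S hS
      by_contra hcon
      push Not at hcon
      -- all outside heads are equal
      have hall : ∀ v ∈ S, ∀ i, (∀ w ∈ S, hd v i ≠ Sum.inl w) → ∀ v' ∈ S, ∀ i',
          (∀ w ∈ S, hd v' i' ≠ Sum.inl w) → hd v i = hd v' i' := by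
        intro v hv i hi v' hv' i' hi'
        by_contra hc
        obtain ⟨w, hw, h3⟩ := hcon v hv i v' hv' i' hc hi
        exact hi' w hw h3
      by_cases hout : ∃ v ∈ S, ∃ i, ∀ w ∈ S, hd v i ≠ Sum.inl w
      · obtain ⟨v₀, hv₀, b₀, h0⟩ := hout
        rcases hh : hd v₀ b₀ with w | t
        · have hwS : w ∉ S := fun hc => h0 w hc hh
          have hcard : 2 ≤ (insert w S).card := by
            rw [card_insert_of_notMem hwS]
            have := hS.card_pos
            omega
          obtain ⟨v, hv, hvw, hc⟩ := hK a (insert w S) w (mem_insert_self _ _) hcard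
          have hvS : v ∈ S := (mem_insert.1 hv).resolve_left hvw
          refine hcnt _ v (fun b => ?_) hc
          by_cases ho : ∀ w' ∈ S, hd v b ≠ Sum.inl w'
          · exact ⟨w, mem_insert_self _ _, by rw [hall v hvS b ho v₀ hv₀ b₀ h0, hh]⟩
          · push Not at ho
            obtain ⟨x, hx, hx'⟩ := ho
            exact ⟨x, mem_insert_of_mem hx, hx'⟩
        · have ht := hinr v₀ b₀ t hh
          have hin : ∀ v ∈ S, ∀ b, (v, b) ≠ (v₀, b₀) → ∃ x ∈ S, hd v b = Sum.inl x := by
            intro v hv b hvb
            by_contra hc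
            push Not at hc
            have h3 := hall v hv b hc v₀ hv₀ b₀ h0
            rw [hh] at h3
            have h4 := hinr v b t h3
            exact hvb (h4.symm.trans ht)
          have hb : (v₀, !b₀) ≠ (v₀, b₀) := by
            cases b₀ <;> simp
          obtain ⟨x, hx, hx'⟩ := hin v₀ hv₀ (!b₀) hb
          have hcard : 2 ≤ S.card := by
            have h3 : 1 < S.card := one_lt_card.2 ⟨x, hx, v₀, hv₀, hadj _ _ _ hx'⟩
            omega
          obtain ⟨v, hv, hvw, hc⟩ := hK a S v₀ hv₀ hcard
          refine hcnt _ v (fun b => ?_) hc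
          refine hin v hv b ?_
          intro h3
          exact hvw (Prod.mk.inj h3).1
      · push Not at hout
        obtain ⟨v₀, hv₀⟩ := hS
        obtain ⟨x, hx, hx'⟩ := hout v₀ hv₀ false
        have hcard : 2 ≤ S.card := by
          have h3 : 1 < S.card := one_lt_card.2 ⟨x, hx, v₀, hv₀, hadj _ _ _ hx'⟩
          omega
        obtain ⟨v, hv, -, hc⟩ := hK a S v₀ hv₀ hcard
        exact hcnt _ v (fun b => hout v hv b) hc)
    refine ⟨pos, hpos, ?_⟩
    intro u v v' huv huv' hvv hv hv'
    rcases hpair u v (mem_filter.2 ⟨mem_univ _, huv, hv⟩) v' (mem_filter.2 ⟨mem_univ _, huv', hv'⟩)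
      hvv with ⟨h3, h4⟩ | ⟨h3, h4⟩
    · exact hord u v v' h3 h4
    · exact (hord u v' v h3 h4).symm
  choose pos hpos hord using key
  refine ⟨fun v a => (pos a v : ℤ), ?_, h1, ?_⟩
  · intro a u v h
    have h5 : ((pos a u : ℕ) : ℤ) = ((pos a v : ℕ) : ℤ) := h
    exact hpos a (by exact_mod_cast h5)
  · intro u v v' huv huv' hvv ha
    rcases hord (α u v) u v v' huv huv' hvv rfl ha.symm with ⟨h3, h4⟩ | ⟨h3, h4⟩
    · left
      refine ⟨?_, ?_⟩
      · show ((pos (α u v) v : ℕ) : ℤ) < ((pos (α u v) u : ℕ) : ℤ)
        exact_mod_cast h3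
      · show ((pos (α u v) u : ℕ) : ℤ) < ((pos (α u v) v' : ℕ) : ℤ)
        exact_mod_cast h4
    · right
      refine ⟨?_, ?_⟩
      · show ((pos (α u v) v' : ℕ) : ℤ) < ((pos (α u v) u : ℕ) : ℤ)
        exact_mod_cast h3
      · show ((pos (α u v) u : ℕ) : ℤ) < ((pos (α u v) v : ℕ) : ℤ)
        exact_mod_cast h4

end Pool.Agent.TBS
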