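import Pool.Agent.TBS.OriOrd

/-!
# Orientations of graphs which are built by adding sets of vertices

`OriExt G A B`: the edges of `G` with an end in `B` and the other end in `A ∪ B` can be oriented,
those between `A` and `B` from `B` to `A`, with outdegrees at most three and such that every set `S`
of at least two members of `A ∪ B`, at most one of them in `A`, has deficit at least 3.
`OriOn.ext`: then an orientation for `A` extends to `A ∪ B`.
`OrdExt.ori`: such an orientation is given by three orders of `B ∪ C`, where `C` contains the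
neighbours of `B` in `A`, if for every edge `xy` with `x` in `B` and every other `z` some order has
`z` above `x` and `y`, and for every edge `xc` from `B` to `C` two orders have `x` above `c`.
-/

set_option autoImplicit false

namespace Pool.Agent.TBS

open Finset

variable {V : Type} [DecidableEq V]

/-- Orientation of the edges between `B` and `A ∪ B`, those between `A` and `B` towards `A`. -/
def OriExt (G : SimpleGraph V) (A B : Finset V) : Prop :=
  ∃ (o : V → V → Prop) (_ : DecidableRel o),
    (∀ u v, o u v → u ∈ B ∧ v ∈ A ∪ B ∧ G.Adj u v) ∧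
    (∀ u ∈ B, ∀ v ∈ A ∪ B, G.Adj u v → o u v ∨ o v u) ∧ (∀ u v, o u v → ¬ o v u) ∧
    (∀ u, ((A ∪ B).filter fun v => o u v).card ≤ 3) ∧
    ∀ S ⊆ A ∪ B, 2 ≤ S.card → (S ∩ A).card ≤ 1 →
      3 ≤ ∑ v ∈ S, (2 - (S.filter fun w => o v w).card)

/-- Three orders on `B ∪ C`. -/
def OrdExt (G : SimpleGraph V) (B C : Finset V) : Prop :=
  ∃ r : Fin 3 → V → ℕ, (∀ i, ∀ x ∈ B ∪ C, ∀ y ∈ B ∪ C, r i x = r i y → x = y) ∧
    (∀ x ∈ B, ∀ y ∈ B ∪ C, ∀ z ∈ B ∪ C, G.Adj x y → z ≠ x → z ≠ y →
      ∃ i, r i x < r i z ∧ r i y < r i z) ∧
    ∀ x ∈ B, ∀ c ∈ C, G.Adj x c → ∃ i j, i ≠ j ∧ r i c < r i x ∧ r j c < r j x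

omit [DecidableEq V] in
theorem ori_empty' (G : SimpleGraph V) : OriOn G ∅ := by
  refine ⟨fun _ _ => False, fun _ _ => isFalse id, fun _ _ h => h.elim, fun u hu => absurd hu
    (notMem_empty _), fun _ _ h => h.elim, fun u => by simp, fun S hS h2 => ?_⟩
  rw [subset_empty.1 hS] at h2
  simp at h2

theorem OriOn.ext {G : SimpleGraph V} {A B : Finset V} (h : OriOn G A) (hAB : Disjoint A B)
    (hB : OriExt G A B) : OriOn G (A ∪ B) := by
  classical
  obtain ⟨o, _, h1, h2, h3, h4, h5⟩ := h
  obtain ⟨p, _, p1, p2, p3, p4, p5⟩ := hB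
  have hd : ∀ x, x ∈ A → x ∈ B → False := fun x ha hb => (disjoint_left.1 hAB ha) hb
  refine ⟨fun u v => o u v ∨ p u v, fun _ _ => inferInstance, ?_, ?_, ?_, ?_, ?_⟩
  · rintro u v (h | h)
    · obtain ⟨a, b, c⟩ := h1 u v h
      exact ⟨mem_union_left _ a, mem_union_left _ b, c⟩
    · obtain ⟨a, b, c⟩ := p1 u v h
      exact ⟨mem_union_right _ a, b, c⟩
  · intro u hu v hv h
    by_cases huB : u ∈ B
    · rcases p2 u huB v hv h with h' | h'
      · exact Or.inl (Or.inr h')
      · exact Or.inr (Or.inr h')
    by_cases hvB : v ∈ B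
    · rcases p2 v hvB u hu h.symm with h' | h'
      · exact Or.inr (Or.inr h')
      · exact Or.inl (Or.inr h')
    have huA : u ∈ A := (mem_union.1 hu).resolve_right huB
    have hvA : v ∈ A := (mem_union.1 hv).resolve_right hvB
    rcases h2 u huA v hvA h with h' | h'
    · exact Or.inl (Or.inl h')
    · exact Or.inr (Or.inl h')
  · rintro u v (h | h) (h' | h')
    · exact h3 u v h h'
    · exact hd v (h1 u v h).2.1 (p1 v u h').1
    · exact hd u (h1 v u h').2.1 (p1 u v h).1
    · exact p3 u v h h'
  · intro u
    by_cases huB : u ∈ B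
    · refine le_trans (card_le_card fun w hw => ?_) (p4 u)
      rw [mem_filter] at hw ⊢
      rcases hw.2 with h | h
      · exact (hd u (h1 u w h).1 huB).elim
      · exact ⟨hw.1, h⟩
    · refine le_trans (card_le_card fun w hw => ?_) (h4 u)
      rw [mem_filter] at hw ⊢
      rcases hw.2 with h | h
      · exact ⟨(h1 u w h).2.1, h⟩
      · exact absurd (p1 u w h).1 huB
  · intro S hS hS2
    by_cases hc : 2 ≤ (S ∩ A).card
    · refine (h5 (S ∩ A) inter_subset_right hc).trans ?_
      refine le_trans (le_of_eq ?_) (sum_le_sum_of_subset (f := fun v =>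
        (2 - (S.filter fun w => o v w ∨ p v w).card)) (inter_subset_left (s₂ := A)))
      refine sum_congr rfl fun v hv => ?_
      have hvA := (mem_inter.1 hv).2
      congr 2
      ext w
      rw [mem_filter, mem_filter, mem_inter]
      constructor
      · rintro ⟨⟨a, -⟩, c⟩
        exact ⟨a, Or.inl c⟩
      · rintro ⟨a, h | h⟩
        · exact ⟨⟨a, (h1 v w h).2.1⟩, h⟩
        · exact (hd v hvA (p1 v w h).1).elim
    · refine (p5 S hS hS2 (by omega)).trans (le_of_eq ?_)
      refine sum_congr rfl fun v hv => ?_
      congr 2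
      ext w
      rw [mem_filter, mem_filter]
      constructor
      · rintro ⟨a, c⟩
        exact ⟨a, Or.inr c⟩
      · rintro ⟨a, h | h⟩
        · exfalso
          obtain ⟨b1, b2, b3⟩ := h1 v w h
          have := card_le_one.1 (Nat.le_of_not_lt fun h' => hc h') v (mem_inter.2 ⟨hv, b1⟩) w
            (mem_inter.2 ⟨a, b2⟩)
          exact b3.ne this
        · exact ⟨a, h⟩

theorem OrdExt.ori {G : SimpleGraph V} {A B C : Finset V} (h : OrdExt G B C) (hCA : C ⊆ A)
    (hN : ∀ b ∈ B, ∀ a ∈ A, G.Adj b a → a ∈ C) : OriExt G A B := by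
  classical
  obtain ⟨r, hr, hS, hC⟩ := h
  have main1 : ∀ x, ((A ∪ B).filter fun y => x ∈ B ∧ y ∈ B ∪ C ∧ G.Adj x y ∧
      (above r x y).card ≤ 1).card ≤ 3 := by
    -- outdegree
    intro x
    by_cases hxA : x ∈ B
    swap
    · rw [filter_false_of_mem (fun y _ hy => hxA hy.1)]
      simp
    by_cases h0 : ∃ y ∈ B ∪ C, G.Adj x y ∧ above r x y = ∅
    · obtain ⟨y, hyA, hxy, h0⟩ := h0
      refine le_trans (card_le_card (t := {y}) ?_) (by simp)
      intro y' hy'
      rw [mem_singleton]
      by_contra hne
      obtain ⟨-, -, hyA', hy, -⟩ := mem_filter.1 hy'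
      obtain ⟨l, hl, -⟩ := hS x hxA y' hyA' y hyA hy hxy.ne.symm (fun e => hne e.symm)
      have : l ∈ above r x y := mem_above.2 hl
      rw [h0] at this
      exact absurd this (notMem_empty l)
    · push Not at h0
      have hex : ∀ y, ∃ i, (y ∈ B ∪ C ∧ G.Adj x y ∧ (above r x y).card ≤ 1) →
          above r x y = {i} := by
        intro y
        by_cases h : y ∈ B ∪ C ∧ G.Adj x y ∧ (above r x y).card ≤ 1
        · have h1 : (above r x y).card = 1 := by
            have := card_pos.2 (h0 y h.1 h.2.1)
            omega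
          obtain ⟨i, hi⟩ := card_eq_one.1 h1
          exact ⟨i, fun _ => hi⟩
        · exact ⟨0, fun h' => absurd h' h⟩
      choose c hc using hex
      have := card_le_card_of_injOn (s := (A ∪ B).filter fun y => x ∈ B ∧ y ∈ B ∪ C ∧ G.Adj x y ∧
        (above r x y).card ≤ 1) (t := (univ : Finset (Fin 3))) c (fun _ _ => by simp) (by
          have key : ∀ y y', (y ∈ B ∪ C ∧ G.Adj x y ∧ (above r x y).card ≤ 1) →
              (y' ∈ B ∪ C ∧ G.Adj x y' ∧ (above r x y').card ≤ 1) → c y = c y' →
              r (c y) y < r (c y) y' → False := by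
            intro y y' hy hy' hcc hlt
            obtain ⟨l, hl, hl'⟩ := hS x hxA y' hy'.1 y hy.1 hy'.2.1 hy.2.1.ne.symm (by
              rintro rfl
              exact lt_irrefl _ hlt)
            have : l ∈ above r x y := mem_above.2 hl
            rw [hc y hy, mem_singleton] at this
            rw [this] at hl'
            omega
          intro y hy y' hy' hcc
          have h1 := (mem_filter.1 (mem_coe.1 hy)).2.2
          have h2 := (mem_filter.1 (mem_coe.1 hy')).2.2
          by_contra hne
          rcases lt_trichotomy (r (c y) y) (r (c y) y') with h | h | h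
          · exact key y y' h1 h2 hcc h
          · exact hne (hr _ y h1.1 y' h2.1 h)
          · rw [hcc] at h
            exact key y' y h2 h1 hcc.symm h)
      simpa using this
  have main2 : ∀ S ⊆ B ∪ C, 2 ≤ S.card →
      3 ≤ ∑ v ∈ S, (2 - (S.filter fun w => v ∈ B ∧ w ∈ B ∪ C ∧ G.Adj v w ∧
        (above r v w).card ≤ 1).card) := by
    -- deficits
    intro S hSA h2
    have hne : S.Nonempty := by
      rw [← card_pos]
      omega
    have hmin : ∀ i, ∃ x ∈ S, ∀ y ∈ S, r i x ≤ r i y := fun i => exists_min_image S (r i) hne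
    choose m hm hmm using hmin
    have hlt : ∀ i, ∀ y ∈ S, y ≠ m i → r i (m i) < r i y := by
      intro i y hy hyn
      have h3 := hmm i y hy
      have h4 : r i (m i) ≠ r i y := fun e => hyn (hr i _ (hSA (hm i)) _ (hSA hy) e).symm
      omega
    -- the minimum for one order
    have one : ∀ i, (S.filter fun w => m i ∈ B ∧ w ∈ B ∪ C ∧ G.Adj (m i) w ∧
        (above r (m i) w).card ≤ 1).card ≤ 1 := by
      intro i
      by_cases hmB : m i ∈ B
      swap
      · rw [filter_false_of_mem (fun y _ hy => hmB hy.1)]
        simp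
      rw [card_le_one]
      have hsing : ∀ y ∈ S, G.Adj (m i) y → (above r (m i) y).card ≤ 1 →
          above r (m i) y = {i} := by
        intro y hy hadj hc
        have h3 : i ∈ above r (m i) y := mem_above.2 (hlt i y hy hadj.ne.symm)
        refine eq_singleton_iff_unique_mem.2 ⟨h3, fun j hj => card_le_one.1 hc j hj i h3⟩
      have key : ∀ y ∈ S, ∀ y' ∈ S, (G.Adj (m i) y ∧ (above r (m i) y).card ≤ 1) →
          (G.Adj (m i) y' ∧ (above r (m i) y').card ≤ 1) → r i y < r i y' → False := by
        intro y hyS y' hyS' hy hy' hlt'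
        obtain ⟨l, hl, hl'⟩ := hS (m i) hmB y' (hSA hyS') y (hSA hyS) hy'.1 hy.1.ne.symm (by
          rintro rfl
          exact lt_irrefl _ hlt')
        have : l ∈ above r (m i) y := mem_above.2 hl
        rw [hsing y hyS hy.1 hy.2, mem_singleton] at this
        rw [this] at hl'
        omega
      intro y hy y' hy'
      rw [mem_filter] at hy hy'
      by_contra hne'
      rcases lt_trichotomy (r i y) (r i y') with h | h | h
      · exact key y hy.1 y' hy'.1 hy.2.2.2 hy'.2.2.2 h
      · exact hne' (hr _ y (hSA hy.1) y' (hSA hy'.1) h)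
      · exact key y' hy'.1 y hy.1 hy'.2.2.2 hy.2.2.2 h
    -- the minimum for two orders
    have two : ∀ i j, i ≠ j → m i = m j →
        (S.filter fun w => m i ∈ B ∧ w ∈ B ∪ C ∧ G.Adj (m i) w ∧
          (above r (m i) w).card ≤ 1).card = 0 := by
      intro i j hij hmij
      rw [card_eq_zero, filter_eq_empty_iff]
      rintro y hy ⟨-, -, hadj, hc⟩
      have hi : i ∈ above r (m i) y := mem_above.2 (hlt i y hy hadj.ne.symm)
      have hj : j ∈ above r (m i) y := by
        refine mem_above.2 ?_
        rw [hmij]
        exact hlt j y hy (by rw [← hmij]; exact hadj.ne.symm)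
      exact hij (card_le_one.1 hc i hi j hj)
    set f : V → ℕ := fun v => 2 - (S.filter fun w => v ∈ B ∧ w ∈ B ∪ C ∧ G.Adj v w ∧
      (above r v w).card ≤ 1).card with hf
    have f1 : ∀ i, 1 ≤ f (m i) := by
      intro i
      have := one i
      simp only [hf]
      omega
    have f2 : ∀ i j, i ≠ j → m i = m j → 2 ≤ f (m i) := by
      intro i j hij hmij
      have := two i j hij hmij
      simp only [hf]
      omega
    have sub2 : ∀ a b, a ∈ S → b ∈ S → a ≠ b → f a + f b ≤ ∑ v ∈ S, f v := by
      intro a b ha hb hab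
      rw [← sum_pair hab]
      exact sum_le_sum_of_subset (insert_subset ha (singleton_subset_iff.2 hb))
    have sub3 : ∀ a b c, a ∈ S → b ∈ S → c ∈ S → a ≠ b → a ≠ c → b ≠ c →
        f a + (f b + f c) ≤ ∑ v ∈ S, f v := by
      intro a b c ha hb hc hab hac hbc
      rw [← sum_pair hbc, ← sum_insert (f := f) (s := {b, c}) (a := a) (by
        rw [mem_insert, mem_singleton]
        push Not
        exact ⟨hab, hac⟩)]
      exact sum_le_sum_of_subset (insert_subset ha (insert_subset hb (singleton_subset_iff.2 hc)))
    change 3 ≤ ∑ v ∈ S, f v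
    have g0 := f1 0
    have g1 := f1 1
    have g2 := f1 2
    by_cases h01 : m 0 = m 1
    · have g01 := f2 0 1 (by decide) h01
      by_cases h02 : m 0 = m 2
      · -- all equal
        obtain ⟨w, hw, hwx⟩ : ∃ w ∈ S, w ≠ m 0 := by
          by_contra hcon
          push Not at hcon
          have : S.card ≤ 1 := by
            rw [card_le_one]
            intro a ha b hb
            rw [hcon a ha, hcon b hb]
          omega
        have hall : ∀ i, r i (m 0) < r i w := by
          intro i
          have h3 : m i = m 0 := by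
            fin_cases i
            · rfl
            · exact h01.symm
            · exact h02.symm
          have h4 := hlt i w hw (by rw [h3]; exact hwx)
          rwa [h3] at h4
        have hfw : 1 ≤ f w := by
          have : (S.filter fun y => w ∈ B ∧ y ∈ B ∪ C ∧ G.Adj w y ∧
              (above r w y).card ≤ 1).card ≤ 1 := by
            by_cases hwB : w ∈ B
            swap
            · rw [filter_false_of_mem (fun y _ hy => hwB hy.1)]
              simp
            rw [card_le_one]
            have hx : ∀ y ∈ S, G.Adj w y → y = m 0 := by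
              intro y hyS hy
              by_contra hne'
              obtain ⟨l, hl, -⟩ := hS w hwB y (hSA hyS) (m 0) (hSA (hm 0)) hy
                (fun e => hwx e.symm) (fun e => hne' e.symm)
              have := hall l
              omega
            intro y hy y' hy'
            rw [mem_filter] at hy hy'
            rw [hx y hy.1 hy.2.2.2.1, hx y' hy'.1 hy'.2.2.2.1]
          simp only [hf]
          omega
        have := sub2 (m 0) w (hm 0) hw (fun e => hwx e.symm)
        omega
      · have := sub2 (m 0) (m 2) (hm 0) (hm 2) h02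
        omega
    · by_cases h02 : m 0 = m 2
      · have g02 := f2 0 2 (by decide) h02
        have := sub2 (m 0) (m 1) (hm 0) (hm 1) h01
        omega
      · by_cases h12 : m 1 = m 2
        · have g12 := f2 1 2 (by decide) h12
          have := sub2 (m 0) (m 1) (hm 0) (hm 1) h01
          omega
        · have := sub3 (m 0) (m 1) (m 2) (hm 0) (hm 1) (hm 2) h01 h02 h12
          omega
  have hBC : ∀ v, v ∈ B ∪ C → v ∈ A ∪ B := by
    intro v hv
    rcases mem_union.1 hv with h | h
    · exact mem_union_right _ h
    · exact mem_union_left _ (hCA h)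
  refine ⟨fun x y => x ∈ B ∧ y ∈ B ∪ C ∧ G.Adj x y ∧ (above r x y).card ≤ 1,
    fun _ _ => inferInstance, fun u v h => ⟨h.1, hBC v h.2.1, h.2.2.1⟩, ?_, ?_, main1, ?_⟩
  · intro u hu v hv h
    by_cases hvB : v ∈ B
    · have := above_add (r := r) (x := u) (y := v) (fun i e => h.ne
        (hr i u (mem_union_left _ hu) v (mem_union_left _ hvB) e))
      by_cases h1 : (above r u v).card ≤ 1
      · exact Or.inl ⟨hu, mem_union_left _ hvB, h, h1⟩
      · exact Or.inr ⟨hvB, mem_union_left _ hu, h.symm, by omega⟩
    · have hvA : v ∈ A := by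
        rcases mem_union.1 hv with h' | h'
        · exact h'
        · exact absurd h' hvB
      have hvC := hN u hu v hvA h
      obtain ⟨i, j, hij, hi, hj⟩ := hC u hu v hvC h
      refine Or.inl ⟨hu, mem_union_right _ hvC, h, ?_⟩
      have h1 : above r u v ⊆ ({i, j} : Finset (Fin 3))ᶜ := by
        intro k hk
        have hk' := mem_above.1 hk
        rw [mem_compl, mem_insert, mem_singleton]
        rintro (rfl | rfl) <;> omega
      have h2 := card_le_card h1
      rw [card_compl, card_pair hij] at h2
      simpa using h2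
  · rintro u v ⟨hu, hv, h, h1⟩ ⟨hv', -, -, h2⟩
    have := above_add (r := r) (x := u) (y := v) (fun i e => h.ne
        (hr i u (mem_union_left _ hu) v (mem_union_left _ hv') e))
    omega
  · intro S hSA h2 hSc
    by_cases hSB : S ⊆ B ∪ C
    · exact main2 S hSB h2
    · -- the old vertex has no neighbours in `B`
      obtain ⟨u, huS, hu⟩ := not_subset.1 hSB
      have huA : u ∈ A := by
        rcases mem_union.1 (hSA huS) with h | h
        · exact h
        · exact absurd (mem_union_left _ h) hu
      have hS' : S.erase u ⊆ B ∪ C := by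
        intro w hw
        have hw' := mem_erase.1 hw
        rcases mem_union.1 (hSA hw'.2) with h | h
        · exact absurd (card_le_one.1 hSc w (mem_inter.2 ⟨hw'.2, h⟩) u
            (mem_inter.2 ⟨huS, huA⟩)) hw'.1
        · exact mem_union_left _ h
      rw [← add_sum_erase S _ huS]
      have e0 : (S.filter fun w => u ∈ B ∧ w ∈ B ∪ C ∧ G.Adj u w ∧
          (above r u w).card ≤ 1).card = 0 := by
        rw [filter_false_of_mem (fun y _ hy => hu (mem_union_left _ hy.1))]
        simp
      have e1 : ∀ v ∈ S.erase u, (2 - (S.filter fun w => v ∈ B ∧ w ∈ B ∪ C ∧ G.Adj v w ∧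
          (above r v w).card ≤ 1).card) =
          (2 - ((S.erase u).filter fun w => v ∈ B ∧ w ∈ B ∪ C ∧ G.Adj v w ∧
          (above r v w).card ≤ 1).card) := by
        intro v _
        congr 2
        ext w
        rw [mem_filter, mem_filter, mem_erase]
        constructor
        · rintro ⟨hw, h⟩
          refine ⟨⟨?_, hw⟩, h⟩
          rintro rfl
          exact hu h.2.1
        · rintro ⟨⟨-, hw⟩, h⟩
          exact ⟨hw, h⟩
      rw [sum_congr rfl e1]
      beta_reduce
      rw [e0]
      by_cases hc : 2 ≤ (S.erase u).card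
      · have := main2 (S.erase u) hS' hc
        omega
      · have hc1 : (S.erase u).card = 1 := by
          rw [card_erase_of_mem huS] at hc ⊢
          omega
        obtain ⟨w, hw⟩ := card_eq_one.1 hc1
        rw [hw, sum_singleton]
        have a1 : (({w} : Finset V).filter fun y => w ∈ B ∧ y ∈ B ∪ C ∧ G.Adj w y ∧
            (above r w y).card ≤ 1).card = 0 := by
          rw [card_eq_zero, filter_eq_empty_iff]
          intro y hy h
          rw [mem_singleton] at hy
          subst hy
          exact h.2.2.1.ne rfl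
        rw [a1]
        omega

end Pool.Agent.TBS
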