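import Pool.Agent.TB.Koenig

/-!
# Labels from a 4-colouring

`edge_col2`: if every vertex has at most two neighbours of each colour, the edges can be coloured
with two colours such that two edges from a vertex to vertices of the same colour are different
(`Pool.Agent.TB.koenig`, as in `ColLab.edge_col`).

`four_labels`: the four colours are split into two pairs in three ways, `side i x` is the pair
`{0, i + 1}`.  `typ x y` is the `i` for which `x` and `y` are on the same side.  The label of `u` on
the edge `uv` is `typ + 1` or `typ + 2`.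
-/

set_option autoImplicit false

namespace Pool.Agent.TBS

open Finset

theorem edge_col2 {V : Type} [Fintype V] [DecidableEq V] (G : SimpleGraph V) [DecidableRel G.Adj]
    (c : V → Fin 4) (hc : ∀ u v, G.Adj u v → c u ≠ c v)
    (h2 : ∀ v a, (univ.filter fun u => G.Adj v u ∧ c u = a).card ≤ 2) :
    ∃ col : V → V → Fin 2, (∀ u v, col u v = col v u) ∧
      ∀ u v v', G.Adj u v → G.Adj u v' → c v = c v' → col u v = col u v' → v = v' := by
  classical
  let E : Type := {p : V × V // G.Adj p.1 p.2 ∧ c p.1 < c p.2}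
  let l : E → V × Fin 4 := fun e => (e.1.1, c e.1.2)
  let r : E → V × Fin 4 := fun e => (e.1.2, c e.1.1)
  have hl : ∀ x, (univ.filter fun e => l e = x).card ≤ 2 := by
    intro x
    refine le_trans ?_ (h2 x.1 x.2)
    refine card_le_card_of_injOn (fun e => e.1.2) ?_ ?_
    · intro e he
      simp only [coe_filter, mem_univ, true_and, Set.mem_ofPred_eq] at he ⊢
      rw [← he]
      exact ⟨e.2.1, rfl⟩
    · intro e he e' he' h
      simp only [coe_filter, mem_univ, true_and, Set.mem_ofPred_eq] at he he'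
      have h0 : l e = l e' := he.trans he'.symm
      have h1 : e.1.1 = e'.1.1 := congrArg (fun t : V × Fin 4 => t.1) h0
      exact Subtype.ext (Prod.ext h1 h)
  have hr : ∀ x, (univ.filter fun e => r e = x).card ≤ 2 := by
    intro x
    refine le_trans ?_ (h2 x.1 x.2)
    refine card_le_card_of_injOn (fun e => e.1.1) ?_ ?_
    · intro e he
      simp only [coe_filter, mem_univ, true_and, Set.mem_ofPred_eq] at he ⊢
      rw [← he]
      exact ⟨e.2.1.symm, rfl⟩
    · intro e he e' he' h
      simp only [coe_filter, mem_univ, true_and, Set.mem_ofPred_eq] at he he'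
      have h0 : r e = r e' := he.trans he'.symm
      have h1 : e.1.2 = e'.1.2 := congrArg (fun t : V × Fin 4 => t.1) h0
      exact Subtype.ext (Prod.ext h h1)
  obtain ⟨k, hk1, hk2⟩ := Pool.Agent.TB.koenig 2 E (V × Fin 4) (V × Fin 4) l r hl hr
  let col : V → V → Fin 2 := fun u v =>
    if h : G.Adj u v ∧ c u < c v then k ⟨(u, v), h⟩
    else if h : G.Adj v u ∧ c v < c u then k ⟨(v, u), h⟩ else 0
  have col1 : ∀ u v (h : G.Adj u v ∧ c u < c v), col u v = k ⟨(u, v), h⟩ := fun u v h => dif_pos h
  have col2 : ∀ u v (h : G.Adj v u ∧ c v < c u), col u v = k ⟨(v, u), h⟩ := by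
    intro u v h
    have h' : ¬ (G.Adj u v ∧ c u < c v) := fun h' => lt_asymm h.2 h'.2
    change (if h : G.Adj u v ∧ c u < c v then k ⟨(u, v), h⟩
      else if h : G.Adj v u ∧ c v < c u then k ⟨(v, u), h⟩ else 0) = _
    rw [dif_neg h', dif_pos h]
  have col3 : ∀ u v, ¬ (G.Adj u v ∧ c u < c v) → ¬ (G.Adj v u ∧ c v < c u) → col u v = 0 := by
    intro u v h h'
    change (if h : G.Adj u v ∧ c u < c v then k ⟨(u, v), h⟩
      else if h : G.Adj v u ∧ c v < c u then k ⟨(v, u), h⟩ else 0) = _
    rw [dif_neg h, dif_neg h']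
  refine ⟨col, ?_, ?_⟩
  · intro u v
    by_cases h : G.Adj u v ∧ c u < c v
    · rw [col1 u v h, col2 v u h]
    · by_cases h' : G.Adj v u ∧ c v < c u
      · rw [col2 u v h', col1 v u h']
      · rw [col3 u v h h', col3 v u h' h]
  · intro u v v' a a' e h
    rcases lt_or_gt_of_ne (hc u v a) with h1 | h1
    · have h1' : c u < c v' := e ▸ h1
      rw [col1 u v ⟨a, h1⟩, col1 u v' ⟨a', h1'⟩] at h
      have h2 := hk1 ⟨(u, v), ⟨a, h1⟩⟩ ⟨(u, v'), ⟨a', h1'⟩⟩ (Prod.ext rfl e) h
      exact congrArg (fun t : E => t.1.2) h2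
    · have h1' : c v' < c u := e ▸ h1
      rw [col2 u v ⟨a.symm, h1⟩, col2 u v' ⟨a'.symm, h1'⟩] at h
      have h2 := hk2 ⟨(v, u), ⟨a.symm, h1⟩⟩ ⟨(v', u), ⟨a'.symm, h1'⟩⟩ (Prod.ext rfl e) h
      exact congrArg (fun t : E => t.1.1) h2

/-- The colour `x` belongs to the pair `{0, i + 1}`. -/
def side (i : Fin 3) (x : Fin 4) : Bool := x = 0 ∨ x = i.succ

/-- The index of the pairing in which `x` and `y` are on the same side (for `x ≠ y`). -/
def typ (x y : Fin 4) : Fin 3 :=
  if side 0 x = side 0 y then 0 else if side 1 x = side 1 y then 1 else 2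

theorem four_labels {V : Type} [Fintype V] [DecidableEq V] (G : SimpleGraph V)
    [DecidableRel G.Adj] (c : V → Fin 4) (hc : ∀ u v, G.Adj u v → c u ≠ c v)
    (h2 : ∀ v a, (univ.filter fun u => G.Adj v u ∧ c u = a).card ≤ 2) :
    ∃ α : V → V → Fin 3, (∀ u v, G.Adj u v → α u v ≠ α v u) ∧
      (∀ u a, (univ.filter fun v => G.Adj u v ∧ α u v = a).card ≤ 2) ∧
      (∀ u v, G.Adj u v → side (α u v) (c u) ≠ side (α u v) (c v)) := by
  classical
  obtain ⟨col, hs, hcol⟩ := edge_col2 G c hc h2
  let α : V → V → Fin 3 := fun u v =>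
    if (col u v = 0 ↔ c u < c v) then typ (c u) (c v) + 1 else typ (c u) (c v) + 2
  have hα : ∀ u v, α u v = if (col u v = 0 ↔ c u < c v) then typ (c u) (c v) + 1
      else typ (c u) (c v) + 2 := fun _ _ => rfl
  have f1 : ∀ x y : Fin 4, typ x y = typ y x := by decide
  have f2 : ∀ x y : Fin 4, x ≠ y → side (typ x y + 1) x ≠ side (typ x y + 1) y ∧
      side (typ x y + 2) x ≠ side (typ x y + 2) y := by decide
  have f3 : ∀ t : Fin 3, t + 1 ≠ t + 2 := by decide
  have f4 : ∀ (x : Fin 4) (a : Fin 3),
      (univ.filter fun y => side a x ≠ side a y).card ≤ 2 := by decide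
  have hside : ∀ u v, G.Adj u v → side (α u v) (c u) ≠ side (α u v) (c v) := by
    intro u v h
    have h' := f2 _ _ (hc u v h)
    rw [hα]
    split_ifs
    · exact h'.1
    · exact h'.2
  refine ⟨α, ?_, ?_, hside⟩
  · intro u v h
    have hne := hc u v h
    rw [hα, hα, hs v u, f1 (c v) (c u)]
    by_cases h0 : col u v = 0 <;> rcases lt_or_gt_of_ne hne with h1 | h1
    · rw [if_pos (by simp [h0, h1]), if_neg (by simp [h0, h1.le])]
      exact f3 _
    · rw [if_neg (by simp [h0, h1.le]), if_pos (by simp [h0, h1])]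
      exact (f3 _).symm
    · rw [if_neg (by simp [h0, h1]), if_pos (by simp [h0, h1.le])]
      exact (f3 _).symm
    · rw [if_pos (by simp [h0, h1.le]), if_neg (by simp [h0, h1])]
      exact f3 _
  · intro u a
    refine le_trans (card_le_card_of_injOn (t := univ.filter fun y => side a (c u) ≠ side a y) c
      ?_ ?_) (f4 (c u) a)
    · intro v hv
      simp only [coe_filter, mem_univ, true_and, Set.mem_ofPred_eq] at hv ⊢
      rw [← hv.2]
      exact hside u v hv.1
    · intro v hv v' hv' h
      simp only [coe_filter, mem_univ, true_and, Set.mem_ofPred_eq] at hv hv'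
      refine hcol u v v' hv.1 hv'.1 h ?_
      have e := hv.2.trans hv'.2.symm
      rw [hα, hα, h] at e
      have two : ∀ s t : Fin 2, (s = 0 ↔ t = 0) → s = t := by decide
      refine two _ _ ?_
      by_cases g : (col u v = 0 ↔ c u < c v') <;> by_cases g' : (col u v' = 0 ↔ c u < c v')
      · rw [g, g']
      · rw [if_pos g, if_neg g'] at e
        exact absurd e (f3 _)
      · rw [if_neg g, if_pos g'] at e
        exact absurd e.symm (f3 _)
      · by_cases p : c u < c v' <;> by_cases q : col u v = 0 <;> by_cases q' : col u v' = 0 <;>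
          simp_all

end Pool.Agent.TBS
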