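import Mathlib

/-!
# Orientations from three linear orders (condition of Schnyder)

Let `r 0`, `r 1`, `r 2` be three linear orders of the vertices in `A` such that for every edge `xy`
and every other vertex `z` some `i` has `r i x < r i z` and `r i y < r i z` (for planar graphs such
orders exist by a theorem of Schnyder).  Direct the edge `xy` from `x` to `y` if `y` is above `x` in
at most one order.
* Every vertex has at most three out-neighbours (at most one for every order; if an out-neighbour is
  below `x` in all orders then `x` has no other neighbour).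
* The minimum `x` of `S` in the order `i` has at most one out-neighbour in `S`, none if it is the
  minimum for two orders; if it is the minimum for all three orders then every other member of `S`
  has no neighbour besides `x`.  So the sum of `(2 - out_S v)^+` over `S` is at least 3.
A vertex with at most three neighbours in `A` can be added (direct all its edges away from it).
-/

set_option autoImplicit false

namespace Pool.Agent.TBS

open Finset

variable {V : Type} [DecidableEq V]

/-- the orders in which `y` is above `x` -/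
def above (r : Fin 3 → V → ℕ) (x y : V) : Finset (Fin 3) := univ.filter fun i => r i x < r i y

omit [DecidableEq V] in
theorem mem_above {r : Fin 3 → V → ℕ} {x y : V} {i : Fin 3} : i ∈ above r x y ↔ r i x < r i y := by
  unfold above
  simp

omit [DecidableEq V] in
theorem above_add {r : Fin 3 → V → ℕ} {x y : V} (h : ∀ i, r i x ≠ r i y) :
    (above r x y).card + (above r y x).card = 3 := by
  classical
  have h1 : above r y x = (above r x y)ᶜ := by
    ext i
    rw [mem_compl, mem_above, mem_above]
    have := h i
    omega
  rw [h1, card_compl]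
  have := card_le_univ (above r x y)
  simp only [Fintype.card_fin] at this ⊢
  omega

/-- Orientation of the edges inside `A` with outdegrees at most three and sparse after the deletion
of any out-edge at every vertex. -/
def OriOn (G : SimpleGraph V) (A : Finset V) : Prop :=
  ∃ (o : V → V → Prop) (_ : DecidableRel o), (∀ u v, o u v → u ∈ A ∧ v ∈ A ∧ G.Adj u v) ∧
    (∀ u ∈ A, ∀ v ∈ A, G.Adj u v → o u v ∨ o v u) ∧ (∀ u v, o u v → ¬ o v u) ∧
    (∀ u, (A.filter fun v => o u v).card ≤ 3) ∧
    ∀ S ⊆ A, 2 ≤ S.card → 3 ≤ ∑ v ∈ S, (2 - (S.filter fun w => o v w).card)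

/-- Three orders on `A`. -/
def OrdOn (G : SimpleGraph V) (A : Finset V) : Prop :=
  ∃ r : Fin 3 → V → ℕ, (∀ i, ∀ x ∈ A, ∀ y ∈ A, r i x = r i y → x = y) ∧
    ∀ x ∈ A, ∀ y ∈ A, ∀ z ∈ A, G.Adj x y → z ≠ x → z ≠ y →
      ∃ i, r i x < r i z ∧ r i y < r i z

theorem OrdOn.ori {G : SimpleGraph V} {A : Finset V} (h : OrdOn G A) : OriOn G A := by
  classical
  obtain ⟨r, hr, hS⟩ := h
  have main1 : ∀ x, (A.filter fun y => x ∈ A ∧ y ∈ A ∧ G.Adj x y ∧
      (above r x y).card ≤ 1).card ≤ 3 := by
    -- outdegree
    intro x
    by_cases hxA : x ∈ A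
    swap
    · rw [filter_false_of_mem (fun y _ hy => hxA hy.1)]
      simp
    by_cases h0 : ∃ y ∈ A, G.Adj x y ∧ above r x y = ∅
    · obtain ⟨y, hyA, hxy, h0⟩ := h0
      refine le_trans (card_le_card (t := {y}) ?_) (by simp)
      intro y' hy'
      rw [mem_singleton]
      by_contra hne
      obtain ⟨hyA', -, -, hy, -⟩ := mem_filter.1 hy'
      obtain ⟨l, hl, -⟩ := hS x hxA y' hyA' y hyA hy hxy.ne.symm (fun e => hne e.symm)
      have : l ∈ above r x y := mem_above.2 hl
      rw [h0] at this
      exact absurd this (notMem_empty l)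
    · push Not at h0
      have hex : ∀ y, ∃ i, (y ∈ A ∧ G.Adj x y ∧ (above r x y).card ≤ 1) → above r x y = {i} := by
        intro y
        by_cases h : y ∈ A ∧ G.Adj x y ∧ (above r x y).card ≤ 1
        · have h1 : (above r x y).card = 1 := by
            have := card_pos.2 (h0 y h.1 h.2.1)
            omega
          obtain ⟨i, hi⟩ := card_eq_one.1 h1
          exact ⟨i, fun _ => hi⟩
        · exact ⟨0, fun h' => absurd h' h⟩
      choose c hc using hex
      have := card_le_card_of_injOn (s := A.filter fun y => x ∈ A ∧ y ∈ A ∧ G.Adj x y ∧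
        (above r x y).card ≤ 1) (t := (univ : Finset (Fin 3))) c (fun _ _ => by simp) (by
          have key : ∀ y y', (y ∈ A ∧ G.Adj x y ∧ (above r x y).card ≤ 1) →
              (y' ∈ A ∧ G.Adj x y' ∧ (above r x y').card ≤ 1) → c y = c y' →
              r (c y) y < r (c y) y' → False := by
            intro y y' hy hy' hcc hlt
            obtain ⟨l, hl, hl'⟩ := hS x hxA y' hy'.1 y hy.1 hy'.2.1 hy.2.1.ne.symm (by
              rintro rfl
              exact lt_irrefl _ hlt)
            have : l ∈ above r x y := mem_above.2 hl
            rw [hc y hy, mem_singleton] at this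
            rw [this] at hl'
            omega
          intro y hy y' hy' hcc
          have h1 := (mem_filter.1 (mem_coe.1 hy)).2.2
          have h2 := (mem_filter.1 (mem_coe.1 hy')).2.2
          by_contra hne
          rcases lt_trichotomy (r (c y) y) (r (c y) y') with h | h | h
          · exact key y y' h1 h2 hcc h
          · exact hne (hr _ y h1.1 y' h2.1 h)
          · rw [hcc] at h
            exact key y' y h2 h1 hcc.symm h)
      simpa using this
  have main2 : ∀ S ⊆ A, 2 ≤ S.card →
      3 ≤ ∑ v ∈ S, (2 - (S.filter fun w => v ∈ A ∧ w ∈ A ∧ G.Adj v w ∧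
        (above r v w).card ≤ 1).card) := by
    -- deficits
    intro S hSA h2
    have hne : S.Nonempty := by
      rw [← card_pos]
      omega
    have hmin : ∀ i, ∃ x ∈ S, ∀ y ∈ S, r i x ≤ r i y := fun i => exists_min_image S (r i) hne
    choose m hm hmm using hmin
    have hlt : ∀ i, ∀ y ∈ S, y ≠ m i → r i (m i) < r i y := by
      intro i y hy hyn
      have h3 := hmm i y hy
      have h4 : r i (m i) ≠ r i y := fun e => hyn (hr i _ (hSA (hm i)) _ (hSA hy) e).symm
      omega
    -- the minimum for one order
    have one : ∀ i, (S.filter fun w => m i ∈ A ∧ w ∈ A ∧ G.Adj (m i) w ∧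
        (above r (m i) w).card ≤ 1).card ≤ 1 := by
      intro i
      rw [card_le_one]
      have hsing : ∀ y ∈ S, G.Adj (m i) y → (above r (m i) y).card ≤ 1 →
          above r (m i) y = {i} := by
        intro y hy hadj hc
        have h3 : i ∈ above r (m i) y := mem_above.2 (hlt i y hy hadj.ne.symm)
        refine eq_singleton_iff_unique_mem.2 ⟨h3, fun j hj => card_le_one.1 hc j hj i h3⟩
      have key : ∀ y ∈ S, ∀ y' ∈ S, (G.Adj (m i) y ∧ (above r (m i) y).card ≤ 1) →
          (G.Adj (m i) y' ∧ (above r (m i) y').card ≤ 1) → r i y < r i y' → False := by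
        intro y hyS y' hyS' hy hy' hlt'
        obtain ⟨l, hl, hl'⟩ := hS (m i) (hSA (hm i)) y' (hSA hyS') y (hSA hyS) hy'.1 hy.1.ne.symm (by
          rintro rfl
          exact lt_irrefl _ hlt')
        have : l ∈ above r (m i) y := mem_above.2 hl
        rw [hsing y hyS hy.1 hy.2, mem_singleton] at this
        rw [this] at hl'
        omega
      intro y hy y' hy'
      rw [mem_filter] at hy hy'
      by_contra hne'
      rcases lt_trichotomy (r i y) (r i y') with h | h | h
      · exact key y hy.1 y' hy'.1 hy.2.2.2 hy'.2.2.2 h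
      · exact hne' (hr _ y (hSA hy.1) y' (hSA hy'.1) h)
      · exact key y' hy'.1 y hy.1 hy'.2.2.2 hy.2.2.2 h
    -- the minimum for two orders
    have two : ∀ i j, i ≠ j → m i = m j →
        (S.filter fun w => m i ∈ A ∧ w ∈ A ∧ G.Adj (m i) w ∧
          (above r (m i) w).card ≤ 1).card = 0 := by
      intro i j hij hmij
      rw [card_eq_zero, filter_eq_empty_iff]
      rintro y hy ⟨-, -, hadj, hc⟩
      have hi : i ∈ above r (m i) y := mem_above.2 (hlt i y hy hadj.ne.symm)
      have hj : j ∈ above r (m i) y := by
        refine mem_above.2 ?_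
        rw [hmij]
        exact hlt j y hy (by rw [← hmij]; exact hadj.ne.symm)
      exact hij (card_le_one.1 hc i hi j hj)
    set f : V → ℕ := fun v => 2 - (S.filter fun w => v ∈ A ∧ w ∈ A ∧ G.Adj v w ∧
      (above r v w).card ≤ 1).card with hf
    have f1 : ∀ i, 1 ≤ f (m i) := by
      intro i
      have := one i
      simp only [hf]
      omega
    have f2 : ∀ i j, i ≠ j → m i = m j → 2 ≤ f (m i) := by
      intro i j hij hmij
      have := two i j hij hmij
      simp only [hf]
      omega
    have sub2 : ∀ a b, a ∈ S → b ∈ S → a ≠ b → f a + f b ≤ ∑ v ∈ S, f v := by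
      intro a b ha hb hab
      rw [← sum_pair hab]
      exact sum_le_sum_of_subset (insert_subset ha (singleton_subset_iff.2 hb))
    have sub3 : ∀ a b c, a ∈ S → b ∈ S → c ∈ S → a ≠ b → a ≠ c → b ≠ c →
        f a + (f b + f c) ≤ ∑ v ∈ S, f v := by
      intro a b c ha hb hc hab hac hbc
      rw [← sum_pair hbc, ← sum_insert (f := f) (s := {b, c}) (a := a) (by
        rw [mem_insert, mem_singleton]
        push Not
        exact ⟨hab, hac⟩)]
      exact sum_le_sum_of_subset (insert_subset ha (insert_subset hb (singleton_subset_iff.2 hc)))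
    change 3 ≤ ∑ v ∈ S, f v
    have g0 := f1 0
    have g1 := f1 1
    have g2 := f1 2
    by_cases h01 : m 0 = m 1
    · have g01 := f2 0 1 (by decide) h01
      by_cases h02 : m 0 = m 2
      · -- all equal
        obtain ⟨w, hw, hwx⟩ : ∃ w ∈ S, w ≠ m 0 := by
          by_contra hcon
          push Not at hcon
          have : S.card ≤ 1 := by
            rw [card_le_one]
            intro a ha b hb
            rw [hcon a ha, hcon b hb]
          omega
        have hall : ∀ i, r i (m 0) < r i w := by
          intro i
          have h3 : m i = m 0 := by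
            fin_cases i
            · rfl
            · exact h01.symm
            · exact h02.symm
          have h4 := hlt i w hw (by rw [h3]; exact hwx)
          rwa [h3] at h4
        have hfw : 1 ≤ f w := by
          have : (S.filter fun y => w ∈ A ∧ y ∈ A ∧ G.Adj w y ∧
              (above r w y).card ≤ 1).card ≤ 1 := by
            rw [card_le_one]
            have hx : ∀ y ∈ S, G.Adj w y → y = m 0 := by
              intro y hyS hy
              by_contra hne'
              obtain ⟨l, hl, -⟩ := hS w (hSA hw) y (hSA hyS) (m 0) (hSA (hm 0)) hy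
                (fun e => hwx e.symm) (fun e => hne' e.symm)
              have := hall l
              omega
            intro y hy y' hy'
            rw [mem_filter] at hy hy'
            rw [hx y hy.1 hy.2.2.2.1, hx y' hy'.1 hy'.2.2.2.1]
          simp only [hf]
          omega
        have := sub2 (m 0) w (hm 0) hw (fun e => hwx e.symm)
        omega
      · have := sub2 (m 0) (m 2) (hm 0) (hm 2) h02
        omega
    · by_cases h02 : m 0 = m 2
      · have g02 := f2 0 2 (by decide) h02
        have := sub2 (m 0) (m 1) (hm 0) (hm 1) h01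
        omega
      · by_cases h12 : m 1 = m 2
        · have g12 := f2 1 2 (by decide) h12
          have := sub2 (m 0) (m 1) (hm 0) (hm 1) h01
          omega
        · have := sub3 (m 0) (m 1) (m 2) (hm 0) (hm 1) (hm 2) h01 h02 h12
          omega
  have hne : ∀ u ∈ A, ∀ v ∈ A, u ≠ v → ∀ i, r i u ≠ r i v := fun u hu v hv huv i e =>
    huv (hr i u hu v hv e)
  refine ⟨fun x y => x ∈ A ∧ y ∈ A ∧ G.Adj x y ∧ (above r x y).card ≤ 1,
    fun _ _ => inferInstance, fun u v h => ⟨h.1, h.2.1, h.2.2.1⟩, ?_, ?_, main1, main2⟩
  · intro u hu v hv h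
    have := above_add (hne u hu v hv h.ne)
    by_cases h1 : (above r u v).card ≤ 1
    · exact Or.inl ⟨hu, hv, h, h1⟩
    · exact Or.inr ⟨hv, hu, h.symm, by omega⟩
  · rintro u v ⟨hu, hv, h, h1⟩ ⟨-, -, -, h2⟩
    have := above_add (hne u hu v hv h.ne)
    omega

/-- Adding a vertex with at most three neighbours. -/
theorem OriOn.add {G : SimpleGraph V} [DecidableRel G.Adj] {A : Finset V} {v : V} (hv : v ∈ A)
    (h : OriOn G (A.erase v)) (h3 : (A.filter fun w => G.Adj v w).card ≤ 3) : OriOn G A := by
  classical
  obtain ⟨o, _, h1, h2, hasym, hd, hS⟩ := h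
  have hno : ∀ u, ¬ o u v := fun u hu => (mem_erase.1 (h1 u v hu).2.1).1 rfl
  have hno' : ∀ u, ¬ o v u := fun u hu => (mem_erase.1 (h1 v u hu).1).1 rfl
  refine ⟨fun u w => o u w ∨ (u = v ∧ w ∈ A ∧ G.Adj v w), fun _ _ => inferInstance, ?_, ?_, ?_, ?_,
    ?_⟩
  · rintro u w (h | ⟨rfl, hw, h⟩)
    · obtain ⟨a, b, c⟩ := h1 u w h
      exact ⟨mem_of_mem_erase a, mem_of_mem_erase b, c⟩
    · exact ⟨hv, hw, h⟩
  · intro u hu w hw h
    by_cases huv : u = v
    · subst huv
      exact Or.inl (Or.inr ⟨rfl, hw, h⟩)
    · by_cases hwv : w = v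
      · subst hwv
        exact Or.inr (Or.inr ⟨rfl, hu, h.symm⟩)
      · rcases h2 u (mem_erase.2 ⟨huv, hu⟩) w (mem_erase.2 ⟨hwv, hw⟩) h with h | h
        · exact Or.inl (Or.inl h)
        · exact Or.inr (Or.inl h)
  · rintro u w (h | ⟨rfl, hw, h⟩) (h' | ⟨e, hw', h'⟩)
    · exact hasym u w h h'
    · subst e
      exact hno u h
    · exact hno w h'
    · subst e
      exact h.ne rfl
  · intro u
    by_cases huv : u = v
    · subst huv
      refine le_trans (card_le_card fun w hw => ?_) h3
      rw [mem_filter] at hw ⊢
      rcases hw.2 with h | h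
      · exact absurd h (hno' w)
      · exact ⟨hw.1, h.2.2⟩
    · refine le_trans (card_le_card fun w hw => ?_) (hd u)
      rw [mem_filter] at hw ⊢
      rcases hw.2 with h | h
      · exact ⟨(h1 u w h).2.1, h⟩
      · exact absurd h.1 huv
  · intro S hSA h2'
    by_cases hvS : v ∈ S
    · -- the terms of the other members of `S` do not change
      have e : ∀ u ∈ S.erase v,
          (S.filter fun w => o u w ∨ (u = v ∧ w ∈ A ∧ G.Adj v w)) =
          ((S.erase v).filter fun w => o u w) := by
        intro u hu
        ext w
        rw [mem_filter, mem_filter, mem_erase]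
        constructor
        · rintro ⟨hw, h | h⟩
          · exact ⟨⟨(mem_erase.1 (h1 u w h).2.1).1, hw⟩, h⟩
          · exact absurd h.1 (mem_erase.1 hu).1
        · rintro ⟨⟨-, hw⟩, h⟩
          exact ⟨hw, Or.inl h⟩
      rw [← add_sum_erase S _ hvS, sum_congr rfl fun u hu => by rw [e u hu]]
      by_cases hc : 2 ≤ (S.erase v).card
      · have := hS (S.erase v) (erase_subset_erase v hSA) hc
        omega
      · have hc1 : (S.erase v).card = 1 := by
          rw [card_erase_of_mem hvS] at hc ⊢
          omega
        obtain ⟨u, hu⟩ := card_eq_one.1 hc1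
        rw [hu, sum_singleton]
        have a1 : (({u} : Finset V).filter fun w => o u w).card = 0 := by
          rw [card_eq_zero, filter_eq_empty_iff]
          intro w hw h
          rw [mem_singleton] at hw
          subst hw
          exact hasym _ _ h h
        have a2 : (S.filter fun w => o v w ∨ (v = v ∧ w ∈ A ∧ G.Adj v w)).card ≤ 1 := by
          rw [← hc1]
          refine card_le_card fun w hw => ?_
          rw [mem_filter] at hw
          rw [mem_erase]
          refine ⟨?_, hw.1⟩
          rintro rfl
          rcases hw.2 with h | h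
          · exact hno' _ h
          · exact h.2.2.ne rfl
        rw [a1]
        beta_reduce
        omega
    · have e : ∀ u ∈ S, (S.filter fun w => o u w ∨ (u = v ∧ w ∈ A ∧ G.Adj v w)) =
          (S.filter fun w => o u w) := by
        intro u hu
        refine filter_congr fun w _ => ⟨?_, Or.inl⟩
        rintro (h | h)
        · exact h
        · exact absurd (h.1 ▸ hu) hvS
      rw [sum_congr rfl fun u hu => by rw [e u hu]]
      refine hS S (fun u hu => mem_erase.2 ⟨?_, hSA hu⟩) h2'
      rintro rfl
      exact hvS hu

/-- It suffices to orient the sets of minimum degree at least four. -/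
theorem ori_of_core {G : SimpleGraph V} [DecidableRel G.Adj] : ∀ (n : ℕ) (A : Finset V),
    A.card = n →
    (∀ S ⊆ A, (∀ v ∈ S, 4 ≤ (S.filter fun w => G.Adj v w).card) → OriOn G S) → OriOn G A := by
  intro n
  induction n with
  | zero =>
    intro A hA h
    refine h A (Subset.refl A) fun v hv => ?_
    rw [card_eq_zero.1 hA] at hv
    exact absurd hv (notMem_empty v)
  | succ n ih =>
    intro A hA h
    by_cases h3 : ∀ v ∈ A, 4 ≤ (A.filter fun w => G.Adj v w).card
    · exact h A (Subset.refl A) h3
    · push Not at h3
      obtain ⟨v, hv, hd⟩ := h3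
      refine OriOn.add hv (ih _ ?_ fun S hS => h S (hS.trans (erase_subset _ _))) (by omega)
      rw [card_erase_of_mem hv]
      omega

end Pool.Agent.TBS
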