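import Pool.Agent.TB.Koenig

/-!
# Labels from a 3-colouring

`edge_col`: apply `Pool.Agent.TB.koenig` (`k = 3`) to the bipartite multigraph with edges
`E = {(u, v) | u ~ v, c u < c v}`, left ends `(u, c v)` and right ends `(v, c u)` in `V × Fin 3`.
`col u v` is the colour of the edge `(u, v)` or `(v, u)`.

`colour_labels`: `α u v = if col u v = 0 then c u else c v`.
* Ends: `col` is symmetric and `c u ≠ c v`.
* Label `c u` at `u`: the neighbours `v` with `col u v = 0`, at most one of each of the two other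
  colours.  Label `a ≠ c u` at `u`: the neighbours `v` of colour `a` with `col u v ≠ 0`, at most two.
-/

set_option autoImplicit false

namespace Pool.Agent.TBS

open Finset

theorem edge_col {V : Type} [Fintype V] [DecidableEq V] (G : SimpleGraph V) [DecidableRel G.Adj]
    (c : V → Fin 3) (hc : ∀ u v, G.Adj u v → c u ≠ c v)
    (h3 : ∀ v a, (univ.filter fun u => G.Adj v u ∧ c u = a).card ≤ 3) :
    ∃ col : V → V → Fin 3, (∀ u v, col u v = col v u) ∧
      ∀ u v v', G.Adj u v → G.Adj u v' → c v = c v' → col u v = col u v' → v = v' := by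
  classical
  let E : Type := {p : V × V // G.Adj p.1 p.2 ∧ c p.1 < c p.2}
  let l : E → V × Fin 3 := fun e => (e.1.1, c e.1.2)
  let r : E → V × Fin 3 := fun e => (e.1.2, c e.1.1)
  have hl : ∀ x, (univ.filter fun e => l e = x).card ≤ 3 := by
    intro x
    refine le_trans ?_ (h3 x.1 x.2)
    refine card_le_card_of_injOn (fun e => e.1.2) ?_ ?_
    · intro e he
      simp only [coe_filter, mem_univ, true_and, Set.mem_ofPred_eq] at he ⊢
      rw [← he]
      exact ⟨e.2.1, rfl⟩
    · intro e he e' he' h
      simp only [coe_filter, mem_univ, true_and, Set.mem_ofPred_eq] at he he'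
      have h0 : l e = l e' := he.trans he'.symm
      have h1 : e.1.1 = e'.1.1 := congrArg (fun t : V × Fin 3 => t.1) h0
      exact Subtype.ext (Prod.ext h1 h)
  have hr : ∀ x, (univ.filter fun e => r e = x).card ≤ 3 := by
    intro x
    refine le_trans ?_ (h3 x.1 x.2)
    refine card_le_card_of_injOn (fun e => e.1.1) ?_ ?_
    · intro e he
      simp only [coe_filter, mem_univ, true_and, Set.mem_ofPred_eq] at he ⊢
      rw [← he]
      exact ⟨e.2.1.symm, rfl⟩
    · intro e he e' he' h
      simp only [coe_filter, mem_univ, true_and, Set.mem_ofPred_eq] at he he'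
      have h0 : r e = r e' := he.trans he'.symm
      have h1 : e.1.2 = e'.1.2 := congrArg (fun t : V × Fin 3 => t.1) h0
      exact Subtype.ext (Prod.ext h h1)
  obtain ⟨k, hk1, hk2⟩ := Pool.Agent.TB.koenig 3 E (V × Fin 3) (V × Fin 3) l r hl hr
  let col : V → V → Fin 3 := fun u v =>
    if h : G.Adj u v ∧ c u < c v then k ⟨(u, v), h⟩
    else if h : G.Adj v u ∧ c v < c u then k ⟨(v, u), h⟩ else 0
  have col1 : ∀ u v (h : G.Adj u v ∧ c u < c v), col u v = k ⟨(u, v), h⟩ := fun u v h => dif_pos h
  have col2 : ∀ u v (h : G.Adj v u ∧ c v < c u), col u v = k ⟨(v, u), h⟩ := by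
    intro u v h
    have h' : ¬ (G.Adj u v ∧ c u < c v) := fun h' => lt_asymm h.2 h'.2
    change (if h : G.Adj u v ∧ c u < c v then k ⟨(u, v), h⟩
      else if h : G.Adj v u ∧ c v < c u then k ⟨(v, u), h⟩ else 0) = _
    rw [dif_neg h', dif_pos h]
  have col3 : ∀ u v, ¬ (G.Adj u v ∧ c u < c v) → ¬ (G.Adj v u ∧ c v < c u) → col u v = 0 := by
    intro u v h h'
    change (if h : G.Adj u v ∧ c u < c v then k ⟨(u, v), h⟩
      else if h : G.Adj v u ∧ c v < c u then k ⟨(v, u), h⟩ else 0) = _
    rw [dif_neg h, dif_neg h']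
  refine ⟨col, ?_, ?_⟩
  · intro u v
    by_cases h : G.Adj u v ∧ c u < c v
    · rw [col1 u v h, col2 v u h]
    · by_cases h' : G.Adj v u ∧ c v < c u
      · rw [col2 u v h', col1 v u h']
      · rw [col3 u v h h', col3 v u h' h]
  · intro u v v' a a' e h
    rcases lt_or_gt_of_ne (hc u v a) with h1 | h1
    · have h1' : c u < c v' := e ▸ h1
      rw [col1 u v ⟨a, h1⟩, col1 u v' ⟨a', h1'⟩] at h
      have h2 := hk1 ⟨(u, v), ⟨a, h1⟩⟩ ⟨(u, v'), ⟨a', h1'⟩⟩ (Prod.ext rfl e) h
      exact congrArg (fun t : E => t.1.2) h2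
    · have h1' : c v' < c u := e ▸ h1
      rw [col2 u v ⟨a.symm, h1⟩, col2 u v' ⟨a'.symm, h1'⟩] at h
      have h2 := hk2 ⟨(v, u), ⟨a.symm, h1⟩⟩ ⟨(v', u), ⟨a'.symm, h1'⟩⟩ (Prod.ext rfl e) h
      exact congrArg (fun t : E => t.1.1) h2

theorem colour_labels {V : Type} [Fintype V] [DecidableEq V] (G : SimpleGraph V)
    [DecidableRel G.Adj] (c : V → Fin 3) (hc : ∀ u v, G.Adj u v → c u ≠ c v)
    (h3 : ∀ v a, (univ.filter fun u => G.Adj v u ∧ c u = a).card ≤ 3) :
    ∃ α : V → V → Fin 3, (∀ u v, G.Adj u v → α u v ≠ α v u) ∧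
      (∀ u a, (univ.filter fun v => G.Adj u v ∧ α u v = a).card ≤ 2) ∧
      (∀ u v, G.Adj u v → (α u v = c u ∧ α v u = c v) ∨ (α u v = c v ∧ α v u = c u)) := by
  classical
  obtain ⟨col, hs, hcol⟩ := edge_col G c hc h3
  have key : ∀ u v, G.Adj u v →
      ((if col u v = 0 then c u else c v) = c u ∧ (if col v u = 0 then c v else c u) = c v) ∨
      ((if col u v = 0 then c u else c v) = c v ∧ (if col v u = 0 then c v else c u) = c u) := by
    intro u v _
    rw [hs v u]
    by_cases h : col u v = 0
    · left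
      rw [if_pos h, if_pos h]
      exact ⟨rfl, rfl⟩
    · right
      rw [if_neg h, if_neg h]
      exact ⟨rfl, rfl⟩
  refine ⟨fun u v => if col u v = 0 then c u else c v, ?_, ?_, key⟩
  · intro u v a
    rcases key u v a with ⟨h1, h2⟩ | ⟨h1, h2⟩
    · change (if col u v = 0 then c u else c v) ≠ (if col v u = 0 then c v else c u)
      rw [h1, h2]
      exact hc u v a
    · change (if col u v = 0 then c u else c v) ≠ (if col v u = 0 then c v else c u)
      rw [h1, h2]
      exact (hc u v a).symm
  · intro u a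
    have c2 : ∀ x : Fin 3, ((univ : Finset (Fin 3)).erase x).card = 2 := by
      intro x
      rw [card_erase_of_mem (mem_univ _)]
      rfl
    by_cases ha : a = c u
    · subst ha
      refine le_trans (card_le_card_of_injOn (t := (univ : Finset (Fin 3)).erase (c u)) c ?_ ?_) (c2 (c u)).le
      · intro v hv
        simp only [coe_filter, mem_univ, true_and, Set.mem_ofPred_eq] at hv
        rw [mem_coe, mem_erase]
        exact ⟨(hc u v hv.1).symm, mem_univ _⟩
      · intro v hv v' hv' h
        simp only [coe_filter, mem_univ, true_and, Set.mem_ofPred_eq] at hv hv'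
        have z : ∀ w, G.Adj u w → (if col u w = 0 then c u else c w) = c u → col u w = 0 := by
          intro w a hw
          by_contra h'
          rw [if_neg h'] at hw
          exact hc u w a hw.symm
        exact hcol u v v' hv.1 hv'.1 h ((z v hv.1 hv.2).trans (z v' hv'.1 hv'.2).symm)
    · have z : ∀ w, (if col u w = 0 then c u else c w) = a → col u w ≠ 0 ∧ c w = a := by
        intro w hw
        by_cases h' : col u w = 0
        · rw [if_pos h'] at hw
          exact absurd hw.symm ha
        · rw [if_neg h'] at hw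
          exact ⟨h', hw⟩
      refine le_trans (card_le_card_of_injOn (t := (univ : Finset (Fin 3)).erase 0) (col u) ?_ ?_) (c2 0).le
      · intro v hv
        simp only [coe_filter, mem_univ, true_and, Set.mem_ofPred_eq] at hv
        rw [mem_coe, mem_erase]
        exact ⟨(z v hv.2).1, mem_univ _⟩
      · intro v hv v' hv' h
        simp only [coe_filter, mem_univ, true_and, Set.mem_ofPred_eq] at hv hv'
        exact hcol u v v' hv.1 hv'.1 ((z v hv.2).2.trans (z v' hv'.2).2.symm) h

end Pool.Agent.TBS
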