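import Pool.Agent.TBS.Slot

/-!
# Arrangements of six slots  (MODULE Arr)

`f` is an involution of the six slots, its fixed points are the ordinary slots, the others are loops
(paired by `f`).  Put the loops pairwise at the end and `R` first.
-/

set_option autoImplicit false

namespace Pool.Agent.TBS

open Finset

/-- A permutation with six given distinct values. -/
theorem mkPerm6 (a b c d e g : Fin 6) (h : [a, b, c, d, e, g].Nodup) :
    ∃ π : Equiv.Perm (Fin 6), π 0 = a ∧ π 1 = b ∧ π 2 = c ∧ π 3 = d ∧ π 4 = e ∧ π 5 = g := by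
  have hinj : Function.Injective (![a, b, c, d, e, g] : Fin 6 → Fin 6) := by
    simp only [List.nodup_cons, List.mem_cons, List.not_mem_nil, or_false, not_or,
      List.nodup_nil, and_true] at h
    obtain ⟨⟨h1, h2, h3, h4, h5⟩, ⟨h6, h7, h8, h9⟩, ⟨h10, h11, h12⟩, ⟨h13, h14⟩, h15, -⟩ := h
    intro i j hij
    fin_cases i <;> fin_cases j <;> first | rfl | (exfalso; simp at hij; first | exact h1 hij | exact h2 hij | exact h3 hij | exact h4 hij | exact h5 hij | exact h6 hij | exact h7 hij | exact h8 hij | exact h9 hij | exact h10 hij | exact h11 hij | exact h12 hij | exact h13 hij | exact h14 hij | exact h15 hij | exact h1 hij.symm | exact h2 hij.symm | exact h3 hij.symm | exact h4 hij.symm | exact h5 hij.symm | exact h6 hij.symm | exact h7 hij.symm | exact h8 hij.symm | exact h9 hij.symm | exact h10 hij.symm | exact h11 hij.symm | exact h12 hij.symm | exact h13 hij.symm | exact h14 hij.symm | exact h15 hij.symm)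
  refine ⟨Equiv.ofBijective _ (Finite.injective_iff_bijective.mp hinj), ?_, ?_, ?_, ?_, ?_, ?_⟩ <;>
    rfl

theorem arr3 (f : Fin 6 → Fin 6) (hf : ∀ i, f (f i) = i) (R : Finset (Fin 6))
    (hR : ∀ i ∈ R, f i = i) (h3 : R.card ≤ 3) :
    ∃ π : Equiv.Perm (Fin 6), ∃ n : ℕ, n ≤ 3 ∧ (∀ i : Fin 6, i.val < 2 * n → f (π i) = π i) ∧
      (∀ i : Fin 6, 2 * n ≤ i.val → f (π i) = π (sw i)) ∧ ∀ i, π i ∈ R → i.val < 3 := by
  classical
  by_cases h0 : ∀ i, f i = i
  · obtain ⟨R', hRR, -, hc⟩ := Finset.exists_subsuperset_card_eq (Finset.subset_univ R) h3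
      (by simp : 3 ≤ (univ : Finset (Fin 6)).card)
    obtain ⟨a, b, c, hab, hac, hbc, rfl⟩ := Finset.card_eq_three.mp hc
    have hc2 : ((univ : Finset (Fin 6)) \ {a, b, c}).card = 3 := by
      rw [Finset.card_sdiff_of_subset (Finset.subset_univ _), hc]; rfl
    obtain ⟨d, e, g, hde, hdg, heg, hS⟩ := Finset.card_eq_three.mp hc2
    have hd : d ∈ (univ : Finset (Fin 6)) \ {a, b, c} := by rw [hS]; simp
    have he : e ∈ (univ : Finset (Fin 6)) \ {a, b, c} := by rw [hS]; simp
    have hg : g ∈ (univ : Finset (Fin 6)) \ {a, b, c} := by rw [hS]; simp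
    simp only [Finset.mem_sdiff, Finset.mem_univ, true_and, Finset.mem_insert,
      Finset.mem_singleton, not_or] at hd he hg
    obtain ⟨π, p0, p1, p2, p3, p4, p5⟩ := mkPerm6 a b c d e g (by
      simp only [List.nodup_cons, List.mem_cons, List.not_mem_nil, or_false, not_or,
        List.nodup_nil, and_true]
      refine ⟨⟨hab, hac, Ne.symm hd.1, Ne.symm he.1, Ne.symm hg.1⟩,
        ⟨hbc, Ne.symm hd.2.1, Ne.symm he.2.1, Ne.symm hg.2.1⟩,
        ⟨Ne.symm hd.2.2, Ne.symm he.2.2, Ne.symm hg.2.2⟩, ⟨hde, hdg⟩, heg, ?_⟩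
      exact not_false)
    refine ⟨π, 3, le_refl _, fun i _ => h0 _, fun i hi => ?_, fun i hi => ?_⟩
    · exact absurd hi (by have := i.2; omega)
    · have hi2 := hRR hi
      simp only [Finset.mem_insert, Finset.mem_singleton] at hi2
      rw [← p0, ← p1, ← p2] at hi2
      rcases hi2 with h | h | h <;> (rw [π.injective h]; decide)
  · push Not at h0
    obtain ⟨x, hx⟩ := h0
    have hfx : f (f x) = x := hf x
    have hxS : ∀ i, i ∈ R → i ≠ x ∧ i ≠ f x := by
      intro i hi
      refine ⟨?_, ?_⟩
      · rintro rfl; exact hx (hR _ hi)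
      · rintro rfl
        have := hR _ hi
        rw [hf] at this
        exact hx this.symm
    set S1 : Finset (Fin 6) := univ \ {x, f x} with hS1
    have hS1c : S1.card = 4 := by
      rw [hS1, Finset.card_sdiff_of_subset (Finset.subset_univ _),
        Finset.card_pair (Ne.symm hx)]; rfl
    have hmem1 : ∀ i, i ∈ S1 ↔ i ≠ x ∧ i ≠ f x := by
      intro i; simp [hS1]
    have hRS1 : R ⊆ S1 := fun i hi => (hmem1 i).2 (hxS i hi)
    by_cases h1 : ∀ i ∈ S1, f i = i
    · obtain ⟨R', hRR, hRS, hc⟩ := Finset.exists_subsuperset_card_eq hRS1 h3 (by omega)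
      obtain ⟨a, b, c, hab, hac, hbc, rfl⟩ := Finset.card_eq_three.mp hc
      have hc2 : (S1 \ {a, b, c}).card = 1 := by
        rw [Finset.card_sdiff_of_subset hRS, hc, hS1c]
      obtain ⟨d, hS⟩ := Finset.card_eq_one.mp hc2
      have hd : d ∈ S1 \ {a, b, c} := by rw [hS]; simp
      simp only [Finset.mem_sdiff, Finset.mem_insert, Finset.mem_singleton, not_or] at hd
      have ha1 : a ∈ S1 := hRS (by simp)
      have hb1 : b ∈ S1 := hRS (by simp)
      have hc1 : c ∈ S1 := hRS (by simp)
      have ha := (hmem1 a).1 ha1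
      have hb := (hmem1 b).1 hb1
      have hc' := (hmem1 c).1 hc1
      have hd' := (hmem1 d).1 hd.1
      obtain ⟨π, p0, p1, p2, p3, p4, p5⟩ := mkPerm6 a b c d x (f x) (by
        simp only [List.nodup_cons, List.mem_cons, List.not_mem_nil, or_false, not_or,
          List.nodup_nil, and_true]
        refine ⟨⟨hab, hac, Ne.symm hd.2.1, ha.1, ha.2⟩, ⟨hbc, Ne.symm hd.2.2.1, hb.1, hb.2⟩,
          ⟨Ne.symm hd.2.2.2, hc'.1, hc'.2⟩, ⟨hd'.1, hd'.2⟩, Ne.symm hx, ?_⟩
        exact not_false)
      refine ⟨π, 2, by norm_num, fun i hi => ?_, fun i hi => ?_, fun i hi => ?_⟩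
      · fin_cases i
        · simp only [Fin.zero_eta, p0]; exact h1 a ha1
        · simp only [Fin.mk_one, p1]; exact h1 b hb1
        · simp only [Fin.reduceFinMk, p2]; exact h1 c hc1
        · simp only [Fin.reduceFinMk, p3]; exact h1 d hd.1
        · simp at hi
        · simp at hi
      · fin_cases i
        · simp at hi
        · simp at hi
        · simp at hi
        · simp at hi
        · show f (π 4) = π 5
          rw [p4, p5]
        · show f (π 5) = π 4
          rw [p4, p5, hf]
      · have hi2 := hRR hi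
        simp only [Finset.mem_insert, Finset.mem_singleton] at hi2
        rw [← p0, ← p1, ← p2] at hi2
        rcases hi2 with h | h | h <;> (rw [π.injective h]; decide)
    · push Not at h1
      obtain ⟨y, hyS, hy⟩ := h1
      have hy1 := (hmem1 y).1 hyS
      have hfy1 : f y ≠ x ∧ f y ≠ f x := by
        refine ⟨?_, ?_⟩
        · intro h; apply hy1.2; rw [← h, hf]
        · intro h; apply hy1.1; rw [← hf y, h, hf]
      have hyR : ∀ i, i ∈ R → i ≠ y ∧ i ≠ f y := by
        intro i hi
        refine ⟨?_, ?_⟩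
        · rintro rfl; exact hy (hR _ hi)
        · rintro rfl
          have := hR _ hi
          rw [hf] at this
          exact hy this.symm
      set S2 : Finset (Fin 6) := S1 \ {y, f y} with hS2
      have hsub : ({y, f y} : Finset (Fin 6)) ⊆ S1 := by
        intro i hi
        simp only [Finset.mem_insert, Finset.mem_singleton] at hi
        rcases hi with rfl | rfl
        · exact hyS
        · exact (hmem1 _).2 hfy1
      have hS2c : S2.card = 2 := by
        rw [hS2, Finset.card_sdiff_of_subset hsub, Finset.card_pair (Ne.symm hy), hS1c]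
      obtain ⟨a, b, hab, hSab⟩ := Finset.card_eq_two.mp hS2c
      have ha2 : a ∈ S2 := by rw [hSab]; simp
      have hb2 : b ∈ S2 := by rw [hSab]; simp
      have hmem2 : ∀ i, i ∈ S2 ↔ (i ≠ x ∧ i ≠ f x) ∧ i ≠ y ∧ i ≠ f y := by
        intro i
        rw [hS2, Finset.mem_sdiff, hmem1]
        simp
      have ha := (hmem2 a).1 ha2
      have hb := (hmem2 b).1 hb2
      obtain ⟨π, p0, p1, p2, p3, p4, p5⟩ := mkPerm6 a b y (f y) x (f x) (by
        simp only [List.nodup_cons, List.mem_cons, List.not_mem_nil, or_false, not_or,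
          List.nodup_nil, and_true]
        refine ⟨⟨hab, ha.2.1, ha.2.2, ha.1.1, ha.1.2⟩, ⟨hb.2.1, hb.2.2, hb.1.1, hb.1.2⟩,
          ⟨Ne.symm hy, hy1.1, hy1.2⟩, ⟨hfy1.1, hfy1.2⟩, Ne.symm hx, ?_⟩
        exact not_false)
      have hRin : ∀ i, π i ∈ R → i.val < 3 := by
        intro i hi
        have h4 : π i ∈ S2 := (hmem2 _).2 ⟨hxS _ hi, hyR _ hi⟩
        rw [hSab] at h4
        simp only [Finset.mem_insert, Finset.mem_singleton] at h4
        rw [← p0, ← p1] at h4
        rcases h4 with h | h <;> (rw [π.injective h]; decide)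
      by_cases h2 : f a = a
      · have hfb : f b = b := by
          by_contra hne
          have h5 : f b ∈ S2 := by
            refine (hmem2 _).2 ⟨⟨?_, ?_⟩, ?_, ?_⟩
            · intro h; apply hb.1.2; rw [← h, hf]
            · intro h; apply hb.1.1; rw [← hf b, h, hf]
            · intro h; apply hb.2.2; rw [← h, hf]
            · intro h; apply hb.2.1; rw [← hf b, h, hf]
          rw [hSab] at h5
          simp only [Finset.mem_insert, Finset.mem_singleton] at h5
          rcases h5 with h5 | h5
          · apply hab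
            rw [← h2, ← h5, hf]
          · exact hne h5
        refine ⟨π, 1, by norm_num, fun i hi => ?_, fun i hi => ?_, hRin⟩
        · fin_cases i
          · simp only [Fin.zero_eta, p0]; exact h2
          · simp only [Fin.mk_one, p1]; exact hfb
          · simp at hi
          · simp at hi
          · simp at hi
          · simp at hi
        · fin_cases i
          · simp at hi
          · simp at hi
          · show f (π 2) = π 3
            rw [p2, p3]
          · show f (π 3) = π 2
            rw [p2, p3, hf]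
          · show f (π 4) = π 5
            rw [p4, p5]
          · show f (π 5) = π 4
            rw [p4, p5, hf]
      · have hfa : f a = b := by
          have h5 : f a ∈ S2 := by
            refine (hmem2 _).2 ⟨⟨?_, ?_⟩, ?_, ?_⟩
            · intro h; apply ha.1.2; rw [← h, hf]
            · intro h; apply ha.1.1; rw [← hf a, h, hf]
            · intro h; apply ha.2.2; rw [← h, hf]
            · intro h; apply ha.2.1; rw [← hf a, h, hf]
          rw [hSab] at h5
          simp only [Finset.mem_insert, Finset.mem_singleton] at h5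
          rcases h5 with h5 | h5
          · exact absurd h5 h2
          · exact h5
        refine ⟨π, 0, by norm_num, fun i hi => ?_, fun i _ => ?_, hRin⟩
        · exact absurd hi (by omega)
        · fin_cases i
          · show f (π 0) = π 1
            rw [p0, p1, hfa]
          · show f (π 1) = π 0
            rw [p0, p1, ← hfa, hf]
          · show f (π 2) = π 3
            rw [p2, p3]
          · show f (π 3) = π 2
            rw [p2, p3, hf]
          · show f (π 4) = π 5
            rw [p4, p5]
          · show f (π 5) = π 4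
            rw [p4, p5, hf]

theorem arr4 (f : Fin 6 → Fin 6) (hf : ∀ i, f (f i) = i) (s t p q : Fin 6)
    (hst : s ≠ t) (hsp : s ≠ p) (hsq : s ≠ q) (htp : t ≠ p) (htq : t ≠ q) (hpq : p ≠ q)
    (hs : f s = s) (ht : f t = t) (hp : f p = p) (hq : f q = q) :
    ∃ π : Equiv.Perm (Fin 6), ∃ n : ℕ, (n = 2 ∨ n = 3) ∧ π 0 = s ∧ π 1 = t ∧ π 2 = p ∧ π 3 = q ∧
      (∀ i : Fin 6, i.val < 2 * n → f (π i) = π i) ∧
      (∀ i : Fin 6, 2 * n ≤ i.val → f (π i) = π (sw i)) := by
  classical
  have hc4 : ({s, t, p, q} : Finset (Fin 6)).card = 4 := by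
    rw [Finset.card_insert_of_notMem, Finset.card_insert_of_notMem, Finset.card_pair hpq]
    · simp [htp, htq]
    · simp [hst, hsp, hsq]
  have hc2 : ((univ : Finset (Fin 6)) \ {s, t, p, q}).card = 2 := by
    rw [Finset.card_sdiff_of_subset (Finset.subset_univ _), hc4]; rfl
  obtain ⟨x, y, hxy, hS⟩ := Finset.card_eq_two.mp hc2
  have hmem : ∀ i, i ∈ (univ : Finset (Fin 6)) \ {s, t, p, q} ↔ i ≠ s ∧ i ≠ t ∧ i ≠ p ∧ i ≠ q := by
    intro i; simp
  have hx := (hmem x).1 (by rw [hS]; simp)
  have hy := (hmem y).1 (by rw [hS]; simp)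
  have hout : ∀ i, (i ≠ s ∧ i ≠ t ∧ i ≠ p ∧ i ≠ q) → f i = x ∨ f i = y := by
    intro i hi
    have h5 : f i ∈ (univ : Finset (Fin 6)) \ {s, t, p, q} := by
      refine (hmem _).2 ⟨?_, ?_, ?_, ?_⟩
      · intro h; apply hi.1; rw [← hf i, h, hs]
      · intro h; apply hi.2.1; rw [← hf i, h, ht]
      · intro h; apply hi.2.2.1; rw [← hf i, h, hp]
      · intro h; apply hi.2.2.2; rw [← hf i, h, hq]
    rw [hS] at h5
    simpa using h5
  obtain ⟨π, p0, p1, p2, p3, p4, p5⟩ := mkPerm6 s t p q x y (by
    simp only [List.nodup_cons, List.mem_cons, List.not_mem_nil, or_false, not_or,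
      List.nodup_nil, and_true]
    refine ⟨⟨hst, hsp, hsq, Ne.symm hx.1, Ne.symm hy.1⟩, ⟨htp, htq, Ne.symm hx.2.1,
      Ne.symm hy.2.1⟩, ⟨hpq, Ne.symm hx.2.2.1, Ne.symm hy.2.2.1⟩, ⟨Ne.symm hx.2.2.2,
      Ne.symm hy.2.2.2⟩, hxy, ?_⟩
    exact not_false)
  rcases hout x hx with h | h
  · have hfy : f y = y := by
      rcases hout y hy with h' | h'
      · exfalso; apply hxy; rw [← hf y, h', h]
      · exact h'
    refine ⟨π, 3, Or.inr rfl, p0, p1, p2, p3, fun i _ => ?_, fun i hi => ?_⟩
    · fin_cases i
      · simp only [Fin.zero_eta, p0]; exact hs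
      · simp only [Fin.mk_one, p1]; exact ht
      · simp only [Fin.reduceFinMk, p2]; exact hp
      · simp only [Fin.reduceFinMk, p3]; exact hq
      · simp only [Fin.reduceFinMk, p4]; exact h
      · simp only [Fin.reduceFinMk, p5]; exact hfy
    · exact absurd hi (by have := i.2; omega)
  · have hfy : f y = x := by rw [← h, hf]
    refine ⟨π, 2, Or.inl rfl, p0, p1, p2, p3, fun i hi => ?_, fun i hi => ?_⟩
    · fin_cases i
      · simp only [Fin.zero_eta, p0]; exact hs
      · simp only [Fin.mk_one, p1]; exact ht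
      · simp only [Fin.reduceFinMk, p2]; exact hp
      · simp only [Fin.reduceFinMk, p3]; exact hq
      · simp at hi
      · simp at hi
    · fin_cases i
      · simp at hi
      · simp at hi
      · simp at hi
      · simp at hi
      · show f (π 4) = π 5
        rw [p4, p5, h]
      · show f (π 5) = π 4
        rw [p4, p5, hfy]

end Pool.Agent.TBS
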