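import Mathlib

/-!
# Sparse graphs: the function `F S = 5 (|S| - 1) - 2 e(S)`

`cr G S T` is the number of pairs `(x, y)`, `x` in `S`, `y` in `T`, which are adjacent;
`twoE G S = cr G S S` is twice the number of edges inside `S`.
`Cls A G`: every nonempty `S` inside `A` has `2 e(S) <= 5 (|S| - 1)` and is not a `K_5`.
-/

set_option autoImplicit false

namespace Pool.Agent.TBS

open Finset

variable {V : Type} [DecidableEq V]

open Classical in
/-- Number of adjacent pairs between `S` and `T`. -/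
noncomputable def cr (G : SimpleGraph V) (S T : Finset V) : ℕ :=
  ∑ x ∈ S, (T.filter fun y => G.Adj x y).card

/-- Twice the number of edges inside `S`. -/
noncomputable def twoE (G : SimpleGraph V) (S : Finset V) : ℕ := cr G S S

/-- `5 (|S| - 1) - 2 e(S)`. -/
noncomputable def F (G : SimpleGraph V) (S : Finset V) : ℤ := 5 * (S.card : ℤ) - 5 - twoE G S

/-- The class: `2 e(S) <= 5 (|S| - 1)` for all nonempty `S` inside `A`, and no `K_5`. -/
def Cls (A : Finset V) (G : SimpleGraph V) : Prop :=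
  ∀ S, S ⊆ A → S.Nonempty → twoE G S + 5 ≤ 5 * S.card ∧ (S.card = 5 → twoE G S < 20)

variable (G : SimpleGraph V)

theorem cr_union_right (S T U : Finset V) (h : Disjoint T U) :
    cr G S (T ∪ U) = cr G S T + cr G S U := by
  classical
  unfold cr
  rw [← sum_add_distrib]
  refine sum_congr rfl fun x _ => ?_
  rw [filter_union, card_union_of_disjoint]
  exact disjoint_filter_filter h

theorem cr_union_left (S T U : Finset V) (h : Disjoint S T) :
    cr G (S ∪ T) U = cr G S U + cr G T U := by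
  classical
  unfold cr
  rw [sum_union h]

theorem cr_eq (S T : Finset V) :
    cr G S T = ∑ x ∈ S, ∑ y ∈ T, (open Classical in if G.Adj x y then 1 else 0) := by
  classical
  unfold cr
  refine sum_congr rfl fun x _ => ?_
  rw [card_filter]

theorem cr_comm (S T : Finset V) : cr G S T = cr G T S := by
  classical
  rw [cr_eq, cr_eq, sum_comm]
  refine sum_congr rfl fun x _ => sum_congr rfl fun y _ => ?_
  simp only [G.adj_comm]

theorem cr_mono {S T S' T' : Finset V} (hS : S ⊆ S') (hT : T ⊆ T') : cr G S T ≤ cr G S' T' := by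
  classical
  unfold cr
  calc ∑ x ∈ S, (T.filter fun y => G.Adj x y).card
      ≤ ∑ x ∈ S, (T'.filter fun y => G.Adj x y).card :=
        sum_le_sum fun x _ => card_le_card (filter_subset_filter _ hT)
    _ ≤ ∑ x ∈ S', (T'.filter fun y => G.Adj x y).card :=
        sum_le_sum_of_subset hS

/-- One adjacent pair. -/
theorem cr_one {S T : Finset V} {x y : V} (hx : x ∈ S) (hy : y ∈ T) (h : G.Adj x y) :
    1 ≤ cr G S T := by
  classical
  have h1 : cr G {x} {y} ≤ cr G S T := cr_mono G (by simpa using hx) (by simpa using hy)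
  have h2 : cr G {x} {y} = 1 := by simp [cr, filter_singleton, h]
  omega

/-- Two different adjacent pairs. -/
theorem cr_two {S T : Finset V} {x y x' y' : V} (hx : x ∈ S) (hy : y ∈ T) (h : G.Adj x y)
    (hx' : x' ∈ S) (hy' : y' ∈ T) (h' : G.Adj x' y') (hne : x ≠ x' ∨ y ≠ y') :
    2 ≤ cr G S T := by
  classical
  have key : ((S ×ˢ T).filter fun p : V × V => G.Adj p.1 p.2).card = cr G S T := by
    unfold cr
    rw [card_filter, sum_product]
    refine sum_congr rfl fun a _ => ?_
    rw [card_filter]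
  rw [← key]
  have : ({(x, y), (x', y')} : Finset (V × V)) ⊆
      (S ×ˢ T).filter fun p : V × V => G.Adj p.1 p.2 := by
    intro p hp
    simp only [mem_insert, mem_singleton] at hp
    rcases hp with rfl | rfl <;> simp [hx, hy, h, hx', hy', h']
  have h2 : ({(x, y), (x', y')} : Finset (V × V)).card = 2 := by
    rw [card_pair]
    intro he
    simp only [Prod.mk.injEq] at he
    rcases hne with h | h
    · exact h he.1
    · exact h he.2
  calc 2 = ({(x, y), (x', y')} : Finset (V × V)).card := h2.symm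
    _ ≤ _ := card_le_card this

/-- Submodularity with the exact error term. -/
theorem twoE_sm (S T : Finset V) :
    twoE G (S ∪ T) + twoE G (S ∩ T) = twoE G S + twoE G T + 2 * cr G (S \ T) (T \ S) := by
  classical
  unfold twoE
  have hS : S = (S ∩ T) ∪ (S \ T) := by
    ext x; simp only [mem_union, mem_inter, mem_sdiff]; tauto
  have hT : T = (S ∩ T) ∪ (T \ S) := by
    ext x; simp only [mem_union, mem_inter, mem_sdiff]; tauto
  have hU : S ∪ T = (S ∩ T) ∪ ((S \ T) ∪ (T \ S)) := by
    ext x; simp only [mem_union, mem_inter, mem_sdiff]; tauto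
  have dIP : Disjoint (S ∩ T) (S \ T) := by
    rw [disjoint_left]; intro x; simp only [mem_inter, mem_sdiff]; tauto
  have dIQ : Disjoint (S ∩ T) (T \ S) := by
    rw [disjoint_left]; intro x; simp only [mem_inter, mem_sdiff]; tauto
  have dPQ : Disjoint (S \ T) (T \ S) := by
    rw [disjoint_left]; intro x; simp only [mem_sdiff]; tauto
  have dIPQ : Disjoint (S ∩ T) ((S \ T) ∪ (T \ S)) := by
    rw [disjoint_union_right]; exact ⟨dIP, dIQ⟩
  generalize S ∩ T = I at *
  generalize S \ T = P at *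
  generalize T \ S = Q at *
  rw [hU, hS, hT]
  have c1 : cr G P I = cr G I P := cr_comm G _ _
  have c2 : cr G Q I = cr G I Q := cr_comm G _ _
  have c3 : cr G Q P = cr G P Q := cr_comm G _ _
  simp only [cr_union_left G _ _ _ dIPQ, cr_union_right G _ _ _ dIPQ, cr_union_left G _ _ _ dPQ,
    cr_union_right G _ _ _ dPQ, cr_union_left G _ _ _ dIP, cr_union_right G _ _ _ dIP,
    cr_union_left G _ _ _ dIQ, cr_union_right G _ _ _ dIQ]
  omega

theorem F_sm (S T : Finset V) :
    F G (S ∪ T) + F G (S ∩ T) = F G S + F G T - 2 * (cr G (S \ T) (T \ S) : ℤ) := by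
  have h1 := twoE_sm G S T
  have h2 := card_union_add_card_inter S T
  unfold F
  push_cast [← @Nat.cast_inj ℤ] at h1 h2
  linarith

/-- Adding one vertex. -/
theorem F_insert {S : Finset V} {x : V} (hx : x ∉ S) :
    F G (insert x S) = F G S + 5 - 2 * (cr G {x} S : ℤ) := by
  classical
  have h1 : twoE G (insert x S) = twoE G S + 2 * cr G {x} S := by
    unfold twoE
    have hd : Disjoint {x} S := by simpa using hx
    rw [insert_eq, cr_union_left G _ _ _ hd, cr_union_right G _ _ _ hd, cr_union_right G _ _ _ hd,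
      cr_comm G S {x}]
    have : cr G {x} {x} = 0 := by simp [cr, filter_singleton]
    omega
  unfold F
  rw [h1, card_insert_of_notMem hx]
  push_cast
  ring

theorem F_empty : F G ∅ = -5 := by simp [F, twoE, cr]

theorem twoE_le (S : Finset V) : twoE G S ≤ S.card * (S.card - 1) := by
  classical
  unfold twoE cr
  calc ∑ x ∈ S, (S.filter fun y => G.Adj x y).card ≤ ∑ x ∈ S, (S.card - 1) := by
        refine sum_le_sum fun x hx => ?_
        rw [← card_erase_of_mem hx]
        refine card_le_card ?_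
        intro y hy
        simp only [mem_filter] at hy
        exact mem_erase.2 ⟨hy.2.ne', hy.1⟩
    _ = S.card * (S.card - 1) := by simp

theorem twoE_le_of_nonadj {S : Finset V} {i j : V} (hi : i ∈ S) (hj : j ∈ S) (hij : i ≠ j)
    (h : ¬ G.Adj i j) : twoE G S + 2 ≤ S.card * (S.card - 1) := by
  classical
  have e1 : cr G S S = ((S ×ˢ S).filter fun p : V × V => G.Adj p.1 p.2).card := by
    unfold cr
    rw [card_filter, sum_product]
    refine sum_congr rfl fun a _ => ?_
    rw [card_filter]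
  have h2 : ((S ×ˢ S).filter fun p : V × V => G.Adj p.1 p.2) ∪ {(i, j), (j, i)} ⊆ S.offDiag := by
    intro p hp
    simp only [mem_union, mem_filter, mem_product, mem_insert, mem_singleton] at hp
    rw [mem_offDiag]
    rcases hp with ⟨⟨h1, h2⟩, h3⟩ | rfl | rfl
    · exact ⟨h1, h2, h3.ne⟩
    · exact ⟨hi, hj, hij⟩
    · exact ⟨hj, hi, hij.symm⟩
  have h3 : Disjoint ((S ×ˢ S).filter fun p : V × V => G.Adj p.1 p.2) {(i, j), (j, i)} := by
    rw [disjoint_right]
    intro p hp
    simp only [mem_insert, mem_singleton] at hp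
    rcases hp with rfl | rfl
    · simp [h]
    · simp [G.adj_comm, h]
  have h4 : ({(i, j), (j, i)} : Finset (V × V)).card = 2 := by
    rw [card_pair]
    simp [hij]
  have h5 := card_le_card h2
  rw [card_union_of_disjoint h3, h4, offDiag_card, ← e1] at h5
  have h6 : S.card * S.card - S.card = S.card * (S.card - 1) := by
    rw [Nat.mul_sub_one]
  unfold twoE
  omega

theorem F_small {S : Finset V} (h2 : 2 ≤ S.card) (h4 : S.card ≤ 4) : 3 ≤ F G S := by
  have h := twoE_le G S
  unfold F
  have : S.card = 2 ∨ S.card = 3 ∨ S.card = 4 := by omega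
  rcases this with h' | h' | h' <;> rw [h'] at h ⊢ <;> norm_num at h ⊢ <;> omega

theorem F_small_nonadj {S : Finset V} {i j : V} (hi : i ∈ S) (hj : j ∈ S) (hij : i ≠ j)
    (h : ¬ G.Adj i j) (h4 : S.card ≤ 4) : 5 ≤ F G S := by
  have h1 := twoE_le_of_nonadj G hi hj hij h
  have h2 : 2 ≤ S.card := by
    have : ({i, j} : Finset V) ⊆ S := by
      intro x hx; simp only [mem_insert, mem_singleton] at hx; rcases hx with rfl | rfl <;> assumption
    calc 2 = ({i, j} : Finset V).card := (card_pair hij).symm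
      _ ≤ _ := card_le_card this
  unfold F
  have : S.card = 2 ∨ S.card = 3 ∨ S.card = 4 := by omega
  rcases this with h' | h' | h' <;> rw [h'] at h1 ⊢ <;> norm_num at h1 ⊢ <;> omega

theorem F_nonneg {A S : Finset V} (h : Cls A G) (hS : S ⊆ A) (hne : S.Nonempty) : 0 ≤ F G S := by
  have := (h S hS hne).1
  unfold F
  omega

/-- Sets without `v` which contain three neighbours of `v`. -/
theorem F_three {A S : Finset V} (h : Cls A G) {v i j k : V} (hS : S ⊆ A) (hv : v ∈ A)
    (hvS : v ∉ S) (hi : i ∈ S) (hj : j ∈ S) (hk : k ∈ S) (hij : i ≠ j) (hik : i ≠ k) (hjk : j ≠ k)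
    (ai : G.Adj v i) (aj : G.Adj v j) (ak : G.Adj v k) : 1 ≤ F G S := by
  classical
  have h1 := F_nonneg G h (S := insert v S) (by
    intro x hx; rcases mem_insert.1 hx with rfl | hx
    · exact hv
    · exact hS hx) ⟨v, mem_insert_self _ _⟩
  rw [F_insert G hvS] at h1
  have h2 : 3 ≤ cr G {v} S := by
    unfold cr
    rw [sum_singleton]
    have : ({i, j, k} : Finset V) ⊆ S.filter fun y => G.Adj v y := by
      intro x hx
      simp only [mem_insert, mem_singleton] at hx
      rcases hx with rfl | rfl | rfl <;> simp [*]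
    calc 3 = ({i, j, k} : Finset V).card := by
            rw [card_eq_three.2 ⟨i, j, k, hij, hik, hjk, rfl⟩]
      _ ≤ _ := card_le_card this
  omega

/-- Sets without `v` which contain four neighbours of `v`. -/
theorem F_four {A S : Finset V} (h : Cls A G) {v i j k l : V} (hS : S ⊆ A) (hv : v ∈ A)
    (hvS : v ∉ S) (hi : i ∈ S) (hj : j ∈ S) (hk : k ∈ S) (hl : l ∈ S)
    (hij : i ≠ j) (hik : i ≠ k) (hjk : j ≠ k) (hil : i ≠ l) (hjl : j ≠ l) (hkl : k ≠ l)
    (ai : G.Adj v i) (aj : G.Adj v j) (ak : G.Adj v k) (al : G.Adj v l) : 3 ≤ F G S := by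
  classical
  have h1 := F_nonneg G h (S := insert v S) (by
    intro x hx; rcases mem_insert.1 hx with rfl | hx
    · exact hv
    · exact hS hx) ⟨v, mem_insert_self _ _⟩
  rw [F_insert G hvS] at h1
  have h2 : 4 ≤ cr G {v} S := by
    unfold cr
    rw [sum_singleton]
    have : ({i, j, k, l} : Finset V) ⊆ S.filter fun y => G.Adj v y := by
      intro x hx
      simp only [mem_insert, mem_singleton] at hx
      rcases hx with rfl | rfl | rfl | rfl <;> simp [*]
    calc 4 = ({i, j, k, l} : Finset V).card := by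
            rw [card_insert_of_notMem, card_eq_three.2 ⟨j, k, l, hjk, hjl, hkl, rfl⟩]
            simp [hij, hik, hil]
      _ ≤ _ := card_le_card this
  omega

/-- `S` blocks the pair `i`, `j`: it contains `i` and `j`, not `v`, and adding the edge `ij` would
violate the class condition at `S`. -/
def Blk (A : Finset V) (v i j : V) (S : Finset V) : Prop :=
  S ⊆ A ∧ v ∉ S ∧ i ∈ S ∧ j ∈ S ∧ F G S ≤ 2 ∧ (F G S ≤ 1 ∨ S.card = 5)

/-- Standing assumptions: `N = {i, j, k, l}` are four neighbours of `v` and every nonadjacent pair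
of them is blocked. -/
structure Bad (A : Finset V) (v i j k l : V) : Prop where
  cls : Cls A G
  hv : v ∈ A
  hi : i ∈ A
  hj : j ∈ A
  hk : k ∈ A
  hl : l ∈ A
  ij : i ≠ j
  ik : i ≠ k
  il : i ≠ l
  jk : j ≠ k
  jl : j ≠ l
  kl : k ≠ l
  ai : G.Adj v i
  aj : G.Adj v j
  ak : G.Adj v k
  al : G.Adj v l
  bij : ¬ G.Adj i j → ∃ S, Blk G A v i j S
  bik : ¬ G.Adj i k → ∃ S, Blk G A v i k S
  bil : ¬ G.Adj i l → ∃ S, Blk G A v i l S
  bjk : ¬ G.Adj j k → ∃ S, Blk G A v j k S
  bjl : ¬ G.Adj j l → ∃ S, Blk G A v j l S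
  bkl : ¬ G.Adj k l → ∃ S, Blk G A v k l S

variable {G}

theorem Blk.symm {A : Finset V} {v i j : V} {S : Finset V} (h : Blk G A v i j S) :
    Blk G A v j i S := ⟨h.1, h.2.1, h.2.2.2.1, h.2.2.1, h.2.2.2.2⟩

theorem Bad.swap12 {A : Finset V} {v i j k l : V} (h : Bad G A v i j k l) :
    Bad G A v j i k l where
  cls := h.cls
  hv := h.hv
  hi := h.hj
  hj := h.hi
  hk := h.hk
  hl := h.hl
  ij := h.ij.symm
  ik := h.jk
  il := h.jl
  jk := h.ik
  jl := h.il
  kl := h.kl
  ai := h.aj
  aj := h.ai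
  ak := h.ak
  al := h.al
  bij := fun a => by
    obtain ⟨S, hS⟩ := h.bij (fun c => a c.symm)
    exact ⟨S, hS.symm⟩
  bik := h.bjk
  bil := h.bjl
  bjk := h.bik
  bjl := h.bil
  bkl := h.bkl

theorem Bad.swap23 {A : Finset V} {v i j k l : V} (h : Bad G A v i j k l) :
    Bad G A v i k j l where
  cls := h.cls
  hv := h.hv
  hi := h.hi
  hj := h.hk
  hk := h.hj
  hl := h.hl
  ij := h.ik
  ik := h.ij
  il := h.il
  jk := h.jk.symm
  jl := h.kl
  kl := h.jl
  ai := h.ai
  aj := h.ak
  ak := h.aj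
  al := h.al
  bij := h.bik
  bik := h.bij
  bil := h.bil
  bjk := fun a => by
    obtain ⟨S, hS⟩ := h.bjk (fun c => a c.symm)
    exact ⟨S, hS.symm⟩
  bjl := h.bkl
  bkl := h.bjl

theorem Bad.swap34 {A : Finset V} {v i j k l : V} (h : Bad G A v i j k l) :
    Bad G A v i j l k where
  cls := h.cls
  hv := h.hv
  hi := h.hi
  hj := h.hj
  hk := h.hl
  hl := h.hk
  ij := h.ij
  ik := h.il
  il := h.ik
  jk := h.jl
  jl := h.jk
  kl := h.kl.symm
  ai := h.ai
  aj := h.aj
  ak := h.al
  al := h.ak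
  bij := h.bij
  bik := h.bil
  bil := h.bik
  bjk := h.bjl
  bjl := h.bjk
  bkl := fun a => by
    obtain ⟨S, hS⟩ := h.bkl (fun c => a c.symm)
    exact ⟨S, hS.symm⟩

/-- A blocking set does not contain all four neighbours. -/
theorem Bad.not_four {A : Finset V} {v i j k l : V} (h : Bad G A v i j k l) {S : Finset V}
    (hS : S ⊆ A) (hv : v ∉ S) (hF : F G S ≤ 2) (hi : i ∈ S) (hj : j ∈ S) (hk : k ∈ S)
    (hl : l ∈ S) : False := by
  have := F_four G h.cls hS h.hv hv hi hj hk hl h.ij h.ik h.jk h.il h.jl h.kl h.ai h.aj h.ak h.al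
  omega

/-- Sets without `v` containing `i, j, k`. -/
theorem Bad.three {A : Finset V} {v i j k l : V} (h : Bad G A v i j k l) {S : Finset V}
    (hS : S ⊆ A) (hv : v ∉ S) (hi : i ∈ S) (hj : j ∈ S) (hk : k ∈ S) : 1 ≤ F G S :=
  F_three G h.cls hS h.hv hv hi hj hk h.ij h.ik h.jk h.ai h.aj h.ak

/-- Sets without `v` containing `i, j, k, l`. -/
theorem Bad.four {A : Finset V} {v i j k l : V} (h : Bad G A v i j k l) {S : Finset V}
    (hS : S ⊆ A) (hv : v ∉ S) (hi : i ∈ S) (hj : j ∈ S) (hk : k ∈ S)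
    (hl : l ∈ S) : 3 ≤ F G S :=
  F_four G h.cls hS h.hv hv hi hj hk hl h.ij h.ik h.jk h.il h.jl h.kl h.ai h.aj h.ak h.al

end Pool.Agent.TBS
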