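import Pool.Agent.TBS.DM
import Pool.Agent.TBS.LabK

/-!
# Labels for bipartite graphs with degrees at most 6 on one side and at most 4 on the other side

`c v = true`: side `A` (degree at most 6), `c v = false`: side `B` (degree at most 4).
Every `b` in `B` has four slots (the edges at `b`, and dummies).
1. `dm` gives labels `lam (b, i)` (the labels at the `A`-ends) such that every label occurs at most
   twice at every `x` in `A`, and `lam (b, 0) ≠ lam (b, 1)`, `lam (b, 2) ≠ lam (b, 3)`.
2. Every `b` gets a label `L b` which occurs at most once in `lam (b, ·)`, such that for every `x` in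
   `A` and every label `l` at most one of the neighbours `b` of `x` with label `l` has `L b = l`:
   either `L b` does not occur at all, or the slot with label `L b` is chosen by Hall's theorem (each
   `b` has two candidates, and each pair `(x, l)` is a candidate for at most two `b`).
3. The labels at the `B`-ends `gg b i ≠ lam (b, i)` are such that `L b` occurs twice and the other
   labels once.
Let all members of `W` but `w` have two half-edges of label `a` into `W`.  Then every `b` in `B`
among them has `L b = a`, so every `x` in `A` among them has the neighbour `w` with label `a`.  Such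
an `x` has another neighbour `b` in `W` with label `a`, `b` has two neighbours in `W` with label `a`,
and these are different from `x`; so three edges at `w` have label `a` at the other end,
a contradiction.
-/

set_option autoImplicit false

namespace Pool.Agent.TBS

open Finset

namespace Bip

/-- partner slot -/
def sw4 : Fin 4 → Fin 4 := ![1, 0, 3, 2]

theorem sw4_sw4 : ∀ i, sw4 (sw4 i) = i := by decide

theorem sw4_ne : ∀ i, sw4 i ≠ i := by decide

set_option maxRecDepth 20000 in
theorem count_le : ∀ f : Fin 4 → Fin 3, f 0 ≠ f 1 → f 2 ≠ f 3 → ∀ l,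
    (univ.filter fun i => f i = l).card ≤ 2 := by
  decide +kernel

set_option maxRecDepth 20000 in
theorem exists_g : ∀ f : Fin 4 → Fin 3, f 0 ≠ f 1 → f 2 ≠ f 3 → ∀ l,
    (univ.filter fun i => f i = l).card ≤ 1 → ∃ g : Fin 4 → Fin 3, (∀ i, g i ≠ f i) ∧
      (∀ k, k ≠ l → (univ.filter fun i => g i = k).card ≤ 1) ∧
      (univ.filter fun i => g i = l).card ≤ 2 := by
  decide +kernel

set_option maxRecDepth 20000 in
theorem two_cand : ∀ f : Fin 4 → Fin 3, f 0 ≠ f 1 → f 2 ≠ f 3 →
    (∀ l, 1 ≤ (univ.filter fun i => f i = l).card) →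
    ∃ i j, f i ≠ f j ∧ (univ.filter fun k => f k = f i).card = 1 ∧
      (univ.filter fun k => f k = f j).card = 1 := by
  decide +kernel

end Bip

section

variable {V : Type} [Fintype V] [DecidableEq V]

omit [DecidableEq V] in
/-- Step 2: the choice of the labels `L b`. -/
theorem exists_L {U : Type} [DecidableEq U] (s : V × Fin 4 → U) (lam : V × Fin 4 → Fin 3)
    (h01 : ∀ b, lam (b, 0) ≠ lam (b, 1)) (h23 : ∀ b, lam (b, 2) ≠ lam (b, 3))
    (hs : ∀ u a, (univ.filter fun x => s x = u ∧ lam x = a).card ≤ 2) :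
    ∃ L : V → Fin 3, (∀ b, (univ.filter fun i => lam (b, i) = L b).card ≤ 1) ∧
      ∀ b i b' i', s (b, i) = s (b', i') → lam (b, i) = L b → lam (b', i') = L b' → L b = L b' →
        b = b' := by
  classical
  let cnt : V → Fin 3 → ℕ := fun b l => (univ.filter fun i => lam (b, i) = l).card
  let ι := {b : V // ∀ l, 1 ≤ cnt b l}
  let t : ι → Finset (U × Fin 3) := fun b =>
    (univ.filter fun i => cnt b.1 (lam (b.1, i)) = 1).image fun i => (s (b.1, i), lam (b.1, i))
  have ht : ∀ b : ι, 2 ≤ (t b).card := by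
    intro b
    obtain ⟨i, j, hij, hi, hj⟩ := Bip.two_cand (fun i => lam (b.1, i)) (h01 b.1) (h23 b.1) b.2
    have h1 : ({(s (b.1, i), lam (b.1, i)), (s (b.1, j), lam (b.1, j))} : Finset (U × Fin 3)) ⊆
        t b := by
      intro k hk
      rw [mem_insert, mem_singleton] at hk
      rcases hk with rfl | rfl
      · exact mem_image.2 ⟨i, mem_filter.2 ⟨mem_univ _, hi⟩, rfl⟩
      · exact mem_image.2 ⟨j, mem_filter.2 ⟨mem_univ _, hj⟩, rfl⟩
    have h2 := card_le_card h1
    rwa [card_pair (fun e => hij (congrArg Prod.snd e))] at h2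
  have hkey : ∀ k : U × Fin 3, ∀ S : Finset ι, (S.filter fun b => k ∈ t b).card ≤ 2 := by
    intro k S
    have hex : ∀ b : ι, ∃ i, k ∈ t b → s (b.1, i) = k.1 ∧ lam (b.1, i) = k.2 := by
      intro b
      by_cases hb : k ∈ t b
      · obtain ⟨i, -, hi⟩ := mem_image.1 hb
        exact ⟨i, fun _ => ⟨congrArg Prod.fst hi, congrArg Prod.snd hi⟩⟩
      · exact ⟨0, fun h => absurd h hb⟩
    choose i hi using hex
    refine (card_le_card_of_injOn (fun b : ι => (b.1, i b)) ?_ ?_).trans (hs k.1 k.2)
    · intro b hb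
      have hb' := (mem_filter.1 (mem_coe.1 hb)).2
      exact mem_coe.2 (mem_filter.2 ⟨mem_univ _, hi b hb'⟩)
    · intro b _ b' _ h
      exact Subtype.ext (congrArg Prod.fst h)
  have hall : ∀ S : Finset ι, S.card ≤ (S.biUnion t).card := by
    intro S
    have h1 := card_mul_le_card_mul (s := S) (t := S.biUnion t) (m := 2) (n := 2)
      (fun b k => k ∈ t b) (by
        intro b hb
        refine (ht b).trans (card_le_card fun k hk => ?_)
        rw [mem_bipartiteAbove]
        exact ⟨mem_biUnion.2 ⟨b, hb, hk⟩, hk⟩) (by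
        intro k _
        exact hkey k S)
    omega
  obtain ⟨h, hinj, hmem⟩ := (all_card_le_biUnion_card_iff_exists_injective t).1 hall
  have hz : ∀ b, ∃ l, (¬ ∀ l, 1 ≤ cnt b l) → cnt b l = 0 := by
    intro b
    by_cases hb : ∀ l, 1 ≤ cnt b l
    · exact ⟨0, fun h => absurd hb h⟩
    · have hb' := hb
      push Not at hb'
      obtain ⟨l, hl⟩ := hb'
      exact ⟨l, fun _ => by omega⟩
  choose z hz using hz
  let L : V → Fin 3 := fun b => if hb : ∀ l, 1 ≤ cnt b l then (h ⟨b, hb⟩).2 else z b
  have hL1 : ∀ b (hb : ∀ l, 1 ≤ cnt b l), ∃ j, cnt b (lam (b, j)) = 1 ∧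
      h ⟨b, hb⟩ = (s (b, j), lam (b, j)) ∧ L b = lam (b, j) := by
    intro b hb
    obtain ⟨j, hj, hj'⟩ := mem_image.1 (hmem ⟨b, hb⟩)
    refine ⟨j, (mem_filter.1 hj).2, hj'.symm, ?_⟩
    have : L b = (h ⟨b, hb⟩).2 := dif_pos hb
    rw [this, ← hj']
  have hL2 : ∀ b, (¬ ∀ l, 1 ≤ cnt b l) → cnt b (L b) = 0 := by
    intro b hb
    have : L b = z b := dif_neg hb
    rw [this]
    exact hz b hb
  refine ⟨L, ?_, ?_⟩
  · intro b
    change cnt b (L b) ≤ 1
    by_cases hb : ∀ l, 1 ≤ cnt b l
    · obtain ⟨j, hj, -, hj'⟩ := hL1 b hb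
      rw [hj', hj]
    · rw [hL2 b hb]
      omega
  · intro b i b' i' hss hb hb' hLL
    have main : ∀ b i, lam (b, i) = L b → ∃ hb : ∀ l, 1 ≤ cnt b l,
        h ⟨b, hb⟩ = (s (b, i), lam (b, i)) := by
      intro b i hi
      by_cases hc : ∀ l, 1 ≤ cnt b l
      · obtain ⟨j, hj, hj', hj''⟩ := hL1 b hc
        refine ⟨hc, ?_⟩
        have hij : i = j := by
          have h1 : (univ.filter fun k => lam (b, k) = lam (b, j)).card ≤ 1 := le_of_eq hj
          exact card_le_one.1 h1 i (mem_filter.2 ⟨mem_univ _, hi.trans hj''⟩) j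
            (mem_filter.2 ⟨mem_univ _, rfl⟩)
        rw [hij]
        exact hj'
      · exfalso
        have h1 := hL2 b hc
        have h2 : i ∈ univ.filter fun k => lam (b, k) = L b := mem_filter.2 ⟨mem_univ _, hi⟩
        have h3 := card_pos.2 ⟨i, h2⟩
        change 0 < cnt b (L b) at h3
        omega
    obtain ⟨c1, e1⟩ := main b i hb
    obtain ⟨c2, e2⟩ := main b' i' hb'
    have : (⟨b, c1⟩ : ι) = ⟨b', c2⟩ := hinj (by rw [e1, e2, hss, hb, hb', hLL])
    exact congrArg Subtype.val this

/-- Labels for bipartite graphs with degrees at most 6 and 4. -/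
theorem labels_of_bip (G : SimpleGraph V) [DecidableRel G.Adj] (c : V → Bool)
    (hc : ∀ u v, G.Adj u v → c u ≠ c v)
    (h6 : ∀ v, c v = true → (univ.filter fun w => G.Adj v w).card ≤ 6)
    (h4 : ∀ v, c v = false → (univ.filter fun w => G.Adj v w).card ≤ 4) :
    ∃ α : V → V → Fin 3, (∀ u v, G.Adj u v → α u v ≠ α v u) ∧
      (∀ u a, (univ.filter fun v => G.Adj u v ∧ α u v = a).card ≤ 2) ∧
      ∀ (a : Fin 3) (W : Finset V) (w : V), w ∈ W → 2 ≤ W.card →
        ∃ v ∈ W, v ≠ w ∧ (W.filter fun v' => G.Adj v v' ∧ α v v' = a).card ≤ 1 := by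
  classical
  -- the slots
  have hsl : ∀ b, ∃ sl : V → Fin 4, c b = false → ∀ v v', G.Adj b v → G.Adj b v' →
      sl v = sl v' → v = v' := by
    intro b
    by_cases hb : c b = false
    · obtain ⟨e⟩ : Nonempty (↥(univ.filter fun w => G.Adj b w) ↪ Fin 4) := by
        refine Function.Embedding.nonempty_of_card_le ?_
        rw [Fintype.card_coe, Fintype.card_fin]
        exact h4 b hb
      refine ⟨fun v => if hv : v ∈ univ.filter fun w => G.Adj b w then e ⟨v, hv⟩ else 0,
        fun _ v v' hv hv' h => ?_⟩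
      have m1 : v ∈ univ.filter fun w => G.Adj b w := mem_filter.2 ⟨mem_univ _, hv⟩
      have m2 : v' ∈ univ.filter fun w => G.Adj b w := mem_filter.2 ⟨mem_univ _, hv'⟩
      simp only [dif_pos m1, dif_pos m2] at h
      exact congrArg Subtype.val (e.injective h)
    · exact ⟨fun _ => 0, fun h => absurd h hb⟩
  choose sl hsl using hsl
  have hs : ∀ x : V × Fin 4, ∃ y : V ⊕ (V × Fin 4),
      (∀ v, c x.1 = false → G.Adj x.1 v → sl x.1 v = x.2 → y = Sum.inl v) ∧
      (∀ v, y = Sum.inl v → c x.1 = false ∧ G.Adj x.1 v ∧ sl x.1 v = x.2) ∧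
      (∀ z, y = Sum.inr z → z = x) := by
    intro x
    by_cases h : ∃ v, c x.1 = false ∧ G.Adj x.1 v ∧ sl x.1 v = x.2
    · obtain ⟨v, h1, h2, h3⟩ := h
      refine ⟨Sum.inl v, fun v' _ h2' h3' => ?_, fun v' e => ?_, fun z e => ?_⟩
      · rw [hsl x.1 h1 v v' h2 h2' (h3.trans h3'.symm)]
      · rw [← Sum.inl.inj e]
        exact ⟨h1, h2, h3⟩
      · cases e
    · refine ⟨Sum.inr x, fun v h1 h2 h3 => (h ⟨v, h1, h2, h3⟩).elim, fun v e => ?_, fun z e => ?_⟩
      · cases e
      · exact (Sum.inr.inj e).symm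
  choose s hs1 hs2 hs3 using hs
  have hdeg : ∀ v, (univ.filter fun w => G.Adj v w).card ≤ 6 := by
    intro v
    rcases hv : c v with _ | _
    · exact (h4 v hv).trans (by omega)
    · exact h6 v hv
  obtain ⟨lam, l1, l2, -⟩ := dm (X := V × Fin 4) (U := V ⊕ (V × Fin 4)) (T := Unit)
    (fun x => (x.1, Bip.sw4 x.2)) (fun x => by
      ext
      · rfl
      · simp only [Bip.sw4_sw4])
    (fun x h => Bip.sw4_ne x.2 (congrArg Prod.snd h)) s (by
      rintro (v | z)
      · refine (card_le_card_of_injOn (fun x => x.1) ?_ ?_).trans (hdeg v)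
        · intro x hx
          obtain ⟨-, a2, -⟩ := hs2 x v (mem_filter.1 (mem_coe.1 hx)).2
          exact mem_coe.2 (mem_filter.2 ⟨mem_univ _, a2.symm⟩)
        · intro x hx y hy hxy
          obtain ⟨-, -, a3⟩ := hs2 x v (mem_filter.1 (mem_coe.1 hx)).2
          obtain ⟨-, -, b3⟩ := hs2 y v (mem_filter.1 (mem_coe.1 hy)).2
          have hxy' : x.1 = y.1 := hxy
          refine Prod.ext hxy' ?_
          rw [← a3, ← b3, hxy']
      · refine le_trans (card_le_card (t := {z}) fun x hx => ?_) (by simp)
        rw [mem_singleton]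
        exact (hs3 x z (mem_filter.1 hx).2).symm) (fun _ => none) (fun _ => rfl) (by
      intro y
      simp)
  have h01 : ∀ b, lam (b, 0) ≠ lam (b, 1) := fun b => l1 (b, 1)
  have h23 : ∀ b, lam (b, 2) ≠ lam (b, 3) := fun b => l1 (b, 3)
  obtain ⟨L, hL1, hL2⟩ := exists_L s lam h01 h23 l2
  have hg : ∀ b, ∃ g : Fin 4 → Fin 3, (∀ i, g i ≠ lam (b, i)) ∧
      (∀ k, k ≠ L b → (univ.filter fun i => g i = k).card ≤ 1) ∧
      (univ.filter fun i => g i = L b).card ≤ 2 := fun b =>
    Bip.exists_g (fun i => lam (b, i)) (h01 b) (h23 b) (L b) (hL1 b)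
  choose g hg1 hg2 hg3 using hg
  let α : V → V → Fin 3 := fun u v => if c u = true then lam (v, sl v u) else g u (sl u v)
  have αA : ∀ u v, c u = true → α u v = lam (v, sl v u) := fun u v h => if_pos h
  have αB : ∀ u v, c u = false → α u v = g u (sl u v) := fun u v h => if_neg (by rw [h]; simp)
  have other : ∀ u v, G.Adj u v → c u = true → c v = false := by
    intro u v h hu
    have := hc u v h
    rw [hu] at this
    rcases hv : c v with _ | _
    · rfl
    · exact absurd hv.symm this
  have other' : ∀ u v, G.Adj u v → c u = false → c v = true := by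
    intro u v h hu
    have := hc u v h
    rw [hu] at this
    rcases hv : c v with _ | _
    · exact absurd hv.symm this
    · rfl
  -- number of half-edges with a label at a vertex of `B`
  have hB : ∀ b a (W : Finset V), c b = false →
      (W.filter fun v => G.Adj b v ∧ α b v = a).card ≤ (univ.filter fun i => g b i = a).card := by
    intro b a W hb
    refine card_le_card_of_injOn (sl b) ?_ ?_
    · intro v hv
      obtain ⟨-, h1, h2⟩ := mem_filter.1 (mem_coe.1 hv)
      rw [αB b v hb] at h2
      exact mem_coe.2 (mem_filter.2 ⟨mem_univ _, h2⟩)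
    · intro v hv v' hv' h
      exact hsl b hb v v' (mem_filter.1 (mem_coe.1 hv)).2.1 (mem_filter.1 (mem_coe.1 hv')).2.1 h
  refine ⟨α, ?_, ?_, ?_⟩
  · intro u v h
    rcases hu : c u with _ | _
    · have hv := other' u v h hu
      rw [αB u v hu, αA v u hv]
      exact hg1 u _
    · have hv := other u v h hu
      rw [αA u v hu, αB v u hv]
      exact (hg1 v _).symm
  · intro u a
    rcases hu : c u with _ | _
    · refine (hB u a univ hu).trans ?_
      by_cases ha : a = L u
      · rw [ha]
        exact hg3 u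
      · exact (hg2 u a ha).trans (by omega)
    · refine (card_le_card_of_injOn (fun v => (v, sl v u)) ?_ ?_).trans (l2 (Sum.inl u) a)
      · intro v hv
        obtain ⟨-, h1, h2⟩ := mem_filter.1 (mem_coe.1 hv)
        rw [αA u v hu] at h2
        exact mem_coe.2 (mem_filter.2 ⟨mem_univ _,
          hs1 (v, sl v u) u (other u v h1 hu) h1.symm rfl, h2⟩)
      · intro v _ v' _ h
        exact congrArg Prod.fst h
  · intro a W w hw hW
    by_contra hcon
    push Not at hcon
    have two : ∀ v ∈ W, v ≠ w → ∃ x y, x ≠ y ∧ (x ∈ W ∧ G.Adj v x ∧ α v x = a) ∧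
        (y ∈ W ∧ G.Adj v y ∧ α v y = a) := by
      intro v hv hvw
      obtain ⟨x, hx, y, hy, hxy⟩ := one_lt_card.1 (hcon v hv hvw)
      exact ⟨x, y, hxy, mem_filter.1 hx, mem_filter.1 hy⟩
    -- members of `B`
    have cB : ∀ b ∈ W, b ≠ w → c b = false → L b = a := by
      intro b hb hbw hcb
      by_contra hne
      have h1 := hcon b hb hbw
      have h2 := (hB b a W hcb).trans (hg2 b a (fun e => hne e.symm))
      omega
    -- members of `A`
    have cA : ∀ x ∈ W, x ≠ w → c x = true → G.Adj x w ∧ α x w = a ∧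
        ∃ b ∈ W, b ≠ w ∧ G.Adj x b ∧ α x b = a := by
      intro x hx hxw hcx
      obtain ⟨b, b', hne, ⟨b1, b2, b3⟩, ⟨d1, d2, d3⟩⟩ := two x hx hxw
      by_cases hbw : b = w
      · subst hbw
        exact ⟨b2, b3, b', d1, fun e => hne e.symm, d2, d3⟩
      · by_cases hdw : b' = w
        · subst hdw
          exact ⟨d2, d3, b, b1, hbw, b2, b3⟩
        · exfalso
          have cb := other x b b2 hcx
          have cb' := other x b' d2 hcx
          have e1 := cB b b1 hbw cb
          have e2 := cB b' d1 hdw cb'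
          rw [αA x b hcx] at b3
          rw [αA x b' hcx] at d3
          refine hne (hL2 b (sl b x) b' (sl b' x) ?_ (b3.trans e1.symm) (d3.trans e2.symm)
            (e1.trans e2.symm))
          rw [hs1 (b, sl b x) x cb b2.symm rfl, hs1 (b', sl b' x) x cb' d2.symm rfl]
    -- a member of `A`
    have hA : ∀ x ∈ W, x ≠ w → c x = true → False := by
      intro x hx hxw hcx
      obtain ⟨x1, x2, b, hb, hbw, hxb, hxb'⟩ := cA x hx hxw hcx
      have cw := other x w x1 hcx
      have cb := other x b hxb hcx
      obtain ⟨y, z, hyz, ⟨y1, y2, y3⟩, ⟨z1, z2, z3⟩⟩ := two b hb hbw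
      have hlab : α b x ≠ a := by
        rw [αB b x cb]
        rw [αA x b hcx] at hxb'
        intro e
        exact hg1 b (sl b x) (e.trans hxb'.symm)
      have hxy : x ≠ y := by
        rintro rfl
        exact hlab y3
      have hxz : x ≠ z := by
        rintro rfl
        exact hlab z3
      have cy := other' b y y2 cb
      have cz := other' b z z2 cb
      have hyw : y ≠ w := by
        rintro rfl
        rw [cy] at cw
        exact absurd cw (by simp)
      have hzw : z ≠ w := by
        rintro rfl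
        rw [cz] at cw
        exact absurd cw (by simp)
      obtain ⟨p1, p2, -⟩ := cA y y1 hyw cy
      obtain ⟨q1, q2, -⟩ := cA z z1 hzw cz
      rw [αA x w hcx] at x2
      rw [αA y w cy] at p2
      rw [αA z w cz] at q2
      have h3 : ({sl w x, sl w y, sl w z} : Finset (Fin 4)) ⊆
          univ.filter fun i => lam (w, i) = a := by
        intro i hi
        simp only [mem_insert, mem_singleton] at hi
        refine mem_filter.2 ⟨mem_univ _, ?_⟩
        rcases hi with rfl | rfl | rfl
        · exact x2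
        · exact p2
        · exact q2
      have h4' := (card_le_card h3).trans (Bip.count_le (fun i => lam (w, i)) (h01 w) (h23 w) a)
      rw [card_insert_of_notMem, card_pair] at h4'
      · omega
      · intro e
        exact hyz (hsl w cw y z p1.symm q1.symm e)
      · rw [mem_insert, mem_singleton]
        rintro (e | e)
        · exact hxy (hsl w cw x y x1.symm p1.symm e)
        · exact hxz (hsl w cw x z x1.symm q1.symm e)
    obtain ⟨v, hv, hvw⟩ := exists_mem_ne (by omega : 1 < W.card) w
    rcases hcv : c v with _ | _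
    · obtain ⟨y, z, hyz, ⟨y1, y2, -⟩, ⟨z1, z2, -⟩⟩ := two v hv hvw
      by_cases hyw : y = w
      · exact hA z z1 (fun e => hyz (hyw.trans e.symm)) (other' v z z2 hcv)
      · exact hA y y1 hyw (other' v y y2 hcv)
    · exact hA v hv hvw hcv

end

end Pool.Agent.TBS
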