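import Pool.Agent.TBS.Basic

/-!
# Claims 1 and 2 on blocking sets  (MODULE Cl; replace both sorries)

Write `F = F G`, uncrossing `F (S u T) + F (S n T) = F S + F T - 2 cr (S \\ T) (T \\ S)` is `F_sm`;
`F_insert`; `F_small`, `F_small_nonadj`; `Bad.three`, `Bad.four` (with `swap12/23/34` for the other
triples), `F_nonneg`.

CLAIM 1.  Suppose `k` in `S`.  Then `l` not in `S` (`Bad.not_four`).  Let `d` be the number of
vertices of `{i, j, k}` adjacent to `l`.  `F (insert l S) <= F S + 5 - 2 d` and `>= 3`, so `d <= 2`,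
and `d = 2` forces `F S = 2`, hence `|S| = 5`.
* `d = 2`, say `l ~ x`, `l ~ y`, `l` not `~ z` (`{x, y, z} = {i, j, k}`): take `T` blocking `z, l`.
  `T` is not contained... `l` in `T \\ S`, and `S` is not inside `T` (otherwise `T` has four
  neighbours, `not_four`), so `|S n T| <= 4`.  `3 <= F (S u T) = 2 + F T - F (S n T) - 2 cr`.
  If `x` and `y` are not in `T` then `cr >= 2` (`cr_two`: pairs `(x, l)`, `(y, l)`) and
  `F (S n T) >= 0`: contradiction.  Otherwise `|S n T| >= 2`, so `F (S n T) >= 3` (`F_small`):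
  contradiction.
* `d <= 1`: two of `i, j, k`, say `x, y`, are not adjacent to `l`; take `T` blocking `x, l` and `U`
  blocking `y, l`.  (a) `S n T = {x}`: `S` not inside `T` and `T` not inside `S` (four neighbours
  resp. `l`); if `|S n T| >= 2`: when `|S| = 5` or `|T| = 5` then `|S n T| <= 4` so
  `F (S n T) >= 3` and `3 <= 2 + 2 - 3`; otherwise `F S <= 1`, `F T <= 1`, `F (S n T) >= 0`,
  `3 <= 1 + 1`.  (b) likewise `S n U = {y}`.  (c) So `S n (T u U) = {x, y}`,
  `F {x, y} >= 3` (`>= 5` if `x, y` nonadjacent).  `F (T u U) <= F T + F U - F (T n U) - 2 cr' <= 4 - 2 cr'`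
  where `cr' >= 1` if `x ~ y` (`x` in `T \\ U`, `y` in `U \\ T`).  `3 <= F (S u (T u U)) <=
  2 + F (T u U) - F {x, y}`: contradiction in both cases.

CLAIM 2.  By claim 1 `k` not in `S`, `j` not in `T`.  `cr >= 1` (`cr_one`, pair `(j, k)`).
`1 <= F (S u T) = F S + F T - F (S n T) - 2 cr` (`Bad.three`), `F (S n T) >= 0` (contains `i`).
So `F (S n T) + 2 cr <= 3`, `cr = 1`, `F (S n T) <= 1`, `F (S u T) <= 2`.  Not both `F S, F T <= 1`, so one of
`|S|, |T|` is 5, thus `|S n T| <= 4` (`j` in `S \\ T`, `k` in `T \\ S`), thus `|S n T| = 1`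
(`F_small`), so `S n T = {i}`.
-/

set_option autoImplicit false

namespace Pool.Agent.TBS

open Finset

variable {V : Type} [DecidableEq V] {G : SimpleGraph V}

/-- Intersection of two sets, none inside the other, one of size five: at most four elements. -/
private theorem card_inter_le {S T : Finset V} {p q : V} (hp : p ∈ S) (hpT : p ∉ T) (hq : q ∈ T)
    (hqS : q ∉ S) (h5 : S.card = 5 ∨ T.card = 5) : (S ∩ T).card ≤ 4 := by
  have h1 : (S ∩ T).card < S.card := by
    refine card_lt_card ⟨inter_subset_left, fun hc => ?_⟩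
    exact hpT (mem_inter.1 (hc hp)).2
  have h2 : (S ∩ T).card < T.card := by
    refine card_lt_card ⟨inter_subset_right, fun hc => ?_⟩
    exact hqS (mem_inter.1 (hc hq)).1
  omega

omit [DecidableEq V] in
/-- A set with at most one element containing `x`. -/
private theorem eq_single {S : Finset V} {x : V} (hx : x ∈ S) (h : S.card ≤ 1) : S = {x} := by
  refine Subset.antisymm (fun y hy => ?_) (by simpa using hx)
  exact mem_singleton.2 (card_le_one.1 h y hy x hx)

/-- Three neighbours in `S`, the fourth adjacent to two of them. -/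
private theorem c1_two {A : Finset V} {v x y z l : V} (h : Bad G A v x y z l) {S : Finset V}
    (hSA : S ⊆ A) (hv : v ∉ S) (hx : x ∈ S) (hy : y ∈ S) (hz : z ∈ S) (hF : F G S ≤ 2)
    (h5 : F G S ≤ 1 ∨ S.card = 5) (ax : G.Adj l x) (ay : G.Adj l y) : False := by
  have hl : l ∉ S := fun hl => h.not_four hSA hv hF hx hy hz hl
  have e1 := F_insert G hl
  have hIA : insert l S ⊆ A := insert_subset h.hl hSA
  have hlv : v ≠ l := h.al.ne
  have e2 : 3 ≤ F G (insert l S) := h.four hIA (by simp [hv, hlv]) (by simp [hx]) (by simp [hy])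
    (by simp [hz]) (by simp)
  have e3 : 2 ≤ cr G {l} S := cr_two G (by simp) hx ax (by simp) hy ay (Or.inr h.ij)
  by_cases az : G.Adj z l
  · -- three adjacent pairs
    have e4 : 3 ≤ cr G {l} S := by
      classical
      unfold cr
      rw [sum_singleton]
      have : ({x, y, z} : Finset V) ⊆ S.filter fun t => G.Adj l t := by
        intro t ht
        simp only [mem_insert, mem_singleton] at ht
        rcases ht with rfl | rfl | rfl
        · simp [hx, ax]
        · simp [hy, ay]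
        · simp [hz, az.symm]
      calc 3 = ({x, y, z} : Finset V).card := by
              rw [card_eq_three.2 ⟨x, y, z, h.ij, h.ik, h.jk, rfl⟩]
        _ ≤ _ := card_le_card this
    omega
  · obtain ⟨T, hTA, hvT, hzT, hlT, hFT, hT5⟩ := h.bkl az
    have e5 : S.card = 5 := by omega
    have hU : 3 ≤ F G (S ∪ T) := h.four (union_subset hSA hTA) (by simp [hv, hvT])
      (by simp [hx]) (by simp [hy]) (by simp [hz]) (by simp [hlT])
    have hsm := F_sm G S T
    have hnn : 0 ≤ F G (S ∩ T) := F_nonneg G h.cls (inter_subset_left.trans hSA)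
      ⟨z, mem_inter.2 ⟨hz, hzT⟩⟩
    by_cases hxT : x ∈ T
    · have hyT : y ∉ T := fun hyT => h.not_four hTA hvT hFT hxT hyT hzT hlT
      have c4 := card_inter_le hy hyT hlT hl (Or.inl e5)
      have c2 : 2 ≤ (S ∩ T).card := by
        have : ({x, z} : Finset V) ⊆ S ∩ T := by
          intro t ht
          simp only [mem_insert, mem_singleton] at ht
          rcases ht with rfl | rfl
          · exact mem_inter.2 ⟨hx, hxT⟩
          · exact mem_inter.2 ⟨hz, hzT⟩
        calc 2 = ({x, z} : Finset V).card := (card_pair h.ik).symm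
          _ ≤ _ := card_le_card this
      have := F_small G c2 c4
      omega
    · by_cases hyT : y ∈ T
      · have c4 := card_inter_le hx hxT hlT hl (Or.inl e5)
        have c2 : 2 ≤ (S ∩ T).card := by
          have : ({y, z} : Finset V) ⊆ S ∩ T := by
            intro t ht
            simp only [mem_insert, mem_singleton] at ht
            rcases ht with rfl | rfl
            · exact mem_inter.2 ⟨hy, hyT⟩
            · exact mem_inter.2 ⟨hz, hzT⟩
          calc 2 = ({y, z} : Finset V).card := (card_pair h.jk).symm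
            _ ≤ _ := card_le_card this
        have := F_small G c2 c4
        omega
      · have e6 : 2 ≤ cr G (S \ T) (T \ S) := cr_two G (mem_sdiff.2 ⟨hx, hxT⟩)
          (mem_sdiff.2 ⟨hlT, hl⟩) ax.symm (mem_sdiff.2 ⟨hy, hyT⟩) (mem_sdiff.2 ⟨hlT, hl⟩) ay.symm
          (Or.inl h.ij)
        omega

/-- Three neighbours in `S`: a blocking set of one of them and the fourth meets `S` in one point. -/
private theorem c1_single {A : Finset V} {v x y z l : V} (h : Bad G A v x y z l) {S : Finset V}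
    (hSA : S ⊆ A) (hv : v ∉ S) (hx : x ∈ S) (hy : y ∈ S) (hz : z ∈ S) (hF : F G S ≤ 2)
    (h5 : F G S ≤ 1 ∨ S.card = 5) {T : Finset V} (hT : Blk G A v x l T) : S ∩ T = {x} := by
  obtain ⟨hTA, hvT, hxT, hlT, hFT, hT5⟩ := hT
  have hl : l ∉ S := fun hl => h.not_four hSA hv hF hx hy hz hl
  have hU : 3 ≤ F G (S ∪ T) := h.four (union_subset hSA hTA) (by simp [hv, hvT])
    (by simp [hx]) (by simp [hy]) (by simp [hz]) (by simp [hlT])
  have hsm := F_sm G S T
  have hnn : 0 ≤ F G (S ∩ T) := F_nonneg G h.cls (inter_subset_left.trans hSA)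
    ⟨x, mem_inter.2 ⟨hx, hxT⟩⟩
  refine eq_single (mem_inter.2 ⟨hx, hxT⟩) ?_
  by_contra hc
  have c2 : 2 ≤ (S ∩ T).card := by omega
  obtain ⟨p, hp, hpT⟩ : ∃ p, p ∈ S ∧ p ∉ T := by
    by_contra hcon
    push Not at hcon
    exact h.not_four hTA hvT hFT (hcon x hx) (hcon y hy) (hcon z hz) hlT
  by_cases c5 : S.card = 5 ∨ T.card = 5
  · have := F_small G c2 (card_inter_le hp hpT hlT hl c5)
    omega
  · omega

/-- Three neighbours in `S`, the fourth nonadjacent to two of them. -/
private theorem c1_le {A : Finset V} {v x y z l : V} (h : Bad G A v x y z l) {S : Finset V}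
    (hSA : S ⊆ A) (hv : v ∉ S) (hx : x ∈ S) (hy : y ∈ S) (hz : z ∈ S) (hF : F G S ≤ 2)
    (h5 : F G S ≤ 1 ∨ S.card = 5) (ax : ¬ G.Adj x l) (ay : ¬ G.Adj y l) : False := by
  obtain ⟨T, hT⟩ := h.bil ax
  obtain ⟨U, hU⟩ := h.bjl ay
  have sT := c1_single h hSA hv hx hy hz hF h5 hT
  have sU := c1_single h.swap12 hSA hv hy hx hz hF h5 hU
  obtain ⟨hTA, hvT, hxT, hlT, hFT, hT5⟩ := hT
  obtain ⟨hUA, hvU, hyU, hlU, hFU, hU5⟩ := hU
  have hxU : x ∉ U := fun hc => h.ij (mem_singleton.1 (sU ▸ mem_inter.2 ⟨hx, hc⟩))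
  have hyT : y ∉ T := fun hc => h.ij.symm (mem_singleton.1 (sT ▸ mem_inter.2 ⟨hy, hc⟩))
  have hI : S ∩ (T ∪ U) = {x, y} := by
    rw [inter_union_distrib_left, sT, sU]
    rfl
  have h1 := F_sm G T U
  have h2 := F_sm G S (T ∪ U)
  rw [hI] at h2
  have h3 : 0 ≤ F G (T ∩ U) := F_nonneg G h.cls (inter_subset_left.trans hTA)
    ⟨l, mem_inter.2 ⟨hlT, hlU⟩⟩
  have h4 : 3 ≤ F G (S ∪ (T ∪ U)) := h.four (union_subset hSA (union_subset hTA hUA))
    (by simp [hv, hvT, hvU]) (by simp [hx]) (by simp [hy]) (by simp [hz]) (by simp [hlT])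
  have hc2 : ({x, y} : Finset V).card = 2 := card_pair h.ij
  by_cases axy : G.Adj x y
  · have h6 : 3 ≤ F G {x, y} := F_small G (by omega) (by omega)
    have h7 : 1 ≤ cr G (T \ U) (U \ T) := cr_one G (mem_sdiff.2 ⟨hxT, hxU⟩)
      (mem_sdiff.2 ⟨hyU, hyT⟩) axy
    omega
  · have h6 : 5 ≤ F G {x, y} := F_small_nonadj G (i := x) (j := y) (by simp) (by simp) h.ij axy
      (by omega)
    omega

/-- A blocking set of `i, j` contains no third neighbour of `v`. -/
theorem claim1 {A : Finset V} {v i j k l : V} (h : Bad G A v i j k l) {S : Finset V}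
    (hS : Blk G A v i j S) : k ∉ S := by
  intro hk
  obtain ⟨hSA, hv, hi, hj, hF, h5⟩ := hS
  by_cases a1 : G.Adj i l
  · by_cases a2 : G.Adj j l
    · exact c1_two h hSA hv hi hj hk hF h5 a1.symm a2.symm
    · by_cases a3 : G.Adj k l
      · exact c1_two h.swap23 hSA hv hi hk hj hF h5 a1.symm a3.symm
      · exact c1_le h.swap12.swap23 hSA hv hj hk hi hF h5 a2 a3
  · by_cases a2 : G.Adj j l
    · by_cases a3 : G.Adj k l
      · exact c1_two h.swap12.swap23 hSA hv hj hk hi hF h5 a2.symm a3.symm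
      · exact c1_le h.swap23 hSA hv hi hk hj hF h5 a1 a3
    · exact c1_le h hSA hv hi hj hk hF h5 a1 a2

/-- Two blocking sets with a common neighbour `i` and adjacent other neighbours `j`, `k`. -/
theorem claim2 {A : Finset V} {v i j k l : V} (h : Bad G A v i j k l) (ajk : G.Adj j k)
    {S T : Finset V} (hS : Blk G A v i j S) (hT : Blk G A v i k T) :
    S ∩ T = {i} ∧ cr G (S \ T) (T \ S) = 1 ∧ F G (S ∪ T) ≤ 2 := by
  have hkS : k ∉ S := claim1 h hS
  have hjT : j ∉ T := claim1 h.swap23 hT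
  obtain ⟨hSA, hvS, hiS, hjS, hFS, hS5⟩ := hS
  obtain ⟨hTA, hvT, hiT, hkT, hFT, hT5⟩ := hT
  have h1 : 1 ≤ cr G (S \ T) (T \ S) := cr_one G (mem_sdiff.2 ⟨hjS, hjT⟩)
    (mem_sdiff.2 ⟨hkT, hkS⟩) ajk
  have h2 : 1 ≤ F G (S ∪ T) := h.three (union_subset hSA hTA) (by simp [hvS, hvT])
    (by simp [hiS]) (by simp [hjS]) (by simp [hkT])
  have h3 : 0 ≤ F G (S ∩ T) := F_nonneg G h.cls (inter_subset_left.trans hSA)
    ⟨i, mem_inter.2 ⟨hiS, hiT⟩⟩
  have h4 := F_sm G S T
  refine ⟨eq_single (mem_inter.2 ⟨hiS, hiT⟩) ?_, by omega, by omega⟩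
  by_contra hc
  by_cases c5 : S.card = 5 ∨ T.card = 5
  · have := F_small G (S := S ∩ T) (by omega) (card_inter_le hjS hjT hkT hkS c5)
    omega
  · omega

end Pool.Agent.TBS
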