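import Pool.Agent.TBS.Draw

/-!
# Graphs with a sparse 4-core
-/

set_option autoImplicit false

namespace Pool.Agent.TBS

open Finset

theorem red_of_core {V : Type} [DecidableEq V] (G : SimpleGraph V)
    (h : ∀ A : Finset V, (∀ v ∈ A, 4 ≤ cr G {v} A) → Cls A G) :
    ∀ (n : ℕ) (A : Finset V), A.card = n → Red A G := by
  intro n
  induction n with
  | zero =>
    intro A hA
    rw [card_eq_zero.1 hA]
    exact Red.empty G
  | succ n ih =>
    intro A hA
    by_cases h3 : ∃ v ∈ A, cr G {v} A ≤ 3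
    · obtain ⟨v, hv, hd⟩ := h3
      exact Red.del A G v hv hd (ih _ (by rw [card_erase_of_mem hv]; omega))
    · push Not at h3
      exact red_of_cls _ A G rfl (h A fun v hv => h3 v hv)

theorem exists_valid_of_core {V : Type} [Fintype V] [DecidableEq V] (G : SimpleGraph V)
    [DecidableRel G.Adj] (hΔ : G.maxDegree ≤ 6)
    (hS : ∀ S : Finset V, (∀ v ∈ S, 4 ≤ (S.filter fun u => G.Adj v u).card) →
      ∀ T ⊆ S, T.Nonempty → ¬ G.IsNClique 5 T ∧
        (∑ v ∈ T, (T.filter fun u => G.Adj v u).card) + 5 ≤ 5 * T.card) :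
    ∃ (P : V → Fin 3 → ℤ) (α : V → V → Fin 3), (∀ a u v, P u a = P v a → u = v) ∧
      TB.Valid G P α := by
  obtain ⟨m, re, hm⟩ := exists_Sl G hΔ
  have e0 : ∀ (v : V) (S : Finset V), cr G {v} S = (S.filter fun u => G.Adj v u).card := by
    intro v S
    unfold cr
    rw [sum_singleton]
    congr 1
    ext y
    simp only [mem_filter]
  have e1 : ∀ S : Finset V, twoE G S = ∑ v ∈ S, (S.filter fun u => G.Adj v u).card := by
    intro S
    unfold twoE cr
    refine sum_congr rfl fun x _ => ?_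
    congr 1
    ext y
    simp only [mem_filter]
  have hc : ∀ A : Finset V, (∀ v ∈ A, 4 ≤ cr G {v} A) → Cls A G := by
    intro A hA T hT hne
    have h1 := hS A (fun v hv => by rw [← e0]; exact hA v hv) T hT hne
    refine ⟨by rw [e1]; exact h1.2, fun h => ?_⟩
    by_contra h20
    refine h1.1 ⟨?_, h⟩
    intro x hx y hy hxy
    by_contra hn
    have := twoE_le_of_nonadj G (mem_coe.1 hx) (mem_coe.1 hy) hxy hn
    rw [h] at this
    omega
  obtain ⟨lam, hl⟩ := main (red_of_core G hc _ univ rfl) m re hm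
  exact exists_valid hm hl

end Pool.Agent.TBS
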