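import Pool.Agent.TB.Koenig

/-!
# Labels with two kinds of capacities

`X` is a finite set of half-edges, `m` the other half of the same edge, `s` the vertex of the
half-edge (at most six half-edges at every vertex), `t` the block of the edge (at most six
half-edges, or no block).  Then the half-edges have labels in `Fin 3` such that the two halves of an
edge have different labels, and every label occurs at most twice at every vertex and at most twice
in every block (`dm`).

Proof (exchange argument of Davies and McDiarmid for two strongly base orderable matroids): take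
labels `α` with the conditions on edges and blocks and labels `β` with the condition on the vertices
and reduce the number of disagreements.
-/

set_option autoImplicit false

namespace Pool.Agent.TBS

open Finset

/-- A finite set with at most `2 n` elements has a map to `Fin n` with fibres of at most two
elements. -/
theorem two_each {X : Type} [DecidableEq X] (n : ℕ) (L : Finset X) (h : L.card ≤ 2 * n)
    (hn : 0 < n) : ∃ g : X → Fin n, ∀ b, (L.filter fun x => g x = b).card ≤ 2 := by
  classical
  have e := L.equivFin
  refine ⟨fun x => if hx : x ∈ L then ⟨(L.equivFin ⟨x, hx⟩).val / 2, by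
    have := (L.equivFin ⟨x, hx⟩).isLt
    omega⟩ else ⟨0, hn⟩, fun b => ?_⟩
  have h1 := card_le_card_of_injOn
    (s := L.filter fun x => (if hx : x ∈ L then (⟨(L.equivFin ⟨x, hx⟩).val / 2, by
      have := (L.equivFin ⟨x, hx⟩).isLt
      omega⟩ : Fin n) else ⟨0, hn⟩) = b) (t := ({2 * b.val, 2 * b.val + 1} : Finset ℕ))
    (fun x => if hx : x ∈ L then (L.equivFin ⟨x, hx⟩).val else 0) (by
      intro x hx
      rw [mem_coe, mem_filter] at hx
      obtain ⟨hx, hb⟩ := hx
      rw [dif_pos hx] at hb
      have hb' := congrArg Fin.val hb
      simp only at hb'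
      simp only [dif_pos hx, coe_insert, coe_singleton, Set.mem_insert_iff, Set.mem_singleton_iff]
      omega) (by
      intro x hx y hy hxy
      rw [mem_coe, mem_filter] at hx hy
      simp only [dif_pos hx.1, dif_pos hy.1] at hxy
      have := L.equivFin.injective (Fin.ext hxy)
      exact congrArg Subtype.val this)
  refine le_trans h1 ?_
  exact card_le_two

section

variable {X U T : Type} [Fintype X] [DecidableEq X] [DecidableEq U] [DecidableEq T]

/-- Conditions on edges and blocks. -/
structure P1 (m : X → X) (t : X → Option T) (lam : X → Fin 3) : Prop where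
  ne : ∀ x, lam (m x) ≠ lam x
  cap : ∀ y a, (univ.filter fun x => t x = some y ∧ lam x = a).card ≤ 2

/-- Condition on the vertices. -/
def P2 (s : X → U) (lam : X → Fin 3) : Prop :=
  ∀ u a, (univ.filter fun x => s x = u ∧ lam x = a).card ≤ 2

theorem exists_P2 (s : X → U) (hs : ∀ u, (univ.filter fun x => s x = u).card ≤ 6) :
    ∃ lam, P2 s lam := by
  classical
  choose g hg using fun u => two_each 3 (univ.filter fun x => s x = u) (hs u) (by norm_num)
  refine ⟨fun x => g (s x) x, fun u a => ?_⟩
  refine le_trans (card_le_card ?_) (hg u a)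
  intro x hx
  rw [mem_filter] at hx ⊢
  refine ⟨mem_filter.2 ⟨mem_univ _, hx.2.1⟩, ?_⟩
  have h : g (s x) x = a := hx.2.2
  rw [hx.2.1] at h
  exact h

omit [DecidableEq X] in
theorem exists_half (m : X → X) (hm : ∀ x, m (m x) = x) (hne : ∀ x, m x ≠ x) :
    ∃ p : X → Bool, ∀ x, p (m x) = !(p x) := by
  classical
  have e := Fintype.equivFin X
  refine ⟨fun x => decide (Fintype.equivFin X x < Fintype.equivFin X (m x)), fun x => ?_⟩
  have h1 : Fintype.equivFin X x ≠ Fintype.equivFin X (m x) := fun h =>
    hne x ((Fintype.equivFin X).injective h).symm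
  simp only [hm]
  rcases lt_or_gt_of_ne h1 with h | h
  · rw [decide_eq_true h, decide_eq_false (not_lt.2 h.le)]
    rfl
  · rw [decide_eq_true h, decide_eq_false (not_lt.2 (le_of_lt h))]
    rfl

theorem exists_P1 (m : X → X) (hm : ∀ x, m (m x) = x) (hne : ∀ x, m x ≠ x) (t : X → Option T)
    (ht : ∀ x, t (m x) = t x) (hc : ∀ y, (univ.filter fun x => t x = some y).card ≤ 6) :
    ∃ lam, P1 m t lam := by
  classical
  obtain ⟨p, hp⟩ := exists_half m hm hne
  -- representatives in a block
  have hR : ∀ y, (univ.filter fun x => t x = some y ∧ p x = true).card ≤ 3 := by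
    intro y
    have h1 : (univ.filter fun x => t x = some y ∧ p x = true).card =
        (univ.filter fun x => t x = some y ∧ p x = false).card := by
      refine card_bij (fun x _ => m x) ?_ ?_ ?_
      · intro x hx
        rw [mem_filter] at hx ⊢
        exact ⟨mem_univ _, by rw [ht]; exact hx.2.1, by rw [hp, hx.2.2]; rfl⟩
      · intro x _ x' _ h
        rw [← hm x, h, hm]
      · intro x hx
        rw [mem_filter] at hx
        refine ⟨m x, ?_, hm x⟩
        rw [mem_filter]
        exact ⟨mem_univ _, by rw [ht]; exact hx.2.1, by rw [hp, hx.2.2]; rfl⟩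
    have h2 : (univ.filter fun x => t x = some y ∧ p x = true).card +
        (univ.filter fun x => t x = some y ∧ p x = false).card ≤ 6 := by
      rw [← card_union_of_disjoint]
      · refine le_trans (card_le_card ?_) (hc y)
        intro x hx
        rw [mem_union, mem_filter, mem_filter] at hx
        rw [mem_filter]
        rcases hx with hx | hx <;> exact ⟨mem_univ _, hx.2.1⟩
      · rw [disjoint_left]
        intro x hx hx'
        rw [mem_filter] at hx hx'
        rw [hx.2.2] at hx'
        exact absurd hx'.2.2 (by decide)
    omega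
  have hk : ∀ y, ∃ k : X → Fin 3, ∀ x x', t x = some y → t x' = some y → p x = true →
      p x' = true → k x = k x' → x = x' := by
    intro y
    have h1 := hR y
    set R := univ.filter fun x => t x = some y ∧ p x = true with hRdef
    refine ⟨fun x => if hx : x ∈ R then ⟨(R.equivFin ⟨x, hx⟩).val, by
      have := (R.equivFin ⟨x, hx⟩).isLt
      omega⟩ else 0, ?_⟩
    intro x x' hx hx' hpx hpx' h
    have e1 : x ∈ R := mem_filter.2 ⟨mem_univ _, hx, hpx⟩
    have e2 : x' ∈ R := mem_filter.2 ⟨mem_univ _, hx', hpx'⟩
    simp only [dif_pos e1, dif_pos e2] at h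
    have h3 := congrArg Fin.val h
    simp only at h3
    exact congrArg Subtype.val (R.equivFin.injective (Fin.ext h3))
  choose k hk using hk
  -- class of the pair
  set κ : X → Fin 3 := fun x =>
    match t x with
    | none => 0
    | some y => k y (if p x = true then x else m x) with hκ
  have hκm : ∀ x, κ (m x) = κ x := by
    intro x
    have : (if p (m x) = true then m x else m (m x)) = (if p x = true then x else m x) := by
      rw [hp, hm]
      cases p x <;> simp
    simp only [hκ, ht, this]
  have hκi : ∀ y x x', t x = some y → t x' = some y → p x = p x' → κ x = κ x' → x = x' := by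
    intro y x x' hx hx' hpp h
    simp only [hκ, hx, hx'] at h
    cases hpx : p x
    · have hpx' : p x' = false := by rw [← hpp, hpx]
      rw [hpx, hpx'] at h
      simp only [Bool.false_eq_true, if_false] at h
      have := hk y (m x) (m x') (by rw [ht, hx]) (by rw [ht, hx']) (by rw [hp, hpx]; rfl)
        (by rw [hp, hpx']; rfl) h
      rw [← hm x, this, hm]
    · have hpx' : p x' = true := by rw [← hpp, hpx]
      rw [hpx, hpx'] at h
      simp only [if_true] at h
      exact hk y x x' hx hx' hpx hpx' h
  refine ⟨fun x => κ x + (if p x = true then 1 else 2), ?_, ?_⟩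
  · intro x
    simp only [hκm, hp]
    cases p x
    · simp
    · simp
  · intro y a
    have h1 : (univ.filter fun x => t x = some y ∧ κ x + (if p x = true then 1 else 2) = a) =
        (univ.filter fun x => t x = some y ∧ p x = true ∧ κ x + 1 = a) ∪
        (univ.filter fun x => t x = some y ∧ p x = false ∧ κ x + 2 = a) := by
      ext x
      simp only [mem_filter, mem_univ, true_and, mem_union]
      cases p x <;> simp
    rw [h1]
    refine le_trans (card_union_le _ _) ?_
    have i1 : ∀ a b c : Fin 3, a + 1 = c → b + 1 = c → a = b := by decide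
    have i2 : ∀ a b c : Fin 3, a + 2 = c → b + 2 = c → a = b := by decide
    have c1 : (univ.filter fun x => t x = some y ∧ p x = true ∧ κ x + 1 = a).card ≤ 1 := by
      rw [card_le_one]
      intro x hx x' hx'
      rw [mem_filter] at hx hx'
      exact hκi y x x' hx.2.1 hx'.2.1 (hx.2.2.1.trans hx'.2.2.1.symm)
        (i1 _ _ _ hx.2.2.2 hx'.2.2.2)
    have c2 : (univ.filter fun x => t x = some y ∧ p x = false ∧ κ x + 2 = a).card ≤ 1 := by
      rw [card_le_one]
      intro x hx x' hx'
      rw [mem_filter] at hx hx'
      exact hκi y x x' hx.2.1 hx'.2.1 (hx.2.2.1.trans hx'.2.2.1.symm)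
        (i2 _ _ _ hx.2.2.2 hx'.2.2.2)
    omega

theorem step [Fintype U] [Fintype T] (m : X → X) (hm : ∀ x, m (m x) = x) (hne : ∀ x, m x ≠ x) (s : X → U)
    (t : X → Option T) (ht : ∀ x, t (m x) = t x) {α β : X → Fin 3}
    (h1 : P1 m t α) (h2 : P2 s β) {x₀ : X} (h0 : α x₀ ≠ β x₀) :
    ∃ α' β', P1 m t α' ∧ P2 s β' ∧
      (univ.filter fun x => α' x ≠ β' x).card < (univ.filter fun x => α x ≠ β x).card := by
  classical
  obtain ⟨p, hp⟩ := exists_half m hm hne
  obtain ⟨k, hki, hkj⟩ : ∃ k : Fin 3, k ≠ α x₀ ∧ k ≠ β x₀ := by
    have : ∀ a b : Fin 3, ∃ k : Fin 3, k ≠ a ∧ k ≠ b := by decide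
    exact this _ _
  set i := α x₀ with hi
  set j := β x₀ with hj
  have hall : ∀ a : Fin 3, a = i ∨ a = j ∨ a = k := by
    have : ∀ i j k : Fin 3, i ≠ j → k ≠ i → k ≠ j → ∀ a : Fin 3, a = i ∨ a = j ∨ a = k := by
      decide
    exact this i j k h0 hki hkj
  -- nodes for the blocks and edges
  set l : X → X ⊕ (T ⊕ X) := fun x =>
    if α x = k then Sum.inr (Sum.inr x)
    else if α (m x) = k then
      (match t x with
        | none => Sum.inr (Sum.inr x)
        | some y => Sum.inr (Sum.inl y))
    else Sum.inl (if p x = true then x else m x) with hl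
  -- nodes for the vertices
  have hg : ∀ u, ∃ g : X → Fin 2, ∀ b,
      ((univ.filter fun x => s x = u ∧ β x ≠ k).filter fun x => g x = b).card ≤ 2 := by
    intro u
    refine two_each 2 _ ?_ (by norm_num)
    have e : (univ.filter fun x => s x = u ∧ β x ≠ k) ⊆
        (univ.filter fun x => s x = u ∧ β x = i) ∪ (univ.filter fun x => s x = u ∧ β x = j) := by
      intro x hx
      rw [mem_filter] at hx
      rw [mem_union, mem_filter, mem_filter]
      rcases hall (β x) with h | h | h
      · exact Or.inl ⟨mem_univ _, hx.2.1, h⟩
      · exact Or.inr ⟨mem_univ _, hx.2.1, h⟩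
      · exact absurd h hx.2.2
    have := card_le_card e
    have := card_union_le (univ.filter fun x => s x = u ∧ β x = i)
      (univ.filter fun x => s x = u ∧ β x = j)
    have := h2 u i
    have := h2 u j
    omega
  choose g hg using hg
  set r : X → (U × Fin 2) ⊕ X := fun x =>
    if β x = k then Sum.inr x else Sum.inl (s x, g (s x) x) with hr
  -- fibres of `l`
  have hl2 : ∀ z, (univ.filter fun x => l x = z).card ≤ 2 := by
    rintro (z | z | z)
    · -- pair
      refine le_trans (card_le_card (t := {z, m z}) ?_) card_le_two
      intro x hx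
      have hx' := (mem_filter.1 hx).2
      simp only [hl] at hx'
      split_ifs at hx' with a1 a2 a3
      · cases hx'' : t x <;> rw [hx''] at hx' <;> simp at hx'
      · have := Sum.inl.inj hx'
        rw [this]
        exact mem_insert_self _ _
      · have := Sum.inl.inj hx'
        rw [← this, hm]
        exact mem_insert_of_mem (mem_singleton_self _)
    · -- block
      refine le_trans ?_ (h1.cap z k)
      refine card_le_card_of_injOn m ?_ ?_
      · intro x hx
        have hx' := (mem_filter.1 (mem_coe.1 hx)).2
        simp only [hl] at hx'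
        by_cases a1 : α x = k
        · rw [if_pos a1] at hx'
          simp at hx'
        by_cases a2 : α (m x) = k
        swap
        · rw [if_neg a1, if_neg a2] at hx'
          simp at hx'
        rw [if_neg a1, if_pos a2] at hx'
        cases hx'' : t x
        · rw [hx''] at hx'
          simp at hx'
        · rw [hx''] at hx'
          simp only [Sum.inr.injEq, Sum.inl.injEq] at hx'
          rw [mem_coe, mem_filter]
          exact ⟨mem_univ _, by rw [ht, hx'', hx'], a2⟩
      · intro x _ x' _ h
        rw [← hm x, h, hm]
    · -- own node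
      refine le_trans (card_le_card (t := {z}) ?_) (by simp)
      intro x hx
      have hx' := (mem_filter.1 hx).2
      simp only [hl] at hx'
      rw [mem_singleton]
      split_ifs at hx' with a1 a2 a3
      · exact Sum.inr.inj (Sum.inr.inj hx')
      · cases hx'' : t x
        · rw [hx''] at hx'
          exact Sum.inr.inj (Sum.inr.inj hx')
        · rw [hx''] at hx'
          simp at hx'
  have hr2 : ∀ z, (univ.filter fun x => r x = z).card ≤ 2 := by
    rintro (⟨u, b⟩ | z)
    · refine le_trans (card_le_card ?_) (hg u b)
      intro x hx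
      have hx' := (mem_filter.1 hx).2
      simp only [hr] at hx'
      split_ifs at hx' with a1
      · have h3 := Sum.inl.inj hx'
        have h4 : s x = u := (Prod.mk.inj h3).1
        have h5 : g (s x) x = b := (Prod.mk.inj h3).2
        rw [h4] at h5
        exact mem_filter.2 ⟨mem_filter.2 ⟨mem_univ _, h4, a1⟩, h5⟩
    · refine le_trans (card_le_card (t := {z}) ?_) (by simp)
      intro x hx
      have hx' := (mem_filter.1 hx).2
      simp only [hr] at hx'
      rw [mem_singleton]
      split_ifs at hx' with a1
      · exact Sum.inr.inj hx'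
  obtain ⟨c, hc1, hc2⟩ := TB.koenig 2 X (X ⊕ (T ⊕ X)) ((U × Fin 2) ⊕ X) l r hl2 hr2
  set f : X → Fin 3 := fun x => if c x = 0 then i else j with hf
  have hfk : ∀ x, f x ≠ k := by
    intro x
    simp only [hf]
    split_ifs
    · exact hki.symm
    · exact hkj.symm
  have hfi : ∀ x, f x = i ↔ c x = 0 := by
    intro x
    simp only [hf]
    split_ifs with h
    · exact ⟨fun _ => h, fun _ => rfl⟩
    · exact ⟨fun e => absurd e.symm h0, fun e => absurd e h⟩
  have hfj : ∀ x, f x = j ↔ c x = 1 := by
    intro x
    simp only [hf]
    have : ∀ b : Fin 2, b ≠ 0 ↔ b = 1 := by decide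
    split_ifs with h
    · constructor
      · intro e
        exact absurd e h0
      · intro e
        rw [h] at e
        exact absurd e (by decide)
    · exact ⟨fun _ => (this _).1 h, fun _ => rfl⟩
  -- the two halves of a pair have different colours
  have hpair : ∀ x, α x ≠ k → α (m x) ≠ k → c (m x) ≠ c x := by
    intro x a1 a2 h
    refine hne x (hc1 (m x) x ?_ h)
    have a3 : α (m (m x)) ≠ k := by rwa [hm]
    simp only [hl, if_neg a1, if_neg a2, hm, hp]
    cases p x <;> simp
  refine ⟨fun x => if α x = k then k else f x, fun x => if β x = k then k else f x, ⟨?_, ?_⟩, ?_,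
    ?_⟩
  · intro x
    by_cases a1 : α x = k
    · by_cases a2 : α (m x) = k
      · exact absurd (a2.trans a1.symm) (h1.ne x)
      · rw [if_pos a1, if_neg a2]
        exact hfk _
    · by_cases a2 : α (m x) = k
      · rw [if_neg a1, if_pos a2]
        exact (hfk _).symm
      · rw [if_neg a1, if_neg a2]
        intro h
        refine hpair x a1 a2 ?_
        have h3 : ∀ b b' : Fin 2, ((b = 0) ↔ (b' = 0)) → b = b' := by decide
        refine h3 _ _ ?_
        rw [← hfi, ← hfi, h]
  · intro y a
    -- colour classes in the block
    have hcol : ∀ b : Fin 2, (univ.filter fun x => t x = some y ∧ α x ≠ k ∧ c x = b).card ≤ 2 := by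
      intro b
      set D : Fin 2 → Finset X := fun b =>
        univ.filter fun x => t x = some y ∧ α x ≠ k ∧ α (m x) ≠ k ∧ c x = b with hD
      set S : Fin 2 → Finset X := fun b =>
        univ.filter fun x => t x = some y ∧ α x ≠ k ∧ α (m x) = k ∧ c x = b with hSd
      have q0 : ∀ b, (univ.filter fun x => t x = some y ∧ α x ≠ k ∧ c x = b).card =
          (D b).card + (S b).card := by
        intro b
        rw [← card_union_of_disjoint]
        · congr 1
          ext x
          simp only [hD, hSd, mem_filter, mem_univ, true_and, mem_union]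
          tauto
        · rw [disjoint_left]
          intro x hx hx'
          simp only [hD, hSd, mem_filter, mem_univ, true_and] at hx hx'
          exact hx.2.2.1 hx'.2.2.1
      have q1 : (D 0).card = (D 1).card := by
        have e1 : ∀ b b' : Fin 2, b ≠ b' → b = 0 → b' = 1 := by decide
        have e2 : ∀ b b' : Fin 2, b ≠ b' → b = 1 → b' = 0 := by decide
        refine card_bij (fun x _ => m x) ?_ ?_ ?_
        · intro x hx
          simp only [hD, mem_filter, mem_univ, true_and] at hx ⊢
          exact ⟨by rw [ht]; exact hx.1, hx.2.2.1, by rw [hm]; exact hx.2.1,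
            e1 _ _ (hpair x hx.2.1 hx.2.2.1).symm hx.2.2.2⟩
        · intro x _ x' _ h
          rw [← hm x, h, hm]
        · intro x hx
          simp only [hD, mem_filter, mem_univ, true_and] at hx
          refine ⟨m x, ?_, hm x⟩
          simp only [hD, mem_filter, mem_univ, true_and]
          exact ⟨by rw [ht]; exact hx.1, hx.2.2.1, by rw [hm]; exact hx.2.1,
            e2 _ _ (hpair x hx.2.1 hx.2.2.1).symm hx.2.2.2⟩
      have q2 : ∀ b, (S b).card ≤ 1 := by
        intro b
        rw [card_le_one]
        intro x hx x' hx'
        simp only [hSd, mem_filter, mem_univ, true_and] at hx hx'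
        refine hc1 x x' ?_ (hx.2.2.2.trans hx'.2.2.2.symm)
        simp only [hl, if_neg hx.2.1, if_neg hx'.2.1, if_pos hx.2.2.1, if_pos hx'.2.2.1, hx.1, hx'.1]
      have q3 : (D 0).card + (S 0).card + ((D 1).card + (S 1).card) ≤ 4 := by
        rw [← q0, ← q0, ← card_union_of_disjoint]
        · have e : ((univ.filter fun x => t x = some y ∧ α x ≠ k ∧ c x = 0) ∪
              (univ.filter fun x => t x = some y ∧ α x ≠ k ∧ c x = 1)) ⊆
              (univ.filter fun x => t x = some y ∧ α x = i) ∪
              (univ.filter fun x => t x = some y ∧ α x = j) := by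
            intro x hx
            simp only [mem_filter, mem_univ, true_and, mem_union] at hx ⊢
            rcases hall (α x) with h | h | h <;> rcases hx with hx | hx
            · exact Or.inl ⟨hx.1, h⟩
            · exact Or.inl ⟨hx.1, h⟩
            · exact Or.inr ⟨hx.1, h⟩
            · exact Or.inr ⟨hx.1, h⟩
            · exact absurd h hx.2.1
            · exact absurd h hx.2.1
          have e1 := card_le_card e
          have e2 := card_union_le (univ.filter fun x => t x = some y ∧ α x = i)
            (univ.filter fun x => t x = some y ∧ α x = j)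
          have e3 := h1.cap y i
          have e4 := h1.cap y j
          omega
        · rw [disjoint_left]
          intro x hx hx'
          simp only [mem_filter, mem_univ, true_and] at hx hx'
          rw [hx.2.2] at hx'
          exact absurd hx'.2.2 (by decide)
      have e0 : ∀ b : Fin 2, b = 0 ∨ b = 1 := by decide
      have q4 := q2 0
      have q5 := q2 1
      rcases e0 b with rfl | rfl
      · rw [q0]
        omega
      · rw [q0]
        omega
    rcases hall a with rfl | rfl | rfl
    · refine le_trans (card_le_card ?_) (hcol 0)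
      intro x hx
      rw [mem_filter] at hx ⊢
      obtain ⟨-, h3, h4⟩ := hx
      by_cases a1 : α x = k
      · rw [if_pos a1] at h4
        exact absurd h4 hki
      · rw [if_neg a1] at h4
        exact ⟨mem_univ _, h3, a1, (hfi x).1 h4⟩
    · refine le_trans (card_le_card ?_) (hcol 1)
      intro x hx
      rw [mem_filter] at hx ⊢
      obtain ⟨-, h3, h4⟩ := hx
      by_cases a1 : α x = k
      · rw [if_pos a1] at h4
        exact absurd h4 hkj
      · rw [if_neg a1] at h4
        exact ⟨mem_univ _, h3, a1, (hfj x).1 h4⟩
    · refine le_trans (card_le_card ?_) (h1.cap y a)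
      intro x hx
      rw [mem_filter] at hx ⊢
      obtain ⟨-, h3, h4⟩ := hx
      by_cases a1 : α x = a
      · exact ⟨mem_univ _, h3, a1⟩
      · rw [if_neg a1] at h4
        exact absurd h4 (hfk x)
  · intro u a
    have hcol : ∀ b : Fin 2, (univ.filter fun x => s x = u ∧ β x ≠ k ∧ c x = b).card ≤ 2 := by
      intro b
      have e : ∀ d : Fin 2, (univ.filter fun x => s x = u ∧ β x ≠ k ∧ c x = b ∧
          g u x = d).card ≤ 1 := by
        intro d
        rw [card_le_one]
        intro x hx x' hx'
        simp only [mem_filter, mem_univ, true_and] at hx hx'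
        refine hc2 x x' ?_ (hx.2.2.1.trans hx'.2.2.1.symm)
        simp only [hr, if_neg hx.2.1, if_neg hx'.2.1, hx.1, hx'.1, hx.2.2.2, hx'.2.2.2]
      have e1 : (univ.filter fun x => s x = u ∧ β x ≠ k ∧ c x = b) ⊆
          (univ.filter fun x => s x = u ∧ β x ≠ k ∧ c x = b ∧ g u x = 0) ∪
          (univ.filter fun x => s x = u ∧ β x ≠ k ∧ c x = b ∧ g u x = 1) := by
        intro x hx
        simp only [mem_filter, mem_univ, true_and, mem_union] at hx ⊢
        have e0 : ∀ b : Fin 2, b = 0 ∨ b = 1 := by decide
        rcases e0 (g u x) with h | h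
        · exact Or.inl ⟨hx.1, hx.2.1, hx.2.2, h⟩
        · exact Or.inr ⟨hx.1, hx.2.1, hx.2.2, h⟩
      have e2 := card_le_card e1
      have e3 := card_union_le (univ.filter fun x => s x = u ∧ β x ≠ k ∧ c x = b ∧ g u x = 0)
        (univ.filter fun x => s x = u ∧ β x ≠ k ∧ c x = b ∧ g u x = 1)
      have e4 := e 0
      have e5 := e 1
      omega
    rcases hall a with rfl | rfl | rfl
    · refine le_trans (card_le_card ?_) (hcol 0)
      intro x hx
      rw [mem_filter] at hx ⊢
      obtain ⟨-, h3, h4⟩ := hx
      beta_reduce at h4
      by_cases a1 : β x = k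
      · rw [if_pos a1] at h4
        exact absurd h4 hki
      · rw [if_neg a1] at h4
        exact ⟨mem_univ _, h3, a1, (hfi x).1 h4⟩
    · refine le_trans (card_le_card ?_) (hcol 1)
      intro x hx
      rw [mem_filter] at hx ⊢
      obtain ⟨-, h3, h4⟩ := hx
      beta_reduce at h4
      by_cases a1 : β x = k
      · rw [if_pos a1] at h4
        exact absurd h4 hkj
      · rw [if_neg a1] at h4
        exact ⟨mem_univ _, h3, a1, (hfj x).1 h4⟩
    · refine le_trans (card_le_card ?_) (h2 u a)
      intro x hx
      rw [mem_filter] at hx ⊢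
      obtain ⟨-, h3, h4⟩ := hx
      beta_reduce at h4
      by_cases a1 : β x = a
      · exact ⟨mem_univ _, h3, a1⟩
      · rw [if_neg a1] at h4
        exact absurd h4 (hfk x)
  · refine card_lt_card ?_
    rw [ssubset_iff_of_subset]
    · refine ⟨x₀, mem_filter.2 ⟨mem_univ _, h0⟩, ?_⟩
      rw [mem_filter]
      rintro ⟨-, h⟩
      have n1 : α x₀ ≠ k := fun e => hki (hi.trans e).symm
      have n2 : β x₀ ≠ k := fun e => hkj (hj.trans e).symm
      beta_reduce at h
      rw [if_neg n1, if_neg n2] at h
      exact h rfl
    · intro x hx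
      rw [mem_filter] at hx ⊢
      refine ⟨mem_univ _, fun h => hx.2 ?_⟩
      beta_reduce
      rw [h]

theorem dm [Fintype U] [Fintype T] (m : X → X) (hm : ∀ x, m (m x) = x) (hne : ∀ x, m x ≠ x) (s : X → U)
    (hs : ∀ u, (univ.filter fun x => s x = u).card ≤ 6)
    (t : X → Option T) (ht : ∀ x, t (m x) = t x)
    (hc : ∀ y, (univ.filter fun x => t x = some y).card ≤ 6) :
    ∃ lam : X → Fin 3, (∀ x, lam (m x) ≠ lam x) ∧
      (∀ u a, (univ.filter fun x => s x = u ∧ lam x = a).card ≤ 2) ∧
      (∀ y a, (univ.filter fun x => t x = some y ∧ lam x = a).card ≤ 2) := by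
  have key : ∀ (n : ℕ) (α β : X → Fin 3), P1 m t α → P2 s β →
      (univ.filter fun x => α x ≠ β x).card ≤ n → ∃ lam, P1 m t lam ∧ P2 s lam := by
    intro n
    induction n with
    | zero =>
      intro α β h1 h2 h
      have : α = β := by
        funext x
        by_contra hx
        have h3 := card_eq_zero.1 (Nat.le_zero.1 h)
        rw [filter_eq_empty_iff] at h3
        exact h3 (mem_univ x) hx
      subst this
      exact ⟨α, h1, h2⟩
    | succ n ih =>
      intro α β h1 h2 h
      by_cases h3 : ∃ x, α x ≠ β x
      · obtain ⟨x₀, h0⟩ := h3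
        obtain ⟨α', β', h1', h2', hlt⟩ := step m hm hne s t ht h1 h2 h0
        exact ih α' β' h1' h2' (by omega)
      · push Not at h3
        have : α = β := funext h3
        subst this
        exact ⟨α, h1, h2⟩
  obtain ⟨α, hα⟩ := exists_P1 m hm hne t ht hc
  obtain ⟨β, hβ⟩ := exists_P2 s hs
  obtain ⟨lam, h1, h2⟩ := key _ α β hα hβ le_rfl
  exact ⟨lam, h1.ne, h2, h1.cap⟩

end

end Pool.Agent.TBS
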