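import Pool.Agent.TBS.Slot

/-!
# The initial matching of slots  (MODULE Init)

For every `u` choose an injection `e u` of the neighbours of `u` into `Fin 6` (degree at most 6).
The slots `(u, e u w)`, `u ~ w`, are real, `(u, e u w)` is matched with `(w, e w u)`.  The number of
the other slots is `6 |V| - sum of degrees`, an even number (`sum_degrees_eq_twice_card_edges`); match
them by a fixed point free involution (an equivalence with `Fin (2 k)` and `Fin.rev`).
-/

set_option autoImplicit false

namespace Pool.Agent.TBS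

open Finset

/-- A finite type of even cardinality has a fixed point free involution. -/
theorem exists_invol_of_even {α : Type} [Fintype α] (h : Even (Fintype.card α)) :
    ∃ t : α → α, (∀ x, t (t x) = x) ∧ ∀ x, t x ≠ x := by
  classical
  obtain ⟨k, hk⟩ := h
  have hc : Fintype.card α = Fintype.card (Fin k ⊕ Fin k) := by simp [hk]
  let f : α ≃ Fin k ⊕ Fin k := Fintype.equivOfCardEq hc
  refine ⟨fun x => f.symm (Sum.swap (f x)), fun x => ?_, fun x hx => ?_⟩
  · simp
  · have h1 : Sum.swap (f x) = f x := by
      have := congrArg f hx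
      simpa using this
    rcases hfx : f x with a | a <;> rw [hfx] at h1 <;> simp at h1

theorem exists_Sl {V : Type} [Fintype V] [DecidableEq V] (G : SimpleGraph V) [DecidableRel G.Adj]
    (h6 : G.maxDegree ≤ 6) : ∃ m re, Sl (univ : Finset V) G m re := by
  classical
  -- the injections
  have hinj : ∀ u : V, ∃ e : V → Fin 6, ∀ w, G.Adj u w → ∀ w', G.Adj u w' → e w = e w' → w = w' := by
    intro u
    have hd : Fintype.card {w // G.Adj u w} ≤ Fintype.card (Fin 6) := by
      have h1 : Fintype.card {w // G.Adj u w} = G.degree u := by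
        rw [← G.card_neighborFinset_eq_degree, Fintype.card_subtype]
        congr 1
        ext w
        simp
      rw [h1, Fintype.card_fin]
      exact (G.degree_le_maxDegree u).trans h6
    obtain ⟨f⟩ := Function.Embedding.nonempty_of_card_le hd
    refine ⟨fun w => if h : G.Adj u w then f ⟨w, h⟩ else 0, fun w hw w' hw' he => ?_⟩
    simp only [dif_pos hw, dif_pos hw'] at he
    have := f.injective he
    simpa using this
  choose e he using hinj
  -- the real slots
  let R : V × Fin 6 → Prop := fun h => ∃ w, G.Adj h.1 w ∧ e h.1 w = h.2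
  have hcardR : (univ.filter R).card = ∑ u, G.degree u := by
    have h1 : (univ.filter R).card =
        ∑ u : V, ((univ : Finset (Fin 6)).filter fun i => R (u, i)).card := by
      rw [card_filter, ← univ_product_univ, sum_product]
      refine sum_congr rfl fun u _ => ?_
      rw [card_filter]
    rw [h1]
    refine sum_congr rfl fun u _ => ?_
    have h2 : ((univ : Finset (Fin 6)).filter fun i => R (u, i)) = (G.neighborFinset u).image (e u) := by
      ext i
      simp only [mem_filter, mem_univ, true_and, mem_image, SimpleGraph.mem_neighborFinset, R]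
    rw [h2, card_image_of_injOn, G.card_neighborFinset_eq_degree]
    intro w hw w' hw' hww
    simp only [SimpleGraph.coe_neighborFinset, SimpleGraph.mem_neighborSet] at hw hw'
    exact he u w hw w' hw' hww
  have heven : Even (Fintype.card {h : V × Fin 6 // ¬ R h}) := by
    have h1 : Fintype.card {h : V × Fin 6 // ¬ R h} = (univ.filter fun h => ¬ R h).card :=
      Fintype.card_subtype _
    have h2 : (univ.filter R).card + (univ.filter fun h => ¬ R h).card =
        (univ : Finset (V × Fin 6)).card := card_filter_add_card_filter_not _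
    have h3 : (univ : Finset (V × Fin 6)).card = Fintype.card V * 6 := by simp
    have h4 := G.sum_degrees_eq_twice_card_edges
    rw [hcardR, h4, h3] at h2
    rw [h1]
    exact ⟨(Fintype.card V * 6 - 2 * G.edgeFinset.card) / 2, by omega⟩
  obtain ⟨t, ht, htne⟩ := exists_invol_of_even heven
  -- the matching
  let m : V × Fin 6 → V × Fin 6 := fun h =>
    if hr : R h then (hr.choose, e hr.choose h.1) else (t ⟨h, hr⟩).1
  have hmR : ∀ u w, G.Adj u w → m (u, e u w) = (w, e w u) := by
    intro u w huw
    have hr : R (u, e u w) := ⟨w, huw, rfl⟩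
    have hs := hr.choose_spec
    have hw : hr.choose = w := he u _ hs.1 w huw hs.2
    simp only [m, dif_pos hr]
    rw [hw]
  have hRR : ∀ u w, G.Adj u w → R (u, e u w) := fun u w h => ⟨w, h, rfl⟩
  have hmN : ∀ h (hr : ¬ R h), m h = (t ⟨h, hr⟩).1 := by
    intro h hr
    simp only [m, dif_neg hr]
  have hcase : ∀ h, R h → ∃ u w, G.Adj u w ∧ h = (u, e u w) := by
    rintro ⟨u, i⟩ ⟨w, hw, hi⟩
    exact ⟨u, w, hw, by simp only at hi; rw [hi]⟩
  refine ⟨m, R, ⟨fun _ _ => mem_univ _, ?_, ?_, ?_, ?_, ?_, ?_⟩⟩
  · intro h _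
    by_cases hr : R h
    · obtain ⟨u, w, huw, rfl⟩ := hcase h hr
      rw [hmR u w huw, hmR w u huw.symm]
    · rw [hmN h hr, hmN _ (t ⟨h, hr⟩).2]
      have : (⟨(t ⟨h, hr⟩).1, (t ⟨h, hr⟩).2⟩ : {h : V × Fin 6 // ¬ R h}) = t ⟨h, hr⟩ := rfl
      rw [this, ht]
  · intro h _ hm
    by_cases hr : R h
    · obtain ⟨u, w, huw, rfl⟩ := hcase h hr
      rw [hmR u w huw] at hm
      exact huw.ne' (congrArg Prod.fst hm)
    · rw [hmN h hr] at hm
      exact htne ⟨h, hr⟩ (Subtype.ext hm)
  · intro h _ hr
    obtain ⟨u, w, huw, rfl⟩ := hcase h hr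
    rw [hmR u w huw]
    exact hRR w u huw.symm
  · intro h _ hr
    obtain ⟨u, w, huw, rfl⟩ := hcase h hr
    rw [hmR u w huw]
    exact huw
  · intro h h' _ h1 hr hr' hm
    obtain ⟨u, w, huw, rfl⟩ := hcase h hr
    obtain ⟨u', w', huw', rfl⟩ := hcase h' hr'
    rw [hmR u w huw, hmR u' w' huw'] at hm
    simp only at h1 hm
    rw [h1, hm]
  · intro u _ w _ huw
    exact ⟨e u w, by rw [hmR u w huw], hRR u w huw⟩

end Pool.Agent.TBS
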