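import Pool.Agent.TBS.Slot

/-!
# Deleting a vertex: the labelling  (MODULE GdStep)

`Gd.step`: `lam h = if h.1 = v then g h.2 else lam' h`, `y i = lam' (m (v, i))`.
* `ne`, `two`: direct.  (`y (σ i) <> y i` is not needed here.)
* `sp` for `v` not in `S`: the slots counted by `arcs m re lam a S` are counted by
  `arcs (mR ..) (reR ..) lam' a S`.
* `sp` for `v` in `S`, `S' = S.erase v`, `T = {i | (m (v, i)).1 in S'}`: the slots counted by
  `arcs m re lam a S` are
  (A) `h = (v, i)`, `i` in `T`, `re (v, i)`, `g i = a`;
  (B) `h = m (v, i)`, `i` in `T`, `re (v, i)`, `y i = a`;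
  (C) `h.1`, `(m h).1` in `S'`, `re h`, `lam' h = a`.
  The slots counted by `arcs (mR ..) (reR ..) lam' a S'` are (C) and
  (D) `h = m (v, i)`, `P i`, `i` in `T`, `σ i` in `T`, `y i = a`.
  By `gc`: `|A| + |B| <= 2 + |D|` (injectivity of `i -> m (v, i)` for slots over `A`).  So for
  `|S'| >= 2`: `arcs .. S <= 2 + arcs .. S' <= 2 + 2 |S'| - 3`.  For `S' = {w}`: (C) is empty
  (`re_adj`, `G` has no loops), at most one real `i` has `(m (v, i)).1 = w` (`re_inj`) and
  `g i <> y i`: `|A| + |B| <= 1`.
-/

set_option autoImplicit false

namespace Pool.Agent.TBS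

open Finset

variable {V : Type} [DecidableEq V]

private theorem mR_v {m : V × Fin 6 → V × Fin 6} {v : V} {σ : Fin 6 → Fin 6} {h : V × Fin 6}
    {i : Fin 6} (e : m h = (v, i)) : mR m v σ h = m (v, σ i) := by
  unfold mR
  rw [e, if_pos rfl]

private theorem mR_n {m : V × Fin 6 → V × Fin 6} {v : V} {σ : Fin 6 → Fin 6} {h : V × Fin 6}
    (e : (m h).1 ≠ v) : mR m v σ h = m h := by
  unfold mR
  rw [if_neg e]

private theorem reR_v {m : V × Fin 6 → V × Fin 6} {re : V × Fin 6 → Prop} {v : V}
    {P : Fin 6 → Prop} {h : V × Fin 6} {i : Fin 6} (e : m h = (v, i)) :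
    reR m re v P h ↔ P i := by
  unfold reR
  rw [e, if_pos rfl]

private theorem reR_n {m : V × Fin 6 → V × Fin 6} {re : V × Fin 6 → Prop} {v : V}
    {P : Fin 6 → Prop} {h : V × Fin 6} (e : (m h).1 ≠ v) :
    reR m re v P h ↔ re h := by
  unfold reR
  rw [if_neg e]

omit [DecidableEq V] in
private theorem exi {m : V × Fin 6 → V × Fin 6} {v : V} {h : V × Fin 6} (e : (m h).1 = v) :
    ∃ i, m h = (v, i) := ⟨(m h).2, Prod.ext e rfl⟩

open Classical in
theorem Gd.step {A : Finset V} {G : SimpleGraph V} {m : V × Fin 6 → V × Fin 6}
    {re : V × Fin 6 → Prop} (h : Sl A G m re) {v : V} (hv : v ∈ A) {σ : Fin 6 → Fin 6}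
    (hσ : Pr m v σ) {P : Fin 6 → Prop} (hP1 : ∀ i, P i → re (v, i))
    {lam' : V × Fin 6 → Fin 3} (hl : Gd (A.erase v) (mR m v σ) (reR m re v P) lam')
    {g : Fin 6 → Fin 3} (g2 : ∀ a, (univ.filter fun i => g i = a).card = 2)
    (gy : ∀ i, (m (v, i)).1 ≠ v → g i ≠ lam' (m (v, i)))
    (gl : ∀ i, (m (v, i)).1 = v → g (σ i) ≠ g i)
    (gc : ∀ a, ∀ T : Finset (Fin 6),
      (T.filter fun i => re (v, i) ∧ g i = a).card +
        (T.filter fun i => re (v, i) ∧ lam' (m (v, i)) = a).card ≤
      2 + (T.filter fun i => P i ∧ σ i ∈ T ∧ lam' (m (v, i)) = a).card) :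
    Gd A m re (fun h => if h.1 = v then g h.2 else lam' h) := by
  have mv : ∀ {t : V × Fin 6} {i : Fin 6}, t.1 ∈ A → m t = (v, i) → m (v, i) = t := by
    intro t i ht e
    rw [← e, h.inv t ht]
  refine ⟨?_, ?_, ?_⟩
  · intro t ht
    by_cases tv : t.1 = v
    · obtain ⟨u, i⟩ := t
      simp only at tv
      subst tv
      by_cases c : (m (u, i)).1 = u
      · have e := hσ.loop i c
        simp only [e, if_true]
        exact gl i c
      · simp only [if_true, if_neg c]
        exact fun e => gy i c e.symm
    · by_cases c : (m t).1 = v
      · obtain ⟨i, e⟩ := exi c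
        have e2 := mv ht e
        simp only [e, if_true, if_neg tv]
        have := gy i (by rw [e2]; exact tv)
        rw [e2] at this
        exact this
      · simp only [if_neg tv, if_neg c]
        have := hl.ne t (mem_erase.2 ⟨tv, ht⟩)
        rw [mR_n c] at this
        exact this
  · intro u hu a
    by_cases uv : u = v
    · simp only [uv, if_true]
      exact g2 a
    · simp only [if_neg uv]
      exact hl.two u (mem_erase.2 ⟨uv, hu⟩) a
  · intro a S hS hc
    by_cases vS : v ∈ S
    · -- v in S
      have hvS' : v ∉ S.erase v := notMem_erase v S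
      have hS' : S.erase v ⊆ A.erase v := erase_subset_erase v hS
      have hcard : (S.erase v).card + 1 = S.card := card_erase_add_one vS
      have hA1 : ∀ {u : V}, u ∈ S.erase v → u ∈ A := fun hu => hS (mem_of_mem_erase hu)
      have hne : ∀ {u : V}, u ∈ S.erase v → u ≠ v := fun hu => ne_of_mem_erase hu
      set T : Finset (Fin 6) := univ.filter fun i => (m (v, i)).1 ∈ S.erase v with hT
      have mT : ∀ i, i ∈ T ↔ (m (v, i)).1 ∈ S.erase v := by
        intro i
        simp only [hT, mem_filter, mem_univ, true_and]
      set FA := T.filter fun i => re (v, i) ∧ g i = a with hFA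
      set FB := T.filter fun i => re (v, i) ∧ lam' (m (v, i)) = a with hFB
      set FC := ((S.erase v) ×ˢ (univ : Finset (Fin 6))).filter
        fun t => re t ∧ (m t).1 ∈ S.erase v ∧ lam' t = a with hFC
      have hle : arcs m re (fun t => if t.1 = v then g t.2 else lam' t) a S
          ≤ FA.card + FB.card + FC.card := by
        have hsub : ((S ×ˢ (univ : Finset (Fin 6))).filter
            fun t => re t ∧ (m t).1 ∈ S ∧ (if t.1 = v then g t.2 else lam' t) = a)
            ⊆ (FA.image fun i => ((v, i) : V × Fin 6)) ∪ (FB.image fun i => m (v, i)) ∪ FC := by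
          intro t ht
          rw [mem_filter, mem_product] at ht
          obtain ⟨⟨tS, -⟩, tr, tm, tl⟩ := ht
          have tA := hS tS
          by_cases tv : t.1 = v
          · have hm : (m t).1 ∈ S.erase v := by
              refine mem_erase.2 ⟨?_, tm⟩
              intro e
              have := h.re_adj t tA tr
              rw [e, tv] at this
              exact G.loopless.irrefl _ this
            obtain ⟨u, i⟩ := t
            simp only at tv
            subst tv
            rw [if_pos rfl] at tl
            refine mem_union_left _ (mem_union_left _ (mem_image.2 ⟨i, ?_, rfl⟩))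
            rw [hFA, mem_filter, mT]
            exact ⟨hm, tr, tl⟩
          · rw [if_neg tv] at tl
            by_cases c : (m t).1 = v
            · obtain ⟨i, e⟩ := exi c
              have e2 := mv tA e
              refine mem_union_left _ (mem_union_right _ (mem_image.2 ⟨i, ?_, e2⟩))
              rw [hFB, mem_filter, mT, e2]
              refine ⟨mem_erase.2 ⟨tv, tS⟩, ?_, tl⟩
              have := h.re_m t tA tr
              rw [e] at this
              exact this
            · refine mem_union_right _ ?_
              rw [hFC, mem_filter, mem_product]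
              exact ⟨⟨mem_erase.2 ⟨tv, tS⟩, mem_univ _⟩, tr, mem_erase.2 ⟨c, tm⟩, tl⟩
        unfold arcs
        refine (card_le_card hsub).trans ?_
        refine (card_union_le _ _).trans (Nat.add_le_add ((card_union_le _ _).trans
          (Nat.add_le_add card_image_le card_image_le)) le_rfl)
      by_cases h2 : 2 ≤ (S.erase v).card
      · set FD := T.filter fun i => P i ∧ σ i ∈ T ∧ lam' (m (v, i)) = a with hFD
        have hgc : FA.card + FB.card ≤ 2 + FD.card := by
          convert gc a T
        have hinj : Set.InjOn (fun i => m (v, i)) (FD : Set (Fin 6)) := by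
          intro i _ j _ e
          have := congrArg m e
          rw [h.inv (v, i) hv, h.inv (v, j) hv] at this
          exact congrArg Prod.snd this
        have hge : FC.card + FD.card
            ≤ arcs (mR m v σ) (reR m re v P) lam' a (S.erase v) := by
          rw [← card_image_of_injOn hinj, ← card_union_of_disjoint]
          · unfold arcs
            refine card_le_card ?_
            intro t ht
            rw [mem_filter, mem_product]
            rcases mem_union.1 ht with ht | ht
            · rw [hFC, mem_filter, mem_product] at ht
              obtain ⟨⟨t1, t2⟩, t3, t4, t5⟩ := ht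
              refine ⟨⟨t1, t2⟩, ?_, ?_, t5⟩
              · rw [reR_n (hne t4)]
                exact t3
              · rw [mR_n (hne t4)]
                exact t4
            · obtain ⟨i, hi, e⟩ := mem_image.1 ht
              rw [hFD, mem_filter, mT, mT] at hi
              obtain ⟨i1, i2, i3, i4⟩ := hi
              have e' : m (v, i) = t := e
              have e2 : m t = (v, i) := by rw [← e', h.inv (v, i) hv]
              rw [e'] at i1 i4
              refine ⟨⟨i1, mem_univ _⟩, ?_, ?_, i4⟩
              · rw [reR_v e2]
                exact i2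
              · rw [mR_v e2]
                exact i3
          · rw [disjoint_left]
            intro t ht ht'
            obtain ⟨i, hi, e⟩ := mem_image.1 ht'
            have e' : m (v, i) = t := e
            have e2 : m t = (v, i) := by rw [← e', h.inv (v, i) hv]
            rw [hFC, mem_filter] at ht
            have := ht.2.2.1
            rw [e2] at this
            exact hvS' this
        have hsp := hl.sp a (S.erase v) hS' h2
        omega
      · have h1 : (S.erase v).card = 1 := by omega
        obtain ⟨w, hw⟩ := card_eq_one.1 h1
        have hC0 : FC.card = 0 := by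
          rw [card_eq_zero, hFC, filter_eq_empty_iff]
          intro t ht
          rw [mem_product] at ht
          rintro ⟨t1, t2, -⟩
          have t3 := ht.1
          have := h.re_adj t (hA1 t3) t1
          rw [hw, mem_singleton] at t2 t3
          rw [t2, t3] at this
          exact G.loopless.irrefl _ this
        have uniq : ∀ i j, i ∈ T → j ∈ T → re (v, i) → re (v, j) → i = j := by
          intro i j hi hj ri rj
          rw [mT, hw, mem_singleton] at hi hj
          have := h.re_inj (v, i) (v, j) hv rfl ri rj (by rw [hi, hj])
          exact (congrArg Prod.snd this).symm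
        have hAB : FA.card + FB.card ≤ 1 := by
          have dis : Disjoint FA FB := by
            rw [disjoint_left]
            intro i hi hi'
            rw [hFA, mem_filter, mT] at hi
            rw [hFB, mem_filter] at hi'
            exact gy i (hne hi.1) (hi.2.2.trans hi'.2.2.symm)
          rw [← card_union_of_disjoint dis, card_le_one]
          have key : ∀ i ∈ FA ∪ FB, i ∈ T ∧ re (v, i) := by
            intro i hi
            rcases mem_union.1 hi with hi | hi
            · rw [hFA, mem_filter] at hi
              exact ⟨hi.1, hi.2.1⟩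
            · rw [hFB, mem_filter] at hi
              exact ⟨hi.1, hi.2.1⟩
          intro i hi j hj
          exact uniq i j (key i hi).1 (key j hj).1 (key i hi).2 (key j hj).2
        omega
    · -- v not in S
      have hS' : S ⊆ A.erase v := fun u hu =>
        mem_erase.2 ⟨fun e => vS (e ▸ hu), hS hu⟩
      have hsp := hl.sp a S hS' hc
      have hle : arcs m re (fun t => if t.1 = v then g t.2 else lam' t) a S
          ≤ arcs (mR m v σ) (reR m re v P) lam' a S := by
        unfold arcs
        refine card_le_card ?_
        intro t ht
        rw [mem_filter, mem_product] at ht ⊢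
        obtain ⟨⟨tS, -⟩, tr, tm, tl⟩ := ht
        have tv : t.1 ≠ v := fun e => vS (e ▸ tS)
        have c : (m t).1 ≠ v := fun e => vS (e ▸ tm)
        simp only [if_neg tv] at tl
        refine ⟨⟨tS, mem_univ _⟩, ?_, ?_, tl⟩
        · rw [reR_n c]
          exact tr
        · rw [mR_n c]
          exact tm
      omega

end Pool.Agent.TBS
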