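import Pool.Agent.TBS.Slot

/-!
# Lifting lemmas for six slots  (MODULE Lift)

Finite statements, checked by a program.  Positions `i < 2 n` are ordinary, the others are loops
(`i` with `sw i`).  The values of `y` on loops do not matter.
-/

set_option autoImplicit false

namespace Pool.Agent.TBS

open Finset

/-- The words of length six over three letters with every letter twice. -/
def wrds : List (Fin 6 → Fin 3) :=
  [![0, 0, 1, 1, 2, 2], ![0, 0, 1, 2, 1, 2], ![0, 0, 1, 2, 2, 1], ![0, 0, 2, 1, 1, 2],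
   ![0, 0, 2, 1, 2, 1], ![0, 0, 2, 2, 1, 1], ![0, 1, 0, 1, 2, 2], ![0, 1, 0, 2, 1, 2],
   ![0, 1, 0, 2, 2, 1], ![0, 1, 1, 0, 2, 2], ![0, 1, 1, 2, 0, 2], ![0, 1, 1, 2, 2, 0],
   ![0, 1, 2, 0, 1, 2], ![0, 1, 2, 0, 2, 1], ![0, 1, 2, 1, 0, 2], ![0, 1, 2, 1, 2, 0],
   ![0, 1, 2, 2, 0, 1], ![0, 1, 2, 2, 1, 0], ![0, 2, 0, 1, 1, 2], ![0, 2, 0, 1, 2, 1],
   ![0, 2, 0, 2, 1, 1], ![0, 2, 1, 0, 1, 2], ![0, 2, 1, 0, 2, 1], ![0, 2, 1, 1, 0, 2],
   ![0, 2, 1, 1, 2, 0], ![0, 2, 1, 2, 0, 1], ![0, 2, 1, 2, 1, 0], ![0, 2, 2, 0, 1, 1],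
   ![0, 2, 2, 1, 0, 1], ![0, 2, 2, 1, 1, 0], ![1, 0, 0, 1, 2, 2], ![1, 0, 0, 2, 1, 2],
   ![1, 0, 0, 2, 2, 1], ![1, 0, 1, 0, 2, 2], ![1, 0, 1, 2, 0, 2], ![1, 0, 1, 2, 2, 0],
   ![1, 0, 2, 0, 1, 2], ![1, 0, 2, 0, 2, 1], ![1, 0, 2, 1, 0, 2], ![1, 0, 2, 1, 2, 0],
   ![1, 0, 2, 2, 0, 1], ![1, 0, 2, 2, 1, 0], ![1, 1, 0, 0, 2, 2], ![1, 1, 0, 2, 0, 2],
   ![1, 1, 0, 2, 2, 0], ![1, 1, 2, 0, 0, 2], ![1, 1, 2, 0, 2, 0], ![1, 1, 2, 2, 0, 0],
   ![1, 2, 0, 0, 1, 2], ![1, 2, 0, 0, 2, 1], ![1, 2, 0, 1, 0, 2], ![1, 2, 0, 1, 2, 0],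
   ![1, 2, 0, 2, 0, 1], ![1, 2, 0, 2, 1, 0], ![1, 2, 1, 0, 0, 2], ![1, 2, 1, 0, 2, 0],
   ![1, 2, 1, 2, 0, 0], ![1, 2, 2, 0, 0, 1], ![1, 2, 2, 0, 1, 0], ![1, 2, 2, 1, 0, 0],
   ![2, 0, 0, 1, 1, 2], ![2, 0, 0, 1, 2, 1], ![2, 0, 0, 2, 1, 1], ![2, 0, 1, 0, 1, 2],
   ![2, 0, 1, 0, 2, 1], ![2, 0, 1, 1, 0, 2], ![2, 0, 1, 1, 2, 0], ![2, 0, 1, 2, 0, 1],
   ![2, 0, 1, 2, 1, 0], ![2, 0, 2, 0, 1, 1], ![2, 0, 2, 1, 0, 1], ![2, 0, 2, 1, 1, 0],
   ![2, 1, 0, 0, 1, 2], ![2, 1, 0, 0, 2, 1], ![2, 1, 0, 1, 0, 2], ![2, 1, 0, 1, 2, 0],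
   ![2, 1, 0, 2, 0, 1], ![2, 1, 0, 2, 1, 0], ![2, 1, 1, 0, 0, 2], ![2, 1, 1, 0, 2, 0],
   ![2, 1, 1, 2, 0, 0], ![2, 1, 2, 0, 0, 1], ![2, 1, 2, 0, 1, 0], ![2, 1, 2, 1, 0, 0],
   ![2, 2, 0, 0, 1, 1], ![2, 2, 0, 1, 0, 1], ![2, 2, 0, 1, 1, 0], ![2, 2, 1, 0, 0, 1],
   ![2, 2, 1, 0, 1, 0], ![2, 2, 1, 1, 0, 0]]

/-- The condition of `lift3`. -/
def C3 (n : ℕ) (y g : Fin 6 → Fin 3) : Prop :=
  (∀ i : Fin 6, i.val < 2 * n → g i ≠ y i) ∧
  (∀ i : Fin 6, 2 * n ≤ i.val → g (sw i) ≠ g i) ∧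
  (∀ a, (univ.filter fun i => g i = a).card = 2) ∧
  ∀ a, (univ.filter fun i : Fin 6 => i.val < 3 ∧ i.val < 2 * n ∧ g i = a).card +
        (univ.filter fun i : Fin 6 => i.val < 3 ∧ i.val < 2 * n ∧ y i = a).card ≤ 2

instance (n : ℕ) (y g : Fin 6 → Fin 3) : Decidable (C3 n y g) := by
  unfold C3; infer_instance

/-- The condition of `lift4`. -/
def C4 (n : ℕ) (y g : Fin 6 → Fin 3) : Prop :=
  (∀ i : Fin 6, i.val < 2 * n → g i ≠ y i) ∧
  (∀ i : Fin 6, 2 * n ≤ i.val → g (sw i) ≠ g i) ∧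
  (∀ a, (univ.filter fun i => g i = a).card = 2) ∧
  ∀ a, (univ.filter fun i : Fin 6 => i.val < 4 ∧ (g i = a ∨ y i = a)).card ≤ 2 ∨
    ((univ.filter fun i : Fin 6 => i.val < 4 ∧ (g i = a ∨ y i = a)).card ≤ 3 ∧
      (y 0 = a ∨ y 1 = a) ∧ (y 0 = a ∨ g 0 = a) ∧ (y 1 = a ∨ g 1 = a))

instance (n : ℕ) (y g : Fin 6 → Fin 3) : Decidable (C4 n y g) := by
  unfold C4; infer_instance

set_option maxRecDepth 100000 in
theorem k3 : ∀ n : Fin 4, ∀ y0 y1 y2 y3 y4 y5 : Fin 3,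
    (¬ ∀ i : Fin 6, i.val < 2 * n.val →
        (![y0, y1, y2, y3, y4, y5] : Fin 6 → Fin 3) (sw i) ≠
          (![y0, y1, y2, y3, y4, y5] : Fin 6 → Fin 3) i) ∨
    (wrds.any fun g => decide (C3 n.val ![y0, y1, y2, y3, y4, y5] g)) = true := by
  decide +kernel

set_option maxRecDepth 100000 in
theorem k4 : ∀ n : Fin 4, ∀ y0 y1 y2 y3 y4 y5 : Fin 3,
    (n.val < 2 ∨ ¬ ∀ i : Fin 6, i.val < 2 * n.val →
        (![y0, y1, y2, y3, y4, y5] : Fin 6 → Fin 3) (sw i) ≠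
          (![y0, y1, y2, y3, y4, y5] : Fin 6 → Fin 3) i) ∨
    (wrds.any fun g => decide (C4 n.val ![y0, y1, y2, y3, y4, y5] g)) = true := by
  decide +kernel

theorem y_eq (y : Fin 6 → Fin 3) : ![y 0, y 1, y 2, y 3, y 4, y 5] = y := by
  funext i; fin_cases i <;> rfl

theorem lift3 (n : ℕ) (hn : n ≤ 3) (y : Fin 6 → Fin 3)
    (hy : ∀ i : Fin 6, i.val < 2 * n → y (sw i) ≠ y i) :
    ∃ g : Fin 6 → Fin 3, (∀ a, (univ.filter fun i => g i = a).card = 2) ∧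
      (∀ i : Fin 6, i.val < 2 * n → g i ≠ y i) ∧
      (∀ i : Fin 6, 2 * n ≤ i.val → g (sw i) ≠ g i) ∧
      ∀ a, (univ.filter fun i : Fin 6 => i.val < 3 ∧ i.val < 2 * n ∧ g i = a).card +
        (univ.filter fun i : Fin 6 => i.val < 3 ∧ i.val < 2 * n ∧ y i = a).card ≤ 2 := by
  have h := k3 ⟨n, by omega⟩ (y 0) (y 1) (y 2) (y 3) (y 4) (y 5)
  rw [y_eq] at h
  rcases h with h | h
  · exact absurd hy h
  · rw [List.any_eq_true] at h
    obtain ⟨g, -, hg⟩ := h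
    have hg' : C3 n y g := of_decide_eq_true hg
    obtain ⟨h1, h2, h3, h4⟩ := hg'
    exact ⟨g, h3, h1, h2, h4⟩

/-- The passage from the condition of `C4` to all sets `T`, on bits. -/
theorem bits : ∀ t0 t1 t2 t3 p0 p1 p2 p3 q0 q1 q2 q3 : Bool,
    (p0 && q0) = false → (p1 && q1) = false → (p2 && q2) = false → (p3 && q3) = false →
    ((p0 || q0).toNat + (p1 || q1).toNat + (p2 || q2).toNat + (p3 || q3).toNat ≤ 2 ∨
      ((p0 || q0).toNat + (p1 || q1).toNat + (p2 || q2).toNat + (p3 || q3).toNat ≤ 3 ∧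
        (q0 || q1) = true ∧ (q0 || p0) = true ∧ (q1 || p1) = true)) →
    ((t0 && p0).toNat + (t1 && p1).toNat + (t2 && p2).toNat + (t3 && p3).toNat) +
      ((t0 && q0).toNat + (t1 && q1).toNat + (t2 && q2).toNat + (t3 && q3).toNat) ≤
      2 + ((t0 && (t1 && q0)).toNat + (t1 && (t0 && q1)).toNat) := by
  decide +kernel

theorem card_bits (T : Finset (Fin 6)) (P : Fin 6 → Prop) [DecidablePred P] :
    (T.filter P).card = (decide (0 ∈ T) && decide (P 0)).toNat +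
      (decide (1 ∈ T) && decide (P 1)).toNat + (decide (2 ∈ T) && decide (P 2)).toNat +
      (decide (3 ∈ T) && decide (P 3)).toNat + (decide (4 ∈ T) && decide (P 4)).toNat +
      (decide (5 ∈ T) && decide (P 5)).toNat := by
  have h : T.filter P = (univ : Finset (Fin 6)).filter fun i => i ∈ T ∧ P i := by
    ext i; simp
  rw [h, Finset.card_filter, Fin.sum_univ_six]
  have k : ∀ p q : Prop, [Decidable p] → [Decidable q] →
      (if p ∧ q then 1 else 0) = (decide p && decide q).toNat := by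
    intro p q _ _
    by_cases hp : p <;> by_cases hq : q <;> simp [hp, hq]
  rw [k, k, k, k, k, k]

theorem lift4 (n : ℕ) (hn : n = 2 ∨ n = 3) (y : Fin 6 → Fin 3)
    (hy : ∀ i : Fin 6, i.val < 2 * n → y (sw i) ≠ y i) :
    ∃ g : Fin 6 → Fin 3, (∀ a, (univ.filter fun i => g i = a).card = 2) ∧
      (∀ i : Fin 6, i.val < 2 * n → g i ≠ y i) ∧
      (∀ i : Fin 6, 2 * n ≤ i.val → g (sw i) ≠ g i) ∧
      ∀ a, ∀ T : Finset (Fin 6), (T.filter fun i : Fin 6 => i.val < 4 ∧ g i = a).card +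
        (T.filter fun i : Fin 6 => i.val < 4 ∧ y i = a).card ≤
        2 + (T.filter fun i : Fin 6 => i.val < 2 ∧ sw i ∈ T ∧ y i = a).card := by
  have h := k4 ⟨n, by omega⟩ (y 0) (y 1) (y 2) (y 3) (y 4) (y 5)
  rw [y_eq] at h
  rcases h with (h | h) | h
  · have h' : n < 2 := h
    omega
  · exact absurd hy h
  · rw [List.any_eq_true] at h
    obtain ⟨g, -, hg⟩ := h
    have hg' : C4 n y g := of_decide_eq_true hg
    obtain ⟨h1, h2, h3, h4⟩ := hg'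
    refine ⟨g, h3, h1, h2, fun a T => ?_⟩
    have e : ∀ i : Fin 6, i.val < 4 → (decide (g i = a) && decide (y i = a)) = false := by
      intro i hi
      have hne := h1 i (by omega)
      by_cases hp : g i = a <;> by_cases hq : y i = a <;> simp [hp, hq]
      exact absurd (hp.trans hq.symm) hne
    have hc := h4 a
    have c1 : ((univ : Finset (Fin 6)).filter fun i : Fin 6 =>
        i.val < 4 ∧ (g i = a ∨ y i = a)).card =
        (decide (g 0 = a) || decide (y 0 = a)).toNat + (decide (g 1 = a) || decide (y 1 = a)).toNat +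
        (decide (g 2 = a) || decide (y 2 = a)).toNat +
        (decide (g 3 = a) || decide (y 3 = a)).toNat := by
      rw [card_bits]
      have v4 : ¬ ((4 : Fin 6).val < 4) := by decide
      have v5 : ¬ ((5 : Fin 6).val < 4) := by decide
      have v0 : (0 : Fin 6).val < 4 := by decide
      have v1 : (1 : Fin 6).val < 4 := by decide
      have v2 : (2 : Fin 6).val < 4 := by decide
      have v3 : (3 : Fin 6).val < 4 := by decide
      simp only [v0, v1, v2, v3, v4, v5, true_and, false_and, decide_false, Bool.and_false,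
        Bool.toNat_false, add_zero, mem_univ, decide_true, Bool.true_and, Bool.decide_or]
    rw [c1] at hc
    have b := bits (decide ((0 : Fin 6) ∈ T)) (decide ((1 : Fin 6) ∈ T)) (decide ((2 : Fin 6) ∈ T))
      (decide ((3 : Fin 6) ∈ T)) (decide (g 0 = a)) (decide (g 1 = a)) (decide (g 2 = a))
      (decide (g 3 = a)) (decide (y 0 = a)) (decide (y 1 = a)) (decide (y 2 = a))
      (decide (y 3 = a)) (e 0 (by decide)) (e 1 (by decide)) (e 2 (by decide)) (e 3 (by decide))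
      (by
        rcases hc with hc | ⟨hc, c2, c3, c4⟩
        · exact Or.inl hc
        · refine Or.inr ⟨hc, ?_, ?_, ?_⟩
          · simpa using c2
          · simpa using c3
          · simpa using c4)
    rw [card_bits T, card_bits T, card_bits T]
    have v4 : ¬ ((4 : Fin 6).val < 4) := by decide
    have v5 : ¬ ((5 : Fin 6).val < 4) := by decide
    have v0 : (0 : Fin 6).val < 4 := by decide
    have v1 : (1 : Fin 6).val < 4 := by decide
    have v2 : (2 : Fin 6).val < 4 := by decide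
    have v3 : (3 : Fin 6).val < 4 := by decide
    have w0 : (0 : Fin 6).val < 2 := by decide
    have w1 : (1 : Fin 6).val < 2 := by decide
    have w2 : ¬ ((2 : Fin 6).val < 2) := by decide
    have w3 : ¬ ((3 : Fin 6).val < 2) := by decide
    have w4 : ¬ ((4 : Fin 6).val < 2) := by decide
    have w5 : ¬ ((5 : Fin 6).val < 2) := by decide
    have s0 : sw 0 = 1 := rfl
    have s1 : sw 1 = 0 := rfl
    simp only [v0, v1, v2, v3, v4, v5, w0, w1, w2, w3, w4, w5, s0, s1, true_and, false_and,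
      decide_false, Bool.and_false, Bool.toNat_false, add_zero, Bool.decide_and]
    simpa only [add_zero] using b

end Pool.Agent.TBS
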