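import Pool.Agent.TBS.Slot

/-!
# Deleting a vertex: the matching  (MODULE SlStep)

If `(m h).1 = v`, `m h = (v, i)`, then `h = m (v, i)`, `mR m v σ h = m (v, σ i)`, `reR` is `P i`.
For `h.1 <> v`: slot `i` is no loop, and then `σ i` is no loop (otherwise `m (v, σ i) = (v, i)`).
`inv`: `mR (mR h) = m (v, σ (σ i)) = h`.  `ne`: `m (v, σ i) = m (v, i)` gives `σ i = i`.
`re_inj`: both slots via `v` (`(m h).1 = v = (m h').1`): `re_inj` of `h` at `v` (`hP1`) gives the same
`i`; one via `v` and one not: contradiction with `hP3` and `re_adj`; none: `re_inj`.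
`re_ex`: an old real slot, or `m (v, i)`.
-/

set_option autoImplicit false

namespace Pool.Agent.TBS

open Finset

variable {V : Type} [DecidableEq V]

private theorem mR_v {m : V × Fin 6 → V × Fin 6} {v : V} {σ : Fin 6 → Fin 6} {h : V × Fin 6}
    {i : Fin 6} (e : m h = (v, i)) : mR m v σ h = m (v, σ i) := by
  unfold mR
  rw [e, if_pos rfl]

private theorem mR_n {m : V × Fin 6 → V × Fin 6} {v : V} {σ : Fin 6 → Fin 6} {h : V × Fin 6}
    (e : (m h).1 ≠ v) : mR m v σ h = m h := by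
  unfold mR
  rw [if_neg e]

private theorem reR_v {m : V × Fin 6 → V × Fin 6} {re : V × Fin 6 → Prop} {v : V}
    {P : Fin 6 → Prop} {h : V × Fin 6} {i : Fin 6} (e : m h = (v, i)) :
    reR m re v P h ↔ P i := by
  unfold reR
  rw [e, if_pos rfl]

private theorem reR_n {m : V × Fin 6 → V × Fin 6} {re : V × Fin 6 → Prop} {v : V}
    {P : Fin 6 → Prop} {h : V × Fin 6} (e : (m h).1 ≠ v) :
    reR m re v P h ↔ re h := by
  unfold reR
  rw [if_neg e]

private theorem exi {m : V × Fin 6 → V × Fin 6} {v : V} {h : V × Fin 6} (e : (m h).1 = v) :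
    ∃ i, m h = (v, i) := ⟨(m h).2, Prod.ext e rfl⟩

theorem Sl.step {A : Finset V} {G : SimpleGraph V} {m : V × Fin 6 → V × Fin 6}
    {re : V × Fin 6 → Prop} (h : Sl A G m re) {v : V} (hv : v ∈ A) {σ : Fin 6 → Fin 6}
    (hσ : Pr m v σ) {P : Fin 6 → Prop} (hP1 : ∀ i, P i → re (v, i)) (hP2 : ∀ i, P i → P (σ i))
    (hP3 : ∀ i, P i → ¬ G.Adj (m (v, i)).1 (m (v, σ i)).1) {G' : SimpleGraph V}
    (hG : ∀ u ∈ A.erase v, ∀ w ∈ A.erase v, (G'.Adj u w ↔
      G.Adj u w ∨ ∃ i, P i ∧ (m (v, i)).1 = u ∧ (m (v, σ i)).1 = w)) :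
    Sl (A.erase v) G' (mR m v σ) (reR m re v P) := by
  -- partners of the slots at v
  have mv : ∀ {t : V × Fin 6} {i : Fin 6}, t.1 ∈ A → m t = (v, i) → m (v, i) = t := by
    intro t i ht e
    rw [← e, h.inv t ht]
  have nl : ∀ {t : V × Fin 6} {i : Fin 6}, t.1 ∈ A → t.1 ≠ v → m t = (v, i) →
      (m (v, σ i)).1 ≠ v := by
    intro t i ht tv e c
    have e1 := hσ.loop (σ i) c
    rw [hσ.inv] at e1
    have e2 := mv (t := (v, σ i)) hv e1
    rw [mv ht e] at e2
    exact tv (by rw [e2])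
  have hmem : ∀ t : V × Fin 6, t.1 ∈ A.erase v → (mR m v σ t).1 ∈ A.erase v := by
    intro t ht
    obtain ⟨tv, tA⟩ := mem_erase.1 ht
    by_cases c : (m t).1 = v
    · obtain ⟨i, e⟩ := exi c
      rw [mR_v e]
      exact mem_erase.2 ⟨nl tA tv e, h.mem _ hv⟩
    · rw [mR_n c]
      exact mem_erase.2 ⟨c, h.mem t tA⟩
  refine ⟨hmem, ?_, ?_, ?_, ?_, ?_, ?_⟩
  · intro t ht
    obtain ⟨tv, tA⟩ := mem_erase.1 ht
    by_cases c : (m t).1 = v
    · obtain ⟨i, e⟩ := exi c
      rw [mR_v e, mR_v (h.inv (v, σ i) hv), hσ.inv, mv tA e]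
    · rw [mR_n c, mR_n (h := m t) (by rw [h.inv t tA]; exact tv), h.inv t tA]
  · intro t ht
    obtain ⟨tv, tA⟩ := mem_erase.1 ht
    by_cases c : (m t).1 = v
    · obtain ⟨i, e⟩ := exi c
      rw [mR_v e]
      intro c2
      have c3 := congrArg m c2
      rw [h.inv (v, σ i) hv, e] at c3
      exact hσ.ne i (congrArg Prod.snd c3)
    · rw [mR_n c]
      exact h.ne t tA
  · intro t ht hr
    obtain ⟨tv, tA⟩ := mem_erase.1 ht
    by_cases c : (m t).1 = v
    · obtain ⟨i, e⟩ := exi c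
      rw [reR_v e] at hr
      rw [mR_v e, reR_v (h.inv (v, σ i) hv)]
      exact hP2 i hr
    · rw [reR_n c] at hr
      rw [mR_n c, reR_n (h := m t) (by rw [h.inv t tA]; exact tv)]
      exact h.re_m t tA hr
  · intro t ht hr
    rw [hG _ ht _ (hmem t ht)]
    obtain ⟨tv, tA⟩ := mem_erase.1 ht
    by_cases c : (m t).1 = v
    · obtain ⟨i, e⟩ := exi c
      rw [reR_v e] at hr
      exact Or.inr ⟨i, hr, by rw [mv tA e], by rw [mR_v e]⟩
    · rw [reR_n c] at hr
      rw [mR_n c]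
      exact Or.inl (h.re_adj t tA hr)
  · intro t t' ht htt hr hr' he
    obtain ⟨tv, tA⟩ := mem_erase.1 ht
    have tv' : t'.1 ≠ v := by rw [htt]; exact tv
    have tA' : t'.1 ∈ A := by rw [htt]; exact tA
    by_cases c : (m t).1 = v
    · obtain ⟨i, e⟩ := exi c
      rw [reR_v e] at hr
      rw [mR_v e] at he
      by_cases c' : (m t').1 = v
      · obtain ⟨i', e'⟩ := exi c'
        rw [reR_v e'] at hr'
        have e1 := mv tA e
        have e2 := mv tA' e'
        have e3 := h.re_inj (v, i) (v, i') hv rfl (hP1 i hr) (hP1 i' hr') (by rw [e1, e2, htt])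
        rw [← e1, ← e2, e3]
      · exfalso
        rw [reR_n c'] at hr'
        rw [mR_n c'] at he
        have := h.re_adj t' tA' hr'
        rw [he, htt] at this
        refine hP3 i hr ?_
        rw [mv tA e]
        exact this
    · rw [reR_n c] at hr
      rw [mR_n c] at he
      by_cases c' : (m t').1 = v
      · exfalso
        obtain ⟨i', e'⟩ := exi c'
        rw [reR_v e'] at hr'
        rw [mR_v e'] at he
        have := h.re_adj t tA hr
        rw [← he, ← htt] at this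
        refine hP3 i' hr' ?_
        rw [mv tA' e']
        exact this
      · rw [reR_n c'] at hr'
        rw [mR_n c'] at he
        exact h.re_inj t t' tA htt hr hr' he
  · intro u hu w hw ha
    obtain ⟨uv, uA⟩ := mem_erase.1 hu
    obtain ⟨wv, wA⟩ := mem_erase.1 hw
    rcases (hG u hu w hw).1 ha with g | ⟨i, hi, e1, e2⟩
    · obtain ⟨i, e, hr⟩ := h.re_ex u uA w wA g
      refine ⟨i, ?_, ?_⟩
      · rw [mR_n (by rw [e]; exact wv), e]
      · rw [reR_n (by rw [e]; exact wv)]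
        exact hr
    · have e3 : m (v, i) = (u, (m (v, i)).2) := Prod.ext e1 rfl
      have e4 : m (u, (m (v, i)).2) = (v, i) := by rw [← e3, h.inv (v, i) hv]
      refine ⟨(m (v, i)).2, ?_, ?_⟩
      · rw [mR_v e4, e2]
      · rw [reR_v e4]
        exact hi

end Pool.Agent.TBS
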