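import Pool.Agent.TBS.Red
import Pool.Agent.TBS.SlStep
import Pool.Agent.TBS.GdStep
import Pool.Agent.TBS.Lift
import Pool.Agent.TBS.Arr

/-!
# Good labellings of reducible graphs
-/

set_option autoImplicit false

namespace Pool.Agent.TBS

open Finset

variable {V : Type} [DecidableEq V]

/-- The number of real slots of `v` is the number of its neighbours. -/
theorem real_card {A : Finset V} {G : SimpleGraph V} {m : V × Fin 6 → V × Fin 6}
    {re : V × Fin 6 → Prop} (hs : Sl A G m re) {v : V} (hv : v ∈ A) :
    (open Classical in (univ.filter fun i : Fin 6 => re (v, i)).card) = cr G {v} A := by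
  classical
  have : cr G {v} A = (A.filter fun y => G.Adj v y).card := by
    unfold cr; rw [sum_singleton]
  rw [this]
  refine card_bij (fun i _ => (m (v, i)).1) ?_ ?_ ?_
  · intro i hi
    have hi' := (mem_filter.1 hi).2
    exact mem_filter.2 ⟨hs.mem (v, i) hv, hs.re_adj (v, i) hv hi'⟩
  · intro i hi j hj hij
    have := hs.re_inj (v, j) (v, i) hv rfl (mem_filter.1 hj).2 (mem_filter.1 hi).2 hij
    exact congrArg Prod.snd this
  · intro y hy
    obtain ⟨hy1, hy2⟩ := mem_filter.1 hy
    obtain ⟨i, hi1, hi2⟩ := hs.re_ex v hv y hy1 hy2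
    exact ⟨i, mem_filter.2 ⟨mem_univ _, hi2⟩, hi1⟩

open Classical in
/-- The involution of the slots at `v` given by the loops. -/
noncomputable def lp (m : V × Fin 6 → V × Fin 6) (v : V) (i : Fin 6) : Fin 6 :=
  if (m (v, i)).1 = v then (m (v, i)).2 else i

theorem lp_lp {A : Finset V} {G : SimpleGraph V} {m : V × Fin 6 → V × Fin 6}
    {re : V × Fin 6 → Prop} (hs : Sl A G m re) {v : V} (hv : v ∈ A) (i : Fin 6) :
    lp m v (lp m v i) = i := by
  classical
  by_cases h : (m (v, i)).1 = v
  · have h1 : lp m v i = (m (v, i)).2 := by unfold lp; rw [if_pos h]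
    have h2 : (v, (m (v, i)).2) = m (v, i) := by
      ext
      · exact h.symm
      · rfl
    have h3 : m (v, lp m v i) = (v, i) := by
      rw [h1, h2]; exact hs.inv (v, i) hv
    unfold lp at *
    rw [h3]
    simp
  · have h1 : lp m v i = i := by unfold lp; rw [if_neg h]
    rw [h1, h1]

theorem lp_re {A : Finset V} {G : SimpleGraph V} {m : V × Fin 6 → V × Fin 6}
    {re : V × Fin 6 → Prop} (hs : Sl A G m re) {v : V} (hv : v ∈ A) {i : Fin 6}
    (h : re (v, i)) : lp m v i = i := by
  have h1 := hs.re_adj (v, i) hv h
  have h2 : (m (v, i)).1 ≠ v := fun h3 => by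
    rw [h3] at h1
    exact h1.ne rfl
  unfold lp
  rw [if_neg h2]

/-- Data at `v` from an arrangement. -/
theorem arr_pr {A : Finset V} {G : SimpleGraph V} {m : V × Fin 6 → V × Fin 6}
    {re : V × Fin 6 → Prop} (hs : Sl A G m re) {v : V} (hv : v ∈ A) (π : Equiv.Perm (Fin 6))
    (n : ℕ) (h1 : ∀ i : Fin 6, i.val < 2 * n → lp m v (π i) = π i)
    (h2 : ∀ i : Fin 6, 2 * n ≤ i.val → lp m v (π i) = π (sw i)) :
    Pr m v (fun i => π (sw (π.symm i))) ∧
      (∀ i : Fin 6, (m (v, π i)).1 ≠ v ↔ i.val < 2 * n) := by
  have k1 : ∀ i : Fin 6, i.val < 2 * n → (m (v, π i)).1 ≠ v := by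
    intro i hi h
    have h3 := h1 i hi
    unfold lp at h3
    rw [if_pos h] at h3
    have h4 : m (v, π i) = (v, π i) := by
      ext
      · exact h
      · exact congrArg Fin.val h3
    exact hs.ne (v, π i) hv h4
  have k2 : ∀ i : Fin 6, 2 * n ≤ i.val → (m (v, π i)).1 = v ∧ (m (v, π i)).2 = π (sw i) := by
    intro i hi
    have h3 := h2 i hi
    unfold lp at h3
    split_ifs at h3 with h4
    · exact ⟨h4, h3⟩
    · exact absurd (π.injective h3).symm (sw_ne i)
  refine ⟨⟨fun i => ?_, fun i h => ?_, fun i h => ?_⟩, fun i => ⟨fun h => ?_, k1 i⟩⟩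
  · simp [sw_sw]
  · have h3 : sw (π.symm i) = π.symm i := by
      have := congrArg π.symm h
      simpa using this
    exact sw_ne _ h3
  · have h3 : 2 * n ≤ (π.symm i).val := by
      by_contra h4
      exact k1 (π.symm i) (by omega) (by simpa using h)
    have h4 := k2 (π.symm i) h3
    rw [Equiv.apply_symm_apply] at h4
    ext
    · exact h
    · simp only
      rw [h4.2]
  · by_contra h3
    exact h (k2 i (by omega)).1

/-- The labels at the partners of a pair of ordinary slots are different. -/
theorem y_ne {A : Finset V} {G : SimpleGraph V} {m : V × Fin 6 → V × Fin 6}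
    {re : V × Fin 6 → Prop} (hs : Sl A G m re) {v : V} (hv : v ∈ A) {σ : Fin 6 → Fin 6}
    {re' : V × Fin 6 → Prop} {lam' : V × Fin 6 → Fin 3}
    (hl : Gd (A.erase v) (mR m v σ) re' lam') {i : Fin 6}
    (hi : (m (v, i)).1 ≠ v) : lam' (m (v, σ i)) ≠ lam' (m (v, i)) := by
  have h1 := hl.ne (m (v, i)) (mem_erase.2 ⟨hi, hs.mem (v, i) hv⟩)
  unfold mR at h1
  rw [hs.inv (v, i) hv] at h1
  simpa using h1

theorem card_perm (π : Equiv.Perm (Fin 6)) (g : Fin 6 → Fin 3) (a : Fin 3) :
    (univ.filter fun i => g (π.symm i) = a).card = (univ.filter fun i => g i = a).card := by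
  refine card_bij (fun i _ => π.symm i) ?_ ?_ ?_
  · intro i hi
    simpa using hi
  · intro i _ j _ h
    exact π.symm.injective h
  · intro j hj
    exact ⟨π j, by simpa using hj, by simp⟩

theorem main {A : Finset V} {G : SimpleGraph V} (hR : Red A G) :
    ∀ m re, Sl A G m re → ∃ lam, Gd A m re lam := by
  classical
  induction hR with
  | empty G =>
    intro m re _
    refine ⟨fun _ => 0, ⟨fun h hh => absurd hh (notMem_empty _),
      fun u hu => absurd hu (notMem_empty _), fun a S hS h2 => ?_⟩⟩
    rw [subset_empty.1 hS] at h2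
    simp at h2
  | del A G v hv hd _ ih =>
    intro m re hs
    have hcard : (univ.filter fun i : Fin 6 => re (v, i)).card ≤ 3 := by
      have := real_card hs hv
      convert hd using 1
    obtain ⟨π, n, hn, h1, h2, h3⟩ := arr3 (lp m v) (lp_lp hs hv)
      (univ.filter fun i : Fin 6 => re (v, i)) (fun i hi => lp_re hs hv (mem_filter.1 hi).2) hcard
    obtain ⟨hσ, hord⟩ := arr_pr hs hv π n h1 h2
    set σ : Fin 6 → Fin 6 := fun i => π (sw (π.symm i)) with hσdef
    have hσπ : ∀ i, σ (π i) = π (sw i) := fun i => by simp [hσdef]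
    obtain ⟨lam', hl⟩ := ih _ _ (hs.step hv hσ (P := fun _ => False) (fun _ h => h.elim)
      (fun _ h => h) (fun _ h => h.elim) (G' := G) (fun u _ w _ => by simp))
    have hy : ∀ i : Fin 6, i.val < 2 * n →
        (fun i => lam' (m (v, π i))) (sw i) ≠ (fun i => lam' (m (v, π i))) i := by
      intro i hi
      have := y_ne hs hv hl ((hord i).2 hi)
      rw [hσπ] at this
      exact this
    obtain ⟨g, g1, g2, g3, g4⟩ := lift3 n hn (fun i => lam' (m (v, π i))) hy
    refine ⟨_, Gd.step hs hv hσ (P := fun _ => False) (fun _ h => h.elim) hl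
      (g := fun i => g (π.symm i)) ?_ ?_ ?_ ?_⟩
    · intro a
      rw [card_perm]; exact g1 a
    · intro i hi
      have hi' : (m (v, π (π.symm i))).1 ≠ v := by simpa using hi
      have := g2 (π.symm i) ((hord _).1 hi')
      simpa using this
    · intro i hi
      have hi' : 2 * n ≤ (π.symm i).val := by
        by_contra h5
        exact (hord (π.symm i)).2 (by omega) (by simpa using hi)
      have := g3 (π.symm i) hi'
      simpa [hσdef] using this
    · intro a T
      have hre : ∀ i, re (v, i) → (π.symm i).val < 3 ∧ (π.symm i).val < 2 * n := by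
        intro i hi
        refine ⟨h3 _ (by simpa using hi), (hord _).1 ?_⟩
        have h5 := hs.re_adj (v, i) hv hi
        intro h6
        rw [Equiv.apply_symm_apply] at h6
        rw [h6] at h5
        exact h5.ne rfl
      have c1 : (T.filter fun i => re (v, i) ∧ g (π.symm i) = a).card ≤
          (univ.filter fun i : Fin 6 => i.val < 3 ∧ i.val < 2 * n ∧ g i = a).card := by
        refine card_le_card_of_injOn π.symm ?_ π.symm.injective.injOn
        intro i hi
        have hi' := (mem_filter.1 hi).2
        have h5 := hre i hi'.1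
        exact mem_filter.2 ⟨mem_univ _, h5.1, h5.2, hi'.2⟩
      have c2 : (T.filter fun i => re (v, i) ∧ lam' (m (v, i)) = a).card ≤
          (univ.filter fun i : Fin 6 => i.val < 3 ∧ i.val < 2 * n ∧
            (fun i => lam' (m (v, π i))) i = a).card := by
        refine card_le_card_of_injOn π.symm ?_ π.symm.injective.injOn
        intro i hi
        have hi' := (mem_filter.1 hi).2
        have h5 := hre i hi'.1
        exact mem_filter.2 ⟨mem_univ _, h5.1, h5.2, by simpa using hi'.2⟩
      have := g4 a
      beta_reduce at c1 c2 this ⊢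
      omega
  | split A G v s t hv hsA htA hst as at_ nst hd _ ih =>
    intro m re hs
    have hcard : (univ.filter fun i : Fin 6 => re (v, i)).card = 4 := by
      have := real_card hs hv
      rw [← hd]
      convert this using 1
    obtain ⟨is, his1, his2⟩ := hs.re_ex v hv s hsA as
    obtain ⟨it, hit1, hit2⟩ := hs.re_ex v hv t htA at_
    have hist : is ≠ it := by
      rintro rfl
      exact hst (his1.symm.trans hit1)
    have hrest : (((univ.filter fun i : Fin 6 => re (v, i)).erase is).erase it).card = 2 := by
      rw [card_erase_of_mem, card_erase_of_mem, hcard]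
      · simpa using his2
      · simpa [hist.symm] using hit2
    obtain ⟨p, q, hpq, hpqe⟩ := card_eq_two.1 hrest
    have hp : p ∈ (((univ.filter fun i : Fin 6 => re (v, i)).erase is).erase it) := by
      rw [hpqe]; simp
    have hq : q ∈ (((univ.filter fun i : Fin 6 => re (v, i)).erase is).erase it) := by
      rw [hpqe]; simp
    simp only [mem_erase, mem_filter, mem_univ, true_and] at hp hq
    obtain ⟨π, n, hn, ps, pt, pp, pq, h1, h2⟩ := arr4 (lp m v) (lp_lp hs hv) is it p q hist
      (Ne.symm hp.2.1) (Ne.symm hq.2.1) (Ne.symm hp.1) (Ne.symm hq.1) hpq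
      (lp_re hs hv his2) (lp_re hs hv hit2) (lp_re hs hv hp.2.2) (lp_re hs hv hq.2.2)
    obtain ⟨hσ, hord⟩ := arr_pr hs hv π n h1 h2
    set σ : Fin 6 → Fin 6 := fun i => π (sw (π.symm i)) with hσdef
    have hσπ : ∀ i, σ (π i) = π (sw i) := fun i => by simp [hσdef]
    have hσs : σ is = it := by rw [← ps, hσπ, ← pt]; rfl
    have hσt : σ it = is := by rw [← pt, hσπ, ← ps]; rfl
    have hP1 : ∀ i, (i = is ∨ i = it) → re (v, i) := by
      rintro i (rfl | rfl) <;> assumption
    have hP2 : ∀ i, (i = is ∨ i = it) → (σ i = is ∨ σ i = it) := by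
      rintro i (rfl | rfl)
      · right; exact hσs
      · left; exact hσt
    obtain ⟨lam', hl⟩ := ih _ _ (hs.step hv hσ (P := fun i => i = is ∨ i = it) hP1 hP2
      (by
        rintro i (rfl | rfl)
        · rw [hσs, his1, hit1]; exact nst
        · rw [hσt, his1, hit1]; exact fun h => nst h.symm)
      (G' := G ⊔ SimpleGraph.edge s t) (by
        intro u _ w _
        rw [SimpleGraph.sup_adj, SimpleGraph.edge_adj]
        refine or_congr Iff.rfl ⟨?_, ?_⟩
        · rintro ⟨⟨rfl, rfl⟩ | ⟨rfl, rfl⟩, -⟩
          · exact ⟨is, Or.inl rfl, his1, by rw [hσs]; exact hit1⟩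
          · exact ⟨it, Or.inr rfl, hit1, by rw [hσt]; exact his1⟩
        · rintro ⟨i, rfl | rfl, hu, hw⟩
          · rw [hσs, hit1] at hw
            rw [his1] at hu
            subst hu; subst hw
            exact ⟨Or.inl ⟨rfl, rfl⟩, hst⟩
          · rw [hσt, his1] at hw
            rw [hit1] at hu
            subst hu; subst hw
            exact ⟨Or.inr ⟨rfl, rfl⟩, hst.symm⟩))
    have hy : ∀ i : Fin 6, i.val < 2 * n →
        (fun i => lam' (m (v, π i))) (sw i) ≠ (fun i => lam' (m (v, π i))) i := by
      intro i hi
      have := y_ne hs hv hl ((hord i).2 hi)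
      rw [hσπ] at this
      exact this
    obtain ⟨g, g1, g2, g3, g4⟩ := lift4 n hn (fun i => lam' (m (v, π i))) hy
    refine ⟨_, Gd.step hs hv hσ (P := fun i => i = is ∨ i = it) hP1 hl
      (g := fun i => g (π.symm i)) ?_ ?_ ?_ ?_⟩
    · intro a
      rw [card_perm]; exact g1 a
    · intro i hi
      have hi' : (m (v, π (π.symm i))).1 ≠ v := by simpa using hi
      have := g2 (π.symm i) ((hord _).1 hi')
      simpa using this
    · intro i hi
      have hi' : 2 * n ≤ (π.symm i).val := by
        by_contra h5
        exact (hord (π.symm i)).2 (by omega) (by simpa using hi)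
      have := g3 (π.symm i) hi'
      simpa [hσdef] using this
    · intro a T
      have hre : ∀ i, re (v, i) → (π.symm i).val < 4 := by
        intro i hi
        have h5 : i = is ∨ i = it ∨ i = p ∨ i = q := by
          by_contra hcon
          push Not at hcon
          have : i ∈ (((univ.filter fun i : Fin 6 => re (v, i)).erase is).erase it) := by
            simp only [mem_erase, mem_filter, mem_univ, true_and]
            exact ⟨hcon.2.1, hcon.1, hi⟩
          rw [hpqe] at this
          simp only [mem_insert, mem_singleton] at this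
          rcases this with h | h
          · exact hcon.2.2.1 h
          · exact hcon.2.2.2 h
        rcases h5 with h | h | h | h
        · rw [h, ← ps, Equiv.symm_apply_apply]; decide
        · rw [h, ← pt, Equiv.symm_apply_apply]; decide
        · rw [h, ← pp, Equiv.symm_apply_apply]; decide
        · rw [h, ← pq, Equiv.symm_apply_apply]; decide
      have key := g4 a (univ.filter fun j => π j ∈ T)
      have c1 : (T.filter fun i => re (v, i) ∧ g (π.symm i) = a).card ≤
          ((univ.filter fun j => π j ∈ T).filter fun i : Fin 6 => i.val < 4 ∧ g i = a).card := by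
        refine card_le_card_of_injOn π.symm ?_ π.symm.injective.injOn
        intro i hi
        have hi' := (mem_filter.1 hi)
        simp only [coe_filter, mem_filter, mem_univ, true_and, Set.mem_setOf_eq,
          Equiv.apply_symm_apply]
        exact ⟨hi'.1, hre i hi'.2.1, hi'.2.2⟩
      have c2 : (T.filter fun i => re (v, i) ∧ lam' (m (v, i)) = a).card ≤
          ((univ.filter fun j => π j ∈ T).filter fun i : Fin 6 => i.val < 4 ∧
            (fun i => lam' (m (v, π i))) i = a).card := by
        refine card_le_card_of_injOn π.symm ?_ π.symm.injective.injOn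
        intro i hi
        have hi' := (mem_filter.1 hi)
        simp only [coe_filter, mem_filter, mem_univ, true_and, Set.mem_setOf_eq,
          Equiv.apply_symm_apply]
        exact ⟨hi'.1, hre i hi'.2.1, hi'.2.2⟩
      have c3 : ((univ.filter fun j => π j ∈ T).filter fun i : Fin 6 => i.val < 2 ∧
            sw i ∈ (univ.filter fun j => π j ∈ T) ∧
            (fun i => lam' (m (v, π i))) i = a).card ≤
          (T.filter fun i => (i = is ∨ i = it) ∧ σ i ∈ T ∧ lam' (m (v, i)) = a).card := by
        refine card_le_card_of_injOn π ?_ π.injective.injOn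
        intro j hj
        simp only [coe_filter, mem_filter, mem_univ, true_and, Set.mem_setOf_eq] at hj
        simp only [coe_filter, mem_filter, mem_univ, true_and, Set.mem_setOf_eq]
        refine ⟨hj.1, ?_, by rw [hσπ]; exact hj.2.2.1, hj.2.2.2⟩
        have : j = 0 ∨ j = 1 := by
          have := hj.2.1
          rcases j with ⟨j, hj'⟩
          simp only at this
          interval_cases j
          · left; rfl
          · right; rfl
        rcases this with h | h
        · left; rw [h, ps]
        · right; rw [h, pt]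
      refine (Nat.add_le_add c1 c2).trans (key.trans (Nat.add_le_add_left ?_ 2))
      convert c3 using 2
      ext i
      simp only [mem_filter]

end Pool.Agent.TBS
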