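import Pool.Agent.TBS.Slot
import Pool.Agent.TBS.Order

/-!
# Positions from a good labelling  (MODULE Pos)

For every `v` let `x v false`, `x v true` be the two slots of `v` with label `a` (`hl.two`,
`card_eq_two`).  `hd v b = Sum.inl (m (v, x v b)).1` if `re (v, x v b)`, otherwise
`Sum.inr (v, x v b)` (a token for this slot; `β = V × Fin 6`).  Apply `exists_order`.
`H`: let `S` be nonempty.  Call `(v, b)`, `v` in `S`, outgoing if `hd v b` is not `inl w` with `w` in `S`.
The number of outgoing `(v, b)` is `2 |S| - arcs m re lam a S`, at least 2 (`|S| = 1`: `arcs = 0` since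
`G` has no loops; `|S| >= 2`: `hl.sp`).  If two outgoing ones have different heads, done.  Otherwise
all outgoing heads are equal; not `inr` (these are different for different slots), so all are
`inl w`, `w` not in `S`, and `arcs m re lam a (insert w S) >= 2 |S|`, against `hl.sp` for `insert w S`
(`2 |S| + 3 <= 2 (|S| + 1)` is false).
At the end: `i, j` are the two slots of `u` with label `a`.
-/

set_option autoImplicit false

namespace Pool.Agent.TBS

open Finset

theorem exists_pos {V : Type} [Fintype V] [DecidableEq V] {G : SimpleGraph V}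
    {m : V × Fin 6 → V × Fin 6} {re : V × Fin 6 → Prop} {lam : V × Fin 6 → Fin 3}
    (h : Sl univ G m re) (hl : Gd univ m re lam) (a : Fin 3) :
    ∃ pos : V → ℕ, Function.Injective pos ∧
      ∀ u i j, i ≠ j → re (u, i) → re (u, j) → lam (u, i) = a → lam (u, j) = a →
        (pos (m (u, i)).1 < pos u ∧ pos u < pos (m (u, j)).1) ∨
        (pos (m (u, j)).1 < pos u ∧ pos u < pos (m (u, i)).1) := by
  classical
  have hx : ∀ v : V, ∃ y : Bool → Fin 6, y false ≠ y true ∧
      (univ.filter fun i => lam (v, i) = a) = {y false, y true} := by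
    intro v
    obtain ⟨i, j, hij, he⟩ := card_eq_two.1 (hl.two v (mem_univ v) a)
    exact ⟨fun b => if b then j else i, by simpa using hij, by simpa using he⟩
  choose x hxne hxe using hx
  have hxl : ∀ v b, lam (v, x v b) = a := by
    intro v b
    have : x v b ∈ univ.filter fun i => lam (v, i) = a := by
      rw [hxe v]
      cases b <;> simp
    exact (mem_filter.1 this).2
  have hxinj : ∀ v b b', x v b = x v b' → b = b' := by
    intro v b b' hb
    cases b <;> cases b'
    · rfl
    · exact absurd hb (hxne v)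
    · exact absurd hb.symm (hxne v)
    · rfl
  let hd : V → Bool → V ⊕ (V × Fin 6) := fun v b =>
    if re (v, x v b) then Sum.inl (m (v, x v b)).1 else Sum.inr (v, x v b)
  have hd_inl : ∀ v b w, hd v b = Sum.inl w → re (v, x v b) ∧ (m (v, x v b)).1 = w := by
    intro v b w hw
    by_cases hr : re (v, x v b)
    · refine ⟨hr, ?_⟩
      simp only [hd, if_pos hr] at hw
      exact Sum.inl.inj hw
    · simp only [hd, if_neg hr] at hw
      cases hw
  have hd_re : ∀ v b, re (v, x v b) → hd v b = Sum.inl (m (v, x v b)).1 := by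
    intro v b hr
    simp only [hd, if_pos hr]
  -- injection of the pairs whose head lies in `T`
  have hinj : ∀ (T : Finset V) (P : Finset (V × Bool)), (∀ p ∈ P, p.1 ∈ T ∧
      ∃ w ∈ T, hd p.1 p.2 = Sum.inl w) → P.card ≤ arcs m re lam a T := by
    intro T P hP
    unfold arcs
    refine card_le_card_of_injOn (fun p => (p.1, x p.1 p.2)) ?_ ?_
    · intro p hp
      obtain ⟨h1, w, hw, h2⟩ := hP p hp
      obtain ⟨h3, h4⟩ := hd_inl _ _ _ h2
      simp only [coe_filter, Set.mem_ofPred_eq, mem_product, mem_univ, and_true]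
      exact ⟨h1, h3, by rw [h4]; exact hw, hxl _ _⟩
    · rintro ⟨v, b⟩ _ ⟨v', b'⟩ _ he
      simp only [Prod.mk.injEq] at he
      obtain ⟨rfl, he⟩ := he
      rw [hxinj _ _ _ he]
  obtain ⟨pos, hpos, hord⟩ := exists_order hd (by
    intro S hS
    by_contra hcon
    push Not at hcon
    let Out := (S ×ˢ (univ : Finset Bool)).filter fun p => ∀ w ∈ S, hd p.1 p.2 ≠ Sum.inl w
    let In := (S ×ˢ (univ : Finset Bool)).filter fun p => ¬ ∀ w ∈ S, hd p.1 p.2 ≠ Sum.inl w
    have hsum : Out.card + In.card = 2 * S.card := by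
      rw [card_filter_add_card_filter_not, card_product, card_univ, Fintype.card_bool, mul_comm]
    have hIn : In.card ≤ arcs m re lam a S := by
      refine hinj S In ?_
      intro p hp
      obtain ⟨h1, h2⟩ := mem_filter.1 hp
      push Not at h2
      exact ⟨(mem_product.1 h1).1, h2⟩
    have hS1 : 1 ≤ S.card := hS.card_pos
    have hOut : 2 ≤ Out.card := by
      by_cases h2 : 2 ≤ S.card
      · have := hl.sp a S (subset_univ S) h2
        omega
      · have h3 : S.card = 1 := by omega
        have h4 : arcs m re lam a S = 0 := by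
          obtain ⟨v, hv⟩ := card_eq_one.1 h3
          unfold arcs
          rw [card_eq_zero, filter_eq_empty_iff]
          rintro ⟨u, i⟩ hu ⟨h5, h6, _⟩
          rw [hv] at hu h6
          simp only [mem_product, mem_singleton, mem_univ, and_true] at hu
          have h7 := h.re_adj (u, i) (mem_univ _) h5
          rw [mem_singleton.1 h6, hu] at h7
          exact G.loopless.irrefl v h7
        omega
    obtain ⟨p, hp, p', hp', hne⟩ := one_lt_card.1 (by omega : 1 < Out.card)
    have hall : ∀ q ∈ Out, ∀ q' ∈ Out, hd q.1 q.2 = hd q'.1 q'.2 := by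
      intro q hq q' hq'
      obtain ⟨h1, h2⟩ := mem_filter.1 hq
      obtain ⟨h1', h2'⟩ := mem_filter.1 hq'
      by_contra hc
      obtain ⟨w, hw, h3⟩ := hcon q.1 (mem_product.1 h1).1 q.2 q'.1 (mem_product.1 h1').1 q'.2 hc h2
      exact h2' w hw h3
    have hr : re (p.1, x p.1 p.2) := by
      by_contra hr
      have h1 : hd p.1 p.2 = Sum.inr (p.1, x p.1 p.2) := by simp only [hd, if_neg hr]
      have h2 := hall p hp p' hp'
      rw [h1] at h2
      have h3 : ¬ re (p'.1, x p'.1 p'.2) := by
        intro hr'
        rw [hd_re _ _ hr'] at h2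
        cases h2
      have h4 : hd p'.1 p'.2 = Sum.inr (p'.1, x p'.1 p'.2) := by simp only [hd, if_neg h3]
      rw [h4] at h2
      have h5 := Sum.inr.inj h2
      rw [Prod.mk.injEq] at h5
      obtain ⟨v, b⟩ := p
      obtain ⟨v', b'⟩ := p'
      obtain ⟨h6, h7⟩ := h5
      simp only at h6 h7
      subst h6
      exact hne (by rw [hxinj _ _ _ h7])
    have hpe := hd_re _ _ hr
    set w := (m (p.1, x p.1 p.2)).1 with hw
    have hwS : w ∉ S := fun hc => (mem_filter.1 hp).2 w hc hpe
    have h8 : (S ×ˢ (univ : Finset Bool)).card ≤ arcs m re lam a (insert w S) := by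
      refine hinj _ _ ?_
      intro q hq
      refine ⟨mem_insert_of_mem (mem_product.1 hq).1, ?_⟩
      by_cases hqo : q ∈ Out
      · exact ⟨w, mem_insert_self _ _, by rw [hall q hqo p hp, hpe]⟩
      · have h9 : ¬ ∀ w ∈ S, hd q.1 q.2 ≠ Sum.inl w := fun hc => hqo (mem_filter.2 ⟨hq, hc⟩)
        push Not at h9
        obtain ⟨w', hw', h10⟩ := h9
        exact ⟨w', mem_insert_of_mem hw', h10⟩
    have h11 := hl.sp a (insert w S) (subset_univ _) (by rw [card_insert_of_notMem hwS]; omega)
    rw [card_insert_of_notMem hwS] at h11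
    rw [card_product, card_univ, Fintype.card_bool] at h8
    omega)
  refine ⟨pos, hpos, ?_⟩
  intro u i j hij hi hj hli hlj
  have hi' : i ∈ ({x u false, x u true} : Finset (Fin 6)) := by
    rw [← hxe u]
    exact mem_filter.2 ⟨mem_univ _, hli⟩
  have hj' : j ∈ ({x u false, x u true} : Finset (Fin 6)) := by
    rw [← hxe u]
    exact mem_filter.2 ⟨mem_univ _, hlj⟩
  rw [mem_insert, mem_singleton] at hi' hj'
  rcases hi' with rfl | rfl <;> rcases hj' with rfl | rfl
  · exact absurd rfl hij
  · exact hord u _ _ (hd_re u false hi) (hd_re u true hj)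
  · exact (hord u _ _ (hd_re u false hj) (hd_re u true hi)).symm
  · exact absurd rfl hij

end Pool.Agent.TBS
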