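import Pool.Agent.TB.Geo
import Pool.Agent.TBS.Main
import Pool.Agent.TBS.Pos
import Pool.Agent.TBS.Init

/-!
# Positions and labels for graphs of the class
-/

set_option autoImplicit false

namespace Pool.Agent.TBS

open Finset

/-- Valid positions and labels from a good labelling. -/
theorem exists_valid {V : Type} [Fintype V] [DecidableEq V] {G : SimpleGraph V}
    {m : V × Fin 6 → V × Fin 6} {re : V × Fin 6 → Prop} {lam : V × Fin 6 → Fin 3}
    (h : Sl univ G m re) (hl : Gd univ m re lam) :
    ∃ (P : V → Fin 3 → ℤ) (α : V → V → Fin 3), (∀ a u v, P u a = P v a → u = v) ∧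
      TB.Valid G P α := by
  classical
  choose pos hinj hpos using fun a => exists_pos h hl a
  have hs : ∀ u w, ∃ i, G.Adj u w → (m (u, i)).1 = w ∧ re (u, i) := by
    intro u w
    by_cases ha : G.Adj u w
    · obtain ⟨i, hi⟩ := h.re_ex u (mem_univ _) w (mem_univ _) ha
      exact ⟨i, fun _ => hi⟩
    · exact ⟨0, fun h => absurd h ha⟩
  choose sl hsl using hs
  refine ⟨fun v a => (pos a v : ℤ), fun u v => lam (u, sl u v), ?_, ?_, ?_⟩
  · intro a u v huv
    have huv' : (pos a u : ℤ) = pos a v := huv
    exact hinj a (by exact_mod_cast huv')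
  · intro u v huv
    have h1 := hsl u v huv
    have h2 := hsl v u huv.symm
    -- the slot of `v` for `u` is the partner of the slot of `u` for `v`
    have h3 : m (u, sl u v) = (v, sl v u) := by
      refine h.re_inj (v, sl v u) (m (u, sl u v)) (mem_univ _) h1.1 h2.2
        (h.re_m _ (mem_univ _) h1.2) ?_
      rw [h.inv _ (mem_univ _), h2.1]
    have h4 := hl.ne (u, sl u v) (mem_univ _)
    rw [h3] at h4
    exact h4.symm
  · intro u v v' huv huv' hne hlab
    have h1 := hsl u v huv
    have h2 := hsl u v' huv'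
    have hij : sl u v ≠ sl u v' := by
      intro h3
      rw [h3] at h1
      exact hne (h1.1.symm.trans h2.1)
    have h3 := hpos (lam (u, sl u v)) u (sl u v) (sl u v') hij h1.2 h2.2 rfl hlab.symm
    rw [h1.1, h2.1] at h3
    simpa using h3

theorem exists_valid_of_cls {V : Type} [Fintype V] [DecidableEq V] (G : SimpleGraph V)
    [DecidableRel G.Adj] (hΔ : G.maxDegree ≤ 6) (h5 : G.CliqueFree 5)
    (hS : ∀ S : Finset V, S.Nonempty →
      (∑ v ∈ S, (S.filter fun u => G.Adj v u).card) + 5 ≤ 5 * S.card) :
    ∃ (P : V → Fin 3 → ℤ) (α : V → V → Fin 3), (∀ a u v, P u a = P v a → u = v) ∧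
      TB.Valid G P α := by
  obtain ⟨m, re, hm⟩ := exists_Sl G hΔ
  have hc : Cls univ G := by
    intro S _ hne
    have e1 : twoE G S = ∑ v ∈ S, (S.filter fun u => G.Adj v u).card := by
      unfold twoE cr
      refine sum_congr rfl fun x _ => ?_
      congr 1
      ext y
      simp only [mem_filter]
    refine ⟨by rw [e1]; exact hS S hne, fun h => ?_⟩
    by_contra h20
    refine h5 S ⟨?_, h⟩
    intro x hx y hy hxy
    by_contra hn
    have := twoE_le_of_nonadj G (mem_coe.1 hx) (mem_coe.1 hy) hxy hn
    rw [h] at this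
    omega
  obtain ⟨lam, hl⟩ := main (red_of_cls _ _ _ rfl hc) m re hm
  exact exists_valid hm hl

end Pool.Agent.TBS
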