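import Mathlib

/-!
# Slots

Every vertex has six slots `(v, i)`, `i : Fin 6`.  `m` matches the slots over `A` in pairs, `re h`
says that the pair `{h, m h}` is an edge of the simple graph `G` (the other pairs are auxiliary).
`Gd A m re lam`: a good labelling of the slots with three labels.
`mR`, `reR`: the matching after the deletion of `v`: slots which were matched with `(v, i)` and
`(v, σ i)` are matched with each other; the new pair is real if `P i`.
-/

set_option autoImplicit false

namespace Pool.Agent.TBS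

open Finset

variable {V : Type} [DecidableEq V]

/-- `m` is a perfect matching of the slots over `A`; the pairs with `re` correspond to the edges of
`G` inside `A`. -/
structure Sl (A : Finset V) (G : SimpleGraph V) (m : V × Fin 6 → V × Fin 6)
    (re : V × Fin 6 → Prop) : Prop where
  mem : ∀ h, h.1 ∈ A → (m h).1 ∈ A
  inv : ∀ h, h.1 ∈ A → m (m h) = h
  ne : ∀ h, h.1 ∈ A → m h ≠ h
  re_m : ∀ h, h.1 ∈ A → re h → re (m h)
  re_adj : ∀ h, h.1 ∈ A → re h → G.Adj h.1 (m h).1
  re_inj : ∀ h h', h.1 ∈ A → h'.1 = h.1 → re h → re h' → (m h').1 = (m h).1 → h' = h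
  re_ex : ∀ u ∈ A, ∀ w ∈ A, G.Adj u w → ∃ i, (m (u, i)).1 = w ∧ re (u, i)

open Classical in
/-- Number of real slots of members of `S` with label `a` whose partner is at a member of `S`. -/
noncomputable def arcs (m : V × Fin 6 → V × Fin 6) (re : V × Fin 6 → Prop)
    (lam : V × Fin 6 → Fin 3) (a : Fin 3) (S : Finset V) : ℕ :=
  ((S ×ˢ (univ : Finset (Fin 6))).filter fun h => re h ∧ (m h).1 ∈ S ∧ lam h = a).card

/-- Good labelling. -/
structure Gd (A : Finset V) (m : V × Fin 6 → V × Fin 6) (re : V × Fin 6 → Prop)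
    (lam : V × Fin 6 → Fin 3) : Prop where
  ne : ∀ h, h.1 ∈ A → lam (m h) ≠ lam h
  two : ∀ u ∈ A, ∀ a, (univ.filter fun i => lam (u, i) = a).card = 2
  sp : ∀ a, ∀ S ⊆ A, 2 ≤ S.card → arcs m re lam a S + 3 ≤ 2 * S.card

/-- `σ` is a pairing of the slots at `v` extending the loops at `v`. -/
structure Pr (m : V × Fin 6 → V × Fin 6) (v : V) (σ : Fin 6 → Fin 6) : Prop where
  inv : ∀ i, σ (σ i) = i
  ne : ∀ i, σ i ≠ i
  loop : ∀ i, (m (v, i)).1 = v → m (v, i) = (v, σ i)

/-- The matching after the deletion of `v`. -/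
def mR (m : V × Fin 6 → V × Fin 6) (v : V) (σ : Fin 6 → Fin 6) (h : V × Fin 6) : V × Fin 6 :=
  if (m h).1 = v then m (v, σ (m h).2) else m h

/-- The real slots after the deletion of `v`. -/
def reR (m : V × Fin 6 → V × Fin 6) (re : V × Fin 6 → Prop) (v : V) (P : Fin 6 → Prop)
    (h : V × Fin 6) : Prop :=
  if (m h).1 = v then P (m h).2 else re h

/-- Standard pairing of the six positions. -/
def sw : Fin 6 → Fin 6 := ![1, 0, 3, 2, 5, 4]

theorem sw_sw : ∀ i, sw (sw i) = i := by decide

theorem sw_ne : ∀ i, sw i ≠ i := by decide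

end Pool.Agent.TBS
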