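import Pool.Agent.TBS.DM
import Pool.Agent.TBS.OriOrd
import Pool.Agent.TBS.Slot

/-!
# Good labellings of slots from a sparse orientation

`Sl A G m re`: the slots `(v, i)`, `v` in `A`, `i < 6`, are matched by `m`; the real ones (`re`)
correspond to the edges of `G` inside `A`.  `OriOn G A`: orientation `o` of the edges inside `A` with
outdegrees at most 3 and `3 ≤ ∑ v in S, (2 - out_S v)` for all `S` in `A`, `2 ≤ |S|`.

Proof.  Apply `dm` to `X = {h : V × Fin 6 // h.1 ∈ A}`, the involution given by `m`,
`s x = x.1.1`, and `t x = none` if `x` is not real, otherwise `t x = some y` where `y` is the tail of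
the edge (`y = x.1.1` if `o x.1.1 (m x.1).1`, otherwise `y = (m x.1).1`).
* `#{x | s x = u} ≤ 6`: the second component is injective.
* `t` is invariant: `re_m` (twice), `re_adj`, orientation total and asymmetric.
* `#{x | t x = some y} ≤ 6`: `x = (y, i)` or `x = m (y, i)` with `re (y, i)` and `o y (m (y, i)).1`; the
  number of such `i` is at most 3, because `i ↦ (m (y, i)).1` is injective on them (`re_inj`).
`lam h = lam0 ⟨h, _⟩` for `h.1 ∈ A`, `0` otherwise.
* `Gd.two`: at most 2 for each of the three labels and 6 slots.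
* `Gd.sp`: the slots counted by `arcs m re lam a S` are divided by the tail `y ∈ S` of their edge.
  For each `y` there are at most 2 (by `dm`), and at most `#{w ∈ S | o y w}` (the other end `w`
  determines the edge by `re_inj`, and only one half of an edge has the label `a`).  So
  `arcs + ∑ y in S, (2 - #{w ∈ S | o y w}) ≤ 2 |S|`.
-/

set_option autoImplicit false

namespace Pool.Agent.TBS

open Finset

variable {V : Type} [Fintype V] [DecidableEq V]

open Classical in
/-- The tail of the edge of a slot. -/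
noncomputable def tl (o : V → V → Prop) (m : V × Fin 6 → V × Fin 6) (h : V × Fin 6) : V :=
  if o h.1 (m h).1 then h.1 else (m h).1

open Classical in
/-- The head of the edge of a slot. -/
noncomputable def hd (o : V → V → Prop) (m : V × Fin 6 → V × Fin 6) (h : V × Fin 6) : V :=
  if o h.1 (m h).1 then (m h).1 else h.1

omit [Fintype V] [DecidableEq V] in
theorem slot_cases {A : Finset V} {G : SimpleGraph V} {m : V × Fin 6 → V × Fin 6}
    {re : V × Fin 6 → Prop} (hs : Sl A G m re) {o : V → V → Prop}
    (h2 : ∀ u ∈ A, ∀ v ∈ A, G.Adj u v → o u v ∨ o v u) (h3 : ∀ u v, o u v → ¬ o v u)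
    {h : V × Fin 6} (hA : h.1 ∈ A) (hr : re h) :
    (o h.1 (m h).1 ∧ ¬ o (m h).1 h.1 ∧ tl o m h = h.1 ∧ hd o m h = (m h).1) ∨
    (o (m h).1 h.1 ∧ ¬ o h.1 (m h).1 ∧ tl o m h = (m h).1 ∧ hd o m h = h.1) := by
  classical
  have hadj := hs.re_adj h hA hr
  rcases h2 _ hA _ (hs.mem h hA) hadj with h' | h'
  · left
    refine ⟨h', h3 _ _ h', ?_, ?_⟩
    · unfold tl; rw [if_pos h']
    · unfold hd; rw [if_pos h']
  · right
    refine ⟨h', h3 _ _ h', ?_, ?_⟩
    · unfold tl; rw [if_neg (h3 _ _ h')]
    · unfold hd; rw [if_neg (h3 _ _ h')]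

omit [Fintype V] [DecidableEq V] in
theorem tl_hd_inj {A : Finset V} {G : SimpleGraph V} {m : V × Fin 6 → V × Fin 6}
    {re : V × Fin 6 → Prop} (hs : Sl A G m re) {o : V → V → Prop}
    (h2 : ∀ u ∈ A, ∀ v ∈ A, G.Adj u v → o u v ∨ o v u) (h3 : ∀ u v, o u v → ¬ o v u)
    {h h' : V × Fin 6} (hA : h.1 ∈ A) (hr : re h) (hA' : h'.1 ∈ A) (hr' : re h')
    (ht : tl o m h = tl o m h') (hh : hd o m h = hd o m h') : h' = h ∨ h' = m h := by
  rcases slot_cases hs h2 h3 hA hr with ⟨-, -, a1, a2⟩ | ⟨-, -, a1, a2⟩ <;>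
    rcases slot_cases hs h2 h3 hA' hr' with ⟨-, -, b1, b2⟩ | ⟨-, -, b1, b2⟩ <;>
    rw [a1, b1] at ht <;> rw [a2, b2] at hh
  · left
    exact hs.re_inj h h' hA ht.symm hr hr' hh.symm
  · right
    refine hs.re_inj (m h) h' (hs.mem h hA) hh.symm (hs.re_m h hA hr) hr' ?_
    rw [hs.inv h hA]
    exact ht.symm
  · right
    refine hs.re_inj (m h) h' (hs.mem h hA) ht.symm (hs.re_m h hA hr) hr' ?_
    rw [hs.inv h hA]
    exact hh.symm
  · left
    exact hs.re_inj h h' hA hh.symm hr hr' ht.symm

theorem gd_of_ori {A : Finset V} {G : SimpleGraph V} {m : V × Fin 6 → V × Fin 6}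
    {re : V × Fin 6 → Prop} (hs : Sl A G m re) (ho : OriOn G A) :
    ∃ lam : V × Fin 6 → Fin 3, Gd A m re lam := by
  classical
  obtain ⟨o, _, h1, h2, h3, h4, h5⟩ := ho
  have key := dm (X := {h : V × Fin 6 // h.1 ∈ A}) (U := V) (T := V)
    (fun x => ⟨m x.1, hs.mem x.1 x.2⟩) (fun x => Subtype.ext (hs.inv x.1 x.2))
    (fun x h => hs.ne x.1 x.2 (congrArg Subtype.val h)) (fun x => x.1.1)
    (fun u => by
      refine (card_le_card_of_injOn (fun x => x.1.2) (t := (univ : Finset (Fin 6)))
        (fun _ _ => by simp) ?_).trans (by simp)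
      intro x hx y hy hxy
      have hx' := (mem_filter.1 (mem_coe.1 hx)).2
      have hy' := (mem_filter.1 (mem_coe.1 hy)).2
      exact Subtype.ext (Prod.ext (hx'.trans hy'.symm) hxy))
    (fun x => if re x.1 then some (tl o m x.1) else none)
    (fun x => by
      have hiff : re (m x.1) ↔ re x.1 := ⟨fun h => by
        have := hs.re_m (m x.1) (hs.mem x.1 x.2) h
        rwa [hs.inv x.1 x.2] at this, hs.re_m x.1 x.2⟩
      by_cases hr : re x.1
      · simp only [if_pos hr, if_pos (hiff.2 hr)]
        congr 1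
        unfold tl
        rw [hs.inv x.1 x.2]
        rcases slot_cases hs h2 h3 x.2 hr with ⟨a, b, -, -⟩ | ⟨a, b, -, -⟩
        · rw [if_pos a, if_neg b]
        · rw [if_pos a, if_neg b]
      · simp only [if_neg hr, if_neg (fun h => hr (hiff.1 h))])
    (fun y => by
      refine (card_le_card_of_injOn (fun x => (hd o m x.1, decide (x.1.1 = y)))
        (t := (A.filter fun v => o y v) ×ˢ (univ : Finset Bool)) ?_ ?_).trans ?_
      · intro x hx
        have hx' := (mem_filter.1 (mem_coe.1 hx)).2
        split_ifs at hx' with hr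
        have ht := Option.some.inj hx'
        rw [mem_coe, mem_product]
        refine ⟨mem_filter.2 ?_, mem_univ _⟩
        rcases slot_cases hs h2 h3 x.2 hr with ⟨a, b, c, d⟩ | ⟨a, b, c, d⟩
        · simp only [d]
          rw [c] at ht
          exact ⟨hs.mem x.1 x.2, ht ▸ a⟩
        · simp only [d]
          rw [c] at ht
          exact ⟨x.2, ht ▸ a⟩
      · intro x hx x' hx' hxx
        have hx1 := (mem_filter.1 (mem_coe.1 hx)).2
        have hx1' := (mem_filter.1 (mem_coe.1 hx')).2
        split_ifs at hx1 with hr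
        split_ifs at hx1' with hr'
        have ht := Option.some.inj hx1
        have ht' := Option.some.inj hx1'
        have e1 := congrArg Prod.fst hxx
        have e2 := congrArg Prod.snd hxx
        simp only at e1 e2
        rcases tl_hd_inj hs h2 h3 x.2 hr x'.2 hr' (ht.trans ht'.symm) e1 with h | h
        · exact (Subtype.ext h).symm
        · exfalso
          have hadj := hs.re_adj x.1 x.2 hr
          rw [h] at e2
          rw [decide_eq_decide] at e2
          rcases slot_cases hs h2 h3 x.2 hr with ⟨a, b, c, d⟩ | ⟨a, b, c, d⟩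
          · rw [c] at ht
            exact hadj.ne (ht.trans (e2.1 ht).symm)
          · rw [c] at ht
            exact hadj.ne ((e2.2 ht).trans ht.symm)
      · rw [card_product]
        have := h4 y
        simp only [card_univ, Fintype.card_bool]
        omega)
  obtain ⟨lam0, l1, l2, l3⟩ := key
  set lam : V × Fin 6 → Fin 3 := fun h => if hh : h.1 ∈ A then lam0 ⟨h, hh⟩ else 0 with hlam
  have hl : ∀ h (hh : h.1 ∈ A), lam h = lam0 ⟨h, hh⟩ := fun h hh => by
    simp only [hlam, dif_pos hh]
  have hne : ∀ h, h.1 ∈ A → lam (m h) ≠ lam h := by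
    intro h hh
    rw [hl h hh, hl (m h) (hs.mem h hh)]
    exact l1 ⟨h, hh⟩
  refine ⟨lam, ⟨hne, ?_, ?_⟩⟩
  · intro u hu a
    have h6 : ∀ a, (univ.filter fun i : Fin 6 => lam (u, i) = a).card ≤ 2 := by
      intro a
      refine (card_le_card_of_injOn (fun i : Fin 6 => (⟨(u, i), hu⟩ : {h : V × Fin 6 // h.1 ∈ A}))
        ?_ ?_).trans (l2 u a)
      · intro i hi
        have hi' := (mem_filter.1 (mem_coe.1 hi)).2
        rw [hl (u, i) hu] at hi'
        exact mem_coe.2 (mem_filter.2 ⟨mem_univ _, rfl, hi'⟩)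
      · intro i _ j _ hij
        exact congrArg (fun x : {h : V × Fin 6 // h.1 ∈ A} => x.1.2) hij
    have hsum : ∑ a : Fin 3, (univ.filter fun i : Fin 6 => lam (u, i) = a).card = 6 := by
      rw [← card_eq_sum_card_fiberwise (fun _ _ => by simp)]
      simp
    rw [Fin.sum_univ_three] at hsum
    have k0 := h6 0
    have k1 := h6 1
    have k2 := h6 2
    fin_cases a
    · simp only [Fin.zero_eta, Fin.isValue]
      omega
    · simp only [Fin.mk_one, Fin.isValue]
      omega
    · simp only [Fin.reduceFinMk, Fin.isValue]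
      omega
  · intro a S hS hS2
    set B := (S ×ˢ (univ : Finset (Fin 6))).filter fun h => re h ∧ (m h).1 ∈ S ∧ lam h = a with hB
    have hBA : ∀ h ∈ B, h.1 ∈ S ∧ re h ∧ (m h).1 ∈ S ∧ lam h = a := by
      intro h hh
      obtain ⟨a1, a2⟩ := mem_filter.1 hh
      exact ⟨(mem_product.1 a1).1, a2⟩
    have hcard : B.card = ∑ y ∈ S, (B.filter fun h => tl o m h = y).card := by
      refine card_eq_sum_card_fiberwise fun h hh => ?_
      obtain ⟨b1, b2, b3, -⟩ := hBA h (mem_coe.1 hh)
      rcases slot_cases hs h2 h3 (hS b1) b2 with ⟨-, -, c, -⟩ | ⟨-, -, c, -⟩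
      · rw [c]; exact b1
      · rw [c]; exact b3
    have hle : ∀ y ∈ S, (B.filter fun h => tl o m h = y).card +
        (2 - (S.filter fun w => o y w).card) ≤ 2 := by
      intro y _
      have c1 : (B.filter fun h => tl o m h = y).card ≤ 2 := by
        have c0 : (B.filter fun h => tl o m h = y) ⊆
            ((univ.filter fun x : {h : V × Fin 6 // h.1 ∈ A} =>
              (if re x.1 then some (tl o m x.1) else none) = some y ∧ lam0 x = a).image
              Subtype.val) := by
          intro h hh
          obtain ⟨hh1, ht⟩ := mem_filter.1 hh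
          obtain ⟨b1, b2, b3, b4⟩ := hBA h hh1
          rw [mem_image]
          refine ⟨⟨h, hS b1⟩, mem_filter.2 ⟨mem_univ _, ?_, ?_⟩, rfl⟩
          · simp only [if_pos b2, ht]
          · rw [← hl h (hS b1)]
            exact b4
        exact (card_le_card c0).trans (card_image_le.trans (l3 y a))
      have c2 : (B.filter fun h => tl o m h = y).card ≤ (S.filter fun w => o y w).card := by
        refine card_le_card_of_injOn (hd o m) ?_ ?_
        · intro h hh
          obtain ⟨hh1, ht⟩ := mem_filter.1 (mem_coe.1 hh)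
          obtain ⟨b1, b2, b3, -⟩ := hBA h hh1
          rw [mem_coe, mem_filter]
          rcases slot_cases hs h2 h3 (hS b1) b2 with ⟨a1, -, c, d⟩ | ⟨a1, -, c, d⟩
          · rw [d]
            rw [c] at ht
            exact ⟨b3, ht ▸ a1⟩
          · rw [d]
            rw [c] at ht
            exact ⟨b1, ht ▸ a1⟩
        · intro h hh h' hh' hhd
          obtain ⟨hh1, ht⟩ := mem_filter.1 (mem_coe.1 hh)
          obtain ⟨hh1', ht'⟩ := mem_filter.1 (mem_coe.1 hh')
          obtain ⟨b1, b2, b3, b4⟩ := hBA h hh1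
          obtain ⟨b1', b2', b3', b4'⟩ := hBA h' hh1'
          rcases tl_hd_inj hs h2 h3 (hS b1) b2 (hS b1') b2' (ht.trans ht'.symm) hhd with e | e
          · exact e.symm
          · exfalso
            rw [e] at b4'
            exact hne h (hS b1) (b4'.trans b4.symm)
      omega
    have hfin : B.card + ∑ y ∈ S, (2 - (S.filter fun w => o y w).card) ≤ 2 * S.card := by
      rw [hcard, ← sum_add_distrib]
      refine (sum_le_sum hle).trans ?_
      rw [sum_const, smul_eq_mul, mul_comm]
    have h6 := h5 S hS hS2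
    have e : arcs m re lam a S = B.card := by
      unfold arcs
      rw [hB]
    rw [e]
    have e2 : ∑ y ∈ S, (2 - (S.filter fun w => o y w).card) =
      ∑ v ∈ S, (2 - (S.filter fun w => o v w).card) := rfl
    omega

end Pool.Agent.TBS
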