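import Pool.Agent.TBS.LabK

/-!
# Labels from a two-bend drawing in general position

In a drawing in general position every route consists of exactly three links in three different
directions; the half-edges get the directions of the first and the last link as labels.  Two routes
which leave a vertex in the same direction leave it to different sides, and a link changes a
coordinate of one end into the coordinate of the other end.  So a vertex lies strictly between its
neighbours with label `a` in the order of the `a`-coordinates; hence there are at most two of them,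
and the first and the last member of a set `W` have at most one of them in `W`.
-/

set_option autoImplicit false

namespace Pool.Agent.TBS

open Finset

theorem other3 : ∀ a b : Fin 3, ∃ j : Fin 3, j ≠ a ∧ j ≠ b := by decide

/-- The directions of the first and the last link. -/
theorem links {p b₁ b₂ q : Fin 3 → ℤ} (hpq : ∀ a, p a ≠ q a)
    (h1 : ∃ i : Fin 3, ∀ j : Fin 3, j ≠ i → p j = b₁ j)
    (h2 : ∃ i : Fin 3, ∀ j : Fin 3, j ≠ i → b₁ j = b₂ j)
    (h3 : ∃ i : Fin 3, ∀ j : Fin 3, j ≠ i → b₂ j = q j) :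
    ∃ i k : Fin 3, i ≠ k ∧ (∀ j, j ≠ i → b₁ j = p j) ∧ b₁ i = q i ∧
      (∀ j, j ≠ k → b₂ j = q j) ∧ b₂ k = p k := by
  obtain ⟨i, h1⟩ := h1
  obtain ⟨l, h2⟩ := h2
  obtain ⟨k, h3⟩ := h3
  have key : ∀ j, j ≠ i → j ≠ l → j ≠ k → False := fun j a b c =>
    hpq j ((h1 j a).trans ((h2 j b).trans (h3 j c)))
  have hik : i ≠ k := by
    rintro rfl
    obtain ⟨j, a, b⟩ := other3 i l
    exact key j a b a
  have hil : i ≠ l := by
    rintro rfl
    obtain ⟨j, a, b⟩ := other3 i k
    exact key j a a b
  have hkl : k ≠ l := by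
    rintro rfl
    obtain ⟨j, a, b⟩ := other3 i k
    exact key j a b b
  exact ⟨i, k, hik, fun j hj => (h1 j hj).symm, (h2 i hil).trans (h3 i hik), h3,
    (h2 k hkl).symm.trans (h1 k hik.symm).symm⟩

/-- A labelling which is valid for the positions has at most two equal labels at a vertex. -/
theorem two_of_valid {V : Type} [Fintype V] [DecidableEq V] {G : SimpleGraph V}
    [DecidableRel G.Adj] {f : V → Fin 3 → ℤ} {α : V → V → Fin 3}
    (hα : TB.Valid G f α) (u : V) (a : Fin 3) :
    (univ.filter fun v => G.Adj u v ∧ α u v = a).card ≤ 2 := by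
  classical
  have h1 : ((univ.filter fun v => G.Adj u v ∧ α u v = a).filter fun v => f v a < f u a).card
      ≤ 1 := by
    rw [card_le_one]
    intro v hv v' hv'
    rw [mem_filter, mem_filter] at hv hv'
    by_contra hne
    rcases hα.2 u v v' hv.1.2.1 hv'.1.2.1 hne (hv.1.2.2.trans hv'.1.2.2.symm) with h | h
    · rw [hv.1.2.2] at h
      omega
    · rw [hv.1.2.2] at h
      omega
  have h2 : ((univ.filter fun v => G.Adj u v ∧ α u v = a).filter fun v => ¬ f v a < f u a).card
      ≤ 1 := by
    rw [card_le_one]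
    intro v hv v' hv'
    rw [mem_filter, mem_filter] at hv hv'
    by_contra hne
    rcases hα.2 u v v' hv.1.2.1 hv'.1.2.1 hne (hv.1.2.2.trans hv'.1.2.2.symm) with h | h
    · rw [hv.1.2.2] at h
      omega
    · rw [hv.1.2.2] at h
      omega
  have := card_filter_add_card_filter_not (s := univ.filter fun v => G.Adj u v ∧ α u v = a)
    (fun v => f v a < f u a)
  omega

/-- The first and the last member of a set have at most one neighbour with label `a` in it. -/
theorem ends_of_valid {V : Type} [Fintype V] [DecidableEq V] {G : SimpleGraph V}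
    [DecidableRel G.Adj] {f : V → Fin 3 → ℤ} {α : V → V → Fin 3}
    (hf : ∀ a u v, f u a = f v a → u = v) (hα : TB.Valid G f α) (a : Fin 3) (W : Finset V)
    (hW : 2 ≤ W.card) :
    2 ≤ (W.filter fun v => (W.filter fun w => G.Adj v w ∧ α v w = a).card ≤ 1).card := by
  classical
  have hne : W.Nonempty := by
    rw [← card_pos]
    omega
  obtain ⟨x, hx, hmin⟩ := exists_min_image W (fun v => f v a) hne
  obtain ⟨y, hy, hmax⟩ := exists_max_image W (fun v => f v a) hne
  have hxy : x ≠ y := by
    rintro rfl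
    have : W.card ≤ 1 := by
      rw [card_le_one]
      intro v hv w hw
      have a1 := hmin v hv
      have a2 := hmax v hv
      have a3 := hmin w hw
      have a4 := hmax w hw
      exact hf a v w (by omega)
    omega
  have hx' : (W.filter fun w => G.Adj x w ∧ α x w = a).card ≤ 1 := by
    rw [card_le_one]
    intro v hv v' hv'
    rw [mem_filter] at hv hv'
    by_contra hne
    have a1 := hmin v hv.1
    have a2 := hmin v' hv'.1
    rcases hα.2 x v v' hv.2.1 hv'.2.1 hne (hv.2.2.trans hv'.2.2.symm) with h | h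
    · rw [hv.2.2] at h
      omega
    · rw [hv.2.2] at h
      omega
  have hy' : (W.filter fun w => G.Adj y w ∧ α y w = a).card ≤ 1 := by
    rw [card_le_one]
    intro v hv v' hv'
    rw [mem_filter] at hv hv'
    by_contra hne
    have a1 := hmax v hv.1
    have a2 := hmax v' hv'.1
    rcases hα.2 y v v' hv.2.1 hv'.2.1 hne (hv.2.2.trans hv'.2.2.symm) with h | h
    · rw [hv.2.2] at h
      omega
    · rw [hv.2.2] at h
      omega
  have : ({x, y} : Finset V) ⊆
      W.filter fun v => (W.filter fun w => G.Adj v w ∧ α v w = a).card ≤ 1 := by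
    intro v hv
    rw [mem_insert, mem_singleton] at hv
    rcases hv with rfl | rfl
    · exact mem_filter.2 ⟨hx, hx'⟩
    · exact mem_filter.2 ⟨hy, hy'⟩
  have h3 := card_le_card this
  rwa [card_pair hxy] at h3

/-- Labels from a drawing in general position. -/
theorem valid_of_drawing {V : Type} [Fintype V] [DecidableEq V] {G : SimpleGraph V}
    {f : V → Fin 3 → ℤ} {b₁ b₂ : V → V → Fin 3 → ℤ} (hf : ∀ a u v, f u a = f v a → u = v)
    (hl : ∀ u v, G.Adj u v →
      (∃ i : Fin 3, ∀ j : Fin 3, j ≠ i → f u j = b₁ u v j) ∧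
      (∃ i : Fin 3, ∀ j : Fin 3, j ≠ i → b₁ u v j = b₂ u v j) ∧
      (∃ i : Fin 3, ∀ j : Fin 3, j ≠ i → b₂ u v j = f v j))
    (hx : ∀ u v u' v' x, G.Adj u v → G.Adj u' v' → s(u, v) ≠ s(u', v') →
      (TB.Seg (f u) (b₁ u v) x ∨ TB.Seg (b₁ u v) (b₂ u v) x ∨ TB.Seg (b₂ u v) (f v) x) →
      (TB.Seg (f u') (b₁ u' v') x ∨ TB.Seg (b₁ u' v') (b₂ u' v') x ∨
        TB.Seg (b₂ u' v') (f v') x) →
      ∃ w, x = f w ∧ (w = u ∨ w = v) ∧ (w = u' ∨ w = v')) :
    ∃ α : V → V → Fin 3, TB.Valid G f α := by
  classical
  have hlk : ∀ u v, ∃ i k : Fin 3, G.Adj u v → i ≠ k ∧ (∀ j, j ≠ i → b₁ u v j = f u j) ∧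
      b₁ u v i = f v i ∧ (∀ j, j ≠ k → b₂ u v j = f v j) ∧ b₂ u v k = f u k := by
    intro u v
    by_cases h : G.Adj u v
    · obtain ⟨h1, h2, h3⟩ := hl u v h
      obtain ⟨i, k, h4⟩ := links (fun a e => h.ne (hf a u v e)) h1 h2 h3
      exact ⟨i, k, fun _ => h4⟩
    · exact ⟨0, 0, fun h' => absurd h' h⟩
  choose I K hIK using hlk
  -- the label at `u` of the edge `uv`
  let α : V → V → Fin 3 := fun u v => if f u 0 < f v 0 then I u v else K v u
  -- the point next to `u` on the route of the edge `uv`
  have hroute : ∀ u v (x : Fin 3 → ℤ), G.Adj u v → (∀ j, j ≠ α u v → x j = f u j) →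
      ((f u (α u v) ≤ x (α u v) ∧ x (α u v) ≤ f v (α u v)) ∨
        (f v (α u v) ≤ x (α u v) ∧ x (α u v) ≤ f u (α u v))) →
      ∃ p q, G.Adj p q ∧ s(p, q) = s(u, v) ∧
        (TB.Seg (f p) (b₁ p q) x ∨ TB.Seg (b₁ p q) (b₂ p q) x ∨ TB.Seg (b₂ p q) (f q) x) := by
    intro u v x huv hx1 hx2
    by_cases h : f u 0 < f v 0
    · have ha : α u v = I u v := if_pos h
      rw [ha] at hx1 hx2
      obtain ⟨-, c1, c2, -, -⟩ := hIK u v huv
      refine ⟨u, v, huv, rfl, Or.inl ⟨I u v, fun j hj => ⟨hx1 j hj, c1 j hj⟩, ?_⟩⟩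
      rw [c2]
      exact hx2
    · have ha : α u v = K v u := if_neg h
      rw [ha] at hx1 hx2
      obtain ⟨-, -, -, c1, c2⟩ := hIK v u huv.symm
      refine ⟨v, u, huv.symm, Sym2.eq_swap, Or.inr (Or.inr ⟨K v u, fun j hj =>
        ⟨(hx1 j hj).trans (c1 j hj).symm, (c1 j hj).symm⟩, ?_⟩)⟩
      rw [c2]
      exact hx2.symm
  refine ⟨α, ?_, ?_⟩
  · intro u v huv
    have hne0 : f u 0 ≠ f v 0 := fun e => huv.ne (hf 0 u v e)
    by_cases h : f u 0 < f v 0
    · have e1 : α u v = I u v := if_pos h
      have e2 : α v u = K u v := if_neg (by omega)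
      rw [e1, e2]
      exact (hIK u v huv).1
    · have e1 : α u v = K v u := if_neg h
      have e2 : α v u = I v u := if_pos (by omega)
      rw [e1, e2]
      exact (hIK v u huv.symm).1.symm
  · intro u v v' huv huv' hne hlab
    set a := α u v with ha
    have n1 : f u a ≠ f v a := fun e => huv.ne (hf a u v e)
    have n2 : f u a ≠ f v' a := fun e => huv'.ne (hf a u v' e)
    have key : ∀ t : ℤ, t ≠ f u a → ((f u a ≤ t ∧ t ≤ f v a) ∨ (f v a ≤ t ∧ t ≤ f u a)) →
        ((f u a ≤ t ∧ t ≤ f v' a) ∨ (f v' a ≤ t ∧ t ≤ f u a)) → False := by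
      intro t ht h1 h2
      obtain ⟨p, q, hpq, e, hs⟩ := hroute u v (Function.update (f u) a t) huv (fun j hj => by
        rw [Function.update_of_ne]
        exact hj) (by
        rw [← ha, Function.update_self]
        exact h1)
      obtain ⟨p', q', hpq', e', hs'⟩ := hroute u v' (Function.update (f u) a t) huv' (fun j hj => by
        rw [Function.update_of_ne]
        rw [← hlab] at hj
        exact hj) (by
        rw [← hlab, Function.update_self]
        exact h2)
      obtain ⟨w, hw, hw1, hw2⟩ := hx p q p' q' _ hpq hpq' (by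
        rw [e, e']
        intro h
        exact hne (Sym2.congr_right.1 h)) hs hs'
      have m1 : w ∈ s(u, v) := by
        rw [← e, Sym2.mem_iff]
        exact hw1
      have m2 : w ∈ s(u, v') := by
        rw [← e', Sym2.mem_iff]
        exact hw2
      rw [Sym2.mem_iff] at m1 m2
      have hwu : w = u := by
        rcases m1 with h | h
        · exact h
        · rcases m2 with h' | h'
          · exact h'
          · exact absurd (h.symm.trans h') hne
      rw [hwu] at hw
      have := congrFun hw a
      rw [Function.update_self] at this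
      exact ht this
    by_cases h1 : f v a < f u a
    · by_cases h2 : f u a < f v' a
      · exact Or.inl ⟨h1, h2⟩
      · exact (key (f u a - 1) (by omega) (Or.inr ⟨by omega, by omega⟩)
          (Or.inr ⟨by omega, by omega⟩)).elim
    · by_cases h2 : f v' a < f u a
      · exact Or.inr ⟨h2, by omega⟩
      · exact (key (f u a + 1) (by omega) (Or.inl ⟨by omega, by omega⟩)
          (Or.inl ⟨by omega, by omega⟩)).elim

end Pool.Agent.TBS
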