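import Pool.Agent.TB.Koenig

/-!
# Labels of half-edges for graphs with an orientation of outdegree at most three

`o u v`: the edge `uv` is directed from `u` to `v` (it is charged to `u`).  `α u v` is the label of
the half-edge at `u` of the edge `uv`.

Proof (exchange argument of Davies and McDiarmid).  `P1 α`: (`G.Adj u v -> α u v ≠ α v u`) and for
all `u`, `a` at most two `v` with `o u v` and `a` in `{α u v, α v u}`.  `P2 β`: for all `u`, `a` at
most two `v` with `G.Adj u v` and `β u v = a`.
* Some `α` satisfies `P1`: choose an injection `k` of the (at most three) out-neighbours `v` of `u`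
  into `Fin 3`, `α u v = k + 1`, `α v u = k + 2`.  Some `β` satisfies `P2`: number the (at most six)
  neighbours `v` of `u` by `n < 6`, `β u v = n / 2`.
* Induction on the number `d` of pairs `(u, v)` with `G.Adj u v`, `α u v ≠ β u v`.  `d = 0`: done.
  `d > 0`: let `α u0 v0 = i ≠ j = β u0 v0`, `k` the third label.  `E` = type of the pairs `(u, v)`
  with `G.Adj u v`.
  Nodes `l : E -> (V × Option V) ⊕ E`: let `(t, h)` be the pair `(u, v)` or `(v, u)` with `o t h`.
  If `α u v ≠ k` and `α v u ≠ k`: `l (u,v) = inl (t, some h)`.  If `α u v ≠ k`, `α v u = k`: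
  `l (u,v) = inl (t, none)`.  If `α u v = k`: `l (u,v) = inr (u,v)`.  Fibres have at most two
  elements (`inl (t, none)`: at most two `h` with `o t h` and `k` in `{α t h, α h t}`).
  Nodes `r : E -> (V × Fin 2) ⊕ E`: if `β u v ≠ k`, `inl (u, half)` where the at most four `v` with
  `β u v ≠ k` are divided into two groups of at most two; else `inr (u,v)`.
  `TB.koenig 2` gives `c : E -> Fin 2`.  Replace `α e` by `i` if `c e = 0`, `j` if `c e = 1`, for all
  `e` with `α e ≠ k`; the same for `β`.  `P1` (for the count of `i` at `t`: let `m2` be the number of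
  `h` with both labels `≠ k` and `m1` the number with exactly one `≠ k`; the old `P1` gives
  `2 m2 + m1 ≤ 4`; new count of `i` is `m2 +` (number of singles coloured `i`) and at most one single
  is coloured `i`, none if `m1 = 0`) and `P2` remain true, and the number of
  disagreements drops: where both labels are `≠ k` they agree now; where exactly one is `k` they
  disagreed before.
-/

set_option autoImplicit false

namespace Pool.Agent.TBS

open Finset

private theorem third : ∀ i j : Fin 3, i ≠ j → ∃ k, k ≠ i ∧ k ≠ j ∧ ∀ a, a = i ∨ a = j ∨ a = k := by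
  decide

/-- the new labels -/
private def cc {V : Type} (G : SimpleGraph V) [DecidableRel G.Adj] (i j : Fin 3)
    (c : {p : V × V // G.Adj p.1 p.2} → Fin 2) (u v : V) : Fin 3 :=
  if h : G.Adj u v then (if c ⟨(u, v), h⟩ = 0 then i else j) else i

private theorem cc_eq {V : Type} {G : SimpleGraph V} [DecidableRel G.Adj] {i j : Fin 3} (hij : i ≠ j)
    {c : {p : V × V // G.Adj p.1 p.2} → Fin 2} {u v u' v' : V} (h : G.Adj u v) (h' : G.Adj u' v')
    (he : cc G i j c u v = cc G i j c u' v') : c ⟨(u, v), h⟩ = c ⟨(u', v'), h'⟩ := by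
  unfold cc at he
  rw [dif_pos h, dif_pos h'] at he
  by_cases h1 : c ⟨(u, v), h⟩ = 0 <;> by_cases h2 : c ⟨(u', v'), h'⟩ = 0
  · rw [h1, h2]
  · rw [if_pos h1, if_neg h2] at he
    exact absurd he hij
  · rw [if_neg h1, if_pos h2] at he
    exact absurd he.symm hij
  · omega

private theorem cc_ne {V : Type} {G : SimpleGraph V} [DecidableRel G.Adj] {i j k : Fin 3}
    (hki : k ≠ i) (hkj : k ≠ j) (c : {p : V × V // G.Adj p.1 p.2} → Fin 2) (u v : V) :
    cc G i j c u v ≠ k := by
  unfold cc
  split_ifs
  · exact hki.symm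
  · exact hkj.symm
  · exact hki.symm

private theorem step {V : Type} [Fintype V] [DecidableEq V] (G : SimpleGraph V)
    [DecidableRel G.Adj] (o : V → V → Prop) [DecidableRel o]
    (hadj : ∀ u v, o u v → G.Adj u v) (htot : ∀ u v, G.Adj u v → o u v ∨ o v u)
    (hasym : ∀ u v, o u v → ¬ o v u) (α β : V → V → Fin 3)
    (hA : ∀ u v, G.Adj u v → α u v ≠ α v u)
    (hB : ∀ u a, (univ.filter fun v => o u v ∧ (α u v = a ∨ α v u = a)).card ≤ 2)
    (hC : ∀ u a, (univ.filter fun v => G.Adj u v ∧ β u v = a).card ≤ 2)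
    (u₀ v₀ : V) (h₀ : G.Adj u₀ v₀) (hne : α u₀ v₀ ≠ β u₀ v₀) :
    ∃ α' β' : V → V → Fin 3, (∀ u v, G.Adj u v → α' u v ≠ α' v u) ∧
      (∀ u a, (univ.filter fun v => o u v ∧ (α' u v = a ∨ α' v u = a)).card ≤ 2) ∧
      (∀ u a, (univ.filter fun v => G.Adj u v ∧ β' u v = a).card ≤ 2) ∧
      (univ.filter fun p : V × V => G.Adj p.1 p.2 ∧ α' p.1 p.2 ≠ β' p.1 p.2).card <
        (univ.filter fun p : V × V => G.Adj p.1 p.2 ∧ α p.1 p.2 ≠ β p.1 p.2).card := by
  obtain ⟨k, hki, hkj, hall⟩ := third _ _ hne
  obtain ⟨i, hi⟩ : ∃ i, i = α u₀ v₀ := ⟨_, rfl⟩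
  obtain ⟨j, hj⟩ : ∃ j, j = β u₀ v₀ := ⟨_, rfl⟩
  rw [← hi, ← hj] at hne
  rw [← hi] at hki
  rw [← hj] at hkj
  rw [← hi, ← hj] at hall
  let l : {p : V × V // G.Adj p.1 p.2} → ((V × V) ⊕ V) ⊕ {p : V × V // G.Adj p.1 p.2} := fun e =>
    if α e.1.1 e.1.2 = k then Sum.inr e else
      if α e.1.2 e.1.1 = k then Sum.inl (Sum.inr (if o e.1.1 e.1.2 then e.1.1 else e.1.2)) else
        Sum.inl (Sum.inl (if o e.1.1 e.1.2 then (e.1.1, e.1.2) else (e.1.2, e.1.1)))
  let r : {p : V × V // G.Adj p.1 p.2} → (V × Fin 3) ⊕ {p : V × V // G.Adj p.1 p.2} := fun e =>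
    if β e.1.1 e.1.2 = k then Sum.inr e else Sum.inl (e.1.1, β e.1.1 e.1.2)
  have hl1 : ∀ e : {p : V × V // G.Adj p.1 p.2}, α e.1.1 e.1.2 = k → l e = Sum.inr e :=
    fun e h => if_pos h
  have hl2 : ∀ e : {p : V × V // G.Adj p.1 p.2}, α e.1.1 e.1.2 ≠ k → α e.1.2 e.1.1 = k →
      l e = Sum.inl (Sum.inr (if o e.1.1 e.1.2 then e.1.1 else e.1.2)) :=
    fun e h h' => (if_neg h).trans (if_pos h')
  have hl3 : ∀ e : {p : V × V // G.Adj p.1 p.2}, α e.1.1 e.1.2 ≠ k → α e.1.2 e.1.1 ≠ k →
      l e = Sum.inl (Sum.inl (if o e.1.1 e.1.2 then (e.1.1, e.1.2) else (e.1.2, e.1.1))) :=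
    fun e h h' => (if_neg h).trans (if_neg h')
  have hr1 : ∀ e : {p : V × V // G.Adj p.1 p.2}, β e.1.1 e.1.2 = k → r e = Sum.inr e :=
    fun e h => if_pos h
  have hr2 : ∀ e : {p : V × V // G.Adj p.1 p.2}, β e.1.1 e.1.2 ≠ k →
      r e = Sum.inl (e.1.1, β e.1.1 e.1.2) := fun e h => if_neg h
  have hfl : ∀ x, (univ.filter fun e => l e = x).card ≤ 2 := by
    rintro ((⟨t, h⟩ | t) | e')
    · have h1 : (univ.filter fun e => l e = Sum.inl (Sum.inl (t, h))) ⊆
          univ.filter fun e => e.1 = (t, h) ∨ e.1 = (h, t) := by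
        intro e he
        rw [mem_filter] at he ⊢
        refine ⟨mem_univ _, ?_⟩
        have h2 := he.2
        by_cases ha : α e.1.1 e.1.2 = k
        · rw [hl1 e ha] at h2
          exact absurd h2 (by simp)
        by_cases hb : α e.1.2 e.1.1 = k
        · rw [hl2 e ha hb] at h2
          exact absurd h2 (by simp)
        rw [hl3 e ha hb] at h2
        have h3 := Sum.inl.inj (Sum.inl.inj h2)
        split_ifs at h3 with h4
        · exact Or.inl h3
        · right
          rw [← Prod.mk.inj h3 |>.1, ← Prod.mk.inj h3 |>.2]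
      refine (card_le_card h1).trans ?_
      have h2 : ((univ.filter fun e : {p : V × V // G.Adj p.1 p.2} => e.1 = (t, h) ∨ e.1 = (h, t)).map
          (Function.Embedding.subtype _)) ⊆ {(t, h), (h, t)} := by
        intro p hp
        rw [mem_map] at hp
        obtain ⟨e, he, rfl⟩ := hp
        rw [mem_insert, mem_singleton]
        exact (mem_filter.1 he).2
      have h3 := card_le_card h2
      rw [card_map] at h3
      exact h3.trans card_le_two
    · refine le_trans (card_le_card_of_injOn
        (fun e => if o e.1.1 e.1.2 then e.1.2 else e.1.1) ?_ ?_) (hB t k)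
      · intro e he
        rw [mem_coe, mem_filter] at he
        rw [mem_coe, mem_filter]
        refine ⟨mem_univ _, ?_⟩
        have h2 := he.2
        by_cases ha : α e.1.1 e.1.2 = k
        · rw [hl1 e ha] at h2
          exact absurd h2 (by simp)
        by_cases hb : α e.1.2 e.1.1 = k
        · rw [hl2 e ha hb] at h2
          have h3 := Sum.inr.inj (Sum.inl.inj h2)
          dsimp only
          split_ifs at h3 ⊢ with h4
          · rw [← h3]
            exact ⟨h4, Or.inr hb⟩
          · rw [← h3]
            exact ⟨(htot _ _ e.2).resolve_left h4, Or.inl hb⟩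
        · rw [hl3 e ha hb] at h2
          exact absurd h2 (by simp)
      · intro e he e' he' hee
        rw [mem_coe, mem_filter] at he he'
        have key : ∀ e : {p : V × V // G.Adj p.1 p.2}, l e = Sum.inl (Sum.inr t) →
            α e.1.1 e.1.2 ≠ k ∧ α e.1.2 e.1.1 = k ∧ ((o e.1.1 e.1.2 ∧ e.1.1 = t) ∨
              (¬ o e.1.1 e.1.2 ∧ e.1.2 = t)) := by
          intro e h2
          by_cases ha : α e.1.1 e.1.2 = k
          · rw [hl1 e ha] at h2
            exact absurd h2 (by simp)
          by_cases hb : α e.1.2 e.1.1 = k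
          · rw [hl2 e ha hb] at h2
            have h3 := Sum.inr.inj (Sum.inl.inj h2)
            refine ⟨ha, hb, ?_⟩
            split_ifs at h3 with h4
            · exact Or.inl ⟨h4, h3⟩
            · exact Or.inr ⟨h4, h3⟩
          · rw [hl3 e ha hb] at h2
            exact absurd h2 (by simp)
        obtain ⟨a1, a2, a3⟩ := key e he.2
        obtain ⟨b1, b2, b3⟩ := key e' he'.2
        dsimp only at hee
        obtain ⟨⟨u, v⟩, huv⟩ := e
        obtain ⟨⟨u', v'⟩, huv'⟩ := e'
        dsimp only at *
        apply Subtype.ext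
        dsimp only
        rcases a3 with ⟨a3, rfl⟩ | ⟨a3, rfl⟩ <;> rcases b3 with ⟨b3, rfl⟩ | ⟨b3, rfl⟩
        · rw [if_pos a3, if_pos b3] at hee
          rw [hee]
        · rw [if_pos a3, if_neg b3] at hee
          subst hee
          exact absurd b2 a1
        · rw [if_neg a3, if_pos b3] at hee
          subst hee
          exact absurd b2 a1
        · rw [if_neg a3, if_neg b3] at hee
          rw [hee]
    · have h1 : (univ.filter fun e => l e = Sum.inr e') ⊆ {e'} := by
        intro e he
        rw [mem_filter] at he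
        rw [mem_singleton]
        have h2 := he.2
        by_cases ha : α e.1.1 e.1.2 = k
        · rw [hl1 e ha] at h2
          exact Sum.inr.inj h2
        by_cases hb : α e.1.2 e.1.1 = k
        · rw [hl2 e ha hb] at h2
          exact absurd h2 (by simp)
        · rw [hl3 e ha hb] at h2
          exact absurd h2 (by simp)
      refine (card_le_card h1).trans ?_
      rw [card_singleton]
      norm_num
  have hfr : ∀ x, (univ.filter fun e => r e = x).card ≤ 2 := by
    rintro (⟨u, a⟩ | e')
    · refine le_trans (card_le_card_of_injOn (fun e => e.1.2) ?_ ?_) (hC u a)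
      · intro e he
        rw [mem_coe, mem_filter] at he
        rw [mem_coe, mem_filter]
        refine ⟨mem_univ _, ?_⟩
        have h2 := he.2
        by_cases ha : β e.1.1 e.1.2 = k
        · rw [hr1 e ha] at h2
          exact absurd h2 (by simp)
        rw [hr2 e ha] at h2
        obtain ⟨h3, h4⟩ := Prod.mk.inj (Sum.inl.inj h2)
        rw [← h3]
        rw [h4]
        exact ⟨e.2, by rw [← h4]⟩
      · intro e he e' he' hee
        rw [mem_coe, mem_filter] at he he'
        have key : ∀ e : {p : V × V // G.Adj p.1 p.2}, r e = Sum.inl (u, a) → e.1.1 = u := by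
          intro e h2
          by_cases ha : β e.1.1 e.1.2 = k
          · rw [hr1 e ha] at h2
            exact absurd h2 (by simp)
          rw [hr2 e ha] at h2
          exact (Prod.mk.inj (Sum.inl.inj h2)).1
        apply Subtype.ext
        exact Prod.ext ((key e he.2).trans (key e' he'.2).symm) hee
    · have h1 : (univ.filter fun e => r e = Sum.inr e') ⊆ {e'} := by
        intro e he
        rw [mem_filter] at he
        rw [mem_singleton]
        have h2 := he.2
        by_cases ha : β e.1.1 e.1.2 = k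
        · rw [hr1 e ha] at h2
          exact Sum.inr.inj h2
        · rw [hr2 e ha] at h2
          exact absurd h2 (by simp)
      refine (card_le_card h1).trans ?_
      rw [card_singleton]
      norm_num
  obtain ⟨c, hcl, hcr⟩ := Pool.Agent.TB.koenig 2 _ _ _ l r hfl hfr
  have hcc : ∀ u v, cc G i j c u v ≠ k := cc_ne hki hkj c
  refine ⟨fun u v => if α u v = k then k else cc G i j c u v,
    fun u v => if β u v = k then k else cc G i j c u v, ?_, ?_, ?_, ?_⟩
  · intro u v huv
    dsimp only
    by_cases ha : α u v = k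
    · have hb : α v u ≠ k := fun h => hA u v huv (ha.trans h.symm)
      rw [if_pos ha, if_neg hb]
      exact (hcc v u).symm
    · by_cases hb : α v u = k
      · rw [if_neg ha, if_pos hb]
        exact hcc u v
      · rw [if_neg ha, if_neg hb]
        intro he
        have h1 := cc_eq hne huv huv.symm he
        have h3 : l ⟨(u, v), huv⟩ = l ⟨(v, u), huv.symm⟩ := by
          rw [hl3 ⟨(u, v), huv⟩ ha hb, hl3 ⟨(v, u), huv.symm⟩ hb ha]
          dsimp only
          rcases htot u v huv with h | h
          · rw [if_pos h, if_neg (hasym _ _ h)]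
          · rw [if_neg (hasym _ _ h), if_pos h]
        have h2 := hcl ⟨(u, v), huv⟩ ⟨(v, u), huv.symm⟩ h3 h1
        exact huv.ne (Prod.mk.inj (congrArg Subtype.val h2)).1
  · intro t a
    dsimp only
    by_cases hak : a = k
    · subst hak
      refine le_trans (card_le_card ?_) (hB t a)
      intro v hv
      rw [mem_filter] at hv ⊢
      refine ⟨mem_univ _, hv.2.1, ?_⟩
      rcases hv.2.2 with h | h
      · left
        by_contra h'
        rw [if_neg h'] at h
        exact hcc _ _ h
      · right
        by_contra h'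
        rw [if_neg h'] at h
        exact hcc _ _ h
    · obtain ⟨N, hN⟩ : ∃ N, N = (univ.filter fun v => o t v ∧
        ((if α t v = k then k else cc G i j c t v) = a ∨
          (if α v t = k then k else cc G i j c v t) = a)) := ⟨_, rfl⟩
      obtain ⟨S2, hS2⟩ : ∃ S2, S2 = (univ.filter fun h => o t h ∧ α t h ≠ k ∧ α h t ≠ k) :=
        ⟨_, rfl⟩
      obtain ⟨S1, hS1⟩ : ∃ S1, S1 = (univ.filter fun h => o t h ∧
        ((α t h = k ∧ α h t ≠ k) ∨ (α t h ≠ k ∧ α h t = k))) := ⟨_, rfl⟩
      obtain ⟨Oi, hOi⟩ : ∃ Oi, Oi = (univ.filter fun v => o t v ∧ (α t v = i ∨ α v t = i)) :=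
        ⟨_, rfl⟩
      obtain ⟨Oj, hOj⟩ : ∃ Oj, Oj = (univ.filter fun v => o t v ∧ (α t v = j ∨ α v t = j)) :=
        ⟨_, rfl⟩
      have h7 := hB t i
      have h8 := hB t j
      rw [← hOi] at h7
      rw [← hOj] at h8
      rw [← hN]
      have h1 : N ⊆ S2 ∪ (S1 ∩ N) := by
        intro v hv
        rw [mem_union, mem_inter]
        have hv' := hv
        rw [hN, mem_filter] at hv'
        obtain ⟨-, ho, -⟩ := hv'
        by_cases ha : α t v = k
        · right
          refine ⟨?_, hv⟩
          rw [hS1, mem_filter]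
          exact ⟨mem_univ _, ho, Or.inl ⟨ha, fun h => hA t v (hadj _ _ ho) (ha.trans h.symm)⟩⟩
        · by_cases hb : α v t = k
          · right
            refine ⟨?_, hv⟩
            rw [hS1, mem_filter]
            exact ⟨mem_univ _, ho, Or.inr ⟨ha, hb⟩⟩
          · left
            rw [hS2, mem_filter]
            exact ⟨mem_univ _, ho, ha, hb⟩
      have key : ∀ h ∈ S1 ∩ N, ∃ e : {p : V × V // G.Adj p.1 p.2}, l e = Sum.inl (Sum.inr t) ∧
          cc G i j c e.1.1 e.1.2 = a ∧ (e.1 = (h, t) ∨ e.1 = (t, h)) := by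
        intro h hh
        rw [mem_inter, hS1, hN, mem_filter, mem_filter] at hh
        obtain ⟨⟨-, ho, hh1⟩, ⟨-, -, hh2⟩⟩ := hh
        rcases hh1 with ⟨ha, hb⟩ | ⟨ha, hb⟩
        · refine ⟨⟨(h, t), (hadj _ _ ho).symm⟩, ?_, ?_, Or.inl rfl⟩
          · rw [hl2 ⟨(h, t), (hadj _ _ ho).symm⟩ hb ha]
            dsimp only
            rw [if_neg (hasym _ _ ho)]
          · rw [if_pos ha, if_neg hb] at hh2
            exact hh2.resolve_left fun h => hak h.symm
        · refine ⟨⟨(t, h), hadj _ _ ho⟩, ?_, ?_, Or.inr rfl⟩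
          · rw [hl2 ⟨(t, h), hadj _ _ ho⟩ ha hb]
            dsimp only
            rw [if_pos ho]
          · rw [if_neg ha, if_pos hb] at hh2
            exact hh2.resolve_right fun h => hak h.symm
      have h2 : (S1 ∩ N).card ≤ 1 := by
        rw [card_le_one]
        intro x hx y hy
        obtain ⟨e, e1, e2, e3⟩ := key x hx
        obtain ⟨e', e1', e2', e3'⟩ := key y hy
        have h3 : e = e' := hcl e e' (e1.trans e1'.symm)
          (cc_eq hne e.2 e'.2 (e2.trans e2'.symm))
        rw [← h3] at e3'
        rcases e3 with e3 | e3 <;> rcases e3' with e3' | e3' <;> rw [e3] at e3'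
        · exact (Prod.mk.inj e3').1
        · exact (Prod.mk.inj e3').1.trans (Prod.mk.inj e3').2
        · exact (Prod.mk.inj e3').2.trans (Prod.mk.inj e3').1
        · exact (Prod.mk.inj e3').2
      have h3 : S2 ⊆ Oi ∩ Oj := by
        intro v hv
        rw [hS2, mem_filter] at hv
        obtain ⟨-, ho, ha, hb⟩ := hv
        rw [mem_inter, hOi, hOj, mem_filter, mem_filter]
        have h4 := hA t v (hadj _ _ ho)
        rcases hall (α t v) with h5 | h5 | h5
        · rcases hall (α v t) with h6 | h6 | h6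
          · exact absurd (h5.trans h6.symm) h4
          · exact ⟨⟨mem_univ _, ho, Or.inl h5⟩, ⟨mem_univ _, ho, Or.inr h6⟩⟩
          · exact absurd h6 hb
        · rcases hall (α v t) with h6 | h6 | h6
          · exact ⟨⟨mem_univ _, ho, Or.inr h6⟩, ⟨mem_univ _, ho, Or.inl h5⟩⟩
          · exact absurd (h5.trans h6.symm) h4
          · exact absurd h6 hb
        · exact absurd h5 ha
      have h4 : S2 ∪ S1 ⊆ Oi ∪ Oj := by
        refine union_subset (h3.trans (inter_subset_left.trans subset_union_left)) ?_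
        intro v hv
        rw [hS1, mem_filter] at hv
        obtain ⟨-, ho, hv⟩ := hv
        rw [mem_union, hOi, hOj, mem_filter, mem_filter]
        rcases hv with ⟨-, hb⟩ | ⟨ha, -⟩
        · rcases hall (α v t) with h6 | h6 | h6
          · exact Or.inl ⟨mem_univ _, ho, Or.inr h6⟩
          · exact Or.inr ⟨mem_univ _, ho, Or.inr h6⟩
          · exact absurd h6 hb
        · rcases hall (α t v) with h6 | h6 | h6
          · exact Or.inl ⟨mem_univ _, ho, Or.inl h6⟩
          · exact Or.inr ⟨mem_univ _, ho, Or.inl h6⟩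
          · exact absurd h6 ha
      have h5 : Disjoint S2 S1 := by
        rw [Finset.disjoint_left]
        intro v hv hv'
        rw [hS2, mem_filter] at hv
        rw [hS1, mem_filter] at hv'
        rcases hv'.2.2 with h | h
        · exact hv.2.2.1 h.1
        · exact hv.2.2.2 h.2
      have h6 := card_union_add_card_inter Oi Oj
      have h9 := (card_le_card h1).trans (card_union_le _ _)
      have h10 := card_le_card h3
      have h11 := card_le_card h4
      rw [card_union_of_disjoint h5] at h11
      have h12 : (S1 ∩ N).card ≤ S1.card := card_le_card inter_subset_left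
      omega
  · intro u a
    dsimp only
    by_cases hak : a = k
    · subst hak
      refine le_trans (card_le_card ?_) (hC u a)
      intro v hv
      rw [mem_filter] at hv ⊢
      refine ⟨mem_univ _, hv.2.1, ?_⟩
      by_contra h'
      have h := hv.2.2
      rw [if_neg h'] at h
      exact hcc _ _ h
    · have h1 : ∀ x, x ≠ k → (univ.filter fun v => G.Adj u v ∧ β u v = x ∧
          cc G i j c u v = a).card ≤ 1 := by
        intro x hx
        rw [card_le_one]
        intro v hv v' hv'
        rw [mem_filter] at hv hv'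
        obtain ⟨-, ha, hb, hd⟩ := hv
        obtain ⟨-, ha', hb', hd'⟩ := hv'
        have h2 : r ⟨(u, v), ha⟩ = r ⟨(u, v'), ha'⟩ := by
          rw [hr2 ⟨(u, v), ha⟩ (fun h => hx (hb.symm.trans h)),
            hr2 ⟨(u, v'), ha'⟩ (fun h => hx (hb'.symm.trans h))]
          dsimp only
          rw [hb, hb']
        have h3 := hcr _ _ h2 (cc_eq hne ha ha' (hd.trans hd'.symm))
        exact (Prod.mk.inj (congrArg Subtype.val h3)).2
      have h2 : (univ.filter fun v => G.Adj u v ∧
          (if β u v = k then k else cc G i j c u v) = a) ⊆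
          (univ.filter fun v => G.Adj u v ∧ β u v = i ∧ cc G i j c u v = a) ∪
          (univ.filter fun v => G.Adj u v ∧ β u v = j ∧ cc G i j c u v = a) := by
        intro v hv
        rw [mem_filter] at hv
        rw [mem_union, mem_filter, mem_filter]
        obtain ⟨-, ha, hb⟩ := hv
        rcases hall (β u v) with h6 | h6 | h6
        · rw [if_neg (by rw [h6]; exact hki.symm)] at hb
          exact Or.inl ⟨mem_univ _, ha, h6, hb⟩
        · rw [if_neg (by rw [h6]; exact hkj.symm)] at hb
          exact Or.inr ⟨mem_univ _, ha, h6, hb⟩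
        · rw [if_pos h6] at hb
          exact absurd hb.symm hak
      have h3 := (card_le_card h2).trans (card_union_le _ _)
      have h4 := h1 i hki.symm
      have h5 := h1 j hkj.symm
      omega
  · apply card_lt_card
    rw [Finset.ssubset_iff_of_subset]
    · refine ⟨(u₀, v₀), ?_, ?_⟩
      · rw [mem_filter]
        refine ⟨mem_univ _, h₀, ?_⟩
        rw [← hi, ← hj]
        exact hne
      · rw [mem_filter]
        rintro ⟨-, -, h⟩
        apply h
        dsimp only
        rw [if_neg (by rw [← hi]; exact hki.symm), if_neg (by rw [← hj]; exact hkj.symm)]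
    · intro p hp
      rw [mem_filter] at hp ⊢
      refine ⟨mem_univ _, hp.2.1, ?_⟩
      intro h
      apply hp.2.2
      dsimp only
      rw [h]

private theorem num {V : Type} [Fintype V] [DecidableEq V] (S : Finset V) (n : ℕ)
    (h : S.card ≤ n + 1) : ∃ f : V → Fin (n + 1), Set.InjOn f S := by
  obtain ⟨g⟩ : Nonempty (S ↪ Fin (n + 1)) := by
    apply Function.Embedding.nonempty_of_card_le
    rw [Fintype.card_coe, Fintype.card_fin]
    exact h
  refine ⟨fun v => if hv : v ∈ S then g ⟨v, hv⟩ else 0, ?_⟩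
  intro v hv w hw he
  rw [mem_coe] at hv hw
  dsimp only at he
  rw [dif_pos hv, dif_pos hw] at he
  exact congrArg Subtype.val (g.injective he)

private theorem fin3_a : ∀ x : Fin 3, x + 1 ≠ x + 2 := by decide

private theorem fin3_b : ∀ x a : Fin 3, x + 1 = a ∨ x + 2 = a → x = a - 1 ∨ x = a - 2 := by decide

private theorem loop {V : Type} [Fintype V] [DecidableEq V] (G : SimpleGraph V)
    [DecidableRel G.Adj] (o : V → V → Prop) [DecidableRel o]
    (hadj : ∀ u v, o u v → G.Adj u v) (htot : ∀ u v, G.Adj u v → o u v ∨ o v u)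
    (hasym : ∀ u v, o u v → ¬ o v u) (n : ℕ) : ∀ (α β : V → V → Fin 3),
    (∀ u v, G.Adj u v → α u v ≠ α v u) →
    (∀ u a, (univ.filter fun v => o u v ∧ (α u v = a ∨ α v u = a)).card ≤ 2) →
    (∀ u a, (univ.filter fun v => G.Adj u v ∧ β u v = a).card ≤ 2) →
    (univ.filter fun p : V × V => G.Adj p.1 p.2 ∧ α p.1 p.2 ≠ β p.1 p.2).card = n →
    ∃ α : V → V → Fin 3, (∀ u v, G.Adj u v → α u v ≠ α v u) ∧
      (∀ u a, (univ.filter fun v => G.Adj u v ∧ α u v = a).card ≤ 2) ∧
      (∀ u a, (univ.filter fun v => o u v ∧ (α u v = a ∨ α v u = a)).card ≤ 2) := by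
  induction n using Nat.strong_induction_on with
  | _ n ih =>
    intro α β hA hB hC hn
    by_cases h : ∃ u v, G.Adj u v ∧ α u v ≠ β u v
    · obtain ⟨u₀, v₀, h₀, hne⟩ := h
      obtain ⟨α', β', hA', hB', hC', hlt⟩ := step G o hadj htot hasym α β hA hB hC u₀ v₀ h₀ hne
      rw [hn] at hlt
      exact ih _ hlt α' β' hA' hB' hC' rfl
    · refine ⟨α, hA, ?_, hB⟩
      intro u a
      refine le_trans (card_le_card ?_) (hC u a)
      intro v hv
      rw [mem_filter] at hv ⊢
      refine ⟨mem_univ _, hv.2.1, ?_⟩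
      rw [← hv.2.2]
      by_contra h'
      exact h ⟨u, v, hv.2.1, fun h => h' h.symm⟩

theorem ori_labels {V : Type} [Fintype V] [DecidableEq V] (G : SimpleGraph V)
    [DecidableRel G.Adj] (o : V → V → Prop) [DecidableRel o]
    (hadj : ∀ u v, o u v → G.Adj u v) (htot : ∀ u v, G.Adj u v → o u v ∨ o v u)
    (hasym : ∀ u v, o u v → ¬ o v u)
    (hd : ∀ u, (univ.filter fun v => G.Adj u v).card ≤ 6)
    (h3 : ∀ u, (univ.filter fun v => o u v).card ≤ 3) :
    ∃ α : V → V → Fin 3, (∀ u v, G.Adj u v → α u v ≠ α v u) ∧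
      (∀ u a, (univ.filter fun v => G.Adj u v ∧ α u v = a).card ≤ 2) ∧
      (∀ u a, (univ.filter fun v => o u v ∧ (α u v = a ∨ α v u = a)).card ≤ 2) := by
  choose f hf using fun u => num (univ.filter fun v => o u v) 2 (h3 u)
  choose g hg using fun u => num (univ.filter fun v => G.Adj u v) 5 (hd u)
  refine loop G o hadj htot hasym _ (fun u v => if o u v then f u v + 1 else f v u + 2)
    (fun u v => ⟨(g u v).val / 2, by have := (g u v).isLt; omega⟩) ?_ ?_ ?_ rfl
  · intro u v huv
    rcases htot u v huv with h | h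
    · rw [if_pos h, if_neg (hasym _ _ h)]
      exact fin3_a _
    · rw [if_neg (hasym _ _ h), if_pos h]
      exact (fin3_a _).symm
  · intro u a
    have h1 : (({a - 1, a - 2} : Finset (Fin 3))).card ≤ 2 := card_le_two
    refine le_trans (card_le_card_of_injOn (f u) ?_ ?_) h1
    · intro v hv
      rw [mem_coe, mem_filter] at hv
      rw [mem_coe, mem_insert, mem_singleton]
      obtain ⟨-, ho, hv⟩ := hv
      rw [if_pos ho, if_neg (hasym _ _ ho)] at hv
      exact fin3_b _ _ hv
    · intro v hv w hw he
      rw [mem_coe, mem_filter] at hv hw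
      refine hf u ?_ ?_ he
      · rw [mem_coe, mem_filter]
        exact ⟨mem_univ _, hv.2.1⟩
      · rw [mem_coe, mem_filter]
        exact ⟨mem_univ _, hw.2.1⟩
  · intro u a
    have h1 : (({2 * a.val, 2 * a.val + 1} : Finset ℕ)).card ≤ 2 := card_le_two
    refine le_trans (card_le_card_of_injOn (fun v => (g u v).val) ?_ ?_) h1
    · intro v hv
      rw [mem_coe, mem_filter] at hv
      rw [mem_coe, mem_insert, mem_singleton]
      have h2 := congrArg Fin.val hv.2.2
      dsimp only at h2 ⊢
      omega
    · intro v hv w hw he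
      rw [mem_coe, mem_filter] at hv hw
      refine hg u ?_ ?_ (Fin.ext he)
      · rw [mem_coe, mem_filter]
        exact ⟨mem_univ _, hv.2.1⟩
      · rw [mem_coe, mem_filter]
        exact ⟨mem_univ _, hw.2.1⟩

end Pool.Agent.TBS
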