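import Pool.Agent.TB.Geo
import Pool.Agent.TBS.LabK
import Pool.Agent.TBS.OriLab

/-!
# The orientation criterion
-/

set_option autoImplicit false

namespace Pool.Agent.TBS

open Finset

private lemma card_pairs_ori {V : Type} [DecidableEq V] (W : Finset V) (p : V → V → Prop)
    [∀ u, DecidablePred (p u)] :
    ((W ×ˢ W).filter fun e : V × V => p e.1 e.2).card =
      ∑ u ∈ W, (W.filter fun v => p u v).card := by
  rw [card_filter, sum_product]
  refine sum_congr rfl fun u _ => ?_
  rw [card_filter]

private lemma k_of_ori {V : Type} [Fintype V] [DecidableEq V] (G : SimpleGraph V)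
    [DecidableRel G.Adj] (o : V → V → Prop) [DecidableRel o]
    (htot : ∀ u v, G.Adj u v → o u v ∨ o v u)
    (hS : ∀ S : Finset V, 2 ≤ S.card → 3 ≤ ∑ v ∈ S, (2 - (S.filter fun w => o v w).card))
    (α : V → V → Fin 3) (h1 : ∀ u v, G.Adj u v → α u v ≠ α v u)
    (h4 : ∀ u a, (univ.filter fun v => o u v ∧ (α u v = a ∨ α v u = a)).card ≤ 2)
    (a : Fin 3) (W : Finset V) (w : V) (hw : w ∈ W) (h2 : 2 ≤ W.card) :
    ∃ v ∈ W, v ≠ w ∧ (W.filter fun v' => G.Adj v v' ∧ α v v' = a).card ≤ 1 := by
  by_contra hcon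
  push Not at hcon
  -- at least `2 (|W| - 1)` half-edges of label `a`
  have e1 : 2 * (W.card - 1) ≤
      ∑ u ∈ W, (W.filter fun v' => G.Adj u v' ∧ α u v' = a).card := by
    have e2 : ∑ u ∈ W.erase w, (W.filter fun v' => G.Adj u v' ∧ α u v' = a).card ≤
        ∑ u ∈ W, (W.filter fun v' => G.Adj u v' ∧ α u v' = a).card :=
      sum_le_sum_of_subset (erase_subset _ _)
    refine le_trans ?_ e2
    have e3 : (W.erase w).card • 2 ≤
        ∑ u ∈ W.erase w, (W.filter fun v' => G.Adj u v' ∧ α u v' = a).card := by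
      refine card_nsmul_le_sum _ _ _ fun u hu => ?_
      exact hcon u (mem_of_mem_erase hu) (ne_of_mem_erase hu)
    rw [card_erase_of_mem hw] at e3
    rw [smul_eq_mul, mul_comm] at e3
    exact e3
  -- they inject into the directed pairs that carry the label `a` at one of the two ends
  have e4 : ((W ×ˢ W).filter fun e : V × V => G.Adj e.1 e.2 ∧ α e.1 e.2 = a).card ≤
      ((W ×ˢ W).filter fun e : V × V =>
        o e.1 e.2 ∧ (α e.1 e.2 = a ∨ α e.2 e.1 = a)).card := by
    refine card_le_card_of_injOn (fun e => if o e.1 e.2 then e else e.swap) ?_ ?_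
    · intro e he
      simp only [coe_filter, mem_product, Set.mem_ofPred_eq] at he ⊢
      by_cases h : o e.1 e.2
      · simp only [if_pos h]
        exact ⟨he.1, h, Or.inl he.2.2⟩
      · simp only [if_neg h, Prod.fst_swap, Prod.snd_swap]
        exact ⟨⟨he.1.2, he.1.1⟩, (htot _ _ he.2.1).resolve_left h, Or.inr he.2.2⟩
    · intro e he e' he' h
      simp only [coe_filter, mem_product, Set.mem_ofPred_eq] at he he'
      by_cases g : o e.1 e.2 <;> by_cases g' : o e'.1 e'.2
      · simpa only [if_pos g, if_pos g'] using h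
      · simp only [if_pos g, if_neg g'] at h
        exfalso
        refine h1 e'.1 e'.2 he'.2.1 (he'.2.2.trans ?_)
        have := he.2.2
        rw [h] at this
        simpa only [Prod.fst_swap, Prod.snd_swap] using this.symm
      · simp only [if_neg g, if_pos g'] at h
        exfalso
        refine h1 e.1 e.2 he.2.1 (he.2.2.trans ?_)
        have := he'.2.2
        rw [← h] at this
        simpa only [Prod.fst_swap, Prod.snd_swap] using this.symm
      · simp only [if_neg g, if_neg g'] at h
        exact Prod.swap_injective h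
  rw [card_pairs_ori W fun u v => G.Adj u v ∧ α u v = a,
    card_pairs_ori W fun u v => o u v ∧ (α u v = a ∨ α v u = a)] at e4
  have e5 : ∑ u ∈ W, (W.filter fun v => o u v ∧ (α u v = a ∨ α v u = a)).card +
      ∑ u ∈ W, (2 - (W.filter fun v => o u v).card) ≤ ∑ _u ∈ W, 2 := by
    rw [← sum_add_distrib]
    refine sum_le_sum fun u _ => ?_
    have i1 : (W.filter fun v => o u v ∧ (α u v = a ∨ α v u = a)).card ≤ 2 := by
      refine le_trans (card_le_card ?_) (h4 u a)
      exact filter_subset_filter _ (subset_univ _)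
    have i2 : (W.filter fun v => o u v ∧ (α u v = a ∨ α v u = a)).card ≤
        (W.filter fun v => o u v).card := by
      refine card_le_card ?_
      intro v hv
      rw [mem_filter] at hv ⊢
      exact ⟨hv.1, hv.2.1⟩
    omega
  have e6 := hS W h2
  rw [sum_const, smul_eq_mul] at e5
  omega

theorem exists_valid_of_ori {V : Type} [Fintype V] [DecidableEq V] (G : SimpleGraph V)
    [DecidableRel G.Adj] (o : V → V → Prop) [DecidableRel o]
    (hadj : ∀ u v, o u v → G.Adj u v) (htot : ∀ u v, G.Adj u v → o u v ∨ o v u)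
    (hasym : ∀ u v, o u v → ¬ o v u)
    (hd : ∀ u, (univ.filter fun v => G.Adj u v).card ≤ 6)
    (h3 : ∀ u, (univ.filter fun v => o u v).card ≤ 3)
    (hS : ∀ S : Finset V, 2 ≤ S.card → 3 ≤ ∑ v ∈ S, (2 - (S.filter fun w => o v w).card)) :
    ∃ (P : V → Fin 3 → ℤ) (α : V → V → Fin 3), (∀ a u v, P u a = P v a → u = v) ∧
      TB.Valid G P α := by
  obtain ⟨α, h1, h2, h4⟩ := ori_labels G o hadj htot hasym hd h3
  obtain ⟨P, hP, hv⟩ := valid_of_K G α h1 h2
    (fun a W w hw hW => k_of_ori G o htot hS α h1 h4 a W w hw hW)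
  exact ⟨P, α, hP, hv⟩

end Pool.Agent.TBS
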