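import Pool.Agent.TBS.Cl

/-!
# Case Y: `i ~ j`, and `i, j` are not adjacent to `k, l`

`S` blocks `i, k`; `T` blocks `j, k`; `S'` blocks `i, l`; `T'` blocks `j, l`.  By claim 2 (apex `k`,
`i ~ j`): `S n T = {k}`, `cr (S \\ T) (T \\ S) = 1`, `W = S u T` has `F W <= 2`; likewise
`W' = S' u T'`, `F W' <= 2`.  By claim 1 `l` not in `W`, `k` not in `W'`, `j` not in `S, S'`,
`i` not in `T, T'`.  `Q = W n W'` contains `i, j`, not `k`, not `l`.  `3 <= F (W u W') <= 2 + 2 - F Q`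
(`Bad.four`), so `F Q <= 1`.  But `Q` is the disjoint union of `Q1 = Q n S` (contains `i`) and
`Q2 = Q n T` (contains `j`) (disjoint since `S n T = {k}`), so `F_sm` with `Q1 n Q2 = {}`,
`F {} = -5`: `F Q = F Q1 + F Q2 + 5 - 2 cr (Q1 \\ Q2) (Q2 \\ Q1) >= 0 + 0 + 5 - 2 = 3` (`cr_mono`:
`Q1` inside `S \\ T`, `Q2` inside `T \\ S`): contradiction.
Tools: `F_sm`, `F_empty`, `cr_mono`, `F_nonneg`, `claim1`, `claim2`, `Bad.four`, `swap12/23/34`,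
`Blk.symm`.
-/

set_option autoImplicit false

namespace Pool.Agent.TBS

open Finset

variable {V : Type} [DecidableEq V] {G : SimpleGraph V}

theorem caseY {A : Finset V} {v i j k l : V} (h : Bad G A v i j k l) (a : G.Adj i j)
    (nik : ¬ G.Adj i k) (nil : ¬ G.Adj i l) (njk : ¬ G.Adj j k) (njl : ¬ G.Adj j l) : False := by
  obtain ⟨S, hS⟩ := h.bik nik
  obtain ⟨T, hT⟩ := h.bjk njk
  obtain ⟨S', hS'⟩ := h.bil nil
  obtain ⟨T', hT'⟩ := h.bjl njl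
  have kS' : k ∉ S' := claim1 h.swap34.swap23.swap34 hS'
  have kT' : k ∉ T' := claim1 h.swap12.swap34.swap23.swap34 hT'
  obtain ⟨e1, e2, e3⟩ := claim2 h.swap23.swap12 a hS.symm hT.symm
  obtain ⟨-, -, f3⟩ := claim2 h.swap34.swap23.swap12 a hS'.symm hT'.symm
  have hWA : S ∪ T ⊆ A := union_subset hS.1 hT.1
  have hWA' : S' ∪ T' ⊆ A := union_subset hS'.1 hT'.1
  have g1 : 3 ≤ F G ((S ∪ T) ∪ (S' ∪ T')) := by
    refine h.four (union_subset hWA hWA') ?_ ?_ ?_ ?_ ?_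
    · simp only [mem_union, not_or]
      exact ⟨⟨hS.2.1, hT.2.1⟩, ⟨hS'.2.1, hT'.2.1⟩⟩
    · exact mem_union_left _ (mem_union_left _ hS.2.2.1)
    · exact mem_union_left _ (mem_union_right _ hT.2.2.1)
    · exact mem_union_left _ (mem_union_left _ hS.2.2.2.1)
    · exact mem_union_right _ (mem_union_left _ hS'.2.2.2.1)
  have g2 := F_sm G (S ∪ T) (S' ∪ T')
  have g3 : (0 : ℤ) ≤ (cr G ((S ∪ T) \ (S' ∪ T')) ((S' ∪ T') \ (S ∪ T)) : ℤ) := Int.natCast_nonneg _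
  set Q : Finset V := (S ∪ T) ∩ (S' ∪ T') with hQ
  have hu : (Q ∩ S) ∪ (Q ∩ T) = Q := by
    rw [← inter_union_distrib_left]
    exact inter_eq_left.2 (by rw [hQ]; exact inter_subset_left)
  have hi : (Q ∩ S) ∩ (Q ∩ T) = ∅ := by
    rw [eq_empty_iff_forall_notMem]
    intro x hx
    have hx1 := (mem_inter.1 hx).1
    have hx2 := (mem_inter.1 hx).2
    have hxk : x ∈ S ∩ T := mem_inter.2 ⟨(mem_inter.1 hx1).2, (mem_inter.1 hx2).2⟩
    rw [e1, mem_singleton] at hxk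
    have hxW : x ∈ S' ∪ T' := (mem_inter.1 (mem_inter.1 hx1).1).2
    rw [hxk] at hxW
    rcases mem_union.1 hxW with h1 | h1
    · exact kS' h1
    · exact kT' h1
  have hQA : Q ⊆ A := fun x hx => hWA (mem_inter.1 hx).1
  have hiQ : i ∈ Q := mem_inter.2 ⟨mem_union_left _ hS.2.2.1, mem_union_left _ hS'.2.2.1⟩
  have hjQ : j ∈ Q := mem_inter.2 ⟨mem_union_right _ hT.2.2.1, mem_union_right _ hT'.2.2.1⟩
  have p1 : 0 ≤ F G (Q ∩ S) := F_nonneg G h.cls (inter_subset_left.trans hQA)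
    ⟨i, mem_inter.2 ⟨hiQ, hS.2.2.1⟩⟩
  have p2 : 0 ≤ F G (Q ∩ T) := F_nonneg G h.cls (inter_subset_left.trans hQA)
    ⟨j, mem_inter.2 ⟨hjQ, hT.2.2.1⟩⟩
  have p3 := F_sm G (Q ∩ S) (Q ∩ T)
  rw [hu, hi, F_empty] at p3
  have p4 : cr G ((Q ∩ S) \ (Q ∩ T)) ((Q ∩ T) \ (Q ∩ S)) ≤ 1 := by
    rw [← e2]
    refine cr_mono G ?_ ?_
    · intro x hx
      have h1 := mem_sdiff.1 hx
      have h2 := mem_inter.1 h1.1
      exact mem_sdiff.2 ⟨h2.2, fun h3 => h1.2 (mem_inter.2 ⟨h2.1, h3⟩)⟩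
    · intro x hx
      have h1 := mem_sdiff.1 hx
      have h2 := mem_inter.1 h1.1
      exact mem_sdiff.2 ⟨h2.2, fun h3 => h1.2 (mem_inter.2 ⟨h2.1, h3⟩)⟩
  omega

end Pool.Agent.TBS
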