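import Pool.Agent.TBS.Cl

/-!
# Case Z: no two of `i, j, k, l` are adjacent  (MODULE Z)

Six blocking sets `S_xy`; by claim 1 `S_xy` contains exactly the neighbours `x, y`.
Type C: `F S <= 1`.  Type D: `F S = 2` and `|S| = 5`; then `S` is complete except the pair `x, y`
(`twoE S = 18`).

(M) TYPES ARE EQUAL.  If `F S_xy <= 1`, `|S_xz| = 5` (`x, y, z` distinct): `1 <= F (S_xy u S_xz)` gives
`F (S_xy n S_xz) <= 2`, and `z` not in `S_xy`, so `|n| <= 4`, so the intersection is `{x}`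
(`F_small`).  In a triple `x, y, z`: (CCD) `S_xy, S_xz` type C, `S_yz` type D (not C):
`(S_xy u S_xz) n S_yz = {y, z}`, `F = 5`: `1 <= (1 + 1 - 0) + 2 - 5`, contradiction.  (CDD) `S_xy` type
C, `S_xz, S_yz` type D: `S_xy n (S_xz u S_yz) = {x, y}`, `F = 5`: `1 <= 1 + (2 + 2 - 0) - 5`,
contradiction.  So if one of the six is type C, all six are.

(C) ALL TYPE C.  Let `x, y, z` be three of the four, `w` the fourth.  For ANY sets `S` (contains
`x, y`), `T` (contains `x, z`), inside `A`, without `v`, `F S <= 1`, `F T <= 1`: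
`F (S u T) >= 2` (otherwise uncross with `S_xw` (contains `x, w`, `F <= 1`):
`F (S u T u S_xw) <= 1 + 1 - 0 = 2`, against `Bad.four`).  Hence `F S = F T = 1`, `F (S n T) = 0`,
`cr (S \\ T) (T \\ S) = 0`.  Apply it to `S = S_xy`, `T = S_xz`; and with the roles permuted to
`(S_xy, S_yz)` and `(S_xz, S_yz)`.  Put `P = S_xy n S_xz` (contains `x`), `B = S_xy n S_yz`
(contains `y`), `C = S_xz n S_yz` (contains `z`), all with `F = 0`.
 `P n B = {}`: otherwise `F (P u B) <= 0 + 0 - 0 = 0` and `P u B` contains `x, y`: the general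
 statement for `S = P u B`, `T = S_xz` says `F S = 1`, contradiction.  So the triple intersection is
 empty, `B` and `C` are disjoint, `B` inside `S_xy \\ S_xz`, `C` inside `S_xz \\ S_xy`, so
 `cr B C = 0` and `F (B u C) = 0 + 0 + 5`.  Now `(S_xy u S_xz) n S_yz = B u C` and
 `1 <= F (S_xy u S_xz u S_yz) <= (1 + 1 - 0) + 1 - 5`: contradiction.

(D) ALL TYPE D.  `x, y, z, w` = `i, j, k, l`; `X = S_xy u S_xz`, `Y = X u S_yz`.  CLAIM `F Y <= 1`:
 if `|S_xy n S_xz| >= 2` (and `<= 4`) then `F X <= 4 - 3 = 1`; if `|X n S_yz| <= 4` then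
 `F Y <= 1 + 2 - 5 < 1`, against `Bad.three`; otherwise `S_yz` inside `X` and `Y = X`.
 If `S_xy n S_xz = {x}`: `F X <= 4 - 2 cr`; if `|X n S_yz| <= 4` then `F Y <= 4 + 2 - 5 = 1`.
 Otherwise `S_yz` inside `X`; two different members `a, a'` of `S_yz` other than `y, z` (and not
 `x`, by claim 1) are adjacent to `y` and `z`; each gives a cross pair (`(a, z)` if `a` in
 `S_xy \\ S_xz`, `(y, a)` if `a` in `S_xz \\ S_xy`), all different: `cr >= 2`, `F X <= 0`, against
 `Bad.three`.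
 Now `3 <= F (Y u S_xw) = F Y + 2 - F (Y n S_xw) - 2 cr <= 3`, so `F (Y n S_xw) = 0`,
 `cr (Y \\ S_xw) (S_xw \\ Y) = 0`, `|Y n S_xw| <= 4` (`w` not in `Y`), so `Y n S_xw = {x}` and
 `F (Y u S_xw) = 3`.  Let `Z = Y u S_xw` (contains `y, w`).  `3 <= F (Z u S_yw) <= 3 + 2 - F (Z n S_yw)`;
 `|Z n S_yw| <= 4` would give `F >= 5`, contradiction; so `S_yw` inside `Z`.  Take `a` in `S_yw` other
 than `y, w` (not `x`, claim 1); `a ~ y`, `a ~ w`; `y` in `Y \\ S_xw`, `w` in `S_xw \\ Y`; `a` in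
 `Y \\ S_xw` gives the cross pair `(a, w)`, `a` in `S_xw \\ Y` the cross pair `(y, a)`,
 `a` in `Y n S_xw = {x}` is impossible: contradiction with `cr = 0`.
Tools: `F_sm`, `F_empty`, `cr_mono`, `cr_one`, `cr_two`, `F_nonneg`, `F_small`, `F_small_nonadj`,
`claim1`, `Bad.three`, `Bad.four`, `swap12/23/34`, `Blk.symm`.
-/

set_option autoImplicit false

namespace Pool.Agent.TBS

open Finset

variable {V : Type} [DecidableEq V] {G : SimpleGraph V}

/-- Type C set against type D set with one common neighbour. -/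
private theorem z_one {A : Finset V} {v x y z w : V} (h : Bad G A v x y z w) {S T : Finset V}
    (hS : Blk G A v x y S) (hT : Blk G A v x z T) (h1 : F G S ≤ 1) (h5 : T.card = 5) :
    S ∩ T = {x} := by
  have hz : z ∉ S := claim1 h hS
  have hxI : x ∈ S ∩ T := mem_inter.2 ⟨hS.2.2.1, hT.2.2.1⟩
  have hlt : (S ∩ T).card < T.card := by
    refine card_lt_card ⟨inter_subset_right, fun hc => hz ?_⟩
    exact (mem_inter.1 (hc hT.2.2.2.1)).1
  have hsm := F_sm G S T
  have hth : 1 ≤ F G (S ∪ T) := by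
    refine h.three (union_subset hS.1 hT.1) ?_ ?_ ?_ ?_
    · simp only [mem_union, not_or]; exact ⟨hS.2.1, hT.2.1⟩
    · exact mem_union_left _ hS.2.2.1
    · exact mem_union_left _ hS.2.2.2.1
    · exact mem_union_right _ hT.2.2.2.1
  have hT2 := hT.2.2.2.2.1
  have hcard : (S ∩ T).card ≤ 1 := by
    by_contra hc
    have := F_small G (S := S ∩ T) (by omega) (by omega)
    omega
  have h1c : (S ∩ T).card = 1 := by
    have : 0 < (S ∩ T).card := card_pos.2 ⟨x, hxI⟩
    omega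
  obtain ⟨a, ha⟩ := card_eq_one.1 h1c
  rw [ha] at hxI ⊢
  rw [mem_singleton.1 hxI]

/-- `{x, y}` for nonadjacent `x`, `y`. -/
private theorem z_pair {x y : V} (hxy : x ≠ y) (n : ¬ G.Adj x y) : 5 ≤ F G ({x, y} : Finset V) := by
  refine F_small_nonadj G (i := x) (j := y) (by simp) (by simp) hxy n ?_
  rw [card_pair hxy]; omega

private theorem z_ccd {A : Finset V} {v x y z w : V} (h : Bad G A v x y z w)
    (nyz : ¬ G.Adj y z) {S T U : Finset V}
    (hS : Blk G A v x y S) (hT : Blk G A v x z T) (hU : Blk G A v y z U)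
    (h1 : F G S ≤ 1) (h2 : F G T ≤ 1) (h5 : U.card = 5) : False := by
  have e1 : S ∩ U = {y} := z_one h.swap12 hS.symm hU h1 h5
  have e2 : T ∩ U = {z} := z_one h.swap23.swap12 hT.symm hU.symm h2 h5
  have e3 : (S ∪ T) ∩ U = {y, z} := by
    rw [union_inter_distrib_right, e1, e2]; rfl
  have s1 := F_sm G S T
  have s2 := F_sm G (S ∪ T) U
  have i1 : 0 ≤ F G (S ∩ T) := F_nonneg G h.cls (inter_subset_left.trans hS.1)
    ⟨x, mem_inter.2 ⟨hS.2.2.1, hT.2.2.1⟩⟩
  have i2 := z_pair h.jk nyz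
  have i3 : 1 ≤ F G (S ∪ T ∪ U) := by
    refine h.three (union_subset (union_subset hS.1 hT.1) hU.1) ?_ ?_ ?_ ?_
    · simp only [mem_union, not_or]; exact ⟨⟨hS.2.1, hT.2.1⟩, hU.2.1⟩
    · exact mem_union_left _ (mem_union_left _ hS.2.2.1)
    · exact mem_union_right _ hU.2.2.1
    · exact mem_union_right _ hU.2.2.2.1
  rw [e3] at s2
  have := hU.2.2.2.2.1
  omega

private theorem z_cdd {A : Finset V} {v x y z w : V} (h : Bad G A v x y z w)
    (nxy : ¬ G.Adj x y) {S T U : Finset V}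
    (hS : Blk G A v x y S) (hT : Blk G A v x z T) (hU : Blk G A v y z U)
    (h1 : F G S ≤ 1) (h4 : T.card = 5) (h5 : U.card = 5) : False := by
  have e1 : S ∩ U = {y} := z_one h.swap12 hS.symm hU h1 h5
  have e2 : S ∩ T = {x} := z_one h hS hT h1 h4
  have e3 : S ∩ (T ∪ U) = {x, y} := by
    rw [inter_union_distrib_left, e1, e2]; rfl
  have s1 := F_sm G T U
  have s2 := F_sm G S (T ∪ U)
  have i1 : 0 ≤ F G (T ∩ U) := F_nonneg G h.cls (inter_subset_left.trans hT.1)
    ⟨z, mem_inter.2 ⟨hT.2.2.2.1, hU.2.2.2.1⟩⟩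
  have i2 := z_pair h.ij nxy
  have i3 : 1 ≤ F G (S ∪ (T ∪ U)) := by
    refine h.three (union_subset hS.1 (union_subset hT.1 hU.1)) ?_ ?_ ?_ ?_
    · simp only [mem_union, not_or]; exact ⟨hS.2.1, hT.2.1, hU.2.1⟩
    · exact mem_union_left _ hS.2.2.1
    · exact mem_union_left _ hS.2.2.2.1
    · exact mem_union_right _ (mem_union_left _ hT.2.2.2.1)
  rw [e3] at s2
  have := hU.2.2.2.2.1
  have := hT.2.2.2.2.1
  omega

/-- Types agree on a triple. -/
private theorem z_tri {A : Finset V} {v x y z w : V} (h : Bad G A v x y z w)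
    (nxy : ¬ G.Adj x y) (nxz : ¬ G.Adj x z) {S T U : Finset V}
    (hS : Blk G A v x y S) (hT : Blk G A v x z T) (hU : Blk G A v y z U)
    (h1 : F G S ≤ 1) : F G T ≤ 1 := by
  rcases hT.2.2.2.2.2 with h2 | h2
  · exact h2
  · exfalso
    rcases hU.2.2.2.2.2 with h3 | h3
    · exact z_ccd h.swap12 nxz hS.symm hU hT h1 h3 h2
    · exact z_cdd h nxy hS hT hU h1 h2 h3

/-- The general statement for type C. -/
private theorem z_gen {A : Finset V} {v x y z w : V} (h : Bad G A v x y z w)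
    {S T W : Finset V} (hSA : S ⊆ A) (hTA : T ⊆ A) (hWA : W ⊆ A) (vS : v ∉ S) (vT : v ∉ T)
    (vW : v ∉ W) (xS : x ∈ S) (yS : y ∈ S) (xT : x ∈ T) (zT : z ∈ T) (xW : x ∈ W) (wW : w ∈ W)
    (h1 : F G S ≤ 1) (h2 : F G T ≤ 1) (h3 : F G W ≤ 1) :
    F G S = 1 ∧ F G (S ∪ T) = 2 ∧ F G (S ∩ T) = 0 ∧ cr G (S \ T) (T \ S) = 0 := by
  have s1 := F_sm G S T
  have s2 := F_sm G (S ∪ T) W
  have i1 : 0 ≤ F G (S ∩ T) := F_nonneg G h.cls (inter_subset_left.trans hSA)
    ⟨x, mem_inter.2 ⟨xS, xT⟩⟩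
  have i2 : 0 ≤ F G ((S ∪ T) ∩ W) := F_nonneg G h.cls (inter_subset_right.trans hWA)
    ⟨x, mem_inter.2 ⟨mem_union_left _ xS, xW⟩⟩
  have i3 : 3 ≤ F G (S ∪ T ∪ W) := by
    refine h.four (union_subset (union_subset hSA hTA) hWA) ?_ ?_ ?_ ?_ ?_
    · simp only [mem_union, not_or]; exact ⟨⟨vS, vT⟩, vW⟩
    · exact mem_union_left _ (mem_union_left _ xS)
    · exact mem_union_left _ (mem_union_left _ yS)
    · exact mem_union_left _ (mem_union_right _ zT)
    · exact mem_union_right _ wW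
  refine ⟨?_, ?_, ?_, ?_⟩ <;> omega

/-- Six type C sets. -/
private theorem z_C {A : Finset V} {v x y z w : V} (h : Bad G A v x y z w)
    {S T U W R Q : Finset V}
    (hS : Blk G A v x y S) (hT : Blk G A v x z T) (hU : Blk G A v y z U)
    (hW : Blk G A v x w W) (hR : Blk G A v y w R) (hQ : Blk G A v z w Q)
    (fS : F G S ≤ 1) (fT : F G T ≤ 1) (fU : F G U ≤ 1) (fW : F G W ≤ 1) (fR : F G R ≤ 1)
    (fQ : F G Q ≤ 1) : False := by
  obtain ⟨SA, vS, xS, yS, -, -⟩ := hS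
  obtain ⟨TA, vT, xT, zT, -, -⟩ := hT
  obtain ⟨UA, vU, yU, zU, -, -⟩ := hU
  obtain ⟨WA, vW, xW, wW, -, -⟩ := hW
  obtain ⟨RA, vR, yR, wR, -, -⟩ := hR
  obtain ⟨QA, vQ, zQ, wQ, -, -⟩ := hQ
  obtain ⟨-, a2, a3, a4⟩ := z_gen h SA TA WA vS vT vW xS yS xT zT xW wW fS fT fW
  obtain ⟨-, -, b3, b4⟩ := z_gen h.swap12 SA UA RA vS vU vR yS xS yU zU yR wR fS fU fR
  obtain ⟨-, -, c3, c4⟩ := z_gen h.swap23.swap12 TA UA QA vT vU vQ zT xT zU yU zQ wQ fT fU fQ
  -- the triple intersection is empty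
  have tri : ∀ a, a ∈ S → a ∈ T → a ∉ U := by
    intro a aS aT aU
    have s1 := F_sm G (S ∩ T) (S ∩ U)
    have i1 : 0 ≤ F G ((S ∩ T) ∩ (S ∩ U)) := F_nonneg G h.cls
      ((inter_subset_left.trans inter_subset_left).trans SA)
      ⟨a, by simp only [mem_inter]; exact ⟨⟨aS, aT⟩, aS, aU⟩⟩
    have i2 : F G ((S ∩ T) ∪ (S ∩ U)) ≤ 0 := by omega
    have := z_gen h (S := (S ∩ T) ∪ (S ∩ U)) (T := T) (W := W)
      (union_subset (inter_subset_left.trans SA) (inter_subset_left.trans SA)) TA WA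
      (by simp only [mem_union, mem_inter]; tauto) vT vW
      (by simp only [mem_union, mem_inter]; tauto) (by simp only [mem_union, mem_inter]; tauto)
      xT zT xW wW (by omega) fT fW
    omega
  have e1 : (S ∩ U) ∩ (T ∩ U) = ∅ := by
    rw [eq_empty_iff_forall_notMem]
    intro a ha
    simp only [mem_inter] at ha
    exact tri a ha.1.1 ha.2.1 ha.1.2
  have c0 : cr G ((S ∩ U) \ (T ∩ U)) ((T ∩ U) \ (S ∩ U)) = 0 := by
    have : cr G ((S ∩ U) \ (T ∩ U)) ((T ∩ U) \ (S ∩ U)) ≤ cr G (S \ T) (T \ S) := by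
      refine cr_mono G ?_ ?_
      · intro a; simp only [mem_sdiff, mem_inter]; tauto
      · intro a; simp only [mem_sdiff, mem_inter]; tauto
    omega
  have s2 := F_sm G (S ∩ U) (T ∩ U)
  rw [e1, F_empty, c0] at s2
  have s3 := F_sm G (S ∪ T) U
  rw [union_inter_distrib_right] at s3
  have i3 : 1 ≤ F G (S ∪ T ∪ U) := by
    refine h.three (union_subset (union_subset SA TA) UA) ?_ ?_ ?_ ?_
    · simp only [mem_union, not_or]; exact ⟨⟨vS, vT⟩, vU⟩
    · exact mem_union_left _ (mem_union_left _ xS)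
    · exact mem_union_right _ yU
    · exact mem_union_right _ zU
  push_cast at s2
  omega

/-- Type D sets are complete except for the pair `x`, `y`. -/
private theorem z_adj {S : Finset V} {x y a b : V} (hx : x ∈ S) (hy : y ∈ S) (hxy : x ≠ y)
    (n : ¬ G.Adj x y) (h5 : S.card = 5) (hF : F G S ≤ 2) (ha : a ∈ S) (hb : b ∈ S) (hab : a ≠ b)
    (hax : a ≠ x) (hay : a ≠ y) : G.Adj a b := by
  classical
  have hc : (S.erase a).card = 4 := by rw [card_erase_of_mem ha]; omega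
  have h1 := F_insert G (S := S.erase a) (x := a) (notMem_erase a S)
  rw [insert_erase ha] at h1
  have h2 := F_small_nonadj G (S := S.erase a) (mem_erase.2 ⟨hax.symm, hx⟩)
    (mem_erase.2 ⟨hay.symm, hy⟩) hxy n (by omega)
  have h3 : 4 ≤ cr G {a} (S.erase a) := by omega
  have h4 : cr G {a} (S.erase a) = ((S.erase a).filter fun t => G.Adj a t).card := by
    unfold cr
    rw [sum_singleton]
  rw [h4] at h3
  have h6 : (S.erase a).filter (fun t => G.Adj a t) = S.erase a :=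
    eq_of_subset_of_card_le (filter_subset _ _) (by omega)
  have h7 : b ∈ (S.erase a).filter (fun t => G.Adj a t) := by
    rw [h6]; exact mem_erase.2 ⟨hab.symm, hb⟩
  exact (mem_filter.1 h7).2

/-- A third and fourth member. -/
private theorem z_more {S : Finset V} {x y : V} (h5 : S.card = 5) :
    ∃ a b, a ∈ S ∧ b ∈ S ∧ a ≠ b ∧ a ≠ x ∧ a ≠ y ∧ b ≠ x ∧ b ≠ y := by
  have h1 : 1 < ((S.erase x).erase y).card := by
    have a1 := pred_card_le_card_erase (s := S) (a := x)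
    have a2 := pred_card_le_card_erase (s := S.erase x) (a := y)
    omega
  obtain ⟨a, ha, b, hb, hab⟩ := one_lt_card.1 h1
  simp only [mem_erase] at ha hb
  exact ⟨a, b, ha.2.2, hb.2.2, hab, ha.2.1, ha.1, hb.2.1, hb.1⟩

/-- `F Y <= 1`. -/
private theorem z_Y {A : Finset V} {v x y z w : V} (h : Bad G A v x y z w)
    (nyz : ¬ G.Adj y z) {S T U : Finset V}
    (hS : Blk G A v x y S) (hT : Blk G A v x z T) (hU : Blk G A v y z U)
    (cS : S.card = 5) (cT : T.card = 5) (cU : U.card = 5) : F G (S ∪ T ∪ U) ≤ 1 := by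
  have zS : z ∉ S := claim1 h hS
  have yT : y ∉ T := claim1 h.swap23 hT
  have xU : x ∉ U := claim1 h.swap12.swap23 hU
  obtain ⟨SA, vS, xS, yS, fS, -⟩ := hS
  obtain ⟨TA, vT, xT, zT, fT, -⟩ := hT
  obtain ⟨UA, vU, yU, zU, fU, -⟩ := hU
  have s1 := F_sm G S T
  have s2 := F_sm G (S ∪ T) U
  have i0 : 1 ≤ F G (S ∪ T) := by
    refine h.three (union_subset SA TA) ?_ ?_ ?_ ?_
    · simp only [mem_union, not_or]; exact ⟨vS, vT⟩
    · exact mem_union_left _ xS
    · exact mem_union_left _ yS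
    · exact mem_union_right _ zT
  have i3 : 1 ≤ F G (S ∪ T ∪ U) := by
    refine h.three (union_subset (union_subset SA TA) UA) ?_ ?_ ?_ ?_
    · simp only [mem_union, not_or]; exact ⟨⟨vS, vT⟩, vU⟩
    · exact mem_union_left _ (mem_union_left _ xS)
    · exact mem_union_right _ yU
    · exact mem_union_right _ zU
  have i1 : 0 ≤ F G (S ∩ T) := F_nonneg G h.cls (inter_subset_left.trans SA)
    ⟨x, mem_inter.2 ⟨xS, xT⟩⟩
  have hlt : (S ∩ T).card < T.card := by
    refine card_lt_card ⟨inter_subset_right, fun hc => zS ?_⟩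
    exact (mem_inter.1 (hc zT)).1
  by_cases hXU : ((S ∪ T) ∩ U).card ≤ 4
  · have i2 := F_small_nonadj G (S := (S ∪ T) ∩ U) (i := y) (j := z)
      (mem_inter.2 ⟨mem_union_left _ yS, yU⟩) (mem_inter.2 ⟨mem_union_right _ zT, zU⟩) h.jk nyz hXU
    omega
  · have hUX : U ⊆ S ∪ T := by
      have : (S ∪ T) ∩ U = U := eq_of_subset_of_card_le inter_subset_right (by omega)
      rw [← this]; exact inter_subset_left
    by_cases hc : 2 ≤ (S ∩ T).card
    · have i2 := F_small G (S := S ∩ T) hc (by omega)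
      rw [union_eq_left.2 hUX]
      omega
    · exfalso
      have h1c : (S ∩ T).card = 1 := by
        have : 0 < (S ∩ T).card := card_pos.2 ⟨x, mem_inter.2 ⟨xS, xT⟩⟩
        omega
      have eI : ∀ a, a ∈ S → a ∈ T → a = x := by
        intro a aS aT
        obtain ⟨c, hc⟩ := card_eq_one.1 h1c
        have e1 : a ∈ S ∩ T := mem_inter.2 ⟨aS, aT⟩
        have e2 : x ∈ S ∩ T := mem_inter.2 ⟨xS, xT⟩
        rw [hc, mem_singleton] at e1 e2
        rw [e1, e2]
      obtain ⟨a, b, aU, bU, hab, hay, haz, hby, hbz⟩ := z_more (x := y) (y := z) cU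
      have hax : a ≠ x := fun e => xU (e ▸ aU)
      have hbx : b ≠ x := fun e => xU (e ▸ bU)
      have ady : G.Adj a y := z_adj yU zU h.jk nyz cU fU aU yU hay hay haz
      have adz : G.Adj a z := z_adj yU zU h.jk nyz cU fU aU zU haz hay haz
      have bdy : G.Adj b y := z_adj yU zU h.jk nyz cU fU bU yU hby hby hbz
      have bdz : G.Adj b z := z_adj yU zU h.jk nyz cU fU bU zU hbz hby hbz
      have yST : y ∈ S \ T := mem_sdiff.2 ⟨yS, yT⟩
      have zTS : z ∈ T \ S := mem_sdiff.2 ⟨zT, zS⟩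
      have dich : ∀ c, c ∈ U → c ≠ x → c ∈ S \ T ∨ c ∈ T \ S := by
        intro c cU cx
        have := hUX cU
        simp only [mem_union, mem_sdiff] at this ⊢
        by_cases c1 : c ∈ S
        · by_cases c2 : c ∈ T
          · exact absurd (eI c c1 c2) cx
          · exact Or.inl ⟨c1, c2⟩
        · rcases this with h' | h'
          · exact absurd h' c1
          · exact Or.inr ⟨h', c1⟩
      have hcr : 2 ≤ cr G (S \ T) (T \ S) := by
        rcases dich a aU hax with ha | ha <;> rcases dich b bU hbx with hb | hb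
        · exact cr_two G ha zTS adz hb zTS bdz (Or.inl hab)
        · exact cr_two G ha zTS adz yST hb bdy.symm (Or.inl hay)
        · exact cr_two G yST ha ady.symm hb zTS bdz (Or.inl (Ne.symm hby))
        · exact cr_two G yST ha ady.symm yST hb bdy.symm (Or.inr hab)
      omega

/-- Six type D sets. -/
private theorem z_D {A : Finset V} {v x y z w : V} (h : Bad G A v x y z w)
    (nyz : ¬ G.Adj y z) (nyw : ¬ G.Adj y w)
    {S T U W R : Finset V}
    (hS : Blk G A v x y S) (hT : Blk G A v x z T) (hU : Blk G A v y z U)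
    (hW : Blk G A v x w W) (hR : Blk G A v y w R)
    (cS : S.card = 5) (cT : T.card = 5) (cU : U.card = 5) (cW : W.card = 5) (cR : R.card = 5) :
    False := by
  have hY := z_Y h nyz hS hT hU cS cT cU
  have wS : w ∉ S := claim1 h.swap34 hS
  have wT : w ∉ T := claim1 h.swap23.swap34 hT
  have wU : w ∉ U := claim1 h.swap12.swap23.swap34 hU
  have yW : y ∉ W := claim1 h.swap34.swap23 hW
  have xR : x ∉ R := claim1 h.swap12.swap34.swap23 hR
  obtain ⟨SA, vS, xS, yS, fS, -⟩ := hS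
  obtain ⟨TA, vT, xT, zT, fT, -⟩ := hT
  obtain ⟨UA, vU, yU, zU, fU, -⟩ := hU
  obtain ⟨WA, vW, xW, wW, fW, -⟩ := hW
  obtain ⟨RA, vR, yR, wR, fR, -⟩ := hR
  obtain ⟨Y, eY⟩ : ∃ Y, Y = S ∪ T ∪ U := ⟨_, rfl⟩
  rw [← eY] at hY
  have YA : Y ⊆ A := by rw [eY]; exact union_subset (union_subset SA TA) UA
  have vY : v ∉ Y := by rw [eY]; simp only [mem_union, not_or]; exact ⟨⟨vS, vT⟩, vU⟩
  have xY : x ∈ Y := by rw [eY]; exact mem_union_left _ (mem_union_left _ xS)
  have yY : y ∈ Y := by rw [eY]; exact mem_union_left _ (mem_union_left _ yS)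
  have zY : z ∈ Y := by rw [eY]; exact mem_union_right _ zU
  have wY : w ∉ Y := by rw [eY]; simp only [mem_union, not_or]; exact ⟨⟨wS, wT⟩, wU⟩
  clear eY
  have s1 := F_sm G Y W
  have s2 := F_sm G (Y ∪ W) R
  have i1 : 0 ≤ F G (Y ∩ W) := F_nonneg G h.cls (inter_subset_left.trans YA)
    ⟨x, mem_inter.2 ⟨xY, xW⟩⟩
  have i3 : 3 ≤ F G (Y ∪ W) := by
    refine h.four (union_subset YA WA) ?_ ?_ ?_ ?_ ?_
    · simp only [mem_union, not_or]; exact ⟨vY, vW⟩
    · exact mem_union_left _ xY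
    · exact mem_union_left _ yY
    · exact mem_union_left _ zY
    · exact mem_union_right _ wW
  have i4 : 3 ≤ F G (Y ∪ W ∪ R) := by
    refine h.four (union_subset (union_subset YA WA) RA) ?_ ?_ ?_ ?_ ?_
    · simp only [mem_union, not_or]; exact ⟨⟨vY, vW⟩, vR⟩
    · exact mem_union_left _ (mem_union_left _ xY)
    · exact mem_union_left _ (mem_union_left _ yY)
    · exact mem_union_left _ (mem_union_left _ zY)
    · exact mem_union_left _ (mem_union_right _ wW)
  have c0 : cr G (Y \ W) (W \ Y) = 0 := by omega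
  have hlt : (Y ∩ W).card < W.card := by
    refine card_lt_card ⟨inter_subset_right, fun hc => wY ?_⟩
    exact (mem_inter.1 (hc wW)).1
  have h1c : (Y ∩ W).card = 1 := by
    have : 0 < (Y ∩ W).card := card_pos.2 ⟨x, mem_inter.2 ⟨xY, xW⟩⟩
    by_contra hc
    have := F_small G (S := Y ∩ W) (by omega) (by omega)
    omega
  have eI : ∀ a, a ∈ Y → a ∈ W → a = x := by
    intro a aS aT
    obtain ⟨c, hc⟩ := card_eq_one.1 h1c
    have e1 : a ∈ Y ∩ W := mem_inter.2 ⟨aS, aT⟩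
    have e2 : x ∈ Y ∩ W := mem_inter.2 ⟨xY, xW⟩
    rw [hc, mem_singleton] at e1 e2
    rw [e1, e2]
  have hRZ : R ⊆ Y ∪ W := by
    by_cases hc : ((Y ∪ W) ∩ R).card ≤ 4
    · exfalso
      have := F_small_nonadj G (S := (Y ∪ W) ∩ R) (i := y) (j := w)
        (mem_inter.2 ⟨mem_union_left _ yY, yR⟩) (mem_inter.2 ⟨mem_union_right _ wW, wR⟩) h.jl nyw hc
      omega
    · have : (Y ∪ W) ∩ R = R := eq_of_subset_of_card_le inter_subset_right (by omega)
      rw [← this]; exact inter_subset_left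
  obtain ⟨a, -, aR, -, -, hay, haw, -, -⟩ := z_more (x := y) (y := w) cR
  have hax : a ≠ x := fun e => xR (e ▸ aR)
  have ady : G.Adj a y := z_adj yR wR h.jl nyw cR fR aR yR hay hay haw
  have adw : G.Adj a w := z_adj yR wR h.jl nyw cR fR aR wR haw hay haw
  by_cases aY : a ∈ Y
  · have aW : a ∉ W := fun c => hax (eI a aY c)
    have := cr_one G (S := Y \ W) (T := W \ Y) (mem_sdiff.2 ⟨aY, aW⟩) (mem_sdiff.2 ⟨wW, wY⟩) adw
    omega
  · have aW : a ∈ W := by
      rcases mem_union.1 (hRZ aR) with h' | h'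
      · exact absurd h' aY
      · exact h'
    have := cr_one G (S := Y \ W) (T := W \ Y) (mem_sdiff.2 ⟨yY, yW⟩) (mem_sdiff.2 ⟨aW, aY⟩)
      ady.symm
    omega

theorem caseZ {A : Finset V} {v i j k l : V} (h : Bad G A v i j k l) (nij : ¬ G.Adj i j)
    (nik : ¬ G.Adj i k) (nil : ¬ G.Adj i l) (njk : ¬ G.Adj j k) (njl : ¬ G.Adj j l)
    (nkl : ¬ G.Adj k l) : False := by
  have nji : ¬ G.Adj j i := fun c => nij c.symm
  have nki : ¬ G.Adj k i := fun c => nik c.symm
  have nli : ¬ G.Adj l i := fun c => nil c.symm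
  have nkj : ¬ G.Adj k j := fun c => njk c.symm
  have nlj : ¬ G.Adj l j := fun c => njl c.symm
  have nlk : ¬ G.Adj l k := fun c => nkl c.symm
  obtain ⟨S, hS⟩ := h.bij nij
  obtain ⟨T, hT⟩ := h.bik nik
  obtain ⟨W, hW⟩ := h.bil nil
  obtain ⟨U, hU⟩ := h.bjk njk
  obtain ⟨R, hR⟩ := h.bjl njl
  obtain ⟨Q, hQ⟩ := h.bkl nkl
  by_cases f : F G S ≤ 1
  · have fT : F G T ≤ 1 := z_tri h nij nik hS hT hU f
    have fU : F G U ≤ 1 := z_tri h.swap12 nji njk hS.symm hU hT f
    have fW : F G W ≤ 1 := z_tri h.swap34 nij nil hS hW hR f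
    have fR : F G R ≤ 1 := z_tri h.swap34.swap12 nji njl hS.symm hR hW f
    have fQ : F G Q ≤ 1 := z_tri h.swap23.swap12.swap34 nki nkl hT.symm hQ hW fT
    exact z_C h hS hT hU hW hR hQ f fT fU fW fR fQ
  · have cd : ∀ {a b : V} {X : Finset V}, Blk G A v a b X → ¬ F G X ≤ 1 → X.card = 5 := by
      intro a b X hX hn
      rcases hX.2.2.2.2.2 with h' | h'
      · exact absurd h' hn
      · exact h'
    have fT : ¬ F G T ≤ 1 := fun c => f (z_tri h.swap23 nik nij hT hS hU.symm c)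
    have fU : ¬ F G U ≤ 1 := fun c => f (z_tri h.swap12.swap23 njk nji hU hS.symm hT.symm c)
    have fW : ¬ F G W ≤ 1 := fun c => f (z_tri h.swap34.swap23 nil nij hW hS hR.symm c)
    have fR : ¬ F G R ≤ 1 :=
      fun c => f (z_tri h.swap12.swap34.swap23 njl nji hR hS.symm hW.symm c)
    exact z_D h njk njl hS hT hU hW hR (cd hS f) (cd hT fT) (cd hU fU) (cd hW fW) (cd hR fR)

end Pool.Agent.TBS
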