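import Pool.Agent.TBS.X
import Pool.Agent.TBS.Y
import Pool.Agent.TBS.Z

/-!
# The reduction of a sparse graph

A graph of the class has a vertex `v` with at most four neighbours; if it has exactly four, two of
them are not adjacent, and joining them after the deletion of `v` stays in the class
(`exists_pair`).  `Red A G`: the graph `G` on `A` can be reduced to the empty graph in this way.
-/

set_option autoImplicit false

namespace Pool.Agent.TBS

open Finset

variable {V : Type} [DecidableEq V] {G : SimpleGraph V}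

theorem cX {A : Finset V} {v i j k l : V} (h : Bad G A v i j k l) :
    ¬ (G.Adj l i ∧ G.Adj l j) ∧ ¬ (G.Adj l i ∧ G.Adj l k) ∧ ¬ (G.Adj l j ∧ G.Adj l k) :=
  ⟨fun a => caseX h a.1 a.2, fun a => caseX h.swap23 a.1 a.2,
    fun a => caseX h.swap12.swap23 a.1 a.2⟩

theorem no_bad {A : Finset V} {v i j k l : V} (h : Bad G A v i j k l) : False := by
  have hl := cX h
  have hk := cX h.swap34
  have hj := cX h.swap23.swap34
  have hi := cX h.swap12.swap23.swap34
  by_cases ij : G.Adj i j
  · exact caseY h ij (fun c => hi.1 ⟨ij, c⟩) (fun c => hi.2.1 ⟨ij, c⟩)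
      (fun c => hj.1 ⟨ij.symm, c⟩) (fun c => hj.2.1 ⟨ij.symm, c⟩)
  by_cases ik : G.Adj i k
  · exact caseY h.swap23 ik ij (fun c => hi.2.2 ⟨ik, c⟩)
      (fun c => hk.1 ⟨ik.symm, c⟩) (fun c => hk.2.1 ⟨ik.symm, c⟩)
  by_cases il : G.Adj i l
  · exact caseY h.swap34.swap23 il ij ik
      (fun c => hl.1 ⟨il.symm, c⟩) (fun c => hl.2.1 ⟨il.symm, c⟩)
  by_cases jk : G.Adj j k
  · exact caseY h.swap12.swap23 jk (fun c => ij c.symm) (fun c => hj.2.2 ⟨jk, c⟩)
      (fun c => ik c.symm) (fun c => hk.2.2 ⟨jk.symm, c⟩)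
  by_cases jl : G.Adj j l
  · exact caseY h.swap12.swap34.swap23 jl (fun c => ij c.symm) jk
      (fun c => il c.symm) (fun c => hl.2.2 ⟨jl.symm, c⟩)
  by_cases kl : G.Adj k l
  · exact caseY h.swap23.swap12.swap34.swap23 kl (fun c => ik c.symm) (fun c => jk c.symm)
      (fun c => il c.symm) (fun c => jl c.symm)
  exact caseZ h ij ik il jk jl kl

theorem twoE_eq_card (G : SimpleGraph V) (S : Finset V) :
    twoE G S = (open Classical in
      ((S ×ˢ S).filter fun p : V × V => G.Adj p.1 p.2).card) := by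
  classical
  unfold twoE cr
  rw [card_filter, sum_product]
  refine sum_congr rfl fun a _ => ?_
  rw [card_filter]

theorem twoE_sup_edge_le (G : SimpleGraph V) (s t : V) (S : Finset V) :
    twoE (G ⊔ SimpleGraph.edge s t) S ≤ twoE G S + 2 := by
  classical
  rw [twoE_eq_card, twoE_eq_card]
  calc _ ≤ (((S ×ˢ S).filter fun p : V × V => G.Adj p.1 p.2) ∪ {(s, t), (t, s)}).card := by
        refine card_le_card fun p hp => ?_
        simp only [mem_filter, SimpleGraph.sup_adj, SimpleGraph.edge_adj] at hp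
        simp only [mem_union, mem_filter, mem_insert, mem_singleton]
        obtain ⟨h1, h2 | ⟨h2 | h2, -⟩⟩ := hp
        · exact Or.inl ⟨h1, h2⟩
        · right; left; ext <;> simp [h2]
        · right; right; ext <;> simp [h2]
    _ ≤ _ := by
        refine (card_union_le _ _).trans ?_
        have : ({(s, t), (t, s)} : Finset (V × V)).card ≤ 2 := card_le_two
        omega

theorem twoE_sup_edge_of (G : SimpleGraph V) (s t : V) (S : Finset V) (h : ¬ (s ∈ S ∧ t ∈ S)) :
    twoE (G ⊔ SimpleGraph.edge s t) S = twoE G S := by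
  classical
  rw [twoE_eq_card, twoE_eq_card]
  congr 1
  ext p
  simp only [mem_filter, SimpleGraph.sup_adj, SimpleGraph.edge_adj, mem_product]
  constructor
  · rintro ⟨h1, h2 | ⟨h2 | h2, -⟩⟩
    · exact ⟨h1, h2⟩
    · exact absurd ⟨h2.1 ▸ h1.1, h2.2 ▸ h1.2⟩ h
    · exact absurd ⟨h2.2 ▸ h1.2, h2.1 ▸ h1.1⟩ h
  · rintro ⟨h1, h2⟩
    exact ⟨h1, Or.inl h2⟩

/-- If adding the edge `st` leaves the class, the pair is blocked. -/
theorem blk_of_not {A : Finset V} (hc : Cls A G) {v s t : V}
    (h : ¬ Cls (A.erase v) (G ⊔ SimpleGraph.edge s t)) : ∃ S, Blk G A v s t S := by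
  unfold Cls at h
  push Not at h
  obtain ⟨S, hS, hne, h⟩ := h
  have hSA : S ⊆ A := hS.trans (erase_subset _ _)
  have hv : v ∉ S := fun hv => (mem_erase.1 (hS hv)).1 rfl
  have hcS := hc S hSA hne
  by_cases hst : s ∈ S ∧ t ∈ S
  · refine ⟨S, hSA, hv, hst.1, hst.2, ?_⟩
    have h2 := twoE_sup_edge_le G s t S
    by_cases h5 : twoE (G ⊔ SimpleGraph.edge s t) S + 5 ≤ 5 * S.card
    · obtain ⟨h6, h7⟩ := h h5
      unfold F
      rw [h6]
      constructor
      · push_cast; omega
      · right; trivial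
    · have : F G S ≤ 1 := by unfold F; omega
      exact ⟨by omega, Or.inl this⟩
  · rw [twoE_sup_edge_of G s t S hst] at h
    have := h hcS.1
    have h6 := hcS.2 this.1
    omega

/-- A vertex with four neighbours can be replaced by an edge between two of them. -/
theorem exists_pair {A : Finset V} (hc : Cls A G) {v : V} (hv : v ∈ A) (h4 : cr G {v} A = 4) :
    ∃ s ∈ A, ∃ t ∈ A, s ≠ t ∧ G.Adj v s ∧ G.Adj v t ∧ ¬ G.Adj s t ∧
      Cls (A.erase v) (G ⊔ SimpleGraph.edge s t) := by
  classical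
  by_contra hcon
  push Not at hcon
  have h4' : (A.filter fun y => G.Adj v y).card = 4 := by
    have : cr G {v} A = (A.filter fun y => G.Adj v y).card := by
      unfold cr; rw [sum_singleton]
    omega
  obtain ⟨i, T, hiT, hT, hT3⟩ := card_eq_succ.1 h4'
  obtain ⟨j, k, l, hjk, hjl, hkl, rfl⟩ := card_eq_three.1 hT3
  have hm : ∀ x, x ∈ insert i ({j, k, l} : Finset V) → x ∈ A ∧ G.Adj v x := by
    intro x hx
    rw [hT] at hx
    exact mem_filter.1 hx
  have mi := hm i (by simp)
  have mj := hm j (by simp)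
  have mk := hm k (by simp)
  have ml := hm l (by simp)
  simp only [mem_insert, mem_singleton, not_or] at hiT
  exact no_bad (G := G) (A := A) (v := v) (i := i) (j := j) (k := k) (l := l)
    { cls := hc, hv := hv, hi := mi.1, hj := mj.1, hk := mk.1, hl := ml.1, ij := hiT.1, ik := hiT.2.1, il := hiT.2.2, jk := hjk, jl := hjl
      kl := hkl, ai := mi.2, aj := mj.2, ak := mk.2, al := ml.2
      bij := fun a => blk_of_not hc (hcon i mi.1 j mj.1 hiT.1 mi.2 mj.2 a)
      bik := fun a => blk_of_not hc (hcon i mi.1 k mk.1 hiT.2.1 mi.2 mk.2 a)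
      bil := fun a => blk_of_not hc (hcon i mi.1 l ml.1 hiT.2.2 mi.2 ml.2 a)
      bjk := fun a => blk_of_not hc (hcon j mj.1 k mk.1 hjk mj.2 mk.2 a)
      bjl := fun a => blk_of_not hc (hcon j mj.1 l ml.1 hjl mj.2 ml.2 a)
      bkl := fun a => blk_of_not hc (hcon k mk.1 l ml.1 hkl mk.2 ml.2 a) }

/-- Reducible graphs. -/
inductive Red : Finset V → SimpleGraph V → Prop
  | empty (G : SimpleGraph V) : Red ∅ G
  | del (A : Finset V) (G : SimpleGraph V) (v : V) (hv : v ∈ A) (hd : cr G {v} A ≤ 3)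
      (h : Red (A.erase v) G) : Red A G
  | split (A : Finset V) (G : SimpleGraph V) (v s t : V) (hv : v ∈ A) (hs : s ∈ A) (ht : t ∈ A)
      (hst : s ≠ t) (as : G.Adj v s) (at_ : G.Adj v t) (nst : ¬ G.Adj s t)
      (hd : cr G {v} A = 4) (h : Red (A.erase v) (G ⊔ SimpleGraph.edge s t)) : Red A G

theorem exists_deg_le {A : Finset V} (hc : Cls A G) (hA : A.Nonempty) :
    ∃ v ∈ A, cr G {v} A ≤ 4 := by
  by_contra hcon
  push Not at hcon
  have h1 := (hc A Subset.rfl hA).1
  have h2 : 5 * A.card ≤ twoE G A := by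
    unfold twoE cr
    rw [mul_comm, ← smul_eq_mul]
    refine card_nsmul_le_sum _ _ _ fun v hv => ?_
    have := hcon v hv
    unfold cr at this
    rw [sum_singleton] at this
    omega
  omega

theorem red_of_cls : ∀ (n : ℕ) (A : Finset V) (G : SimpleGraph V), A.card = n → Cls A G →
    Red A G := by
  intro n
  induction n with
  | zero =>
    intro A G hA _
    rw [card_eq_zero.1 hA]
    exact Red.empty G
  | succ n ih =>
    intro A G hA hc
    have hne : A.Nonempty := by rw [← card_pos]; omega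
    obtain ⟨v, hv, hd⟩ := exists_deg_le hc hne
    have hcard : (A.erase v).card = n := by rw [card_erase_of_mem hv]; omega
    by_cases h3 : cr G {v} A ≤ 3
    · refine Red.del A G v hv h3 (ih _ _ hcard ?_)
      intro S hS hSne
      exact hc S (hS.trans (erase_subset _ _)) hSne
    · obtain ⟨s, hs, t, ht, hst, as, at_, nst, hc'⟩ := exists_pair hc hv (by omega)
      exact Red.split A G v s t hv hs ht hst as at_ nst (by omega) (ih _ _ hcard hc')

end Pool.Agent.TBS
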