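import Pool.Agent.TBS.Top
import Pool.Agent.TBS.GdOri

/-!
# Good labellings of graphs which are reducible to a graph with a sparse orientation

`RedO A G`: the graph `G` on `A` can be reduced to a graph with a sparse orientation (`OriOn`) by
deleting vertices with at most three neighbours and by replacing vertices with four neighbours by an
edge between two non-adjacent neighbours.
-/

set_option autoImplicit false

namespace Pool.Agent.TBS

open Finset

/-- The graph `G` on `A` is reducible to a graph with a sparse orientation. -/
inductive RedO {V : Type} [DecidableEq V] : Finset V → SimpleGraph V → Prop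
  | base (A : Finset V) (G : SimpleGraph V) (h : OriOn G A) : RedO A G
  | del (A : Finset V) (G : SimpleGraph V) (v : V) (hv : v ∈ A) (hd : cr G {v} A ≤ 3)
      (h : RedO (A.erase v) G) : RedO A G
  | split (A : Finset V) (G : SimpleGraph V) (v s t : V) (hv : v ∈ A) (hs : s ∈ A) (ht : t ∈ A)
      (hst : s ≠ t) (as : G.Adj v s) (at_ : G.Adj v t) (nst : ¬ G.Adj s t) (hd : cr G {v} A = 4)
      (h : RedO (A.erase v) (G ⊔ SimpleGraph.edge s t)) : RedO A G

variable {V : Type} [Fintype V] [DecidableEq V]

theorem mainO {A : Finset V} {G : SimpleGraph V} (hR : RedO A G) :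
    ∀ m re, Sl A G m re → ∃ lam, Gd A m re lam := by
  classical
  induction hR with
  | base A G h =>
    intro m re hs
    exact gd_of_ori hs h
  | del A G v hv hd _ ih =>
    intro m re hs
    have hcard : (univ.filter fun i : Fin 6 => re (v, i)).card ≤ 3 := by
      have := real_card hs hv
      convert hd using 1
    obtain ⟨π, n, hn, h1, h2, h3⟩ := arr3 (lp m v) (lp_lp hs hv)
      (univ.filter fun i : Fin 6 => re (v, i)) (fun i hi => lp_re hs hv (mem_filter.1 hi).2) hcard
    obtain ⟨hσ, hord⟩ := arr_pr hs hv π n h1 h2
    set σ : Fin 6 → Fin 6 := fun i => π (sw (π.symm i)) with hσdef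
    have hσπ : ∀ i, σ (π i) = π (sw i) := fun i => by simp [hσdef]
    obtain ⟨lam', hl⟩ := ih _ _ (hs.step hv hσ (P := fun _ => False) (fun _ h => h.elim)
      (fun _ h => h) (fun _ h => h.elim) (G' := G) (fun u _ w _ => by simp))
    have hy : ∀ i : Fin 6, i.val < 2 * n →
        (fun i => lam' (m (v, π i))) (sw i) ≠ (fun i => lam' (m (v, π i))) i := by
      intro i hi
      have := y_ne hs hv hl ((hord i).2 hi)
      rw [hσπ] at this
      exact this
    obtain ⟨g, g1, g2, g3, g4⟩ := lift3 n hn (fun i => lam' (m (v, π i))) hy
    refine ⟨_, Gd.step hs hv hσ (P := fun _ => False) (fun _ h => h.elim) hl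
      (g := fun i => g (π.symm i)) ?_ ?_ ?_ ?_⟩
    · intro a
      rw [card_perm]; exact g1 a
    · intro i hi
      have hi' : (m (v, π (π.symm i))).1 ≠ v := by simpa using hi
      have := g2 (π.symm i) ((hord _).1 hi')
      simpa using this
    · intro i hi
      have hi' : 2 * n ≤ (π.symm i).val := by
        by_contra h5
        exact (hord (π.symm i)).2 (by omega) (by simpa using hi)
      have := g3 (π.symm i) hi'
      simpa [hσdef] using this
    · intro a T
      have hre : ∀ i, re (v, i) → (π.symm i).val < 3 ∧ (π.symm i).val < 2 * n := by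
        intro i hi
        refine ⟨h3 _ (by simpa using hi), (hord _).1 ?_⟩
        have h5 := hs.re_adj (v, i) hv hi
        intro h6
        rw [Equiv.apply_symm_apply] at h6
        rw [h6] at h5
        exact h5.ne rfl
      have c1 : (T.filter fun i => re (v, i) ∧ g (π.symm i) = a).card ≤
          (univ.filter fun i : Fin 6 => i.val < 3 ∧ i.val < 2 * n ∧ g i = a).card := by
        refine card_le_card_of_injOn π.symm ?_ π.symm.injective.injOn
        intro i hi
        have hi' := (mem_filter.1 hi).2
        have h5 := hre i hi'.1
        exact mem_filter.2 ⟨mem_univ _, h5.1, h5.2, hi'.2⟩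
      have c2 : (T.filter fun i => re (v, i) ∧ lam' (m (v, i)) = a).card ≤
          (univ.filter fun i : Fin 6 => i.val < 3 ∧ i.val < 2 * n ∧
            (fun i => lam' (m (v, π i))) i = a).card := by
        refine card_le_card_of_injOn π.symm ?_ π.symm.injective.injOn
        intro i hi
        have hi' := (mem_filter.1 hi).2
        have h5 := hre i hi'.1
        exact mem_filter.2 ⟨mem_univ _, h5.1, h5.2, by simpa using hi'.2⟩
      have := g4 a
      beta_reduce at c1 c2 this ⊢
      omega
  | split A G v s t hv hsA htA hst as at_ nst hd _ ih =>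
    intro m re hs
    have hcard : (univ.filter fun i : Fin 6 => re (v, i)).card = 4 := by
      have := real_card hs hv
      rw [← hd]
      convert this using 1
    obtain ⟨is, his1, his2⟩ := hs.re_ex v hv s hsA as
    obtain ⟨it, hit1, hit2⟩ := hs.re_ex v hv t htA at_
    have hist : is ≠ it := by
      rintro rfl
      exact hst (his1.symm.trans hit1)
    have hrest : (((univ.filter fun i : Fin 6 => re (v, i)).erase is).erase it).card = 2 := by
      rw [card_erase_of_mem, card_erase_of_mem, hcard]
      · simpa using his2
      · simpa [hist.symm] using hit2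
    obtain ⟨p, q, hpq, hpqe⟩ := card_eq_two.1 hrest
    have hp : p ∈ (((univ.filter fun i : Fin 6 => re (v, i)).erase is).erase it) := by
      rw [hpqe]; simp
    have hq : q ∈ (((univ.filter fun i : Fin 6 => re (v, i)).erase is).erase it) := by
      rw [hpqe]; simp
    simp only [mem_erase, mem_filter, mem_univ, true_and] at hp hq
    obtain ⟨π, n, hn, ps, pt, pp, pq, h1, h2⟩ := arr4 (lp m v) (lp_lp hs hv) is it p q hist
      (Ne.symm hp.2.1) (Ne.symm hq.2.1) (Ne.symm hp.1) (Ne.symm hq.1) hpq
      (lp_re hs hv his2) (lp_re hs hv hit2) (lp_re hs hv hp.2.2) (lp_re hs hv hq.2.2)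
    obtain ⟨hσ, hord⟩ := arr_pr hs hv π n h1 h2
    set σ : Fin 6 → Fin 6 := fun i => π (sw (π.symm i)) with hσdef
    have hσπ : ∀ i, σ (π i) = π (sw i) := fun i => by simp [hσdef]
    have hσs : σ is = it := by rw [← ps, hσπ, ← pt]; rfl
    have hσt : σ it = is := by rw [← pt, hσπ, ← ps]; rfl
    have hP1 : ∀ i, (i = is ∨ i = it) → re (v, i) := by
      rintro i (rfl | rfl) <;> assumption
    have hP2 : ∀ i, (i = is ∨ i = it) → (σ i = is ∨ σ i = it) := by
      rintro i (rfl | rfl)
      · right; exact hσs
      · left; exact hσt
    obtain ⟨lam', hl⟩ := ih _ _ (hs.step hv hσ (P := fun i => i = is ∨ i = it) hP1 hP2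
      (by
        rintro i (rfl | rfl)
        · rw [hσs, his1, hit1]; exact nst
        · rw [hσt, his1, hit1]; exact fun h => nst h.symm)
      (G' := G ⊔ SimpleGraph.edge s t) (by
        intro u _ w _
        rw [SimpleGraph.sup_adj, SimpleGraph.edge_adj]
        refine or_congr Iff.rfl ⟨?_, ?_⟩
        · rintro ⟨⟨rfl, rfl⟩ | ⟨rfl, rfl⟩, -⟩
          · exact ⟨is, Or.inl rfl, his1, by rw [hσs]; exact hit1⟩
          · exact ⟨it, Or.inr rfl, hit1, by rw [hσt]; exact his1⟩
        · rintro ⟨i, rfl | rfl, hu, hw⟩
          · rw [hσs, hit1] at hw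
            rw [his1] at hu
            subst hu; subst hw
            exact ⟨Or.inl ⟨rfl, rfl⟩, hst⟩
          · rw [hσt, his1] at hw
            rw [hit1] at hu
            subst hu; subst hw
            exact ⟨Or.inr ⟨rfl, rfl⟩, hst.symm⟩))
    have hy : ∀ i : Fin 6, i.val < 2 * n →
        (fun i => lam' (m (v, π i))) (sw i) ≠ (fun i => lam' (m (v, π i))) i := by
      intro i hi
      have := y_ne hs hv hl ((hord i).2 hi)
      rw [hσπ] at this
      exact this
    obtain ⟨g, g1, g2, g3, g4⟩ := lift4 n hn (fun i => lam' (m (v, π i))) hy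
    refine ⟨_, Gd.step hs hv hσ (P := fun i => i = is ∨ i = it) hP1 hl
      (g := fun i => g (π.symm i)) ?_ ?_ ?_ ?_⟩
    · intro a
      rw [card_perm]; exact g1 a
    · intro i hi
      have hi' : (m (v, π (π.symm i))).1 ≠ v := by simpa using hi
      have := g2 (π.symm i) ((hord _).1 hi')
      simpa using this
    · intro i hi
      have hi' : 2 * n ≤ (π.symm i).val := by
        by_contra h5
        exact (hord (π.symm i)).2 (by omega) (by simpa using hi)
      have := g3 (π.symm i) hi'
      simpa [hσdef] using this
    · intro a T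
      have hre : ∀ i, re (v, i) → (π.symm i).val < 4 := by
        intro i hi
        have h5 : i = is ∨ i = it ∨ i = p ∨ i = q := by
          by_contra hcon
          push Not at hcon
          have : i ∈ (((univ.filter fun i : Fin 6 => re (v, i)).erase is).erase it) := by
            simp only [mem_erase, mem_filter, mem_univ, true_and]
            exact ⟨hcon.2.1, hcon.1, hi⟩
          rw [hpqe] at this
          simp only [mem_insert, mem_singleton] at this
          rcases this with h | h
          · exact hcon.2.2.1 h
          · exact hcon.2.2.2 h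
        rcases h5 with h | h | h | h
        · rw [h, ← ps, Equiv.symm_apply_apply]; decide
        · rw [h, ← pt, Equiv.symm_apply_apply]; decide
        · rw [h, ← pp, Equiv.symm_apply_apply]; decide
        · rw [h, ← pq, Equiv.symm_apply_apply]; decide
      have key := g4 a (univ.filter fun j => π j ∈ T)
      have c1 : (T.filter fun i => re (v, i) ∧ g (π.symm i) = a).card ≤
          ((univ.filter fun j => π j ∈ T).filter fun i : Fin 6 => i.val < 4 ∧ g i = a).card := by
        refine card_le_card_of_injOn π.symm ?_ π.symm.injective.injOn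
        intro i hi
        have hi' := (mem_filter.1 hi)
        simp only [coe_filter, mem_filter, mem_univ, true_and, Set.mem_ofPred_eq,
          Equiv.apply_symm_apply]
        exact ⟨hi'.1, hre i hi'.2.1, hi'.2.2⟩
      have c2 : (T.filter fun i => re (v, i) ∧ lam' (m (v, i)) = a).card ≤
          ((univ.filter fun j => π j ∈ T).filter fun i : Fin 6 => i.val < 4 ∧
            (fun i => lam' (m (v, π i))) i = a).card := by
        refine card_le_card_of_injOn π.symm ?_ π.symm.injective.injOn
        intro i hi
        have hi' := (mem_filter.1 hi)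
        simp only [coe_filter, mem_filter, mem_univ, true_and, Set.mem_ofPred_eq,
          Equiv.apply_symm_apply]
        exact ⟨hi'.1, hre i hi'.2.1, hi'.2.2⟩
      have c3 : ((univ.filter fun j => π j ∈ T).filter fun i : Fin 6 => i.val < 2 ∧
            sw i ∈ (univ.filter fun j => π j ∈ T) ∧
            (fun i => lam' (m (v, π i))) i = a).card ≤
          (T.filter fun i => (i = is ∨ i = it) ∧ σ i ∈ T ∧ lam' (m (v, i)) = a).card := by
        refine card_le_card_of_injOn π ?_ π.injective.injOn
        intro j hj
        simp only [coe_filter, mem_filter, mem_univ, true_and, Set.mem_ofPred_eq] at hj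
        simp only [coe_filter, Set.mem_ofPred_eq]
        refine ⟨hj.1, ?_, by rw [hσπ]; exact hj.2.2.1, hj.2.2.2⟩
        have : j = 0 ∨ j = 1 := by
          have := hj.2.1
          rcases j with ⟨j, hj'⟩
          simp only at this
          interval_cases j
          · left; rfl
          · right; rfl
        rcases this with h | h
        · left; rw [h, ps]
        · right; rw [h, pt]
      refine (Nat.add_le_add c1 c2).trans (key.trans (Nat.add_le_add_left ?_ 2))
      convert c3 using 2
      ext i
      simp only [mem_filter]

omit [Fintype V] [DecidableEq V] in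
theorem ori_empty (G : SimpleGraph V) : OriOn G ∅ := by
  refine ⟨fun _ _ => False, fun _ _ => isFalse id, fun _ _ h => h.elim, fun u hu => absurd hu
    (notMem_empty _), fun _ _ h => h.elim, fun u => by simp, fun S hS h2 => ?_⟩
  rw [subset_empty.1 hS] at h2
  simp at h2

omit [Fintype V] in
/-- Here `Q` is any property of pairs (vertex set, graph) which is preserved by the deletion of a
vertex and by the replacement of a vertex by an edge between two of its neighbours. -/
theorem redO_of_closed (Q : Finset V → SimpleGraph V → Prop)
    (hdel : ∀ A H v, Q A H → v ∈ A → Q (A.erase v) H)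
    (hsup : ∀ A H v s t, Q A H → v ∈ A → s ∈ A → t ∈ A → s ≠ t → H.Adj v s → H.Adj v t →
      Q (A.erase v) (H ⊔ SimpleGraph.edge s t))
    (hch : ∀ A H, Q A H → A.Nonempty → OriOn H A ∨
      ∃ v ∈ A, cr H {v} A ≤ 4 ∧
        ¬ H.IsNClique 5 (open Classical in insert v (A.filter fun y => H.Adj v y))) :
    ∀ (n : ℕ) (A : Finset V) (G : SimpleGraph V), A.card = n → Q A G → RedO A G := by
  classical
  intro n
  induction n with
  | zero =>
    intro A G hA _
    rw [card_eq_zero.1 hA]
    exact RedO.base _ G (ori_empty G)
  | succ n ih =>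
    intro A G hA hQ
    have hne : A.Nonempty := by rw [← card_pos]; omega
    rcases hch A G hQ hne with hO | ⟨v, hv, hd, hcl⟩
    · exact RedO.base A G hO
    have hcard : (A.erase v).card = n := by rw [card_erase_of_mem hv]; omega
    by_cases h3 : cr G {v} A ≤ 3
    · exact RedO.del A G v hv h3 (ih _ _ hcard (hdel A G v hQ hv))
    · have h4 : cr G {v} A = 4 := by omega
      have h4' : (A.filter fun y => G.Adj v y).card = 4 := by
        have : cr G {v} A = (A.filter fun y => G.Adj v y).card := by
          unfold cr; rw [sum_singleton]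
        omega
      -- two neighbours which are not adjacent
      have hex : ∃ s ∈ A, ∃ t ∈ A, s ≠ t ∧ G.Adj v s ∧ G.Adj v t ∧ ¬ G.Adj s t := by
        by_contra hcon
        push Not at hcon
        refine hcl ⟨?_, ?_⟩
        · intro x hx y hy hxy
          rw [coe_insert] at hx hy
          rcases hx with rfl | hx <;> rcases hy with rfl | hy
          · exact absurd rfl hxy
          · exact (mem_filter.1 (mem_coe.1 hy)).2
          · exact ((mem_filter.1 (mem_coe.1 hx)).2).symm
          · have hx' := mem_filter.1 (mem_coe.1 hx)
            have hy' := mem_filter.1 (mem_coe.1 hy)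
            exact hcon x hx'.1 y hy'.1 hxy hx'.2 hy'.2
        · rw [card_insert_of_notMem, h4']
          simp
      obtain ⟨s, hs, t, ht, hst, as, at_, nst⟩ := hex
      exact RedO.split A G v s t hv hs ht hst as at_ nst h4
        (ih _ _ hcard (hsup A G v s t hQ hv hs ht hst as at_))

theorem exists_valid_of_redO (G : SimpleGraph V) [DecidableRel G.Adj] (hΔ : G.maxDegree ≤ 6)
    (hR : RedO univ G) :
    ∃ (P : V → Fin 3 → ℤ) (α : V → V → Fin 3), (∀ a u v, P u a = P v a → u = v) ∧
      TB.Valid G P α := by
  obtain ⟨m, re, hm⟩ := exists_Sl G hΔ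
  obtain ⟨lam, hl⟩ := mainO hR m re hm
  exact exists_valid hm hl

end Pool.Agent.TBS
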