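import Pool.Agent.TBS.Draw

/-!
# Graphs whose topological minors have a vertex of degree at most four
-/

set_option autoImplicit false

namespace Pool.Agent.TBS

open Finset

/-- If every graph obtained by deleting vertices and by replacing vertices by an edge between two of
their neighbours has a vertex of degree at most 4 and no `K_5`, the graph is reducible.  Here `Q` is
any property of pairs (vertex set, graph) which is preserved by the two operations. -/
theorem red_of_closed {V : Type} [DecidableEq V] (Q : Finset V → SimpleGraph V → Prop)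
    (hdel : ∀ A H v, Q A H → v ∈ A → Q (A.erase v) H)
    (hsup : ∀ A H v s t, Q A H → v ∈ A → s ∈ A → t ∈ A → s ≠ t → H.Adj v s → H.Adj v t →
      Q (A.erase v) (H ⊔ SimpleGraph.edge s t))
    (hdeg : ∀ A H, Q A H → A.Nonempty → ∃ v ∈ A, cr H {v} A ≤ 4)
    (hcl : ∀ A H, Q A H → ∀ K ⊆ A, ¬ H.IsNClique 5 K) :
    ∀ (n : ℕ) (A : Finset V) (G : SimpleGraph V), A.card = n → Q A G → Red A G := by
  classical
  intro n
  induction n with
  | zero =>
    intro A G hA _
    rw [card_eq_zero.1 hA]
    exact Red.empty G
  | succ n ih =>
    intro A G hA hQ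
    have hne : A.Nonempty := by rw [← card_pos]; omega
    obtain ⟨v, hv, hd⟩ := hdeg A G hQ hne
    have hcard : (A.erase v).card = n := by rw [card_erase_of_mem hv]; omega
    by_cases h3 : cr G {v} A ≤ 3
    · exact Red.del A G v hv h3 (ih _ _ hcard (hdel A G v hQ hv))
    · have h4 : cr G {v} A = 4 := by omega
      have h4' : (A.filter fun y => G.Adj v y).card = 4 := by
        have : cr G {v} A = (A.filter fun y => G.Adj v y).card := by
          unfold cr; rw [sum_singleton]
        omega
      -- two neighbours which are not adjacent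
      have hex : ∃ s ∈ A, ∃ t ∈ A, s ≠ t ∧ G.Adj v s ∧ G.Adj v t ∧ ¬ G.Adj s t := by
        by_contra hcon
        push Not at hcon
        refine hcl A G hQ (insert v (A.filter fun y => G.Adj v y)) ?_ ⟨?_, ?_⟩
        · intro x hx
          rcases mem_insert.1 hx with rfl | hx
          · exact hv
          · exact (mem_filter.1 hx).1
        · intro x hx y hy hxy
          rw [coe_insert] at hx hy
          rcases hx with rfl | hx <;> rcases hy with rfl | hy
          · exact absurd rfl hxy
          · exact (mem_filter.1 (mem_coe.1 hy)).2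
          · exact ((mem_filter.1 (mem_coe.1 hx)).2).symm
          · have hx' := mem_filter.1 (mem_coe.1 hx)
            have hy' := mem_filter.1 (mem_coe.1 hy)
            exact hcon x hx'.1 y hy'.1 hxy hx'.2 hy'.2
        · rw [card_insert_of_notMem, h4']
          simp
      obtain ⟨s, hs, t, ht, hst, as, at_, nst⟩ := hex
      exact Red.split A G v s t hv hs ht hst as at_ nst h4
        (ih _ _ hcard (hsup A G v s t hQ hv hs ht hst as at_))

theorem exists_valid_of_closed {V : Type} [Fintype V] [DecidableEq V] (G : SimpleGraph V)
    [DecidableRel G.Adj] (hΔ : G.maxDegree ≤ 6) (hR : Red univ G) :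
    ∃ (P : V → Fin 3 → ℤ) (α : V → V → Fin 3), (∀ a u v, P u a = P v a → u = v) ∧
      TB.Valid G P α := by
  obtain ⟨m, re, hm⟩ := exists_Sl G hΔ
  obtain ⟨lam, hl⟩ := main hR m re hm
  exact exists_valid hm hl

end Pool.Agent.TBS
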