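import Pool.Agent.TBS.Cl

/-!
# Case X: a neighbour `l` of `v` adjacent to two other neighbours  (MODULE X; replace the sorry)

Tools: `F_sm`, `F_insert`, `F_small`, `F_small_nonadj`, `cr_one`, `cr_two` (three pairs: estimate
`cr G {l} X` by the filter as in the proof of `F_three`), `claim1`, `claim2`, `Bad.three`,
`Bad.four`, `swap12/23/34`.

X1: `l ~ k` too.  Then it is enough to find a set `X` inside `A` with `i, j, k` in `X`, `v, l` not in
`X` and `F X <= 3`: `F (insert l X) <= F X + 5 - 6 <= 2`, against `Bad.four`.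
 * `i, j, k` pairwise adjacent: `{v, i, j, k, l}` is a `K_5`: its `twoE` is 20 (each of the five
   vertices has at least four neighbours in it), against `cls`.
 * exactly one nonadjacent pair, say `x, y`, third vertex `z`: `X = insert z S`, `S` blocking `x, y`
   (`z, l` not in `S` by claim 1): `F X <= F S + 5 - 4 <= 3`.
 * exactly one adjacent pair `y ~ z`: `X = S u T`, `S` blocking `x, y`, `T` blocking `x, z`:
   `F X <= 2` by claim 2.
 * no adjacent pair: `S` blocks `i, j`, `T` blocks `i, k`, `U` blocks `j, k`, `X = S u T`: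
   `F X = F S + F T - F (S n T) - 2 cr`.  If this is `<= 3` done.  Otherwise `F S = F T = 2`,
   `|S| = |T| = 5`, `F (S n T) <= 0` so `S n T = {i}` (`F_small`, `k` not in `S`), `cr = 0`.
   Take `X' = X u U`.  Claim `|X n U| <= 4`: if `|U| <> 5` then `F U <= 1` and `1 <= F (U u S)` gives
   `F (U n S) <= 2`, `|U n S| <= 4` (`i` not in `U`), so `U n S = {j}`, likewise `U n T = {k}`,
   so `|X n U| = 2`.  If `|U| = 5` and `|X n U| = 5` then `U` inside `X`; `U` is complete except
   `jk` (else `twoE U <= 16`; `F U <= 2` means `twoE U >= 18`); choose `a` in `U` other than `j, k`;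
   `a <> i` (claim 1), `a` adjacent to `j` and `k`; `a` in `S \\ T` gives a cross pair `(a, k)`,
   `a` in `T \\ S` a cross pair `(j, a)`, and `a` in `S n T = {i}` is impossible: `cr >= 1`,
   contradiction.  So `F (X n U) >= 5` (`F_small_nonadj`) and
   `F X' <= 4 + 2 - 5 <= 3`.
X2: `l` not `~ k`.  `U` blocks `k, l`; `i, j` not in `U` (claim 1).  It is enough to find `X` inside
 `A`, `i, j, k` in `X`, `v, l` not in `X`, `F X <= 4`: `k` in `X n U`, cross pairs `(i, l)`, `(j, l)`:
 `F (X u U) <= 4 + 2 - 0 - 4 = 2`, against `Bad.four`.  `X`: all adjacent: `X = {i, j, k}`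
 (`F = 10 - 6`); exactly one nonadjacent pair: `insert` as in X1 (`<= 3`); at most one adjacent pair:
 `X = S u T` for two blocking sets with a common vertex (`<= 2 + 2 - 0`).
-/

set_option autoImplicit false

namespace Pool.Agent.TBS

open Finset

variable {V : Type} [DecidableEq V] {G : SimpleGraph V}

/-- The adjacent pairs from one vertex. -/
theorem cr_from {X Y : Finset V} {l : V} (hY : Y ⊆ X) (h : ∀ y ∈ Y, G.Adj l y) :
    Y.card ≤ cr G {l} X := by
  classical
  unfold cr
  rw [sum_singleton]
  refine card_le_card fun y hy => ?_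
  exact mem_filter.2 ⟨hY hy, h y hy⟩

theorem cr_from_one {X : Finset V} {l i : V} (hi : i ∈ X) (a : G.Adj l i) : 1 ≤ cr G {l} X := by
  have h := cr_from (G := G) (X := X) (Y := {i}) (l := l) (by simpa using hi)
    (by intro y hy; rw [mem_singleton.1 hy]; exact a)
  simpa using h

theorem cr_from_two {X : Finset V} {l i j : V} (hi : i ∈ X) (hj : j ∈ X) (ij : i ≠ j)
    (a : G.Adj l i) (b : G.Adj l j) : 2 ≤ cr G {l} X := by
  have h := cr_from (G := G) (X := X) (Y := {i, j}) (l := l)
    (by intro y hy; simp only [mem_insert, mem_singleton] at hy; rcases hy with rfl | rfl <;> assumption)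
    (by intro y hy; simp only [mem_insert, mem_singleton] at hy; rcases hy with rfl | rfl <;> assumption)
  rwa [card_pair ij] at h

theorem cr_from_three {X : Finset V} {l i j k : V} (hi : i ∈ X) (hj : j ∈ X) (hk : k ∈ X)
    (ij : i ≠ j) (ik : i ≠ k) (jk : j ≠ k) (a : G.Adj l i) (b : G.Adj l j) (c : G.Adj l k) :
    3 ≤ cr G {l} X := by
  have h := cr_from (G := G) (X := X) (Y := {i, j, k}) (l := l)
    (by intro y hy; simp only [mem_insert, mem_singleton] at hy
        rcases hy with rfl | rfl | rfl <;> assumption)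
    (by intro y hy; simp only [mem_insert, mem_singleton] at hy
        rcases hy with rfl | rfl | rfl <;> assumption)
  rwa [card_eq_three.2 ⟨i, j, k, ij, ik, jk, rfl⟩] at h

theorem cr_from_four {X : Finset V} {v i j k l : V} (hi : i ∈ X) (hj : j ∈ X) (hk : k ∈ X)
    (hl : l ∈ X) (ij : i ≠ j) (ik : i ≠ k) (il : i ≠ l) (jk : j ≠ k) (jl : j ≠ l) (kl : k ≠ l)
    (a : G.Adj v i) (b : G.Adj v j) (c : G.Adj v k) (d : G.Adj v l) : 4 ≤ cr G {v} X := by
  have h := cr_from (G := G) (X := X) (Y := {i, j, k, l}) (l := v)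
    (by intro y hy; simp only [mem_insert, mem_singleton] at hy
        rcases hy with rfl | rfl | rfl | rfl <;> assumption)
    (by intro y hy; simp only [mem_insert, mem_singleton] at hy
        rcases hy with rfl | rfl | rfl | rfl <;> assumption)
  rwa [card_insert_of_notMem (by simp [ij, ik, il]), card_eq_three.2 ⟨j, k, l, jk, jl, kl, rfl⟩] at h

theorem F_singleton (x : V) : F G {x} = 0 := by
  classical
  simp [F, twoE, cr, filter_singleton]

/-- Three pairwise adjacent vertices. -/
theorem F_tri {i j k : V} (ij : G.Adj i j) (ik : G.Adj i k) (jk : G.Adj j k) :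
    F G {i, j, k} ≤ 4 := by
  have h1 : F G {j, k} ≤ 3 := by
    have h := F_insert G (S := {k}) (x := j) (by simpa using jk.ne)
    have h2 := cr_from_one (G := G) (X := {k}) (l := j) (i := k) (by simp) jk
    rw [F_singleton] at h
    have e : insert j ({k} : Finset V) = {j, k} := rfl
    rw [e] at h
    omega
  have h := F_insert G (S := {j, k}) (x := i) (by simp [ij.ne, ik.ne])
  have h2 := cr_from_two (G := G) (X := {j, k}) (l := i) (i := j) (j := k) (by simp) (by simp)
    jk.ne ij ik
  have e : insert i ({j, k} : Finset V) = {i, j, k} := rfl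
  rw [e] at h
  omega

/-- There is a set in `A` without `v`, `l`, with `i`, `j`, `k`, and with `F <= n`. -/
def GX (G : SimpleGraph V) (A : Finset V) (v l i j k : V) (n : ℤ) : Prop :=
  ∃ X, X ⊆ A ∧ v ∉ X ∧ l ∉ X ∧ i ∈ X ∧ j ∈ X ∧ k ∈ X ∧ F G X ≤ n

theorem GX.s12 {A : Finset V} {v l i j k : V} {n : ℤ} (h : GX G A v l i j k n) :
    GX G A v l j i k n := by
  obtain ⟨X, h1, h2, h3, h4, h5, h6, h7⟩ := h
  exact ⟨X, h1, h2, h3, h5, h4, h6, h7⟩

theorem GX.s23 {A : Finset V} {v l i j k : V} {n : ℤ} (h : GX G A v l i j k n) :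
    GX G A v l i k j n := by
  obtain ⟨X, h1, h2, h3, h4, h5, h6, h7⟩ := h
  exact ⟨X, h1, h2, h3, h4, h6, h5, h7⟩

theorem GX.mono {A : Finset V} {v l i j k : V} {n m : ℤ} (h : GX G A v l i j k n) (hn : n ≤ m) :
    GX G A v l i j k m := by
  obtain ⟨X, h1, h2, h3, h4, h5, h6, h7⟩ := h
  exact ⟨X, h1, h2, h3, h4, h5, h6, h7.trans hn⟩

/-- Exactly one nonadjacent pair. -/
theorem gd_one {A : Finset V} {v i j k l : V} (h : Bad G A v i j k l) (n : ¬ G.Adj i j)
    (aik : G.Adj i k) (ajk : G.Adj j k) : GX G A v l i j k 3 := by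
  obtain ⟨S, hS⟩ := h.bij n
  have hk := claim1 h hS
  have hl := claim1 h.swap34 hS
  obtain ⟨s1, s2, s3, s4, s5, _⟩ := hS
  refine ⟨insert k S, ?_, ?_, ?_, mem_insert_of_mem s3, mem_insert_of_mem s4, mem_insert_self _ _,
    ?_⟩
  · intro x hx
    rcases mem_insert.1 hx with rfl | hx
    · exact h.hk
    · exact s1 hx
  · rw [mem_insert, not_or]
    exact ⟨h.ak.ne, s2⟩
  · rw [mem_insert, not_or]
    exact ⟨h.kl.symm, hl⟩
  · have h1 := F_insert G hk
    have h2 := cr_from_two (G := G) s3 s4 h.ij aik.symm ajk.symm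
    omega

/-- Two nonadjacent pairs with a common vertex. -/
theorem gd_two {A : Finset V} {v i j k l : V} (h : Bad G A v i j k l) (nij : ¬ G.Adj i j)
    (nik : ¬ G.Adj i k) : GX G A v l i j k 4 := by
  obtain ⟨S, hS⟩ := h.bij nij
  obtain ⟨T, hT⟩ := h.bik nik
  have hl := claim1 h.swap34 hS
  have hl' := claim1 h.swap23.swap34 hT
  obtain ⟨s1, s2, s3, s4, s5, _⟩ := hS
  obtain ⟨t1, t2, t3, t4, t5, _⟩ := hT
  refine ⟨S ∪ T, union_subset s1 t1, ?_, ?_, mem_union_left _ s3, mem_union_left _ s4,
    mem_union_right _ t4, ?_⟩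
  · rw [mem_union, not_or]; exact ⟨s2, t2⟩
  · rw [mem_union, not_or]; exact ⟨hl, hl'⟩
  · have h1 := F_sm G S T
    have h2 := F_nonneg G h.cls (S := S ∩ T) (inter_subset_left.trans s1) ⟨i, mem_inter.2 ⟨s3, t3⟩⟩
    omega

/-- Exactly one adjacent pair. -/
theorem gd_two' {A : Finset V} {v i j k l : V} (h : Bad G A v i j k l) (nij : ¬ G.Adj i j)
    (nik : ¬ G.Adj i k) (ajk : G.Adj j k) : GX G A v l i j k 3 := by
  obtain ⟨S, hS⟩ := h.bij nij
  obtain ⟨T, hT⟩ := h.bik nik
  have hl := claim1 h.swap34 hS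
  have hl' := claim1 h.swap23.swap34 hT
  have h2 := (claim2 h ajk hS hT).2.2
  obtain ⟨s1, s2, s3, s4, s5, _⟩ := hS
  obtain ⟨t1, t2, t3, t4, t5, _⟩ := hT
  refine ⟨S ∪ T, union_subset s1 t1, ?_, ?_, mem_union_left _ s3, mem_union_left _ s4,
    mem_union_right _ t4, ?_⟩
  · rw [mem_union, not_or]; exact ⟨s2, t2⟩
  · rw [mem_union, not_or]; exact ⟨hl, hl'⟩
  · omega

/-- A set of five vertices with `F <= 2` and a nonadjacent pair: the others are adjacent to
all. -/
theorem adj_five {U : Finset V} {j k a : V} (c : U.card = 5) (hF : F G U ≤ 2) (hj : j ∈ U)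
    (hk : k ∈ U) (jk : j ≠ k) (n : ¬ G.Adj j k) (ha : a ∈ U) (aj : a ≠ j) (ak : a ≠ k) :
    G.Adj a j ∧ G.Adj a k := by
  classical
  have hj' : j ∈ U.erase a := mem_erase.2 ⟨aj.symm, hj⟩
  have hk' : k ∈ U.erase a := mem_erase.2 ⟨ak.symm, hk⟩
  have hc : (U.erase a).card = 4 := by rw [card_erase_of_mem ha, c]
  have h1 := F_small_nonadj G hj' hk' jk n (by omega)
  have h2 := F_insert G (S := U.erase a) (x := a) (by simp)
  rw [insert_erase ha] at h2
  have h3 : cr G {a} (U.erase a) = ((U.erase a).filter fun y => G.Adj a y).card := by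
    unfold cr
    rw [sum_singleton]
  have h4 : ((U.erase a).filter fun y => G.Adj a y) = U.erase a := by
    apply eq_of_subset_of_card_le (filter_subset _ _)
    omega
  rw [← h4] at hj' hk'
  exact ⟨(mem_filter.1 hj').2, (mem_filter.1 hk').2⟩

/-- No adjacent pair. -/
theorem gd_three {A : Finset V} {v i j k l : V} (h : Bad G A v i j k l) (nij : ¬ G.Adj i j)
    (nik : ¬ G.Adj i k) (njk : ¬ G.Adj j k) : GX G A v l i j k 3 := by
  obtain ⟨S, hS⟩ := h.bij nij
  obtain ⟨T, hT⟩ := h.bik nik
  obtain ⟨U, hU⟩ := h.bjk njk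
  have hl := claim1 h.swap34 hS
  have hl' := claim1 h.swap23.swap34 hT
  have hl'' := claim1 h.swap12.swap23.swap34 hU
  have kS := claim1 h hS
  have jT := claim1 h.swap23 hT
  have iU := claim1 h.swap12.swap23 hU
  obtain ⟨s1, s2, s3, s4, s5, s6⟩ := hS
  obtain ⟨t1, t2, t3, t4, t5, t6⟩ := hT
  obtain ⟨u1, u2, u3, u4, u5, u6⟩ := hU
  have e1 := F_sm G S T
  have n1 := F_nonneg G h.cls (S := S ∩ T) (inter_subset_left.trans s1) ⟨i, mem_inter.2 ⟨s3, t3⟩⟩
  have vX : v ∉ S ∪ T := by rw [mem_union, not_or]; exact ⟨s2, t2⟩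
  have lX : l ∉ S ∪ T := by rw [mem_union, not_or]; exact ⟨hl, hl'⟩
  by_cases hX : F G (S ∪ T) ≤ 3
  · exact ⟨S ∪ T, union_subset s1 t1, vX, lX, mem_union_left _ s3, mem_union_left _ s4,
      mem_union_right _ t4, hX⟩
  have FS : F G S = 2 := by omega
  have FT : F G T = 2 := by omega
  have F0 : F G (S ∩ T) = 0 := by omega
  have cr0 : cr G (S \ T) (T \ S) = 0 := by omega
  have cS : S.card = 5 := by omega
  have cT : T.card = 5 := by omega
  have cST : (S ∩ T).card ≤ 4 := by
    have : S ∩ T ⊆ S.erase j := by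
      intro x hx
      rw [mem_inter] at hx
      refine mem_erase.2 ⟨?_, hx.1⟩
      rintro rfl
      exact jT hx.2
    have := card_le_card this
    rw [card_erase_of_mem s4] at this
    omega
  have c1 : (S ∩ T).card = 1 := by
    have p : 0 < (S ∩ T).card := card_pos.2 ⟨i, mem_inter.2 ⟨s3, t3⟩⟩
    by_contra hne
    have := F_small G (S := S ∩ T) (by omega) cST
    omega
  have eST : S ∩ T = {i} := by
    obtain ⟨x, hx⟩ := card_eq_one.1 c1
    have : i ∈ S ∩ T := mem_inter.2 ⟨s3, t3⟩
    rw [hx, mem_singleton] at this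
    rw [hx, this]
  have jk2 : 2 ≤ ((S ∪ T) ∩ U).card := by
    have : ({j, k} : Finset V) ⊆ (S ∪ T) ∩ U := by
      intro x hx
      simp only [mem_insert, mem_singleton] at hx
      rcases hx with rfl | rfl
      · exact mem_inter.2 ⟨mem_union_left _ s4, u3⟩
      · exact mem_inter.2 ⟨mem_union_right _ t4, u4⟩
    have := card_le_card this
    rwa [card_pair h.jk] at this
  have c4 : ((S ∪ T) ∩ U).card ≤ 4 := by
    by_cases cU : U.card = 5
    · by_contra hc
      have hsub : (S ∪ T) ∩ U = U := by
        apply eq_of_subset_of_card_le inter_subset_right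
        omega
      have hsub' : U ⊆ S ∪ T := by
        rw [← hsub]; exact inter_subset_left
      obtain ⟨a, ha, haj, hak⟩ : ∃ a ∈ U, a ≠ j ∧ a ≠ k := by
        by_contra hno
        push Not at hno
        have : U ⊆ {j, k} := by
          intro x hx
          simp only [mem_insert, mem_singleton]
          by_cases hxj : x = j
          · exact Or.inl hxj
          · exact Or.inr (hno x hx hxj)
        have := card_le_card this
        rw [card_pair h.jk] at this
        omega
      obtain ⟨aj, ak⟩ := adj_five cU u5 u3 u4 h.jk njk ha haj hak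
      have hai : a ≠ i := by rintro rfl; exact iU ha
      have haX := hsub' ha
      by_cases haS : a ∈ S
      · by_cases haT : a ∈ T
        · have : a ∈ S ∩ T := mem_inter.2 ⟨haS, haT⟩
          rw [eST, mem_singleton] at this
          exact hai this
        · have := cr_one G (S := S \ T) (T := T \ S) (x := a) (y := k)
            (mem_sdiff.2 ⟨haS, haT⟩) (mem_sdiff.2 ⟨t4, kS⟩) ak
          omega
      · have haT : a ∈ T := by
          rcases mem_union.1 haX with h' | h'
          · exact absurd h' haS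
          · exact h'
        have := cr_one G (S := S \ T) (T := T \ S) (x := j) (y := a)
            (mem_sdiff.2 ⟨s4, jT⟩) (mem_sdiff.2 ⟨haT, haS⟩) aj.symm
        omega
    · have FU : F G U ≤ 1 := by
        rcases u6 with h' | h'
        · exact h'
        · exact absurd h' cU
      have k1 : (S ∩ U).card ≤ 1 := by
        have q1 := F_sm G S U
        have q2 := h.three (S := S ∪ U) (union_subset s1 u1)
          (by rw [mem_union, not_or]; exact ⟨s2, u2⟩) (mem_union_left _ s3) (mem_union_left _ s4)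
          (mem_union_right _ u4)
        have q3 : (S ∩ U).card ≤ 4 := by
          have : S ∩ U ⊆ S.erase i := by
            intro x hx
            rw [mem_inter] at hx
            refine mem_erase.2 ⟨?_, hx.1⟩
            rintro rfl
            exact iU hx.2
          have := card_le_card this
          rw [card_erase_of_mem s3] at this
          omega
        by_contra hne
        have := F_small G (S := S ∩ U) (by omega) q3
        omega
      have k2 : (T ∩ U).card ≤ 1 := by
        have q1 := F_sm G T U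
        have q2 := h.three (S := T ∪ U) (union_subset t1 u1)
          (by rw [mem_union, not_or]; exact ⟨t2, u2⟩) (mem_union_left _ t3) (mem_union_right _ u3)
          (mem_union_left _ t4)
        have q3 : (T ∩ U).card ≤ 4 := by
          have : T ∩ U ⊆ T.erase i := by
            intro x hx
            rw [mem_inter] at hx
            refine mem_erase.2 ⟨?_, hx.1⟩
            rintro rfl
            exact iU hx.2
          have := card_le_card this
          rw [card_erase_of_mem t3] at this
          omega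
        by_contra hne
        have := F_small G (S := T ∩ U) (by omega) q3
        omega
      have : (S ∪ T) ∩ U = (S ∩ U) ∪ (T ∩ U) := union_inter_distrib_right S T U
      rw [this]
      have := card_union_le (S ∩ U) (T ∩ U)
      omega
  have f3 := F_small G jk2 c4
  have e2 := F_sm G (S ∪ T) U
  refine ⟨(S ∪ T) ∪ U, union_subset (union_subset s1 t1) u1, ?_, ?_,
    mem_union_left _ (mem_union_left _ s3), mem_union_left _ (mem_union_left _ s4),
    mem_union_left _ (mem_union_right _ t4), ?_⟩
  · rw [mem_union, not_or]; exact ⟨vX, u2⟩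
  · rw [mem_union, not_or]; exact ⟨lX, hl''⟩
  · omega

/-- End of the case `l ~ i, j, k`. -/
theorem x1_end {A : Finset V} {v i j k l : V} (h : Bad G A v i j k l) (a : G.Adj l i)
    (b : G.Adj l j) (c : G.Adj l k) (g : GX G A v l i j k 3) : False := by
  obtain ⟨X, h1, h2, h3, h4, h5, h6, h7⟩ := g
  have e1 := F_insert G h3
  have e2 := cr_from_three (G := G) h4 h5 h6 h.ij h.ik h.jk a b c
  have e3 := h.four (S := insert l X)
    (by intro x hx
        rcases mem_insert.1 hx with rfl | hx
        · exact h.hl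
        · exact h1 hx)
    (by rw [mem_insert, not_or]; exact ⟨h.al.ne, h2⟩) (mem_insert_of_mem h4) (mem_insert_of_mem h5)
    (mem_insert_of_mem h6) (mem_insert_self _ _)
  omega

/-- End of the case `l ~ i, j` and `l` not `~ k`. -/
theorem x2_end {A : Finset V} {v i j k l : V} (h : Bad G A v i j k l) (a : G.Adj l i)
    (b : G.Adj l j) (c : ¬ G.Adj k l) (g : GX G A v l i j k 4) : False := by
  obtain ⟨X, h1, h2, h3, h4, h5, h6, h7⟩ := g
  obtain ⟨U, hU⟩ := h.bkl c
  have h' : Bad G A v k l i j := h.swap23.swap12.swap34.swap23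
  have iU := claim1 h' hU
  have jU := claim1 h'.swap34 hU
  obtain ⟨u1, u2, u3, u4, u5, u6⟩ := hU
  have e1 := F_sm G X U
  have e2 := cr_two G (S := X \ U) (T := U \ X) (x := i) (y := l) (x' := j) (y' := l)
    (mem_sdiff.2 ⟨h4, iU⟩) (mem_sdiff.2 ⟨u4, h3⟩) a.symm (mem_sdiff.2 ⟨h5, jU⟩)
    (mem_sdiff.2 ⟨u4, h3⟩) b.symm (Or.inl h.ij)
  have e3 := F_nonneg G h.cls (S := X ∩ U) (inter_subset_left.trans h1) ⟨k, mem_inter.2 ⟨h6, u3⟩⟩
  have e4 := h.four (S := X ∪ U) (union_subset h1 u1)
    (by rw [mem_union, not_or]; exact ⟨h2, u2⟩) (mem_union_left _ h4) (mem_union_left _ h5)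
    (mem_union_left _ h6) (mem_union_right _ u4)
  omega

/-- A `K_5` is impossible. -/
theorem no_five {A : Finset V} {v i j k l : V} (h : Bad G A v i j k l) (a : G.Adj l i)
    (b : G.Adj l j) (c : G.Adj l k) (aij : G.Adj i j) (aik : G.Adj i k) (ajk : G.Adj j k) :
    False := by
  have e1 := F_tri aij aik ajk
  have lX : l ∉ ({i, j, k} : Finset V) := by
    simp only [mem_insert, mem_singleton, not_or]
    exact ⟨h.il.symm, h.jl.symm, h.kl.symm⟩
  have e2 := F_insert G lX
  have e3 := cr_from_three (G := G) (X := {i, j, k}) (l := l) (i := i) (j := j) (k := k)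
    (by simp) (by simp) (by simp) h.ij h.ik h.jk a b c
  have vX : v ∉ (insert l {i, j, k} : Finset V) := by
    simp only [mem_insert, mem_singleton, not_or]
    exact ⟨h.al.ne, h.ai.ne, h.aj.ne, h.ak.ne⟩
  have e4 := F_insert G vX
  have e5 := cr_from_four (G := G) (X := insert l {i, j, k}) (v := v) (i := i) (j := j) (k := k)
    (l := l) (by simp) (by simp) (by simp) (by simp) h.ij h.ik h.il h.jk h.jl h.kl h.ai h.aj h.ak
    h.al
  have e6 : (insert v (insert l {i, j, k}) : Finset V).card = 5 := by
    rw [card_insert_of_notMem vX, card_insert_of_notMem lX,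
      card_eq_three.2 ⟨i, j, k, h.ij, h.ik, h.jk, rfl⟩]
  have e7 := (h.cls (insert v (insert l {i, j, k})) (by
    intro x hx
    simp only [mem_insert, mem_singleton] at hx
    rcases hx with rfl | rfl | rfl | rfl | rfl
    · exact h.hv
    · exact h.hl
    · exact h.hi
    · exact h.hj
    · exact h.hk) ⟨v, mem_insert_self _ _⟩).2 e6
  have e8 : F G (insert v (insert l {i, j, k})) ≤ 0 := by omega
  unfold F at e8
  rw [e6] at e8
  push_cast at e8
  omega

theorem caseX {A : Finset V} {v i j k l : V} (h : Bad G A v i j k l) (a : G.Adj l i)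
    (b : G.Adj l j) : False := by
  have g : GX G A v l i j k 3 ∨ (G.Adj i j ∧ G.Adj i k ∧ G.Adj j k) := by
    by_cases n1 : G.Adj i j
    · by_cases n2 : G.Adj i k
      · by_cases n3 : G.Adj j k
        · exact Or.inr ⟨n1, n2, n3⟩
        · exact Or.inl (gd_one h.swap12.swap23 n3 n1.symm n2.symm).s23.s12
      · by_cases n3 : G.Adj j k
        · exact Or.inl (gd_one h.swap23 n2 n1 n3.symm).s23
        · exact Or.inl (gd_two' h.swap23.swap12 (fun q => n2 q.symm) (fun q => n3 q.symm) n1).s12.s23
    · by_cases n2 : G.Adj i k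
      · by_cases n3 : G.Adj j k
        · exact Or.inl (gd_one h n1 n2 n3)
        · exact Or.inl (gd_two' h.swap12 (fun q => n1 q.symm) n3 n2).s12
      · by_cases n3 : G.Adj j k
        · exact Or.inl (gd_two' h n1 n2 n3)
        · exact Or.inl (gd_three h n1 n2 n3)
  by_cases c : G.Adj k l
  · rcases g with g | ⟨g1, g2, g3⟩
    · exact x1_end h a b c.symm g
    · exact no_five h a b c.symm g1 g2 g3
  · rcases g with g | ⟨g1, g2, g3⟩
    · exact x2_end h a b c (g.mono (by norm_num))
    · refine x2_end h a b c ⟨{i, j, k}, ?_, ?_, ?_, by simp, by simp, by simp, F_tri g1 g2 g3⟩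
      · intro x hx
        simp only [mem_insert, mem_singleton] at hx
        rcases hx with rfl | rfl | rfl
        · exact h.hi
        · exact h.hj
        · exact h.hk
      · simp only [mem_insert, mem_singleton, not_or]
        exact ⟨h.ai.ne, h.aj.ne, h.ak.ne⟩
      · simp only [mem_insert, mem_singleton, not_or]
        exact ⟨h.il.symm, h.jl.symm, h.kl.symm⟩

end Pool.Agent.TBS
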